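import Pool.Agent.H327R4.Pure.Stubs2

/-!
# The rank of a diagonal matrix
-/

set_option autoImplicit false
set_option linter.unusedSectionVars false

namespace Pool.Agent.H327R4.Pure

open Filter Topology

universe u v

theorem map_rt_aux {B : Type u} {C : Type v} [NonUnitalCStarAlgebra B] [NonUnitalCStarAlgebra C]
    (φ : B →⋆ₙₐ[ℂ] C) (hcont : Continuous φ) (k : ℕ) (a : B) (ha : IsSelfAdjoint a) :
    φ (rt k a) = rt k (φ a) := by
  have hk : (0 : ℝ) < 1 / ((k : ℝ) + 1) := by positivity
  have hc : Continuous (fun x : ℝ => x ^ (1 / ((k : ℝ) + 1))) :=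
    Real.continuous_rpow_const hk.le
  have h0 : (0 : ℝ) ^ (1 / ((k : ℝ) + 1)) = 0 := Real.zero_rpow hk.ne'
  exact NonUnitalStarAlgHomClass.map_cfcₙ (S := ℂ) φ _ a hc.continuousOn h0 hcont ha (ha.map φ)

section

variable {A : Type u} [CStarAlgebra A] [PartialOrder A] [StarOrderedRing A]

theorem dg_apply {K : ℕ} (a : Fin K → A) (i j : Fin K) : dg a i j = if i = j then a i else 0 := by
  rfl

/-- the diagonal homomorphism -/
noncomputable def dgHom (A : Type u) [CStarAlgebra A] [PartialOrder A] [StarOrderedRing A]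
    (K : ℕ) : (Fin K → A) →⋆ₙₐ[ℂ] MM K A where
  toFun a := dg a
  map_smul' c a := by
    ext i j
    simp only [CStarMatrix.smul_apply, dg_apply, Pi.smul_apply, MonoidHom.id_apply, smul_ite,
      smul_zero]
  map_zero' := by
    ext i j
    simp [dg_apply]
  map_add' a b := by
    ext i j
    simp only [CStarMatrix.add_apply, dg_apply, Pi.add_apply]
    split_ifs <;> simp
  map_mul' a b := by
    ext i j
    rw [CStarMatrix.mul_apply]
    simp only [dg_apply, Pi.mul_apply]
    rw [Finset.sum_eq_single i]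
    · by_cases h : i = j
      · simp [h]
      · simp [h]
    · intro k _ hk
      simp [Ne.symm hk]
    · simp
  map_star' a := by
    ext i j
    simp only [CStarMatrix.star_apply, dg_apply, Pi.star_apply]
    by_cases h : i = j
    · simp [h]
    · simp [h, Ne.symm h]

theorem dgHom_apply {K : ℕ} (a : Fin K → A) : dgHom A K a = dg a := rfl

end

theorem diag_holds (hrk : StRK.{u}) : StDIAG.{u} := by
  intro A _ _ _ K a ha
  have hpos : 0 ≤ dg a := by
    have hb : ∀ j, ∃ b : A, a j = star b * b := fun j =>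
      CStarAlgebra.nonneg_iff_eq_star_mul_self.mp (ha j)
    choose b hb using hb
    have h1 : dg a = star (dg b) * dg b := by
      rw [← dgHom_apply, ← dgHom_apply, ← map_star, ← map_mul]
      congr 1
      funext j
      exact hb j
    rw [h1]
    exact star_mul_self_nonneg _
  refine ⟨hpos, fun T => ?_⟩
  have hrt : ∀ k : ℕ, rt k (dg a) = dg (fun j => rt k (a j)) := by
    intro k
    have hsa : IsSelfAdjoint a := by
      funext j
      exact IsSelfAdjoint.of_nonneg (ha j)
    have e2 : rt k a = fun j => rt k (a j) := by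
      funext j
      exact map_rt_aux (Pi.evalNonUnitalStarAlgHom ℂ (fun _ : Fin K => A) j)
        (continuous_apply j) k a hsa
    rw [← e2, ← dgHom_apply, ← dgHom_apply]
    exact (map_rt_aux (dgHom A K) (map_continuous (dgHom A K)) k a hsa).symm
  have h1 : Tendsto (fun k : ℕ => ((trM T (Fin K)).f (rt k (dg a))).re) atTop
      (𝓝 (rk (trM T (Fin K)) (dg a))) := (hrk (MM K A) (trM T (Fin K)) (dg a) hpos).2.2.1
  have h2 : Tendsto (fun k : ℕ => ∑ j, (T.f (rt k (a j))).re) atTop (𝓝 (∑ j, rk T (a j))) :=
    tendsto_finsetSum _ fun j _ => (hrk A T (a j) (ha j)).2.2.1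
  refine tendsto_nhds_unique h1 ?_
  have e : (fun k : ℕ => ((trM T (Fin K)).f (rt k (dg a))).re) =
      fun k : ℕ => ∑ j, (T.f (rt k (a j))).re := by
    funext k
    rw [hrt k, trM_apply, Complex.re_sum]
    apply Finset.sum_congr rfl
    intro j _
    rw [dg_apply, if_pos rfl]
  rw [e]
  exact h2

end Pool.Agent.H327R4.Pure
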