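import Pool.Agent.H327R4.Pure.Stubs1

/-! CT: basic facts on `cut` and `phi`. -/

set_option autoImplicit false

namespace Pool.Agent.H327R4.Pure

open Filter Topology

universe u

section

variable {B : Type u} [NonUnitalCStarAlgebra B]

theorem ct_cont (ε : ℝ) : Continuous (fun x : ℝ => max (x - ε) 0) := by fun_prop

theorem ct_zero {ε : ℝ} (hε : 0 ≤ ε) : (fun x : ℝ => max (x - ε) 0) 0 = 0 := by
  simp [hε]

variable [PartialOrder B] [StarOrderedRing B]

theorem ct_spec {a : B} (ha : 0 ≤ a) {x : ℝ} (hx : x ∈ quasispectrum ℝ a) : 0 ≤ x :=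
  quasispectrum_nonneg_of_nonneg a ha x hx

theorem ct_cut_zero {a : B} (ha : 0 ≤ a) : cut 0 a = a := by
  have hsa : IsSelfAdjoint a := IsSelfAdjoint.of_nonneg ha
  unfold cut
  conv_rhs => rw [← cfcₙ_id ℝ a]
  apply cfcₙ_congr
  intro x hx
  have := ct_spec ha hx
  simp [this]

theorem ct_mul {a b : B} (ha : 0 ≤ a) {ε : ℝ} (hε : 0 ≤ ε) (hcut : cut ε a ≤ a)
    (hab : a * b = 0) : cut ε a * b = 0 := by
  have hsa : IsSelfAdjoint a := IsSelfAdjoint.of_nonneg ha
  have hc : Continuous (fun x : ℝ => √(max (x - ε) 0)) := by fun_prop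
  have h0 : (fun x : ℝ => √(max (x - ε) 0)) 0 = 0 := by simp [hε]
  set s : B := cfcₙ (fun x : ℝ => √(max (x - ε) 0)) a with hs
  have hss : s * s = cut ε a := by
    rw [hs, ← cfcₙ_mul _ _ a hc.continuousOn h0 hc.continuousOn h0]
    unfold cut
    apply cfcₙ_congr
    intro x _
    exact Real.mul_self_sqrt (le_max_right _ _)
  have hsadj : star s = s := by
    have : IsSelfAdjoint s := cfcₙ_predicate _ a
    exact this.star_eq
  have h1 : star b * cut ε a * b ≤ star b * a * b := star_left_conjugate_le_conjugate hcut b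
  have h2 : star b * a * b = 0 := by rw [mul_assoc, hab, mul_zero]
  have h3 : star (s * b) * (s * b) = star b * cut ε a * b := by
    rw [star_mul, hsadj, ← hss]
    simp only [mul_assoc]
  have h4 : star (s * b) * (s * b) = 0 := by
    apply le_antisymm
    · rw [h3]
      exact h1.trans h2.le
    · exact star_mul_self_nonneg _
  have h5 : s * b = 0 := CStarRing.star_mul_self_eq_zero_iff _ |>.1 h4
  rw [← hss, mul_assoc, h5, mul_zero]

end

theorem ct_holds : StCT.{u} := by
  intro B _ _ _ a ha
  have hsa : IsSelfAdjoint a := IsSelfAdjoint.of_nonneg ha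
  have hcut0 : ∀ ε : ℝ, 0 ≤ cut ε a := by
    intro ε
    apply cfcₙ_nonneg
    intro x _
    exact le_max_right _ _
  have hcutle : ∀ ε : ℝ, 0 ≤ ε → cut ε a ≤ a := by
    intro ε hε
    conv_rhs => rw [← cfcₙ_id ℝ a]
    apply cfcₙ_mono
    · intro x hx
      have := ct_spec ha hx
      simp only [id]
      apply max_le
      · linarith
      · exact this
    · exact (ct_cont ε).continuousOn
    · exact continuousOn_id
    · exact ct_zero hε
    · rfl
  have hphi : ∀ δ : ℝ, 0 < δ → Continuous (fun x : ℝ => min 1 (x / δ)) := by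
    intro δ _
    fun_prop
  have hphi0 : ∀ δ : ℝ, 0 < δ → (fun x : ℝ => min 1 (x / δ)) 0 = 0 := by
    intro δ _
    simp
  refine ⟨hcut0, hcutle, ?_, ?_, ct_cut_zero ha, ?_, ?_, ?_, ?_⟩
  · intro ε ε' hε hεε
    apply cfcₙ_mono
    · intro x _
      exact max_le_max (by linarith) le_rfl
    · exact (ct_cont ε').continuousOn
    · exact (ct_cont ε).continuousOn
    · exact ct_zero (hε.trans hεε)
    · exact ct_zero hε
  · intro ε η hε hη
    unfold cut
    rw [← cfcₙ_comp' (fun x : ℝ => max (x - ε) 0) (fun x : ℝ => max (x - η) 0) a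
      (ct_cont ε).continuousOn (ct_zero hε) (ct_cont η).continuousOn (ct_zero hη) hsa]
    apply cfcₙ_congr
    intro x _
    show max (max (x - η) 0 - ε) 0 = max (x - (ε + η)) 0
    rcases le_total (x - η) 0 with h | h
    · rw [max_eq_right h, max_eq_right (by linarith), max_eq_right (by linarith)]
    · rw [max_eq_left h]
      congr 1
      ring
  · intro ε hε
    have e : a - cut ε a = cfcₙ (fun x : ℝ => x - max (x - ε) 0) a := by
      rw [cfcₙ_sub (fun x : ℝ => x) (fun x : ℝ => max (x - ε) 0) a continuousOn_id rfl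
        (ct_cont ε).continuousOn (ct_zero hε), cfcₙ_id' ℝ a]
      rfl
    rw [e]
    apply norm_cfcₙ_le
    intro x hx
    have h0 := ct_spec ha hx
    rw [Real.norm_eq_abs, abs_le]
    rcases le_total (x - ε) 0 with h | h
    · rw [max_eq_right h]
      constructor <;> linarith
    · rw [max_eq_left h]
      constructor <;> linarith
  · intro ε hε hle
    unfold cut
    rw [← cfcₙ_const_zero ℝ a]
    apply cfcₙ_congr
    intro x hx
    have h1 : ‖x‖ ≤ ‖a‖ :=
      NonUnitalIsometricContinuousFunctionalCalculus.norm_quasispectrum_le a hx hsa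
    have h2 : x ≤ ε := (le_abs_self x).trans (h1.trans hle)
    show max (x - ε) 0 = 0
    exact max_eq_right (by linarith)
  · intro δ hδ
    refine ⟨?_, ?_, ?_⟩
    · apply cfcₙ_nonneg
      intro x hx
      have := ct_spec ha hx
      exact le_min zero_le_one (by positivity)
    · apply norm_cfcₙ_le
      intro x hx
      have h0 := ct_spec ha hx
      have h1 : 0 ≤ min 1 (x / δ) := le_min zero_le_one (by positivity)
      rw [Real.norm_eq_abs, abs_of_nonneg h1]
      exact min_le_left _ _
    · intro hne h0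
      apply hne
      unfold phi at h0
      rw [← cfcₙ_const_zero ℝ a] at h0
      have h1 := (cfcₙ_eq_cfcₙ_iff_eqOn (ha := hsa) (hf := (hphi δ hδ).continuousOn)
        (hf0 := hphi0 δ hδ) (hg := continuousOn_const) (hg0 := rfl)).1 h0
      rw [← cfcₙ_id ℝ a, ← cfcₙ_const_zero ℝ a]
      apply cfcₙ_congr
      intro x hx
      have h2 : min 1 (x / δ) = 0 := h1 hx
      show x = 0
      have h3 : x / δ = 0 := by
        rcases min_choice (1 : ℝ) (x / δ) with h | h
        · rw [h] at h2
          norm_num at h2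
        · rw [h] at h2
          exact h2
      rcases div_eq_zero_iff.1 h3 with h | h
      · exact h
      · exact absurd h hδ.ne'
  · intro ε hε b
    refine ⟨ct_mul ha hε (hcutle ε hε), fun h => ?_⟩
    have h1 : a * star b = 0 := by
      have := congrArg star h
      rw [star_mul, hsa.star_eq, star_zero] at this
      exact this
    have h2 := ct_mul ha hε (hcutle ε hε) h1
    have h3 := congrArg star h2
    rw [star_mul, star_star, star_zero, (IsSelfAdjoint.of_nonneg (hcut0 ε)).star_eq] at h3
    exact h3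

end Pool.Agent.H327R4.Pure
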