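import Pool.Agent.H327R4.Pure.Stubs1

/-! Traces are monotone. -/

set_option autoImplicit false

namespace Pool.Agent.H327R4.Pure

open Filter Topology

universe u

theorem mt_pos {B : Type u} [NonUnitalCStarAlgebra B] [PartialOrder B] [StarOrderedRing B]
    (T : Tr B) (a : B) (ha : 0 ≤ a) : 0 ≤ (T.f a).re ∧ (T.f a).im = 0 := by
  obtain ⟨x, rfl⟩ := CStarAlgebra.nonneg_iff_eq_star_mul_self.1 ha
  exact T.pos x

theorem mt_holds : StMT.{u} := by
  intro B _ _ _ T
  refine ⟨?_, fun a ha => mt_pos T a ha, ?_⟩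
  · intro a b hab
    have h := (mt_pos T (b - a) (sub_nonneg.2 hab)).1
    rw [map_sub, Complex.sub_re] at h
    linarith
  · intro a ha
    have h1 := (mt_pos T a⁺ (CFC.posPart_nonneg a)).2
    have h2 := (mt_pos T a⁻ (CFC.negPart_nonneg a)).2
    have h3 : a⁺ - a⁻ = a := CFC.posPart_sub_negPart a ha
    rw [← h3, map_sub, Complex.sub_im, h1, h2, sub_zero]

end Pool.Agent.H327R4.Pure
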