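import Pool.Agent.H327R4.Pure.Stubs2

set_option autoImplicit false
set_option linter.unusedSectionVars false

namespace Pool.Agent.H327R4.Pure

open Filter Topology

universe u v

namespace AD

theorem cz_zero {B : Type u} [NonUnitalCStarAlgebra B] (b : B) : Cz 0 b := by
  refine ⟨fun _ => 0, ?_⟩
  simp

theorem isMul_zero {S : Type v} [NonUnitalCStarAlgebra S] [PartialOrder S] [StarOrderedRing S]
    (k : ℕ) : IsMul k (0 : S) 0 := by
  refine ⟨fun _ => 0, fun _ => ⟨le_refl _, cz_zero _, cz_zero _⟩, fun _ _ _ => by simp, by simp⟩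

theorem isMul_one {S : Type v} [NonUnitalCStarAlgebra S] [PartialOrder S] [StarOrderedRing S]
    {y z : S} (h : IsMul 1 y z) : Cz z y ∧ Cz y z := by
  obtain ⟨Y, h1, -, rfl⟩ := h
  rw [Fin.sum_univ_one]
  exact ⟨(h1 0).2.1, (h1 0).2.2⟩

theorem rk_zero {B : Type u} [NonUnitalCStarAlgebra B] (T : Tr B) : rk T (0 : B) = 0 := by
  unfold rk phi
  simp

/-- the way below relation gives a cut -/
theorem wb_cut (hct : StCT.{v}) (hle : StLE.{v}) (htra : StTRA.{v}) (hclo : StCLO.{v})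
    (S : Type v) [NonUnitalCStarAlgebra S] [PartialOrder S] [StarOrderedRing S]
    (x x' : S) (hx : 0 ≤ x) (hwb : WB x' x) : ∃ e : ℝ, 0 < e ∧ Cz x' (cut e x) := by
  obtain ⟨c1, -, c3, -⟩ := hct S x hx
  have hpos : ∀ n : ℕ, (0 : ℝ) < 1 / ((n : ℝ) + 1) := fun n => by positivity
  have hmono : ∀ ε ε' : ℝ, 0 ≤ ε → ε ≤ ε' → Cz (cut ε' x) (cut ε x) := fun ε ε' h0 h1 =>
    hle S _ _ (c1 _) (c3 _ _ h0 h1)
  obtain ⟨n, hn⟩ := hwb (fun n => cut (1 / ((n : ℝ) + 1)) x) (fun n => c1 _) (fun n => by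
      refine hmono _ _ (by positivity) ?_
      apply one_div_le_one_div_of_le
      · positivity
      · push_cast
        linarith) (fun w hw h => by
      refine hclo S x w hx fun ε hε => ?_
      obtain ⟨n, hn⟩ := exists_nat_one_div_lt hε
      exact htra S _ _ _ (hmono _ _ (hpos n).le hn.le) (h n))
  exact ⟨_, hpos n, hn⟩

theorem smul_nonneg' {B : Type u} [NonUnitalCStarAlgebra B] [PartialOrder B] [StarOrderedRing B]
    (h : B) (hh0 : 0 ≤ h) (θ : ℝ) (hθ0 : 0 ≤ θ) : 0 ≤ ((θ : ℂ)) • h := by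
  obtain ⟨w, hw⟩ := (CStarAlgebra.nonneg_iff_eq_star_mul_self (a := h)).mp hh0
  have hs : (((Real.sqrt θ : ℝ) : ℂ)) * ((Real.sqrt θ : ℝ) : ℂ) = (θ : ℂ) := by
    rw [← Complex.ofReal_mul, Real.mul_self_sqrt hθ0]
  have hs' : ((θ : ℂ)) • h = star (((Real.sqrt θ : ℝ) : ℂ) • w) *
      (((Real.sqrt θ : ℝ) : ℂ) • w) := by
    rw [star_smul, smul_mul_smul_comm, ← hw]
    have : star (((Real.sqrt θ : ℝ) : ℂ)) = ((Real.sqrt θ : ℝ) : ℂ) :=
      Complex.conj_ofReal _
    rw [this, hs]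
  rw [hs']
  exact star_mul_self_nonneg _

end AD

open AD in
/-- almost divisible -/
theorem ad_holds (hct : StCT.{u}) (hct' : StCT.{v}) (hle : StLE.{v}) (htra : StTRA.{v})
    (hclo : StCLO.{v}) (hkr : StKR.{v}) (hapx : StAPX.{u, v}) (hhom : StHOM.{u, v})
    (hcmp : StCMP.{u, v}) (hlowm : StLOWM.{u}) (hmat : StMAT1.{u}) (hrk : StRK.{u})
    (hsand : StSAND.{u}) : StAD.{u, v} := by
  intro A S _ _ _ _ _ _ hsimp hfd st sc k x x' hk hx hx' hwb
  obtain ⟨e, he, hxe⟩ := wb_cut hct' hle htra hclo S x x' hx hwb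
  obtain ⟨m, b, hb, hxb, hbx⟩ := hapx A S st x (e / 2) hx (by positivity)
  have he2 : 0 < e / 2 := by positivity
  obtain ⟨hhb, hcutb, -⟩ := hhom (MM m A) S (st.hm m) b hb
  have h1 : Cz (cut (e / 2 + e / 2) x) (cut (e / 2) (st.hm m b)) :=
    hkr S x (st.hm m b) (e / 2) (e / 2) hx hhb hxb he2.le
  rw [add_halves, ← hcutb _ he2.le] at h1
  have h2 : Cz x' (st.hm m (cut (e / 2) b)) := htra S _ _ _ hxe h1
  obtain ⟨d1, -, -, -, -, -, -, d8, -⟩ := hct (MM m A) b hb
  set b' := cut (e / 2) b with hb'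
  have hb'0 : 0 ≤ b' := d1 _
  by_cases hbz : b' = 0
  · rw [hbz, map_zero] at h2
    exact ⟨0, 0, 0, le_refl _, isMul_zero k, cz_zero x, isMul_zero (k + 1), h2⟩
  · have hbne : b ≠ 0 := by
      intro h0
      apply hbz
      rw [hb', h0]
      obtain ⟨-, -, -, -, -, -, g7, -⟩ := hct (MM m A) 0 (le_refl _)
      exact g7 _ he2.le (by simpa using he2.le)
    -- the two comparisons suffice
    have key : ∀ (K : ℕ) (a : MM K A), 0 ≤ a → a ≠ 0 →
        (∀ T : Tr A, T.f 1 = 1 → (k : ℝ) * rk (trM T (Fin K)) a < rk (trM T (Fin m)) b) →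
        (∀ T : Tr A, T.f 1 = 1 → rk (trM T (Fin m)) b' < (k + 1) * rk (trM T (Fin K)) a) →
        ∃ y z z' : S, 0 ≤ y ∧ IsMul k y z ∧ Cz z x ∧ IsMul (k + 1) y z' ∧ Cz x' z' := by
      intro K a ha hane ha1 ha2
      obtain ⟨z, z1, hz, hz1, hzz⟩ := hcmp A S st sc k 1 K m a b ha hb hbne le_rfl
        (fun T hT => by
          have := ha1 T hT
          push_cast
          linarith)
      obtain ⟨w, w', hw, hw', hww⟩ := hcmp A S st sc 1 (k + 1) m K b' a hb'0 ha hane
        (by omega) (fun T hT => by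
          have := ha2 T hT
          push_cast
          linarith)
      obtain ⟨hha, -⟩ := hhom (MM K A) S (st.hm K) a ha
      exact ⟨st.hm K a, z, w', hha, hz,
        htra S _ _ _ (htra S _ _ _ hzz (isMul_one hz1).1) hbx, hw',
        htra S _ _ _ (htra S _ _ _ h2 (isMul_one hw).2) hww⟩
    by_cases hT : ∃ T : Tr A, T.f 1 = 1
    · obtain ⟨T0, hT0⟩ := hT
      obtain ⟨hh0, -, hhne⟩ := d8 (e / 2) he2
      have hhne' := hhne hbne
      set h := phi (e / 2) b with hh
      obtain ⟨η, hη, hlow⟩ := hlowm A hsimp m h hh0 hhne'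
      have hkr0 : (1 : ℝ) ≤ k := by exact_mod_cast hk
      have hkpos : (0 : ℝ) < k := by linarith
      set θ : ℝ := (1 / (k : ℝ) + 1 / ((k : ℝ) + 1)) / 2 with hθ
      have hlt : 1 / ((k : ℝ) + 1) < 1 / (k : ℝ) :=
        one_div_lt_one_div_of_lt hkpos (by linarith)
      have hθ1 : θ < 1 / (k : ℝ) := by rw [hθ]; linarith
      have hθ2 : 1 / ((k : ℝ) + 1) < θ := by rw [hθ]; linarith
      have hθ0 : 0 < θ := lt_trans (by positivity) hθ2
      have hpos : 0 ≤ ((θ : ℂ)) • h := smul_nonneg' h hh0 θ hθ0.le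
      set ε0 : ℝ := η * (θ - 1 / ((k : ℝ) + 1)) / 2 with hε0
      have hε0pos : 0 < ε0 := by
        rw [hε0]
        have : 0 < θ - 1 / ((k : ℝ) + 1) := by linarith
        positivity
      obtain ⟨K, a, ha, hrka⟩ := hmat A hsimp hfd m ((θ : ℂ) • h) ε0 hpos hε0pos
      have hmain : ∀ T : Tr A, T.f 1 = 1 →
          (k : ℝ) * rk (trM T (Fin K)) a < rk (trM T (Fin m)) b ∧
          rk (trM T (Fin m)) b' < (k + 1) * rk (trM T (Fin K)) a := by
        intro T hT
        obtain ⟨r1, r2⟩ := hrka T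
        have hl := hlow T
        rw [hT, Complex.one_re, mul_one] at hl
        rw [hT, Complex.one_re, mul_one] at r1
        have hlin : ((trM T (Fin m)).f ((θ : ℂ) • h)).re = θ * ((trM T (Fin m)).f h).re := by
          rw [map_smul, smul_eq_mul, Complex.re_ofReal_mul]
        rw [hlin] at r1 r2
        set H := ((trM T (Fin m)).f h).re with hH
        have hH0 : 0 < H := lt_of_lt_of_le hη hl
        have hb1 : H ≤ rk (trM T (Fin m)) b := (hrk (MM m A) (trM T (Fin m)) b hb).1 _ he2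
        have hb2 : rk (trM T (Fin m)) b' ≤ H := hsand (MM m A) (trM T (Fin m)) b (e / 2) hb he2
        have hkθ : (k : ℝ) * θ < 1 := by
          have := mul_lt_mul_of_pos_left hθ1 hkpos
          rwa [mul_one_div_cancel hkpos.ne'] at this
        constructor
        · calc (k : ℝ) * rk (trM T (Fin K)) a ≤ k * (θ * H) :=
                mul_le_mul_of_nonneg_left r2 hkpos.le
            _ = (k * θ) * H := by ring
            _ < 1 * H := mul_lt_mul_of_pos_right hkθ hH0
            _ ≤ _ := by rw [one_mul]; exact hb1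
        · have hk1 : (0 : ℝ) < (k : ℝ) + 1 := by linarith
          have e1 : ε0 ≤ H * (θ - 1 / ((k : ℝ) + 1)) / 2 := by
            rw [hε0]
            have : 0 < θ - 1 / ((k : ℝ) + 1) := by linarith
            have h3 : η * (θ - 1 / ((k : ℝ) + 1)) ≤ H * (θ - 1 / ((k : ℝ) + 1)) :=
              mul_le_mul_of_nonneg_right hl this.le
            linarith
          have e2 : 1 / ((k : ℝ) + 1) * H < rk (trM T (Fin K)) a := by
            have h3 : 0 < H * (θ - 1 / ((k : ℝ) + 1)) := mul_pos hH0 (by linarith)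
            have h4 : θ * H - ε0 ≤ rk (trM T (Fin K)) a := r1
            have h5 : H * (θ - 1 / ((k : ℝ) + 1)) = θ * H - 1 / ((k : ℝ) + 1) * H := by ring
            linarith
          have e3 := mul_lt_mul_of_pos_left e2 hk1
          rw [← mul_assoc, mul_one_div_cancel hk1.ne', one_mul] at e3
          linarith
      have hane : a ≠ 0 := by
        intro h0
        have h3 := (hmain T0 hT0).2
        rw [h0, rk_zero, mul_zero] at h3
        have h4 := (hrk (MM m A) (trM T0 (Fin m)) b' hb'0).2.2.2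
        linarith
      exact key K a ha hane (fun T hT => (hmain T hT).1) (fun T hT => (hmain T hT).2)
    · exact key m b hb hbne (fun T hT' => absurd ⟨T, hT'⟩ hT) (fun T hT' => absurd ⟨T, hT'⟩ hT)

end Pool.Agent.H327R4.Pure
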