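import Pool.Agent.H327R4.Pure.Stubs2

/-!
# Approximation of positive elements of the stabilisation by matrices
-/

set_option autoImplicit false

namespace Pool.Agent.H327R4.Pure

open Filter Topology

universe u v

section

variable {A : Type u} {S : Type v} [CStarAlgebra A] [PartialOrder A]
  [StarOrderedRing A] [NonUnitalCStarAlgebra S]

theorem apx_gen (st : Stab A S) {n i j : ℕ} (hi : i < n) (hj : j < n) (a : A) :
    st.E i j a ∈ Set.range (st.hm n) := by
  classical
  refine ⟨CStarMatrix.ofMatrix (fun p q => if p = ⟨i, hi⟩ ∧ q = ⟨j, hj⟩ then a else 0), ?_⟩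
  unfold Stab.hm
  rw [Stab.hom_apply]
  rw [Finset.sum_eq_single (⟨i, hi⟩ : Fin n), Finset.sum_eq_single (⟨j, hj⟩ : Fin n)]
  · simp [CStarMatrix.ofMatrix_apply]
  · intro q _ hq
    simp [CStarMatrix.ofMatrix_apply, hq]
  · simp
  · intro p _ hp
    refine Finset.sum_eq_zero fun q _ => ?_
    simp [CStarMatrix.ofMatrix_apply, hp]
  · simp

theorem apx_left (st : Stab A S) {n i : ℕ} (j : ℕ) (hi : n ≤ i) (a : A) :
    st.hm n 1 * st.E i j a = 0 := by
  unfold Stab.hm
  rw [Stab.hom_apply, Finset.sum_mul]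
  refine Finset.sum_eq_zero fun p _ => ?_
  rw [Finset.sum_mul]
  refine Finset.sum_eq_zero fun q _ => ?_
  rw [st.mul, if_neg]
  have := q.2
  omega

theorem apx_right (st : Stab A S) {n j : ℕ} (i : ℕ) (hj : n ≤ j) (a : A) :
    st.E i j a * st.hm n 1 = 0 := by
  unfold Stab.hm
  rw [Stab.hom_apply, Finset.mul_sum]
  refine Finset.sum_eq_zero fun p _ => ?_
  rw [Finset.mul_sum]
  refine Finset.sum_eq_zero fun q _ => ?_
  rw [st.mul, if_neg]
  have := p.2
  omega

theorem apx_fix (st : Stab A S) {n : ℕ} {x : S} (hx : x ∈ Set.range (st.hm n)) :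
    st.hm n 1 * x * st.hm n 1 = x := by
  obtain ⟨M, rfl⟩ := hx
  rw [← map_mul, ← map_mul, one_mul, mul_one]

theorem apx_cut (st : Stab A S) (n : ℕ) (x : S)
    (hx : x ∈ Submodule.span ℂ (⋃ i, ⋃ j, Set.range (st.E i j))) :
    st.hm n 1 * x * st.hm n 1 ∈ Set.range (st.hm n) := by
  induction hx using Submodule.span_induction with
  | mem x hx =>
    simp only [Set.mem_iUnion, Set.mem_range] at hx
    obtain ⟨i, j, a, rfl⟩ := hx
    by_cases hi : i < n
    · by_cases hj : j < n
      · have h := apx_gen st hi hj a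
        rw [apx_fix st h]
        exact h
      · rw [mul_assoc, apx_right st i (not_lt.1 hj) a, mul_zero]
        exact ⟨0, map_zero _⟩
    · rw [apx_left st j (not_lt.1 hi) a, zero_mul]
      exact ⟨0, map_zero _⟩
  | zero =>
    rw [mul_zero, zero_mul]
    exact ⟨0, map_zero _⟩
  | add x y _ _ hx hy =>
    obtain ⟨M, hM⟩ := hx
    obtain ⟨N, hN⟩ := hy
    refine ⟨M + N, ?_⟩
    rw [map_add, hM, hN, mul_add, add_mul]
  | smul c x _ hx =>
    obtain ⟨M, hM⟩ := hx
    refine ⟨c • M, ?_⟩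
    rw [map_smul, hM, mul_smul_comm, smul_mul_assoc]

theorem apx_ev (st : Stab A S) (x : S)
    (hx : x ∈ Submodule.span ℂ (⋃ i, ⋃ j, Set.range (st.E i j))) :
    ∃ N, ∀ n, N ≤ n → x ∈ Set.range (st.hm n) := by
  induction hx using Submodule.span_induction with
  | mem x hx =>
    simp only [Set.mem_iUnion, Set.mem_range] at hx
    obtain ⟨i, j, a, rfl⟩ := hx
    exact ⟨i + j + 1, fun n hn => apx_gen st (by omega) (by omega) a⟩
  | zero => exact ⟨0, fun n _ => ⟨0, map_zero _⟩⟩
  | add x y _ _ hx hy =>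
    obtain ⟨N, hN⟩ := hx
    obtain ⟨N', hN'⟩ := hy
    refine ⟨max N N', fun n hn => ?_⟩
    obtain ⟨M, hM⟩ := hN n ((le_max_left _ _).trans hn)
    obtain ⟨M', hM'⟩ := hN' n ((le_max_right _ _).trans hn)
    exact ⟨M + M', by rw [map_add, hM, hM']⟩
  | smul c x _ hx =>
    obtain ⟨N, hN⟩ := hx
    refine ⟨N, fun n hn => ?_⟩
    obtain ⟨M, hM⟩ := hN n hn
    exact ⟨c • M, by rw [map_smul, hM]⟩

end

theorem apx_holds (hiso : StISO.{u, v}) : StAPX.{u, v} := by
  intro A S _ _ _ _ _ _ st s ε hs hε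
  -- approximate
  have hd : s ∈ closure (Submodule.span ℂ (⋃ i, ⋃ j, Set.range (st.E i j)) : Set S) := by
    rw [st.dense]
    exact Set.mem_univ _
  obtain ⟨t, ht, hst⟩ := Metric.mem_closure_iff.1 hd (ε / 2) (by positivity)
  rw [dist_eq_norm] at hst
  obtain ⟨n, hn⟩ := apx_ev st t ht
  have htn := hn n le_rfl
  set p : S := st.hm n 1 with hp
  have hpp : p * p = p := by rw [hp, ← map_mul, one_mul]
  have hps : star p = p := by rw [hp, ← map_star, star_one]
  have hp1 : ‖p‖ ≤ 1 := by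
    have h1 : ‖star p * p‖ = ‖p‖ * ‖p‖ := CStarRing.norm_star_mul_self
    rw [hps, hpp] at h1
    by_contra hc
    push Not at hc
    nlinarith
  -- the range is closed
  have hI : Isometry (st.hm n) := by
    refine AddMonoidHomClass.isometry_of_norm _ fun M => ?_
    exact (hiso A S st n (fun i : Fin n => (i : ℕ)) Fin.val_injective).1 M
  have hcl : IsClosed (Set.range (st.hm n)) := hI.isClosedEmbedding.isClosed_range
  have hall : ∀ x : S, p * x * p ∈ Set.range (st.hm n) := by
    intro x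
    have hx : x ∈ closure (Submodule.span ℂ (⋃ i, ⋃ j, Set.range (st.E i j)) : Set S) := by
      rw [st.dense]
      exact Set.mem_univ _
    have hc : IsClosed {x : S | p * x * p ∈ Set.range (st.hm n)} :=
      hcl.preimage (by fun_prop)
    exact closure_minimal (fun y hy => apx_cut st n y hy) hc hx
  obtain ⟨b, hb⟩ := hall s
  refine ⟨n, b, ?_, ?_, ?_⟩
  · refine ((hiso A S st n (fun i : Fin n => (i : ℕ)) Fin.val_injective).2 b).1 ?_
    change 0 ≤ st.hm n b
    rw [hb]
    have := star_left_conjugate_nonneg hs p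
    rwa [hps] at this
  · rw [hb]
    have h1 : s - p * s * p = (s - t) - p * (s - t) * p := by
      have h2 : p * t * p = t := apx_fix st htn
      rw [mul_sub, sub_mul, h2]
      abel
    rw [h1]
    have h3 : ‖p * (s - t) * p‖ ≤ ‖s - t‖ := by
      calc ‖p * (s - t) * p‖ ≤ ‖p * (s - t)‖ * ‖p‖ := norm_mul_le _ _
        _ ≤ (‖p‖ * ‖s - t‖) * ‖p‖ := by gcongr; exact norm_mul_le _ _
        _ ≤ (1 * ‖s - t‖) * 1 := by gcongr
        _ = ‖s - t‖ := by ring
    have h4 := norm_sub_le (s - t) (p * (s - t) * p)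
    linarith
  · refine ⟨fun _ => p, ?_⟩
    rw [hb]
    show Tendsto (fun _ : ℕ => p * s * star p) atTop (𝓝 (p * s * p))
    rw [hps]
    exact tendsto_const_nhds

end Pool.Agent.H327R4.Pure
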