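import Pool.Agent.H327R4.Pure.Stubs2

set_option autoImplicit false

namespace Pool.Agent.H327R4.Pure

open Filter Topology

universe u v w

/-- homomorphisms into the stabilisation with disjoint ranges are orthogonal -/
theorem Stab.hom_mul_hom {A : Type u} {S : Type v} [CStarAlgebra A] [PartialOrder A]
    [StarOrderedRing A] [NonUnitalCStarAlgebra S] (st : Stab A S) {ι κ : Type w} [Fintype ι]
    [Fintype κ] (e : ι → ℕ) (he : Function.Injective e) (e' : κ → ℕ)
    (he' : Function.Injective e') (h : ∀ i j, e i ≠ e' j) (M : CStarMatrix ι ι A)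
    (N : CStarMatrix κ κ A) : st.hom e he M * st.hom e' he' N = 0 := by
  rw [Stab.hom_apply, Stab.hom_apply]
  simp only [Finset.sum_mul, Finset.mul_sum]
  refine Finset.sum_eq_zero fun i _ => Finset.sum_eq_zero fun j _ => Finset.sum_eq_zero fun k _ =>
    Finset.sum_eq_zero fun l _ => ?_
  rw [st.mul, if_neg (h _ _)]

theorem cz_zero_right {S : Type v} [NonUnitalCStarAlgebra S] {a : S} (h : Cz a 0) : a = 0 := by
  obtain ⟨x, hx⟩ := h
  have : (fun n => x n * 0 * star (x n)) = fun _ => (0 : S) := by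
    funext n; simp
  rw [this] at hx
  exact (tendsto_nhds_unique hx tendsto_const_nhds)

theorem cz_zero_left {S : Type v} [NonUnitalCStarAlgebra S] (b : S) : Cz 0 b :=
  ⟨fun _ => 0, by simp⟩

theorem exists_min_pos {k : ℕ} {P : Fin k → ℝ → Prop} (h : ∀ i, ∃ d : ℝ, 0 < d ∧ P i d)
    (hm : ∀ i d d', 0 < d' → d' ≤ d → P i d → P i d') : ∃ d : ℝ, 0 < d ∧ ∀ i, P i d := by
  choose d hd hP using h
  rcases Nat.eq_zero_or_pos k with rfl | hk
  · exact ⟨1, one_pos, fun i => i.elim0⟩
  · have : Nonempty (Fin k) := ⟨⟨0, hk⟩⟩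
    obtain ⟨i0, hi0⟩ := Finite.exists_min d
    exact ⟨d i0, hd i0, fun i => hm i (d i) (d i0) (hd i0) (hi0 i) (hP i)⟩

theorem au_holds (hct : StCT.{v}) (hctu : StCT.{u}) (hrk : StRK.{u}) (hle : StLE.{v})
    (htra : StTRA.{v}) (hkr : StKR.{v}) (hror : StROR.{v}) (hclo : StCLO.{v}) (hosm : StOSM.{v})
    (hcsm : StCSM.{v}) (hlowm : StLOWM.{u}) (hiso : StISO.{u, v}) (hapx : StAPX.{u, v})
    (heqv : StEQV.{u, v}) (hcmp : StCMP.{u, v}) (hunm : StUNM.{u, v}) : StAU.{u, v} := by
  intro A S _ _ _ _ _ _ hsimple st hsc k x y z z' hx hy hz hz' hzz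
  obtain ⟨X, hX, hXo, rfl⟩ := hz
  obtain ⟨Y, hY, hYo, rfl⟩ := hz'
  -- monotonicity of cut for `Cz`
  have hmono : ∀ (a : S), 0 ≤ a → ∀ d d' : ℝ, 0 < d' → d' ≤ d → Cz (cut d a) (cut d' a) := by
    intro a ha d d' hd' hdd
    obtain ⟨h1, -, h3, -⟩ := hct S a ha
    exact hle S _ _ (h1 _) (h3 d' d hd'.le hdd)
  refine hclo S x y hx fun ε hε => ?_
  have hε2 : 0 < ε / 2 := by positivity
  obtain ⟨hx1, -, -, hx4, -⟩ := hct S x hx
  obtain ⟨δ, hδ, hXδ⟩ : ∃ d : ℝ, 0 < d ∧ ∀ i, Cz (cut (ε / 2) x) (cut d (X i)) := by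
    refine exists_min_pos (P := fun i d => Cz (cut (ε / 2) x) (cut d (X i))) ?_ ?_
    · intro i
      exact hror S x (X i) (ε / 2) hx (hX i).1 (hX i).2.2 hε2
    · intro i d d' hd' hdd h
      exact htra S _ _ _ h (hmono _ (hX i).1 d d' hd' hdd)
  have hzp : 0 ≤ ∑ i, X i := Finset.sum_nonneg fun i _ => (hX i).1
  have hzp' : 0 ≤ ∑ i, Y i := Finset.sum_nonneg fun i _ => (hY i).1
  obtain ⟨η, hη, hzη⟩ := hror S _ _ δ hzp hzp' hzz hδ
  obtain ⟨η', hη', hYη⟩ : ∃ d : ℝ, 0 < d ∧ ∀ j, Cz (cut η (Y j)) (cut d y) := by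
    refine exists_min_pos (P := fun j d => Cz (cut η (Y j)) (cut d y)) ?_ ?_
    · intro j
      exact hror S (Y j) y η (hY j).1 hy (hY j).2.1 hη
    · intro j d d' hd' hdd h
      exact htra S _ _ _ h (hmono _ hy d d' hd' hdd)
  rw [hcsm S (k + 1) X δ (fun i => (hX i).1) hXo hδ.le,
    hcsm S k Y η (fun i => (hY i).1) hYo hη.le] at hzη
  -- approximations
  obtain ⟨m, a, ha, hau, hacz⟩ := hapx A S st (cut (ε / 2) x) (ε / 2) (hx1 _) hε2
  obtain ⟨n, b, hb, hby, hbcz⟩ := hapx A S st y η' hy hη'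
  have hma : 0 ≤ st.hm m a := (hiso A S st m _ Fin.val_injective).2 a |>.2 ha
  have hmb : 0 ≤ st.hm n b := (hiso A S st n _ Fin.val_injective).2 b |>.2 hb
  have hcut0 : ∀ c : S, 0 ≤ c → cut 0 c = c := by
    intro c hc
    obtain ⟨-, -, -, -, h5, -⟩ := hct S c hc
    exact h5
  have hxa : Cz (cut ε x) (st.hm m a) := by
    have h := hkr S (cut (ε / 2) x) (st.hm m a) (ε / 2) 0 (hx1 _) hma hau le_rfl
    rw [hcut0 _ hma, add_zero, hx4 (ε / 2) (ε / 2) hε2.le hε2.le, add_halves] at h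
    exact h
  have hyb : Cz (cut η' y) (st.hm n b) := by
    have h := hkr S y (st.hm n b) η' 0 hy hmb hby le_rfl
    rwa [hcut0 _ hmb, add_zero] at h
  have hXc : ∀ i, 0 ≤ cut δ (X i) := fun i => (hct S (X i) (hX i).1).1 _
  have hYc : ∀ i, 0 ≤ cut η (Y i) := fun i => (hct S (Y i) (hY i).1).1 _
  by_cases hb0 : b = 0
  · -- degenerate case
    subst hb0
    rw [map_zero] at hyb
    have h1 : cut η' y = 0 := cz_zero_right hyb
    have h2 : ∀ j, cut η (Y j) = 0 := fun j => by
      have := hYη j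
      rw [h1] at this
      exact cz_zero_right this
    have h3 : ∑ j, cut η (Y j) = 0 := Finset.sum_eq_zero fun j _ => h2 j
    rw [h3] at hzη
    have h4 : ∑ i, cut δ (X i) = 0 := cz_zero_right hzη
    have h5 : cut δ (X 0) = 0 := by
      refine le_antisymm ?_ (hXc 0)
      rw [← h4]
      exact Finset.single_le_sum (f := fun i => cut δ (X i)) (fun i _ => hXc i)
        (Finset.mem_univ 0)
    have h6 : cut (ε / 2) x = 0 := by
      have := hXδ 0
      rw [h5] at this
      exact cz_zero_right this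
    have h7 : Cz (cut ε x) (cut (ε / 2) x) := hmono x hx _ _ hε2 (by linarith)
    rw [h6] at h7
    rw [cz_zero_right h7]
    exact cz_zero_left y
  · -- main case
    have hcopy : ∀ (N q : ℕ) (i : Fin N), Function.Injective (fun t : Fin q => (i : ℕ) * q + t) := by
      intro N q i s t hst
      apply Fin.ext
      simpa using hst
    have hdis : ∀ (N q : ℕ) (i j : Fin N), i ≠ j → ∀ s t : Fin q,
        (i : ℕ) * q + s ≠ (j : ℕ) * q + t := by
      intro N q i j hij s t hst
      apply hij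
      apply Fin.ext
      have h1 : ((i : ℕ) * q + s) / q = i := by
        rw [mul_comm, Nat.mul_add_div (Nat.lt_of_le_of_lt (Nat.zero_le _) s.2),
          Nat.div_eq_of_lt s.2, add_zero]
      have h2 : ((j : ℕ) * q + t) / q = j := by
        rw [mul_comm, Nat.mul_add_div (Nat.lt_of_le_of_lt (Nat.zero_le _) t.2),
          Nat.div_eq_of_lt t.2, add_zero]
      rw [← h1, ← h2, hst]
    have hIs : ∀ (N q : ℕ) (c : MM q A), 0 ≤ c → 
        IsMul N (st.hm q c) (∑ i : Fin N, st.hom (fun t : Fin q => (i : ℕ) * q + t)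
          (hcopy N q i) c) := by
      intro N q c hc
      refine ⟨fun i => st.hom (fun t : Fin q => (i : ℕ) * q + t) (hcopy N q i) c, ?_, ?_, rfl⟩
      · intro i
        exact ⟨((hiso A S st q _ (hcopy N q i)).2 c).2 hc,
          heqv A S st q _ _ (hcopy N q i) Fin.val_injective c,
          heqv A S st q _ _ Fin.val_injective (hcopy N q i) c⟩
      · intro i j hij
        exact st.hom_mul_hom _ _ _ _ (hdis N q i j hij) c c
    have hCz : Cz (∑ i : Fin (k + 1), st.hom (fun t : Fin m => (i : ℕ) * m + t)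
          (hcopy (k + 1) m i) a)
        (∑ i : Fin k, st.hom (fun t : Fin n => (i : ℕ) * n + t) (hcopy k n i) b) := by
      obtain ⟨P, hP, hPo, hPe⟩ := hIs (k + 1) m a ha
      refine htra S _ (∑ i, cut δ (X i)) _ ?_ (htra S _ _ _ hzη ?_)
      · refine hosm S (k + 1) _ _ ?_ hXc ?_ ?_ ?_
        · intro i
          exact ((hiso A S st m _ (hcopy (k + 1) m i)).2 a).2 ha
        · intro i j hij
          exact st.hom_mul_hom _ _ _ _ (hdis (k + 1) m i j hij) a a
        · intro i j hij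
          obtain ⟨-, -, -, -, -, -, -, -, h9⟩ := hct S (X i) (hX i).1
          obtain ⟨-, -, -, -, -, -, -, -, h9'⟩ := hct S (X j) (hX j).1
          exact ((h9 δ hδ.le _).1 ((h9' δ hδ.le _).2 (hXo i j hij)))
        · intro i
          exact htra S _ _ _ (heqv A S st m _ _ (hcopy (k + 1) m i) Fin.val_injective a)
            (htra S _ _ _ hacz (hXδ i))
      · refine hosm S k _ _ hYc ?_ ?_ ?_ ?_
        · intro i
          exact ((hiso A S st n _ (hcopy k n i)).2 b).2 hb
        · intro i j hij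
          obtain ⟨-, -, -, -, -, -, -, -, h9⟩ := hct S (Y i) (hY i).1
          obtain ⟨-, -, -, -, -, -, -, -, h9'⟩ := hct S (Y j) (hY j).1
          exact ((h9 η hη.le _).1 ((h9' η hη.le _).2 (hYo i j hij)))
        · intro i j hij
          exact st.hom_mul_hom _ _ _ _ (hdis k n i j hij) b b
        · intro i
          exact htra S _ _ _ (hYη i) (htra S _ _ _ hyb
            (heqv A S st n _ _ Fin.val_injective (hcopy k n i) b))
    have hrank := hunm A S st (k + 1) k m n a b _ _ ha hb (hIs (k + 1) m a ha) (hIs k n b hb) hCz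
    have hphi := (hctu (MM n A) b hb).2.2.2.2.2.2.2.1 1 one_pos
    obtain ⟨c, hc, hlow⟩ := hlowm A hsimple n (phi 1 b) hphi.1 (hphi.2.2 hb0)
    obtain ⟨w, w', ⟨W, hW, -, hWe⟩, ⟨W', hW', -, hWe'⟩, hww⟩ :=
      hcmp A S st hsc 1 1 m n a b ha hb hb0 le_rfl (by
        intro T hT
        have h1 := hrank T
        have h2 := hlow T
        have h3 := (hrk (MM n A) (trM T (Fin n)) b hb).1 1 one_pos
        rw [hT] at h2
        simp only [Complex.one_re, mul_one] at h2
        have h4 : 0 < rk (trM T (Fin n)) b := lt_of_lt_of_le hc (h2.trans h3)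
        have hk : (0 : ℝ) ≤ k := Nat.cast_nonneg k
        push_cast at h1 ⊢
        by_contra hcon
        push Not at hcon
        have h5 : ((k : ℝ) + 1) * rk (trM T (Fin n)) b ≤ (k + 1) * rk (trM T (Fin m)) a :=
          mul_le_mul_of_nonneg_left (by linarith) (by linarith)
        linarith)
    have hw : w = W 0 := by rw [hWe]; simp
    have hw' : w' = W' 0 := by rw [hWe']; simp
    rw [hw, hw'] at hww
    exact htra S _ _ _ hxa (htra S _ _ _ (htra S _ _ _ (hW 0).2.2 (htra S _ _ _ hww (hW' 0).2.1))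
      hbcz)

end Pool.Agent.H327R4.Pure
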