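import Pool.Agent.H327R4.Pure.Stubs1

/-! CAKE: layer cake (helper708). -/

set_option autoImplicit false

namespace Pool.Agent.H327R4.Pure

open Filter Topology

universe u

namespace CAKE

/-- the layer function -/
noncomputable def lay (δ : ℝ) (j : ℕ) (x : ℝ) : ℝ := min 1 (max (x - ((j : ℝ) + 1)) 0 / δ)

theorem lay_cont (δ : ℝ) (j : ℕ) : Continuous (lay δ j) := by
  unfold lay
  fun_prop

theorem lay_zero (δ : ℝ) (j : ℕ) : lay δ j 0 = 0 := by
  unfold lay
  have h : (0:ℝ) - ((j : ℝ) + 1) ≤ 0 := by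
    have : (0:ℝ) ≤ j := Nat.cast_nonneg j
    linarith
  rw [max_eq_right h, zero_div]
  exact min_eq_right zero_le_one

theorem lay_le_one (δ : ℝ) (j : ℕ) (x : ℝ) : lay δ j x ≤ 1 := min_le_left _ _

theorem lay_eq_zero (δ : ℝ) (j : ℕ) (x : ℝ) (hx : x ≤ (j : ℝ) + 1) : lay δ j x = 0 := by
  unfold lay
  rw [max_eq_right (by linarith), zero_div]
  exact min_eq_right zero_le_one

/-- lower layer cake -/
theorem low (δ : ℕ → ℝ) (x : ℝ) (hx : 0 ≤ x) (K : ℕ) :
    ∑ j ∈ Finset.range K, lay (δ j) j x ≤ min x K := by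
  induction K with
  | zero => simp [hx]
  | succ K ih =>
    rw [Finset.sum_range_succ]
    rcases le_or_gt x ((K : ℝ) + 1) with h | h
    · rw [lay_eq_zero _ _ _ h, add_zero]
      refine ih.trans (le_min (min_le_left _ _) ((min_le_right _ _).trans ?_))
      push_cast; linarith
    · have h1 := lay_le_one (δ K) K x
      have h2 := ih.trans (min_le_right _ _)
      push_cast
      rw [min_eq_right h.le]
      linarith

/-- upper layer cake -/
theorem upp (x : ℝ) (K : ℕ) :
    min x ((K : ℝ) + 1) ≤ min 1 (x / 1) + ∑ j ∈ Finset.range K, lay 1 j x := by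
  induction K with
  | zero => simp [min_comm]
  | succ K ih =>
    rw [Finset.sum_range_succ, ← add_assoc]
    refine le_trans ?_ (add_le_add ih le_rfl)
    unfold lay
    rw [div_one]
    push_cast
    rcases le_or_gt x ((K : ℝ) + 1) with h | h
    · rw [min_eq_left h, max_eq_right (by linarith), min_eq_right zero_le_one, add_zero]
      exact min_le_left _ _
    · rw [min_eq_right h.le, max_eq_left (by linarith)]
      rcases le_or_gt x ((K : ℝ) + 1 + 1) with h' | h'
      · rw [min_eq_left h', min_eq_right (by linarith)]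
        linarith
      · rw [min_eq_right h'.le, min_eq_left (by linarith)]

end CAKE

open CAKE in
theorem cake_holds (hmt : StMT.{u}) (hrk : StRK.{u}) (hct : StCT.{u}) : StCAKE.{u} := by
  intro B _ _ _ T g K hg hK
  have hsp : ∀ x ∈ quasispectrum ℝ g, 0 ≤ x ∧ x ≤ K := by
    intro x hx
    refine ⟨quasispectrum_nonneg_of_nonneg g hg x hx, ?_⟩
    have := NonUnitalIsometricContinuousFunctionalCalculus.norm_quasispectrum_le (𝕜 := ℝ) g hx
      (IsSelfAdjoint.of_nonneg hg)
    exact (le_abs_self x).trans (this.trans hK)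
  have hcut : ∀ j : ℕ, 0 ≤ cut ((j : ℝ) + 1) g := fun j => (hct B g hg).1 _
  -- the composition
  have hcomp : ∀ (δ : ℝ) (j : ℕ), phi δ (cut ((j : ℝ) + 1) g) = cfcₙ (lay δ j) g := by
    intro δ j
    unfold phi cut
    rw [← cfcₙ_comp' (fun x : ℝ => min 1 (x / δ)) (fun x : ℝ => max (x - ((j : ℝ) + 1)) 0) g
      (by fun_prop) (by simp) (by fun_prop) (by
        have : (0:ℝ) ≤ j := Nat.cast_nonneg j
        simp; linarith) (IsSelfAdjoint.of_nonneg hg)]
    rfl
  have hid : cfcₙ (fun x : ℝ => x) g = g := cfcₙ_id' ℝ g (IsSelfAdjoint.of_nonneg hg)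
  have hsumeq : ∀ (δ : ℕ → ℝ), cfcₙ (fun x : ℝ => ∑ j ∈ Finset.range K, lay (δ j) j x) g =
      ∑ j ∈ Finset.range K, phi (δ j) (cut ((j : ℝ) + 1) g) := by
    intro δ
    have e : (fun x : ℝ => ∑ j ∈ Finset.range K, lay (δ j) j x) =
        ∑ j ∈ Finset.range K, (fun x => lay (δ j) j x) := by
      ext x; simp
    rw [e, cfcₙ_sum (fun j x => lay (δ j) j x) g (Finset.range K)
      (fun j _ => (lay_cont (δ j) j).continuousOn) (fun j _ => lay_zero (δ j) j)]
    exact Finset.sum_congr rfl fun j _ => (hcomp (δ j) j).symm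
  have hTsum : ∀ (δ : ℕ → ℝ), (T.f (∑ j ∈ Finset.range K, phi (δ j) (cut ((j : ℝ) + 1) g))).re =
      ∑ j ∈ Finset.range K, (T.f (phi (δ j) (cut ((j : ℝ) + 1) g))).re := by
    intro δ
    rw [map_sum, Complex.re_sum]
  constructor
  · refine le_of_forall_pos_le_add fun ε hε => ?_
    have hK1 : (0:ℝ) < K + 1 := by positivity
    have hch : ∀ j : ℕ, ∃ δ : ℝ, 0 < δ ∧ rk T (cut ((j : ℝ) + 1) g) - ε / (K + 1) <
        (T.f (phi δ (cut ((j : ℝ) + 1) g))).re := fun j =>
      (hrk B T (cut ((j : ℝ) + 1) g) (hcut j)).2.1 (ε / (K + 1)) (by positivity)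
    choose δ hδ0 hδ using hch
    have h1 : ∑ j ∈ Finset.range K, phi (δ j) (cut ((j : ℝ) + 1) g) ≤ g := by
      rw [← hsumeq δ]
      conv_rhs => rw [← hid]
      refine cfcₙ_mono (fun x hx => ?_) ?_ ?_ ?_ ?_
      · exact (low δ x (hsp x hx).1 K).trans (min_le_left _ _)
      · exact (continuous_finsetSum _ fun j _ => lay_cont (δ j) j).continuousOn
      · exact continuous_id.continuousOn
      · exact Finset.sum_eq_zero fun j _ => lay_zero (δ j) j
      · rfl
    have h2 := (hmt B T).1 _ _ h1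
    rw [hTsum] at h2
    have h3 : ∑ j ∈ Finset.range K, rk T (cut ((j : ℝ) + 1) g) ≤
        ∑ j ∈ Finset.range K, ((T.f (phi (δ j) (cut ((j : ℝ) + 1) g))).re + ε / (K + 1)) :=
      Finset.sum_le_sum fun j _ => by linarith [hδ j]
    rw [Finset.sum_add_distrib, Finset.sum_const, Finset.card_range, nsmul_eq_mul] at h3
    have h4 : (K : ℝ) * (ε / (K + 1)) ≤ ε := by
      rw [mul_div_assoc', div_le_iff₀ hK1]
      nlinarith
    linarith
  · have h1 : g ≤ phi 1 g + ∑ j ∈ Finset.range K, phi 1 (cut ((j : ℝ) + 1) g) := by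
      rw [← hsumeq (fun _ => 1)]
      unfold phi
      rw [← cfcₙ_add (fun x : ℝ => min 1 (x / 1)) (fun x : ℝ => ∑ j ∈ Finset.range K, lay 1 j x) g
        (by fun_prop) (by simp)
        ((continuous_finsetSum _ fun j _ => lay_cont 1 j).continuousOn)
        (Finset.sum_eq_zero fun j _ => lay_zero 1 j)]
      conv_lhs => rw [← hid]
      refine cfcₙ_mono (fun x hx => ?_) ?_ ?_ ?_ ?_
      · have h2 := upp x K
        rw [min_eq_left (by linarith [(hsp x hx).2])] at h2
        exact h2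
      · exact continuous_id.continuousOn
      · have : Continuous (fun x : ℝ => ∑ j ∈ Finset.range K, lay 1 j x) :=
          continuous_finsetSum _ fun j _ => lay_cont 1 j
        fun_prop
      · rfl
      · have : ∑ j ∈ Finset.range K, lay 1 j 0 = 0 := Finset.sum_eq_zero fun j _ => lay_zero 1 j
        simp [this]
    have h2 := (hmt B T).1 _ _ h1
    rw [map_add, Complex.add_re, hTsum (fun _ => 1)] at h2
    have h3 := (hrk B T g hg).1 1 one_pos
    have h4 : ∑ j ∈ Finset.range K, (T.f (phi 1 (cut ((j : ℝ) + 1) g))).re ≤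
        ∑ j ∈ Finset.range K, rk T (cut ((j : ℝ) + 1) g) :=
      Finset.sum_le_sum fun j _ => (hrk B T (cut ((j : ℝ) + 1) g) (hcut j)).1 1 one_pos
    linarith

end Pool.Agent.H327R4.Pure
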