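import Pool.Agent.H327R4.Pure.Stubs1

set_option autoImplicit false

namespace Pool.Agent.H327R4.Pure

open Filter Topology

universe u v

theorem clo_holds (hct : StCT.{u}) : StCLO.{u} := by
  intro B _ _ _ a b ha h
  obtain ⟨-, -, -, -, -, hn, -, -, -⟩ := hct B a ha
  have key : ∀ n : ℕ, ∃ x : B, ‖x * b * star x - a‖ < 2 * (1 / ((n : ℝ) + 1)) := by
    intro n
    have hε : (0 : ℝ) < 1 / ((n : ℝ) + 1) := by positivity
    obtain ⟨x, hx⟩ := h _ hε
    obtain ⟨m, hm⟩ := (Metric.tendsto_atTop.1 hx _ hε)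
    refine ⟨x m, ?_⟩
    have h1 := hm m le_rfl
    rw [dist_eq_norm] at h1
    have h2 := hn _ hε.le
    calc ‖x m * b * star (x m) - a‖
        = ‖(x m * b * star (x m) - cut (1 / ((n : ℝ) + 1)) a) -
            (a - cut (1 / ((n : ℝ) + 1)) a)‖ := by congr 1; abel
      _ ≤ ‖x m * b * star (x m) - cut (1 / ((n : ℝ) + 1)) a‖ +
            ‖a - cut (1 / ((n : ℝ) + 1)) a‖ := norm_sub_le _ _
      _ < 2 * (1 / ((n : ℝ) + 1)) := by linarith
  choose y hy using key
  refine ⟨y, ?_⟩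
  rw [tendsto_iff_norm_sub_tendsto_zero]
  refine squeeze_zero (fun n => norm_nonneg _) (fun n => (hy n).le) ?_
  have := (tendsto_one_div_add_atTop_nhds_zero_nat (𝕜 := ℝ)).const_mul 2
  simpa using this

end Pool.Agent.H327R4.Pure
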