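import Pool.Agent.H327R4.Pure.Stubs1

set_option autoImplicit false

namespace Pool.Agent.H327R4.Pure

open Filter Topology

universe u v

theorem cnj_holds (hswap : StSWAP.{u}) (hmon : StMON.{u}) : StCNJ.{u} := by
  intro B _ _ _ T x b hb
  set s : B := CFC.sqrt b with hs
  have hs0 : 0 ≤ s := CFC.sqrt_nonneg b
  have hss : s * s = b := CFC.sqrt_mul_sqrt_self b hb
  have hsa : star s = s := (IsSelfAdjoint.of_nonneg hs0).star_eq
  have e1 : x * b * star x = (x * s) * star (x * s) := by
    rw [star_mul, hsa, ← hss]; simp only [mul_assoc]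
  have e2 : star (x * s) * (x * s) = star s * (star x * x) * s := by
    rw [star_mul]; simp only [mul_assoc]
  have h1 : rk T (x * b * star x) = rk T (star (x * s) * (x * s)) := by
    rw [e1]
    unfold rk phi
    congr 1
    ext k
    rw [hswap B T (x * s) (fun t : ℝ => min 1 (t / (1 / ((k : ℝ) + 1)))) (by fun_prop) (by simp)]
  rw [h1]
  have h2 : star (x * s) * (x * s) ≤ (‖star x * x‖ + 1) • b := by
    rw [e2]
    refine (CStarAlgebra.star_left_conjugate_le_norm_smul (IsSelfAdjoint.star_mul_self x)).trans ?_
    rw [hsa, hss, add_smul, one_smul]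
    exact le_add_of_nonneg_right hb
  exact hmon B T _ b _ (star_mul_self_nonneg _) hb (by positivity) h2

end Pool.Agent.H327R4.Pure
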