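import Pool.Agent.H327R4.Pure.Stubs1

/-!
# `cut` of an orthogonal sum
-/

set_option autoImplicit false

namespace Pool.Agent.H327R4.Pure

open Filter Topology

universe u

theorem csm_holds (horth : StORTH.{u}) : StCSM.{u} := by
  intro B _ _ _ k
  induction k with
  | zero =>
    intro b ε _ _ hε
    simp only [Finset.univ_eq_empty, Finset.sum_empty]
    unfold cut
    exact cfcₙ_apply_zero
  | succ k ih =>
    intro b ε hb hbb hε
    rw [Fin.sum_univ_succ, Fin.sum_univ_succ, ← ih (fun i => b i.succ) ε (fun i => hb _)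
      (fun i j hij => hbb _ _ (fun h => hij (Fin.succ_injective _ h))) hε]
    unfold cut
    refine horth B (b 0) (∑ i : Fin k, b i.succ) (fun x : ℝ => max (x - ε) 0) (hb 0)
      (Finset.sum_nonneg (fun i _ => hb _)) ?_ (by fun_prop) (by simpa using hε)
    rw [Finset.mul_sum]
    exact Finset.sum_eq_zero (fun i _ => hbb _ _ (Fin.succ_ne_zero i).symm)

end Pool.Agent.H327R4.Pure
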