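import Pool.Agent.H327R4.Pure.Stubs2

/-!
Task EQV: the embeddings of matrices in the stabilisation are equivalent.
-/

set_option autoImplicit false

namespace Pool.Agent.H327R4.Pure

open Filter Topology

universe u v w

theorem eqv_key {A : Type u} {S : Type v} [CStarAlgebra A] [NonUnitalCStarAlgebra S]
    (st : Stab A S) {ι : Type w} [Fintype ι] [DecidableEq ι] (e e' : ι → ℕ)
    (he' : Function.Injective e') (a : ι → ι → A) :
    (∑ i, st.E (e i) (e' i) 1) * (∑ k, ∑ l, st.E (e' k) (e' l) (a k l)) *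
      star (∑ i, st.E (e i) (e' i) 1) = ∑ i, ∑ l, st.E (e i) (e l) (a i l) := by
  have h1 : (∑ i, st.E (e i) (e' i) 1) * (∑ k, ∑ l, st.E (e' k) (e' l) (a k l)) =
      ∑ i, ∑ l, st.E (e i) (e' l) (a i l) := by
    rw [Finset.sum_mul]
    refine Finset.sum_congr rfl fun i _ => ?_
    rw [Finset.mul_sum]
    refine (Finset.sum_eq_single i ?_ ?_).trans ?_
    · intro k _ hk
      rw [Finset.mul_sum]
      refine Finset.sum_eq_zero fun l _ => ?_
      rw [st.mul, if_neg]
      exact fun h => hk (he' h).symm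
    · intro h
      exact absurd (Finset.mem_univ i) h
    · rw [Finset.mul_sum]
      refine Finset.sum_congr rfl fun l _ => ?_
      rw [st.mul, if_pos rfl, one_mul]
  rw [h1, Finset.sum_mul]
  refine Finset.sum_congr rfl fun i _ => ?_
  rw [Finset.sum_mul]
  refine Finset.sum_congr rfl fun l _ => ?_
  rw [star_sum, Finset.mul_sum]
  refine (Finset.sum_eq_single l ?_ ?_).trans ?_
  · intro m _ hm
    rw [st.str, st.mul, if_neg]
    exact fun h => hm (he' h).symm
  · intro h
    exact absurd (Finset.mem_univ l) h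
  · rw [st.str, st.mul, if_pos rfl, star_one, mul_one]

theorem eqv_holds : StEQV.{u, v} := by
  intro A S _ _ _ _ _ _ st n e e' he he' a
  refine ⟨fun _ => ∑ i, st.E (e i) (e' i) 1, ?_⟩
  have h : (∑ i, st.E (e i) (e' i) 1) * st.hom e' he' a * star (∑ i, st.E (e i) (e' i) 1) =
      st.hom e he a := by
    rw [Stab.hom_apply, Stab.hom_apply]
    exact eqv_key st e e' he' (fun i j => a i j)
  simp only [h]
  exact tendsto_const_nhds

end Pool.Agent.H327R4.Pure
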