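import Pool.Agent.H327R4.Pure.Stubs1

set_option autoImplicit false

namespace Pool.Agent.H327R4.Pure

open Filter Topology

universe u v

namespace FULLx

variable {A : Type u} [CStarAlgebra A]

/-- sums `∑ a_i c b_i` -/
def J (c : A) : Set A := {x | ∃ (n : ℕ) (a b : Fin n → A), x = ∑ i, a i * c * b i}

theorem J_zero (c : A) : (0 : A) ∈ J c := ⟨0, Fin.elim0, Fin.elim0, by simp⟩

theorem J_self (c : A) : c ∈ J c := ⟨1, fun _ => 1, fun _ => 1, by simp⟩

theorem J_add (c : A) {x y : A} (hx : x ∈ J c) (hy : y ∈ J c) : x + y ∈ J c := by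
  obtain ⟨n, a, b, rfl⟩ := hx
  obtain ⟨m, a', b', rfl⟩ := hy
  refine ⟨n + m, Fin.append a a', Fin.append b b', ?_⟩
  rw [Fin.sum_univ_add]
  simp

theorem J_left (c : A) {x y : A} (hy : y ∈ J c) : x * y ∈ J c := by
  obtain ⟨m, a, b, rfl⟩ := hy
  refine ⟨m, fun i => x * a i, b, ?_⟩
  rw [Finset.mul_sum]
  exact Finset.sum_congr rfl fun i _ => by simp only [mul_assoc]

theorem J_right (c : A) {x y : A} (hx : x ∈ J c) : x * y ∈ J c := by
  obtain ⟨m, a, b, rfl⟩ := hx
  refine ⟨m, a, fun i => b i * y, ?_⟩
  rw [Finset.sum_mul]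
  exact Finset.sum_congr rfl fun i _ => by simp only [mul_assoc]

theorem J_neg (c : A) {x : A} (hx : x ∈ J c) : -x ∈ J c := by
  have := J_left c (x := -1) hx
  simpa using this

theorem cl_add (c : A) {x y : A} (hx : x ∈ closure (J c)) (hy : y ∈ closure (J c)) :
    x + y ∈ closure (J c) :=
  map_mem_closure₂ continuous_add hx hy fun _ ha _ hb => J_add c ha hb

theorem cl_left (c x : A) {y : A} (hy : y ∈ closure (J c)) : x * y ∈ closure (J c) :=
  map_mem_closure (f := fun z => x * z) (continuous_const.mul continuous_id) hy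
    fun _ h => J_left c (x := x) h

theorem cl_right (c y : A) {x : A} (hx : x ∈ closure (J c)) : x * y ∈ closure (J c) :=
  map_mem_closure (f := fun z => z * y) (continuous_id.mul continuous_const) hx
    fun _ h => J_right c (y := y) h

theorem cl_neg (c : A) {x : A} (hx : x ∈ closure (J c)) : -x ∈ closure (J c) :=
  map_mem_closure (f := fun z => -z) continuous_neg hx fun _ h => J_neg c h

/-- the closed ideal generated by `c` -/
def K (c : A) : TwoSidedIdeal A :=
  TwoSidedIdeal.mk' (closure (J c)) (subset_closure (J_zero c)) (fun hx hy => cl_add c hx hy)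
    (fun hx => cl_neg c hx) (fun {x _} hy => cl_left c x hy) (fun {_ y} hx => cl_right c y hx)

theorem exists_near (h : SimpleC A) (c : A) (hc : c ≠ 0) : ∃ X ∈ J c, ‖X - 1‖ < 1 / 2 := by
  have hcl : IsClosed ((K c : TwoSidedIdeal A) : Set A) := by
    unfold K
    rw [TwoSidedIdeal.coe_mk']
    exact isClosed_closure
  have hcm : c ∈ K c := by
    unfold K
    rw [TwoSidedIdeal.mem_mk']
    exact subset_closure (J_self c)
  rcases h.2 (K c) hcl with hb | ht
  · exfalso
    rw [hb, TwoSidedIdeal.mem_bot] at hcm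
    exact hc hcm
  · have h1 : (1 : A) ∈ K c := by
      rw [ht]
      trivial
    unfold K at h1
    rw [TwoSidedIdeal.mem_mk', Metric.mem_closure_iff] at h1
    obtain ⟨X, hX, hd⟩ := h1 (1 / 2) (by norm_num)
    refine ⟨X, hX, ?_⟩
    rw [dist_comm, dist_eq_norm] at hd
    exact hd

end FULLx

theorem full_holds : StFULL.{u} := by
  intro A _ _ _ hA c hc0 hc
  obtain ⟨X, ⟨n, a, b, rfl⟩, hX⟩ := FULLx.exists_near hA c hc
  set X := ∑ i, a i * c * b i with hXdef
  set T := ∑ i, (a i * c * star (a i) + star (b i) * c * b i) with hT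
  have hcs : star c = c := (IsSelfAdjoint.of_nonneg hc0).star_eq
  -- `X + X^* ≤ T`
  have h1 : X + star X ≤ T := by
    rw [hXdef, star_sum, ← Finset.sum_add_distrib, hT]
    refine Finset.sum_le_sum fun i _ => ?_
    have h := star_right_conjugate_nonneg hc0 (a i - star (b i))
    have e : (a i - star (b i)) * c * star (a i - star (b i)) =
        (a i * c * star (a i) + star (b i) * c * b i) -
          (a i * c * b i + star (a i * c * b i)) := by
      rw [star_sub, star_star, star_mul, star_mul, hcs]
      noncomm_ring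
    rw [e] at h
    exact sub_nonneg.1 h
  -- `1 ≤ X + X^*`
  have h2 : (1 : A) ≤ X + star X := by
    have hs : IsSelfAdjoint ((X - 1) + star (X - 1)) := IsSelfAdjoint.add_star_self _
    have hn : ‖(X - 1) + star (X - 1)‖ ≤ 1 := by
      refine (norm_add_le _ _).trans ?_
      rw [norm_star]
      linarith
    have h3 : -(1 : A) ≤ (X - 1) + star (X - 1) := by
      have h4 := hs.neg_algebraMap_norm_le_self
      refine le_trans ?_ h4
      rw [neg_le_neg_iff]
      have := (algebraMap_mono A : Monotone (algebraMap ℝ A)) hn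
      simpa using this
    have h5 : (X - 1) + star (X - 1) = X + star X - 2 := by
      rw [star_sub, star_one]
      have : (2 : A) = 1 + 1 := by norm_num
      rw [this]
      abel
    rw [h5] at h3
    have : (1 : A) = 2 + -1 := by norm_num
    rw [this]
    calc (2 : A) + -1 ≤ 2 + (X + star X - 2) := by gcongr
      _ = X + star X := by abel
  have hT1 : (1 : A) ≤ T := h2.trans h1
  have hTpos : IsStrictlyPositive T := by
    have h0 : (0 : A) ≤ 1 := zero_le_one
    exact (IsStrictlyPositive.iff_of_unital).2 ⟨h0.trans hT1, CStarAlgebra.isUnit_of_le 1 hT1⟩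
  set r := T ^ (-(1 / 2) : ℝ) with hr
  have hrT : r * T * r = 1 := CFC.conjugate_rpow_neg_one_half T hTpos
  have hrs : star r = r := by
    have : (0 : A) ≤ r := CFC.rpow_nonneg
    exact (IsSelfAdjoint.of_nonneg this).star_eq
  refine ⟨n + n, Fin.append (fun i => star (a i) * r) (fun i => b i * r), ?_⟩
  rw [Fin.sum_univ_add]
  simp only [Fin.append_left, Fin.append_right, star_mul, star_star, hrs]
  rw [← Finset.sum_add_distrib, ← hrT, hT, Finset.mul_sum, Finset.sum_mul]
  refine Finset.sum_congr rfl fun i _ => ?_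
  noncomm_ring

end Pool.Agent.H327R4.Pure
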