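import Pool.Agent.H327R4.Pure.Stubs1

/-!
# Homomorphisms preserve `cut`, `phi`, `rk`
-/

set_option autoImplicit false

namespace Pool.Agent.H327R4.Pure

open Filter Topology

universe u v

theorem hom_holds : StHOM.{u, v} := by
  intro B C _ _ _ _ _ _ φ a ha
  have hcont : Continuous φ := map_continuous φ
  have hφa : 0 ≤ φ a := map_nonneg φ ha
  have hsa : IsSelfAdjoint a := IsSelfAdjoint.of_nonneg ha
  have hsφ : IsSelfAdjoint (φ a) := IsSelfAdjoint.of_nonneg hφa
  have hmap : ∀ f : ℝ → ℝ, Continuous f → f 0 = 0 → φ (cfcₙ f a) = cfcₙ f (φ a) := by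
    intro f hf hf0
    exact NonUnitalStarAlgHomClass.map_cfcₙ (S := ℂ) φ f a hf.continuousOn hf0 hcont hsa hsφ
  have hphi : ∀ δ : ℝ, 0 < δ → φ (phi δ a) = phi δ (φ a) := by
    intro δ _
    exact hmap _ (by fun_prop) (by simp)
  refine ⟨hφa, ?_, hphi, ?_⟩
  · intro ε hε
    exact hmap _ (by fun_prop) (by simpa using hε)
  · intro T T' hT
    unfold rk
    congr 1
    funext k
    rw [← hphi _ (by positivity), hT]

end Pool.Agent.H327R4.Pure
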