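import Pool.Agent.H327R4.Pure.Stubs2

set_option autoImplicit false
set_option linter.unusedSectionVars false

namespace Pool.Agent.H327R4.Pure

open Filter Topology

universe u v

namespace ISO

section

variable {A : Type u} {S : Type v} [CStarAlgebra A] [PartialOrder A] [StarOrderedRing A]
  [NonUnitalCStarAlgebra S]

theorem E_inj (st : Stab A S) (i j : ℕ) (a : A) (h : st.E i j a = 0) : a = 0 := by
  have h1 : st.E 0 i 1 * st.E i j a * st.E j 0 1 = st.E 0 0 a := by
    rw [st.mul, if_pos rfl, st.mul, if_pos rfl, one_mul, mul_one]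
  rw [h, mul_zero, zero_mul] at h1
  apply st.inj
  rw [← h1, map_zero]

theorem inj (st : Stab A S) {n : ℕ} (e : Fin n → ℕ) (he : Function.Injective e) :
    Function.Injective (st.hom e he : MM n A →⋆ₙₐ[ℂ] S) := by
  classical
  rw [injective_iff_map_eq_zero]
  intro M hM
  ext i j
  rw [Stab.hom_apply] at hM
  have h2 : st.E 0 (e i) 1 * (∑ p, ∑ q, st.E (e p) (e q) (M p q)) * st.E (e j) 0 1
      = st.E 0 0 (M i j) := by
    rw [Finset.mul_sum, Finset.sum_mul]
    rw [Finset.sum_eq_single i]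
    · rw [Finset.mul_sum, Finset.sum_mul]
      rw [Finset.sum_eq_single j]
      · rw [st.mul, if_pos rfl, st.mul, if_pos rfl, one_mul, mul_one]
      · intro q _ hq
        have : e q ≠ e j := fun h => hq (he h)
        rw [st.mul, if_pos rfl, st.mul, if_neg this]
      · simp
    · intro p _ hp
      have : e i ≠ e p := fun h => hp (he h).symm
      rw [Finset.mul_sum, Finset.sum_mul]
      refine Finset.sum_eq_zero fun q _ => ?_
      rw [st.mul, if_neg this, zero_mul]
    · simp
  rw [hM, mul_zero, zero_mul] at h2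
  have h3 : st.E 0 0 (M i j) = st.E 0 0 0 := by rw [← h2, map_zero]
  exact st.inj h3

end

theorem refl {B : Type u} {C : Type v} [NonUnitalCStarAlgebra B] [PartialOrder B]
    [StarOrderedRing B] [NonUnitalCStarAlgebra C] [PartialOrder C] [StarOrderedRing C]
    (φ : B →⋆ₙₐ[ℂ] C) (hinj : Function.Injective φ) (M : B) (h : 0 ≤ φ M) : 0 ≤ M := by
  have hsa : IsSelfAdjoint M := by
    have h1 : IsSelfAdjoint (φ M) := h.isSelfAdjoint
    rw [IsSelfAdjoint] at h1 ⊢
    apply hinj
    rw [map_star, h1]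
  have hcont : Continuous φ := (NonUnitalStarAlgHom.isometry φ hinj).continuous
  have h2 : φ (M⁻) = (φ M)⁻ := by
    rw [CFC.negPart_def, CFC.negPart_def]
    exact NonUnitalStarAlgHom.map_cfcₙ φ _ M (hφ := hcont) (ha := hsa)
      (hφa := h.isSelfAdjoint)
  have h3 : (φ M)⁻ = 0 := (CFC.negPart_eq_zero_iff _ h.isSelfAdjoint).2 h
  rw [h3] at h2
  have h4 : M⁻ = 0 := by
    apply hinj
    rw [h2, map_zero]
  exact (CFC.negPart_eq_zero_iff M hsa).1 h4

theorem pos {B : Type u} {C : Type v} [NonUnitalCStarAlgebra B] [PartialOrder B]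
    [StarOrderedRing B] [NonUnitalCStarAlgebra C] [PartialOrder C] [StarOrderedRing C]
    (φ : B →⋆ₙₐ[ℂ] C) (M : B) (h : 0 ≤ M) : 0 ≤ φ M := map_nonneg φ h

end ISO

theorem iso_holds : StISO.{u, v} := by
  intro A S _ _ _ _ _ _ st n e he
  have hinj := ISO.inj st e he
  exact ⟨fun M => NonUnitalStarAlgHom.norm_map (st.hom e he) hinj M,
    fun M => ⟨ISO.refl (st.hom e he) hinj M, ISO.pos (st.hom e he) M⟩⟩

end Pool.Agent.H327R4.Pure
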