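import Pool.Agent.H327R4.Pure.Stubs1

set_option autoImplicit false

namespace Pool.Agent.H327R4.Pure

open Filter Topology

universe u v

namespace KRx

variable {B : Type u} [NonUnitalCStarAlgebra B] [PartialOrder B] [StarOrderedRing B]

theorem sq_below (e : B) (he : 0 ≤ e) : Cz e (e * e) := by
  set g : ℕ → ℝ → ℝ := fun n t => Real.sqrt (max t 0) / (max t 0 + 1 / ((n : ℝ) + 1)) with hg
  have hgc : ∀ n, Continuous (g n) := by
    intro n
    rw [hg]
    refine Continuous.div (by fun_prop) (by fun_prop) fun t => ?_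
    have : 0 ≤ max t 0 := le_max_right _ _
    positivity
  have hg0 : ∀ n, g n 0 = 0 := by
    intro n
    simp [hg]
  refine ⟨fun n => cfcₙ (g n) e, ?_⟩
  have hstar : ∀ n, star (cfcₙ (g n) e) = cfcₙ (g n) e := fun n =>
    (IsSelfAdjoint.cfcₙ (f := g n) (a := e)).star_eq
  have hprod : ∀ n, cfcₙ (g n) e * (e * e) * star (cfcₙ (g n) e) =
      cfcₙ (fun t => g n t * (t * t) * g n t) e := by
    intro n
    rw [hstar]
    have e1 : e = cfcₙ (fun t : ℝ => t) e := (cfcₙ_id' ℝ e (IsSelfAdjoint.of_nonneg he)).symm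
    have e2 : e * e = cfcₙ (fun t : ℝ => t * t) e := by
      rw [cfcₙ_mul (fun t : ℝ => t) (fun t : ℝ => t) e (by fun_prop) rfl (by fun_prop) rfl, ← e1]
    rw [e2]
    rw [cfcₙ_mul (fun t => g n t * (t * t)) (g n) e
      ((hgc n).mul (by fun_prop)).continuousOn (by simp [hg0 n]) (hgc n).continuousOn (hg0 n),
      cfcₙ_mul (g n) (fun t => t * t) e (hgc n).continuousOn (hg0 n)
        (Continuous.continuousOn (by fun_prop)) (by simp)]
  have hdiff : ∀ n, ‖cfcₙ (g n) e * (e * e) * star (cfcₙ (g n) e) - e‖ ≤ 2 / ((n : ℝ) + 1) := by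
    intro n
    rw [hprod n]
    have hid : cfcₙ (fun t => g n t * (t * t) * g n t) e - e =
        cfcₙ (fun t => g n t * (t * t) * g n t) e - cfcₙ (fun t : ℝ => t) e := by
      rw [cfcₙ_id' ℝ e (IsSelfAdjoint.of_nonneg he)]
    rw [hid]
    rw [← cfcₙ_sub (fun t => g n t * (t * t) * g n t) (fun t : ℝ => t) e
      (((hgc n).mul (by fun_prop)).mul (hgc n)).continuousOn (by simp)
      (Continuous.continuousOn (by fun_prop)) (by simp)]
    refine norm_cfcₙ_le fun t ht => ?_
    have ht0 : 0 ≤ t := quasispectrum_nonneg_of_nonneg e he t ht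
    have hd : (0 : ℝ) < 1 / ((n : ℝ) + 1) := by positivity
    set δ : ℝ := 1 / ((n : ℝ) + 1) with hδ
    have hgt : g n t = Real.sqrt t / (t + δ) := by
      simp only [hg, max_eq_left ht0, hδ]
    rw [hgt]
    have hne : 0 < t + δ := by linarith
    have hs : Real.sqrt t * Real.sqrt t = t := Real.mul_self_sqrt ht0
    have e1 : Real.sqrt t / (t + δ) * (t * t) * (Real.sqrt t / (t + δ)) =
        t * (t / (t + δ)) ^ 2 := by
      field_simp
      nlinarith [hs]
    rw [e1]
    have h1 : 0 ≤ t / (t + δ) := by positivity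
    have h2 : t / (t + δ) ≤ 1 := by
      rw [div_le_one hne]
      linarith
    have h3 : t * (1 - t / (t + δ)) ≤ δ := by
      have : t * (1 - t / (t + δ)) = t / (t + δ) * δ := by
        field_simp
        ring
      rw [this]
      nlinarith
    have h4 : t * (t / (t + δ)) ^ 2 - t = -(t * (1 - t / (t + δ)) * (1 + t / (t + δ))) := by ring
    rw [h4, Real.norm_eq_abs, abs_neg, abs_of_nonneg (by
      have : 0 ≤ 1 - t / (t + δ) := by linarith
      positivity)]
    have h5 : 2 / ((n : ℝ) + 1) = 2 * δ := by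
      rw [hδ]
      ring
    rw [h5]
    have h6 : 0 ≤ t * (1 - t / (t + δ)) := by
      have : 0 ≤ 1 - t / (t + δ) := by linarith
      positivity
    nlinarith
  rw [tendsto_iff_norm_sub_tendsto_zero]
  refine squeeze_zero (fun n => norm_nonneg _) hdiff ?_
  have := tendsto_one_div_add_atTop_nhds_zero_nat (𝕜 := ℝ)
  have h2 := this.const_mul 2
  simp only [mul_one_div, mul_zero] at h2
  exact h2

end KRx

theorem kr_holds (hle : StLE.{u}) (htra : StTRA.{u}) (hct : StCT.{u}) : StKR.{u} := by
  intro B _ _ _ a b ε η ha hb hab hη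
  have hε : 0 ≤ ε := (norm_nonneg _).trans hab
  set c := ε + η with hcdef
  have hc : 0 ≤ c := add_nonneg hε hη
  set m : ℝ → ℝ := fun t => max (t - c) 0 with hm
  set q : ℝ → ℝ := fun t => Real.sqrt (m t) with hq
  have hmc : Continuous m := by
    rw [hm]
    fun_prop
  have hm0 : m 0 = 0 := by simp [hm, hc]
  have hqc : Continuous q := Real.continuous_sqrt.comp hmc
  have hq0 : q 0 = 0 := by simp [hq, hm0]
  have hmn : ∀ t, 0 ≤ m t := fun t => le_max_right _ _
  have hqq : ∀ t, q t * q t = m t := fun t => Real.mul_self_sqrt (hmn t)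
  set e := cut c a with he
  have he' : e = cfcₙ m a := rfl
  set s := cfcₙ q a with hs
  have hsa : IsSelfAdjoint a := IsSelfAdjoint.of_nonneg ha
  have hsb : IsSelfAdjoint b := IsSelfAdjoint.of_nonneg hb
  have hss : star s = s := (IsSelfAdjoint.cfcₙ (f := q) (a := a)).star_eq
  obtain ⟨k1, k2, -, -, -, k6, -, -, -⟩ := hct B b hb
  have he0 : 0 ≤ e := (hct B a ha).1 c
  -- `s * s = e`
  have h1 : s * s = e := by
    rw [hs, ← cfcₙ_mul q q a hqc.continuousOn hq0 hqc.continuousOn hq0, he']
    exact cfcₙ_congr fun t _ => hqq t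
  -- `s * a * s = e * e + c • e`
  have h2 : s * a * s = e * e + c • e := by
    have e1 : a = cfcₙ (fun t : ℝ => t) a := (cfcₙ_id' ℝ a hsa).symm
    have e2 : s * a * s = cfcₙ (fun t => q t * t * q t) a := by
      rw [cfcₙ_mul (fun t => q t * t) q a (hqc.mul continuous_id).continuousOn (by simp)
        hqc.continuousOn hq0, cfcₙ_mul q (fun t => t) a hqc.continuousOn hq0
        continuous_id.continuousOn rfl, ← e1]
    have e3 : e * e + c • e = cfcₙ (fun t => m t * m t + c • m t) a := by
      rw [cfcₙ_add (fun t => m t * m t) (fun t => c • m t) a (hmc.mul hmc).continuousOn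
        (by simp [hm0]) (hmc.const_smul c).continuousOn (by simp [hm0]),
        cfcₙ_mul m m a hmc.continuousOn hm0 hmc.continuousOn hm0,
        cfcₙ_smul c m a hmc.continuousOn hm0, ← he']
    rw [e2, e3]
    refine cfcₙ_congr fun t _ => ?_
    simp only [smul_eq_mul]
    have h := hqq t
    have h3 : q t * t * q t = m t * t := by rw [← h]; ring
    rw [h3]
    rcases le_total (t - c) 0 with h0 | h0
    · have : m t = 0 := by simp [hm, h0]
      rw [this]
      ring
    · have : m t = t - c := by simp [hm, h0]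
      rw [this]
      ring
  -- norms
  have h3 : s * (a - b) * s ≤ ε • e := by
    have := CStarAlgebra.star_right_conjugate_le_norm_smul (a := s) (b := a - b) (hsa.sub hsb)
    rw [hss, h1] at this
    refine this.trans ?_
    exact smul_le_smul_of_nonneg_right hab he0
  have h4 : s * (b - cut η b) * s ≤ η • e := by
    have hsc : IsSelfAdjoint (b - cut η b) := hsb.sub (IsSelfAdjoint.of_nonneg (k1 η))
    have := CStarAlgebra.star_right_conjugate_le_norm_smul (a := s) (b := b - cut η b) hsc
    rw [hss, h1] at this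
    refine this.trans ?_
    exact smul_le_smul_of_nonneg_right (k6 η hη) he0
  have h5 : e * e ≤ s * cut η b * s := by
    have e1 : s * a * s = s * (a - b) * s + s * (b - cut η b) * s + s * cut η b * s := by
      noncomm_ring
    have e2 : e * e = s * a * s - c • e := by rw [h2]; abel
    rw [e2, e1, hcdef, add_smul]
    have : s * (a - b) * s + s * (b - cut η b) * s ≤ ε • e + η • e := add_le_add h3 h4
    calc s * (a - b) * s + s * (b - cut η b) * s + s * cut η b * s - (ε • e + η • e)
        ≤ (ε • e + η • e) + s * cut η b * s - (ε • e + η • e) := by gcongr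
      _ = s * cut η b * s := by abel
  have hee : 0 ≤ e * e := by
    have := star_mul_self_nonneg e
    rwa [(IsSelfAdjoint.of_nonneg he0).star_eq] at this
  refine htra B _ _ _ (KRx.sq_below e he0) (htra B _ _ _ (hle B _ _ hee h5) ?_)
  refine ⟨fun _ => s, ?_⟩
  show Tendsto (fun _ => s * cut η b * star s) atTop (𝓝 (s * cut η b * s))
  rw [hss]
  exact tendsto_const_nhds

end Pool.Agent.H327R4.Pure
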