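import Pool.Agent.H327R4.Pure.Stubs2

set_option autoImplicit false

namespace Pool.Agent.H327R4.Pure

universe u

theorem ksum_aux (hadd : StADD.{u}) (B : Type u) [NonUnitalCStarAlgebra B] [PartialOrder B]
    [StarOrderedRing B] (T : Tr B) (k : ℕ) : ∀ (x : Fin k → B), (∀ j, 0 ≤ x j) →
    (∀ j j', j ≠ j' → x j * x j' = 0) →
    0 ≤ ∑ j, x j ∧ rk T (∑ j, x j) = ∑ j, rk T (x j) := by
  induction k with
  | zero =>
    intro x _ _
    have h := hadd B T 0 0 le_rfl le_rfl (mul_zero _)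
    rw [add_zero] at h
    refine ⟨by simp, ?_⟩
    simp only [Finset.univ_eq_empty, Finset.sum_empty]
    linarith
  | succ k ih =>
    intro x hx ho
    obtain ⟨h1, h2⟩ := ih (fun j => x j.succ) (fun j => hx _)
      (fun j j' h => ho _ _ (fun h' => h (Fin.succ_injective _ h')))
    rw [Fin.sum_univ_succ, Fin.sum_univ_succ]
    refine ⟨add_nonneg (hx 0) h1, ?_⟩
    rw [hadd B T (x 0) (∑ j : Fin k, x j.succ) (hx 0) h1, h2]
    rw [Finset.mul_sum]
    exact Finset.sum_eq_zero fun j _ => ho _ _ (Fin.succ_ne_zero j).symm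

theorem ksum_nonneg (A : Type u) [CStarAlgebra A] [PartialOrder A] [StarOrderedRing A] (k N : ℕ)
    (x : Fin k → MM N A) (ha : ∀ j, 0 ≤ x j) : 0 ≤ ∑ j, x j :=
  Finset.sum_nonneg fun j _ => ha j

theorem ksum_orth (A : Type u) [CStarAlgebra A] [PartialOrder A] [StarOrderedRing A] (k m N : ℕ)
    (e : Fin k → Fin m → Fin N) (he : ∀ j, Function.Injective (e j))
    (hd : ∀ j j', j ≠ j' → ∀ i i', e j i ≠ e j' i') (a : MM m A) :
    ∀ j j', j ≠ j' → emb (e j) (he j) a * emb (e j') (he j') a = 0 := by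
  intro j j' hjj
  exact emb_mul_emb (e j) (he j) (e j') (he j') (hd j j' hjj) a a

theorem ksum_one (hhom : StHOM.{u, u}) (A : Type u) [CStarAlgebra A] [PartialOrder A]
    [StarOrderedRing A] (m N : ℕ) (e : Fin m → Fin N) (he : Function.Injective e) (a : MM m A)
    (ha : 0 ≤ a) : 0 ≤ emb e he a ∧
      ∀ T : Tr A, rk (trM T (Fin N)) (emb e he a) = rk (trM T (Fin m)) a := by
  have h := hhom (MM m A) (MM N A) (emb e he) a ha
  exact ⟨h.1, fun T => h.2.2.2 (trM T (Fin m)) (trM T (Fin N)) (fun x => trM_emb T e he x)⟩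

theorem ksum_mat (hadd : StADD.{u}) (A : Type u) [CStarAlgebra A] [PartialOrder A]
    [StarOrderedRing A] (k N : ℕ) (x : Fin k → MM N A) (ha : ∀ j, 0 ≤ x j)
    (h : ∀ j j', j ≠ j' → x j * x j' = 0) (T : Tr A) :
    rk (trM T (Fin N)) (∑ j, x j) = ∑ j, rk (trM T (Fin N)) (x j) :=
  (ksum_aux hadd (MM N A) (trM T (Fin N)) k x ha h).2

theorem ksum_holds (hadd : StADD.{u}) (hhom : StHOM.{u, u}) : StKSUM.{u} := by
  intro A i1 i2 i3 k m N e he hd a ha
  have hone := fun j => ksum_one hhom A m N (e j) (he j) a ha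
  refine ⟨ksum_nonneg A k N (fun j => emb (e j) (he j) a) (fun j => (hone j).1), ?_⟩
  intro T
  have h := ksum_mat hadd A k N (fun j => emb (e j) (he j) a) (fun j => (hone j).1)
    (ksum_orth A k m N e he hd a) T
  refine h.trans ?_
  have h3 : ∀ j ∈ (Finset.univ : Finset (Fin k)), rk (trM T (Fin N)) (emb (e j) (he j) a) =
      rk (trM T (Fin m)) a := fun j _ => (hone j).2 T
  refine (Finset.sum_congr rfl h3).trans ?_
  rw [Finset.sum_const, Finset.card_univ, Fintype.card_fin, nsmul_eq_mul]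

end Pool.Agent.H327R4.Pure
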