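import Pool.Agent.H327R4.Pure.Stubs1

/-!
# LE: `0 ≤ a ≤ b` implies `a ≾ b`
-/

set_option autoImplicit false

namespace Pool.Agent.H327R4.Pure

open Filter Topology

universe u

theorem TLE_p0 (δ : ℝ) : (fun t : ℝ => t / (|t| + δ)) 0 = 0 := by simp

theorem TLE_pc {δ : ℝ} (hδ : 0 < δ) : Continuous (fun t : ℝ => t / (|t| + δ)) :=
  continuous_id.div (by fun_prop) (fun t => by positivity)

theorem TLE_wc {δ : ℝ} (hδ : 0 < δ) : Continuous (fun t : ℝ => Real.sqrt t / (|t| + δ)) :=
  Real.continuous_sqrt.div (by fun_prop) (fun t => by positivity)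

/-- the key estimate -/
theorem TLE_key {B : Type u} [NonUnitalCStarAlgebra B] [PartialOrder B] [StarOrderedRing B]
    {a b c : B} (hc : IsSelfAdjoint c) (hcc : c * c = a) (ha : 0 ≤ a) (hab : a ≤ b)
    {δ : ℝ} (hδ : 0 < δ) :
    ‖c - cfcₙ (fun t : ℝ => t / (|t| + δ)) b * c‖ ^ 2 ≤ δ := by
  have hb : 0 ≤ b := ha.trans hab
  have hbs : IsSelfAdjoint b := IsSelfAdjoint.of_nonneg hb
  set p : B := cfcₙ (fun t : ℝ => t / (|t| + δ)) b with hp
  have hps : star p = p := (cfcₙ_predicate (R := ℝ) (p := IsSelfAdjoint) _ b).star_eq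
  have hcs : star c = c := hc.star_eq
  obtain ⟨d, hd⟩ : ∃ d : B, b - a = d * star d := by
    obtain ⟨d, hd⟩ := CStarAlgebra.nonneg_iff_eq_mul_star_self.1 (sub_nonneg.2 hab)
    exact ⟨d, hd⟩
  have h1 : (c - p * c) * star (c - p * c) = a - p * a - a * p + p * a * p := by
    rw [star_sub, star_mul, hcs, hps, ← hcc]
    noncomm_ring
  have h2 : a - p * a - a * p + p * a * p ≤ b - p * b - b * p + p * b * p := by
    rw [← sub_nonneg]
    have h3 : b - p * b - b * p + p * b * p - (a - p * a - a * p + p * a * p) =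
        (d - p * d) * star (d - p * d) := by
      rw [star_sub, star_mul, hps]
      have h4 : (d - p * d) * (star d - star d * p) =
          d * star d - p * (d * star d) - (d * star d) * p + p * (d * star d) * p := by
        noncomm_ring
      rw [h4, ← hd]
      noncomm_ring
    rw [h3]
    exact mul_star_self_nonneg _
  have hpc := TLE_pc hδ
  have hid : cfcₙ (fun t : ℝ => t) b = b := cfcₙ_id' ℝ b
  have h5 : b - p * b - b * p + p * b * p = cfcₙ (fun t : ℝ =>
      t - t / (|t| + δ) * t - t * (t / (|t| + δ)) + t / (|t| + δ) * t * (t / (|t| + δ))) b := by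
    have hc1 : ContinuousOn (fun t : ℝ => t / (|t| + δ)) (quasispectrum ℝ b) := hpc.continuousOn
    have e1 : cfcₙ (fun t : ℝ => t / (|t| + δ) * t) b = p * b := by
      rw [cfcₙ_mul (fun t : ℝ => t / (|t| + δ)) (fun t => t) b hc1 (by simp) continuousOn_id rfl,
        hid]
    have e2 : cfcₙ (fun t : ℝ => t * (t / (|t| + δ))) b = b * p := by
      rw [cfcₙ_mul (fun t : ℝ => t) (fun t : ℝ => t / (|t| + δ)) b continuousOn_id rfl hc1
        (by simp), hid]
    have hc2 : ContinuousOn (fun t : ℝ => t / (|t| + δ) * t) (quasispectrum ℝ b) :=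
      (hpc.mul continuous_id).continuousOn
    have hc3 : ContinuousOn (fun t : ℝ => t * (t / (|t| + δ))) (quasispectrum ℝ b) :=
      (continuous_id.mul hpc).continuousOn
    have e3 : cfcₙ (fun t : ℝ => t / (|t| + δ) * t * (t / (|t| + δ))) b = p * b * p := by
      rw [cfcₙ_mul (fun t : ℝ => t / (|t| + δ) * t) (fun t : ℝ => t / (|t| + δ)) b hc2
        (by simp) hc1 (by simp), e1]
    rw [cfcₙ_add (fun t : ℝ => t - t / (|t| + δ) * t - t * (t / (|t| + δ)))
      (fun t : ℝ => t / (|t| + δ) * t * (t / (|t| + δ))) b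
      ((continuousOn_id.sub hc2).sub hc3) (by simp) (hc2.mul hc1) (by simp), e3,
      cfcₙ_sub (fun t : ℝ => t - t / (|t| + δ) * t) (fun t : ℝ => t * (t / (|t| + δ))) b
      (continuousOn_id.sub hc2) (by simp) hc3 (by simp), e2,
      cfcₙ_sub (fun t : ℝ => t) (fun t : ℝ => t / (|t| + δ) * t) b
      continuousOn_id rfl hc2 (by simp), e1, hid]
  have h6 : ‖b - p * b - b * p + p * b * p‖ ≤ δ := by
    rw [h5]
    refine norm_cfcₙ_le (fun t ht => ?_)
    have ht0 : 0 ≤ t := quasispectrum_nonneg_of_nonneg b hb t ht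
    rw [abs_of_nonneg ht0]
    have h7 : t - t / (t + δ) * t - t * (t / (t + δ)) + t / (t + δ) * t * (t / (t + δ)) =
        t * (δ / (t + δ)) ^ 2 := by
      field_simp
      ring
    rw [h7, Real.norm_of_nonneg (by positivity)]
    rw [div_pow, mul_div_assoc', div_le_iff₀ (by positivity)]
    nlinarith [mul_nonneg ht0 hδ.le, mul_nonneg (mul_nonneg ht0 ht0) hδ.le, pow_pos hδ 3,
      mul_nonneg ht0 (mul_nonneg hδ.le hδ.le)]
  calc ‖c - p * c‖ ^ 2 = ‖(c - p * c) * star (c - p * c)‖ := by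
        rw [CStarRing.norm_self_mul_star, pow_two]
    _ ≤ ‖b - p * b - b * p + p * b * p‖ := by
        refine CStarAlgebra.norm_le_norm_of_nonneg_of_le (mul_star_self_nonneg _) ?_
        rw [h1]
        exact h2
    _ ≤ δ := h6

theorem le_holds : StLE.{u} := by
  intro B _ _ _ a b ha hab
  have hb : 0 ≤ b := ha.trans hab
  set c := CFC.sqrt a with hcdef
  have hc : IsSelfAdjoint c := IsSelfAdjoint.of_nonneg (CFC.sqrt_nonneg a)
  have hcc : c * c = a := CFC.sqrt_mul_sqrt_self a ha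
  set δ : ℕ → ℝ := fun k => 1 / ((k : ℝ) + 1) with hδdef
  have hδ : ∀ k, 0 < δ k := fun k => by positivity
  have hδt : Tendsto δ atTop (𝓝 0) := tendsto_one_div_add_atTop_nhds_zero_nat
  refine ⟨fun k => c * cfcₙ (fun t : ℝ => Real.sqrt t / (|t| + δ k)) b, ?_⟩
  have h1 : ∀ k, c * cfcₙ (fun t : ℝ => Real.sqrt t / (|t| + δ k)) b * b *
      star (c * cfcₙ (fun t : ℝ => Real.sqrt t / (|t| + δ k)) b) =
      star (cfcₙ (fun t : ℝ => t / (|t| + δ k)) b * c) *
        (cfcₙ (fun t : ℝ => t / (|t| + δ k)) b * c) := by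
    intro k
    have hid : cfcₙ (fun t : ℝ => t) b = b := cfcₙ_id' ℝ b
    have hwc : ContinuousOn (fun t : ℝ => Real.sqrt t / (|t| + δ k)) (quasispectrum ℝ b) :=
      (TLE_wc (hδ k)).continuousOn
    have hpc : ContinuousOn (fun t : ℝ => t / (|t| + δ k)) (quasispectrum ℝ b) :=
      (TLE_pc (hδ k)).continuousOn
    have hps : star (cfcₙ (fun t : ℝ => t / (|t| + δ k)) b) =
      cfcₙ (fun t : ℝ => t / (|t| + δ k)) b :=
      (cfcₙ_predicate (R := ℝ) (p := IsSelfAdjoint) _ b).star_eq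
    have hws : star (cfcₙ (fun t : ℝ => Real.sqrt t / (|t| + δ k)) b) =
      cfcₙ (fun t : ℝ => Real.sqrt t / (|t| + δ k)) b :=
      (cfcₙ_predicate (R := ℝ) (p := IsSelfAdjoint) _ b).star_eq
    have h2 : cfcₙ (fun t : ℝ => Real.sqrt t / (|t| + δ k)) b * b *
        cfcₙ (fun t : ℝ => Real.sqrt t / (|t| + δ k)) b =
        cfcₙ (fun t : ℝ => t / (|t| + δ k)) b * cfcₙ (fun t : ℝ => t / (|t| + δ k)) b := by
      have e1 : cfcₙ (fun t : ℝ => Real.sqrt t / (|t| + δ k) * t) b =
          cfcₙ (fun t : ℝ => Real.sqrt t / (|t| + δ k)) b * b := by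
        rw [cfcₙ_mul (fun t : ℝ => Real.sqrt t / (|t| + δ k)) (fun t => t) b hwc (by simp)
          continuousOn_id rfl, hid]
      have hc2 : ContinuousOn (fun t : ℝ => Real.sqrt t / (|t| + δ k) * t) (quasispectrum ℝ b) :=
        hwc.mul continuousOn_id
      rw [← e1, ← cfcₙ_mul (fun t : ℝ => Real.sqrt t / (|t| + δ k) * t)
        (fun t : ℝ => Real.sqrt t / (|t| + δ k)) b hc2 (by simp) hwc (by simp),
        ← cfcₙ_mul (fun t : ℝ => t / (|t| + δ k)) (fun t : ℝ => t / (|t| + δ k)) b hpc (by simp)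
        hpc (by simp)]
      refine cfcₙ_congr (fun t ht => ?_)
      have ht0 : 0 ≤ t := quasispectrum_nonneg_of_nonneg b hb t ht
      have h3 := Real.mul_self_sqrt ht0
      have h4 := (hδ k)
      have h5 : (0 : ℝ) < |t| + δ k := by positivity
      generalize |t| + δ k = y at *
      calc Real.sqrt t / y * t * (Real.sqrt t / y) =
          (Real.sqrt t * Real.sqrt t) * t / (y * y) := by ring
        _ = t / y * (t / y) := by rw [h3]; ring
    rw [star_mul, star_mul, hws, hps, hc.star_eq]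
    calc c * cfcₙ (fun t : ℝ => Real.sqrt t / (|t| + δ k)) b * b *
          (cfcₙ (fun t : ℝ => Real.sqrt t / (|t| + δ k)) b * c) =
          c * (cfcₙ (fun t : ℝ => Real.sqrt t / (|t| + δ k)) b * b *
          cfcₙ (fun t : ℝ => Real.sqrt t / (|t| + δ k)) b) * c := by
            simp only [mul_assoc]
      _ = _ := by rw [h2]; simp only [mul_assoc]
  simp only [h1]
  have h2 : Tendsto (fun k => cfcₙ (fun t : ℝ => t / (|t| + δ k)) b * c) atTop (𝓝 c) := by
    rw [tendsto_iff_norm_sub_tendsto_zero]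
    have h3 : Tendsto (fun k => Real.sqrt (δ k)) atTop (𝓝 0) := by
      have := (Real.continuous_sqrt.tendsto 0).comp hδt
      rw [Real.sqrt_zero] at this
      exact this
    refine squeeze_zero (fun _ => norm_nonneg _) (fun k => ?_) h3
    rw [norm_sub_rev]
    exact Real.le_sqrt_of_sq_le (TLE_key hc hcc ha hab (hδ k))
  have h3 : Tendsto (fun k => star (cfcₙ (fun t : ℝ => t / (|t| + δ k)) b * c)) atTop
      (𝓝 (star c)) := (continuous_star.tendsto c).comp h2
  have h4 := h3.mul h2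
  rw [hc.star_eq, hcc] at h4
  exact h4

end Pool.Agent.H327R4.Pure
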