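import Pool.Agent.H327R4.Pure.Stubs2

set_option autoImplicit false

namespace Pool.Agent.H327R4.Pure

open Filter Topology

universe u v

/-- a nonneg element of a C*-algebra is of the form `x* x` -/
theorem lowm_sq {B : Type u} [NonUnitalCStarAlgebra B] [PartialOrder B] [StarOrderedRing B]
    {h : B} (hh : 0 ≤ h) : ∃ x, h = star x * x :=
  CStarAlgebra.nonneg_iff_eq_star_mul_self.mp hh

/-- uniform lower bound, matrix version -/
theorem lowm_holds (hlow : StLOW.{u}) (hmt : StMT.{u}) : StLOWM.{u} := by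
  intro A _ _ _ hA m h hh hne
  obtain ⟨x, rfl⟩ := lowm_sq (B := MM m A) hh
  have hent : ∀ k, (star x * x) k k = ∑ j, star (x j k) * x j k := by
    intro k
    rw [CStarMatrix.mul_apply]
    simp [CStarMatrix.star_apply]
  have hnn : ∀ k, 0 ≤ (star x * x) k k := by
    intro k
    rw [hent]
    exact Finset.sum_nonneg fun j _ => star_mul_self_nonneg _
  have hex : ∃ j k, x j k ≠ 0 := by
    by_contra hcon
    push Not at hcon
    apply hne
    have hx : x = 0 := by
      ext j k
      rw [hcon j k]
      rfl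
    rw [hx, mul_zero]
  obtain ⟨j, k, hjk⟩ := hex
  have hc : (star x * x) k k ≠ 0 := by
    intro h0
    rw [hent] at h0
    have h1 := (Finset.sum_eq_zero_iff_of_nonneg
      (fun j _ => star_mul_self_nonneg (x j k))).1 h0 j (Finset.mem_univ j)
    exact hjk (CStarRing.star_mul_self_eq_zero_iff _ |>.1 h1)
  obtain ⟨η, hη, hT⟩ := hlow A hA _ (hnn k) hc
  refine ⟨η, hη, fun T => (hT T).trans ?_⟩
  rw [trM_apply, Complex.re_sum]
  exact Finset.single_le_sum (f := fun i => (T.f ((star x * x) i i)).re)
    (fun i _ => ((hmt A T).2.1 _ (hnn i)).1) (Finset.mem_univ k)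

end Pool.Agent.H327R4.Pure
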