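import Pool.Agent.H327R4.Pure.Stubs1

/-! helper70, for the project of helper327: the rank is monotone for Cuntz subequivalence. -/

set_option autoImplicit false

namespace Pool.Agent.H327R4.Pure

open Filter Topology

universe u

/-- `phi δ` is continuous along bounded sequences of positive elements -/
theorem tendsto_phi {B : Type u} [NonUnitalCStarAlgebra B] [PartialOrder B] [StarOrderedRing B]
    (δ : ℝ) (a : ℕ → B) (a₀ : B) (ha : ∀ n, 0 ≤ a n) (ha₀ : 0 ≤ a₀)
    (h : Tendsto a atTop (𝓝 a₀)) : Tendsto (fun n => phi δ (a n)) atTop (𝓝 (phi δ a₀)) := by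
  have hb : ∀ᶠ n in atTop, ‖a n‖ < ‖a₀‖ + 1 :=
    (h.norm).eventually_lt_const (by linarith)
  have hq : ∀ x : B, 0 ≤ x → ‖x‖ ≤ ‖a₀‖ + 1 →
      quasispectrum ℝ x ⊆ Metric.closedBall 0 (‖a₀‖ + 1) := by
    intro x h0 hx t ht
    rw [mem_closedBall_zero_iff]
    exact (NonUnitalIsometricContinuousFunctionalCalculus.norm_quasispectrum_le x ht
      (IsSelfAdjoint.of_nonneg h0)).trans hx
  refine Filter.Tendsto.cfcₙ (s := Metric.closedBall (0 : ℝ) (‖a₀‖ + 1))
    (isCompact_closedBall _ _) _ h ?_ ?_ ?_ ?_ ?_ ?_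
  · filter_upwards [hb] with n hn
    exact hq _ (ha n) hn.le
  · exact Eventually.of_forall fun n => IsSelfAdjoint.of_nonneg (ha n)
  · exact hq _ ha₀ (by linarith)
  · exact IsSelfAdjoint.of_nonneg ha₀
  · exact (continuous_const.min (continuous_id.div_const δ)).continuousOn
  · simp

theorem lsc_holds (hrk : StRK.{u}) (hcnj : StCNJ.{u}) : StLSC.{u} := by
  intro B _ _ _ T a b ha hb hab
  obtain ⟨x, hx⟩ := hab
  have han : ∀ n, 0 ≤ x n * b * star (x n) := fun n => star_right_conjugate_nonneg hb (x n)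
  refine le_of_forall_pos_sub_le fun ε hε => ?_
  obtain ⟨δ, hδ, h1⟩ := (hrk B T a ha).2.1 ε hε
  have h2 := tendsto_phi δ _ a han ha hx
  have h3 : Tendsto (fun n => (T.f (phi δ (x n * b * star (x n)))).re) atTop
      (𝓝 (T.f (phi δ a)).re) :=
    (Complex.continuous_re.comp T.f.continuous).continuousAt.tendsto.comp h2
  have h4 : (T.f (phi δ a)).re ≤ rk T b :=
    le_of_tendsto' h3 fun n => ((hrk B T _ (han n)).1 δ hδ).trans (hcnj B T (x n) b hb)
  linarith

end Pool.Agent.H327R4.Pure
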