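import Pool.Agent.H327R4.Pure.Stubs1

/-! MAIN1: all ranks almost occur. -/

set_option autoImplicit false

namespace Pool.Agent.H327R4.Pure

open Filter Topology

universe u

theorem main1_holds (hmt : StMT.{u}) (hct : StCT.{u}) (hmon : StMON.{u}) (hsmall : StSMALL.{u})
    (hfull : StFULL.{u}) (hcake : StCAKE.{u}) : StMAIN1.{u} := by
  intro A _ _ _ hs hfin h ε hh hε
  obtain ⟨N, hN⟩ := exists_nat_gt (1 / ε)
  have hN0 : (0 : ℝ) < N := lt_trans (by positivity) hN
  have hNε : 1 ≤ (N : ℝ) * ε := by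
    have := (div_lt_iff₀ hε).mp hN
    linarith
  obtain ⟨c, hc0, hcne, hcT⟩ := hsmall A hs hfin N
  obtain ⟨n, y, hy⟩ := hfull A hs c hc0 hcne
  have hs0 : 0 ≤ CFC.sqrt c := CFC.sqrt_nonneg c
  have hss : CFC.sqrt c * CFC.sqrt c = c := CFC.sqrt_mul_sqrt_self c hc0
  have hsstar : star (CFC.sqrt c) = CFC.sqrt c := (IsSelfAdjoint.of_nonneg hs0).star_eq
  set s := CFC.sqrt c with hsdef
  set Y : A := ∑ i, y i * h * star (y i) with hY
  have hY0 : 0 ≤ Y := by
    apply Finset.sum_nonneg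
    intro i _
    have := star_left_conjugate_nonneg hh (star (y i))
    rwa [star_star] at this
  set g : A := s * Y * s with hg
  have hg0 : 0 ≤ g := by
    have := star_left_conjugate_nonneg hY0 s
    rwa [hsstar] at this
  have hgT : ∀ T : Tr A, T.f g = T.f h := by
    intro T
    calc T.f g = T.f (s * (Y * s)) := by rw [hg, mul_assoc]
      _ = T.f (Y * s * s) := T.tr _ _
      _ = T.f (Y * c) := by rw [mul_assoc, hss]
      _ = ∑ i, T.f (y i * (h * star (y i) * c)) := by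
          rw [hY, Finset.sum_mul, map_sum]
          refine Finset.sum_congr rfl (fun i _ => ?_)
          congr 1
          simp only [mul_assoc]
      _ = ∑ i, T.f (h * (star (y i) * c * y i)) := by
          refine Finset.sum_congr rfl (fun i _ => ?_)
          rw [T.tr]
          congr 1
          simp only [mul_assoc]
      _ = T.f h := by
          rw [← map_sum, ← Finset.mul_sum, hy, mul_one]
  have hgle : g ≤ (‖Y‖ + 1) • c := by
    have h1 := CStarAlgebra.star_left_conjugate_le_norm_smul (a := s) (b := Y)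
      (IsSelfAdjoint.of_nonneg hY0)
    rw [hsstar, hss] at h1
    refine h1.trans ?_
    rw [add_smul, one_smul]
    exact le_add_of_nonneg_right hc0
  have hgrk : ∀ T : Tr A, rk T g ≤ ε * (T.f 1).re := by
    intro T
    have h1 := hmon A T g c (‖Y‖ + 1) hg0 hc0 (by positivity) hgle
    have h2 := hcT T
    have h3 : 0 ≤ (T.f 1).re := ((hmt A T).2.1 1 zero_le_one).1
    have h4 : (N : ℝ) * rk T g ≤ (N : ℝ) * (ε * (T.f 1).re) := by
      calc (N : ℝ) * rk T g ≤ (N : ℝ) * rk T c := by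
            apply mul_le_mul_of_nonneg_left h1 hN0.le
        _ ≤ (T.f 1).re := h2
        _ ≤ ((N : ℝ) * ε) * (T.f 1).re := by nlinarith
        _ = _ := by ring
    exact le_of_mul_le_mul_left h4 hN0
  refine ⟨⌈‖g‖⌉₊, fun j => cut ((j : ℝ) + 1) g, fun j => (hct A g hg0).1 _, ?_⟩
  intro T
  have hk := hcake A T g ⌈‖g‖⌉₊ hg0 (Nat.le_ceil _)
  rw [hgT T] at hk
  have e : ∑ j : Fin ⌈‖g‖⌉₊, rk T (cut (((j : ℕ) : ℝ) + 1) g) =
      ∑ j ∈ Finset.range ⌈‖g‖⌉₊, rk T (cut ((j : ℝ) + 1) g) :=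
    (Finset.sum_range (fun j : ℕ => rk T (cut ((j : ℝ) + 1) g))).symm
  have h5 := hgrk T
  constructor
  · show _ ≤ ∑ j : Fin ⌈‖g‖⌉₊, rk T (cut (((j : ℕ) : ℝ) + 1) g)
    rw [e]
    linarith [hk.2]
  · show ∑ j : Fin ⌈‖g‖⌉₊, rk T (cut (((j : ℕ) : ℝ) + 1) g) ≤ _
    rw [e]
    exact hk.1

end Pool.Agent.H327R4.Pure
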