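import Pool.Agent.H327R4.Pure.Defs

set_option autoImplicit false
set_option linter.unusedSectionVars false

namespace Pool.Agent.H327R4.Pure

open Filter Topology

universe u v w

section

variable {A : Type u} [CStarAlgebra A] [PartialOrder A] [StarOrderedRing A]

theorem norm_entry_le' {ι : Type v} [Fintype ι] (M : CStarMatrix ι ι A) (i j : ι) :
    ‖M i j‖ ≤ ‖M‖ := CStarMatrix.norm_entry_le_norm

/-- the trace `M ↦ ∑ τ(M i i)` on matrices -/
noncomputable def trM (T : Tr A) (ι : Type v) [Fintype ι] : Tr (CStarMatrix ι ι A) where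
  f := (trl T ι).mkContinuous (Fintype.card ι * ‖T.f‖) (by
    intro M
    change ‖∑ i, T.f (M i i)‖ ≤ _
    refine (norm_sum_le _ _).trans ?_
    calc ∑ i : ι, ‖T.f (M i i)‖ ≤ ∑ _i : ι, ‖T.f‖ * ‖M‖ := by
          refine Finset.sum_le_sum fun i _ => ?_
          exact (T.f.le_opNorm _).trans (by gcongr; exact norm_entry_le' M i i)
      _ = Fintype.card ι * ‖T.f‖ * ‖M‖ := by simp [mul_assoc])
  pos := by
    intro M
    change 0 ≤ (∑ i, T.f ((star M * M) i i)).re ∧ (∑ i, T.f ((star M * M) i i)).im = 0
    have h : ∀ i, T.f ((star M * M) i i) = ∑ j, T.f (star (M j i) * M j i) := by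
      intro i
      rw [CStarMatrix.mul_apply, map_sum]
      simp [CStarMatrix.star_apply]
    constructor
    · rw [Complex.re_sum]
      refine Finset.sum_nonneg fun i _ => ?_
      rw [h, Complex.re_sum]
      exact Finset.sum_nonneg fun j _ => (T.pos _).1
    · rw [Complex.im_sum]
      refine Finset.sum_eq_zero fun i _ => ?_
      rw [h, Complex.im_sum]
      exact Finset.sum_eq_zero fun j _ => (T.pos _).2
  tr := by
    intro M N
    change ∑ i, T.f ((M * N) i i) = ∑ i, T.f ((N * M) i i)
    simp only [CStarMatrix.mul_apply, map_sum]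
    rw [Finset.sum_comm]
    refine Finset.sum_congr rfl fun i _ => Finset.sum_congr rfl fun j _ => ?_
    rw [T.tr]

theorem trM_apply (T : Tr A) (ι : Type v) [Fintype ι] (M : CStarMatrix ι ι A) :
    (trM T ι).f M = ∑ i, T.f (M i i) := rfl

theorem embf_apply {ι : Type v} {κ : Type w} [Fintype ι] [DecidableEq κ] {e : ι → κ}
    (he : Function.Injective e) (M : CStarMatrix ι ι A) (i j : ι) :
    embf e M (e i) (e j) = M i j := by
  classical
  simp only [embf, CStarMatrix.ofMatrix_apply]
  rw [Finset.sum_eq_single i, Finset.sum_eq_single j]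
  · simp
  · intro b _ hb
    have : e b ≠ e j := fun h => hb (he h)
    simp [this]
  · simp
  · intro b _ hb
    have : e b ≠ e i := fun h => hb (he h)
    simp [this]
  · simp

theorem embf_left {ι : Type v} {κ : Type w} [Fintype ι] [DecidableEq κ] {e : ι → κ}
    (M : CStarMatrix ι ι A) {p : κ} (hp : p ∉ Set.range e) (q : κ) :
    embf e M p q = 0 := by
  simp only [embf, CStarMatrix.ofMatrix_apply]
  refine Finset.sum_eq_zero fun i _ => Finset.sum_eq_zero fun j _ => ?_
  have : e i ≠ p := fun h => hp ⟨i, h⟩
  simp [this]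

theorem embf_right {ι : Type v} {κ : Type w} [Fintype ι] [DecidableEq κ] {e : ι → κ}
    (M : CStarMatrix ι ι A) (p : κ) {q : κ} (hq : q ∉ Set.range e) :
    embf e M p q = 0 := by
  simp only [embf, CStarMatrix.ofMatrix_apply]
  refine Finset.sum_eq_zero fun i _ => Finset.sum_eq_zero fun j _ => ?_
  have : e j ≠ q := fun h => hq ⟨j, h⟩
  simp [this]

/-- the homomorphism `M_ι(A) → M_κ(A)` given by an injection `e : ι → κ` -/
noncomputable def emb {ι : Type v} {κ : Type w} [Fintype ι] [Fintype κ] [DecidableEq ι]
    [DecidableEq κ] (e : ι → κ) (he : Function.Injective e) :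
    CStarMatrix ι ι A →⋆ₙₐ[ℂ] CStarMatrix κ κ A where
  toFun M := embf e M
  map_smul' c M := by
    ext p q
    simp only [embf, CStarMatrix.ofMatrix_apply, CStarMatrix.smul_apply, MonoidHom.id_apply,
      Finset.smul_sum]
    refine Finset.sum_congr rfl fun i _ => Finset.sum_congr rfl fun j _ => ?_
    split_ifs <;> simp
  map_zero' := by
    ext p q
    simp [embf]
  map_add' M N := by
    ext p q
    simp only [embf, CStarMatrix.ofMatrix_apply, CStarMatrix.add_apply, ← Finset.sum_add_distrib]
    refine Finset.sum_congr rfl fun i _ => Finset.sum_congr rfl fun j _ => ?_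
    split_ifs <;> simp
  map_mul' M N := by
    ext p q
    rw [CStarMatrix.mul_apply]
    by_cases hp : p ∈ Set.range e
    · by_cases hq : q ∈ Set.range e
      · obtain ⟨i, rfl⟩ := hp
        obtain ⟨j, rfl⟩ := hq
        rw [embf_apply he, CStarMatrix.mul_apply]
        refine Fintype.sum_of_injective e he _ _ ?_ ?_
        · intro r hr
          rw [embf_right M _ hr, zero_mul]
        · intro k
          rw [embf_apply he, embf_apply he]
      · rw [embf_right _ _ hq]
        symm
        refine Finset.sum_eq_zero fun r _ => ?_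
        rw [embf_right _ _ hq, mul_zero]
    · rw [embf_left _ hp]
      symm
      refine Finset.sum_eq_zero fun r _ => ?_
      rw [embf_left _ hp, zero_mul]
  map_star' M := by
    ext p q
    simp only [embf, CStarMatrix.ofMatrix_apply, CStarMatrix.star_apply, star_sum]
    rw [Finset.sum_comm]
    refine Finset.sum_congr rfl fun i _ => Finset.sum_congr rfl fun j _ => ?_
    by_cases h1 : e i = q <;> by_cases h2 : e j = p <;> simp [h1, h2]

theorem emb_apply {ι : Type v} {κ : Type w} [Fintype ι] [Fintype κ] [DecidableEq ι]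
    [DecidableEq κ] (e : ι → κ) (he : Function.Injective e) (M : CStarMatrix ι ι A) :
    emb e he M = embf e M := rfl

theorem trM_emb (T : Tr A) {ι : Type v} {κ : Type w} [Fintype ι] [Fintype κ] [DecidableEq ι]
    [DecidableEq κ] (e : ι → κ) (he : Function.Injective e) (M : CStarMatrix ι ι A) :
    (trM T κ).f (emb e he M) = (trM T ι).f M := by
  rw [trM_apply, trM_apply, emb_apply]
  symm
  refine Fintype.sum_of_injective e he _ _ ?_ ?_
  · intro r hr
    rw [embf_left M hr, map_zero]
  · intro k
    rw [embf_apply he]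

/-- embeddings with disjoint ranges are orthogonal -/
theorem emb_mul_emb {ι : Type v} {ι' : Type v} {κ : Type w} [Fintype ι] [Fintype ι'] [Fintype κ]
    [DecidableEq ι] [DecidableEq ι'] [DecidableEq κ] (e : ι → κ) (he : Function.Injective e)
    (e' : ι' → κ) (he' : Function.Injective e') (h : ∀ i j, e i ≠ e' j)
    (M : CStarMatrix ι ι A) (N : CStarMatrix ι' ι' A) : emb e he M * emb e' he' N = 0 := by
  ext p q
  rw [CStarMatrix.mul_apply]
  refine Finset.sum_eq_zero fun r _ => ?_
  rw [emb_apply, emb_apply]
  by_cases hr : r ∈ Set.range e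
  · obtain ⟨i, rfl⟩ := hr
    have : e i ∉ Set.range e' := by
      rintro ⟨j, hj⟩
      exact h i j hj.symm
    rw [embf_left N this, mul_zero]
  · rw [embf_right M _ hr, zero_mul]

/-- the homomorphism from matrices to the stabilisation -/
noncomputable def Stab.hom {S : Type w} [NonUnitalCStarAlgebra S] (st : Stab A S)
    {ι : Type v} [Fintype ι] (e : ι → ℕ) (he : Function.Injective e) :
    CStarMatrix ι ι A →⋆ₙₐ[ℂ] S where
  toFun M := st.phi e M
  map_smul' c M := by
    simp [Stab.phi, Finset.smul_sum]
  map_zero' := by simp [Stab.phi]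
  map_add' M N := by
    simp [Stab.phi, Finset.sum_add_distrib]
  map_mul' M N := by
    classical
    have h1 : ∀ i j : ι, st.E (e i) (e j) ((M * N) i j) =
        ∑ k, st.E (e i) (e j) (M i k * N k j) := by
      intro i j
      rw [CStarMatrix.mul_apply, map_sum]
    have h2 : ∀ i j k l : ι, st.E (e i) (e k) (M i k) * st.E (e l) (e j) (N l j) =
        if k = l then st.E (e i) (e j) (M i k * N l j) else 0 := by
      intro i j k l
      rw [st.mul]
      by_cases hkl : k = l
      · simp [hkl]
      · have : e k ≠ e l := fun h => hkl (he h)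
        simp [hkl, this]
    have h3 : st.phi e (M * N) =
        ∑ i, ∑ k, ∑ j, st.E (e i) (e j) (M i k * N k j) := by
      simp only [Stab.phi, h1]
      exact Finset.sum_congr rfl fun i _ => Finset.sum_comm
    have h4 : ∀ i k : ι, st.E (e i) (e k) (M i k) * st.phi e N =
        ∑ j, st.E (e i) (e j) (M i k * N k j) := by
      intro i k
      have h5 : st.E (e i) (e k) (M i k) * st.phi e N =
          ∑ l, ∑ j, st.E (e i) (e k) (M i k) * st.E (e l) (e j) (N l j) := by
        simp only [Stab.phi, Finset.mul_sum]
      rw [h5]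
      refine (Finset.sum_eq_single k ?_ ?_).trans ?_
      · intro l _ hl
        refine Finset.sum_eq_zero fun j _ => ?_
        rw [h2]
        simp [Ne.symm hl]
      · simp
      · refine Finset.sum_congr rfl fun j _ => ?_
        rw [h2]
        simp
    have h6 : st.phi e M * st.phi e N =
        ∑ i, ∑ k, st.E (e i) (e k) (M i k) * st.phi e N := by
      conv_lhs => rw [show st.phi e M = ∑ i, ∑ k, st.E (e i) (e k) (M i k) from rfl]
      rw [Finset.sum_mul]
      exact Finset.sum_congr rfl fun i _ => Finset.sum_mul _ _ _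
    change st.phi e (M * N) = st.phi e M * st.phi e N
    rw [h3, h6]
    exact Finset.sum_congr rfl fun i _ => Finset.sum_congr rfl fun k _ => (h4 i k).symm
  map_star' M := by
    simp only [Stab.phi, star_sum, st.str]
    rw [Finset.sum_comm]
    simp [CStarMatrix.star_apply]

theorem Stab.hom_apply {S : Type w} [NonUnitalCStarAlgebra S] (st : Stab A S)
    {ι : Type v} [Fintype ι] (e : ι → ℕ) (he : Function.Injective e) (M : CStarMatrix ι ι A) :
    st.hom e he M = ∑ i, ∑ j, st.E (e i) (e j) (M i j) := rfl

theorem Stab.hom_emb {S : Type w} [NonUnitalCStarAlgebra S] (st : Stab A S)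
    {ι κ : Type v} [Fintype ι] [Fintype κ] [DecidableEq ι] [DecidableEq κ] (e : ι → κ)
    (he : Function.Injective e) (f : κ → ℕ) (hf : Function.Injective f)
    (M : CStarMatrix ι ι A) :
    st.hom f hf (emb e he M) = st.hom (fun i => f (e i)) (hf.comp he) M := by
  rw [Stab.hom_apply, Stab.hom_apply, emb_apply]
  symm
  refine Fintype.sum_of_injective e he _ _ ?_ ?_
  · intro r hr
    refine Finset.sum_eq_zero fun j _ => ?_
    rw [embf_left M hr, map_zero]
  · intro k
    refine Fintype.sum_of_injective e he _ _ ?_ ?_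
    · intro r hr
      rw [embf_right M _ hr, map_zero]
    · intro l
      rw [embf_apply he]

end

end Pool.Agent.H327R4.Pure
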