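import Pool.Agent.H327R4.Pure.Stubs1
import Pool.Agent.H327R4.Pure.Homs

set_option autoImplicit false

namespace Pool.Agent.H327R4.Pure

open Filter Topology

universe u v

/-- strict comparison with respect to the tracial states: for positive `a, b ∈ M_n(A)`, `b ≠ 0`,
`d_τ(a) < d_τ(b)` for all tracial states `τ` implies `a ≾ b`. -/
def SC (A : Type u) [CStarAlgebra A] [PartialOrder A] [StarOrderedRing A] : Prop :=
  ∀ (n : ℕ) (a b : MM n A), 0 ≤ a → 0 ≤ b → b ≠ 0 →
    (∀ T : Tr A, T.f 1 = 1 → ∃ d d' : ℝ, IsRank (trM T (Fin n)) a d ∧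
      IsRank (trM T (Fin n)) b d' ∧ d < d') → Cz a b

/-- diagonal matrices -/
def dg {A : Type u} [Zero A] {K : ℕ} (a : Fin K → A) : MM K A :=
  CStarMatrix.ofMatrix (Matrix.diagonal a)

/-- the standard homomorphism `M_n(A) → A ⊗ K` -/
noncomputable def Stab.hm {A : Type u} {S : Type v} [CStarAlgebra A] [PartialOrder A]
    [StarOrderedRing A] [NonUnitalCStarAlgebra S] (st : Stab A S) (n : ℕ) : MM n A →⋆ₙₐ[ℂ] S :=
  st.hom (fun i : Fin n => (i : ℕ)) Fin.val_injective

/-- rank of a diagonal matrix -/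
def StDIAG : Prop := ∀ (A : Type u) [CStarAlgebra A] [PartialOrder A] [StarOrderedRing A]
  (K : ℕ) (a : Fin K → A), (∀ j, 0 ≤ a j) →
    0 ≤ dg a ∧ ∀ T : Tr A, rk (trM T (Fin K)) (dg a) = ∑ j, rk T (a j)

/-- all ranks almost occur, matrix version -/
def StMAT1 : Prop := ∀ (A : Type u) [CStarAlgebra A] [PartialOrder A] [StarOrderedRing A],
  SimpleC A → ¬ FiniteDimensional ℂ A → ∀ (m : ℕ) (h : MM m A) (ε : ℝ), 0 ≤ h → 0 < ε →
    ∃ (K : ℕ) (a : MM K A), 0 ≤ a ∧ ∀ T : Tr A,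
      ((trM T (Fin m)).f h).re - ε * (T.f 1).re ≤ rk (trM T (Fin K)) a ∧
      rk (trM T (Fin K)) a ≤ ((trM T (Fin m)).f h).re

/-- uniform lower bound, matrix version -/
def StLOWM : Prop := ∀ (A : Type u) [CStarAlgebra A] [PartialOrder A] [StarOrderedRing A],
  SimpleC A → ∀ (m : ℕ) (h : MM m A), 0 ≤ h → h ≠ 0 →
    ∃ η : ℝ, 0 < η ∧ ∀ T : Tr A, η * (T.f 1).re ≤ ((trM T (Fin m)).f h).re

/-- the homomorphisms into the stabilisation are isometric and reflect positivity -/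
def StISO : Prop := ∀ (A : Type u) (S : Type v) [CStarAlgebra A] [PartialOrder A]
  [StarOrderedRing A] [NonUnitalCStarAlgebra S] [PartialOrder S] [StarOrderedRing S]
  (st : Stab A S) (n : ℕ) (e : Fin n → ℕ) (he : Function.Injective e),
    (∀ M : MM n A, ‖st.hom e he M‖ = ‖M‖) ∧ (∀ M : MM n A, 0 ≤ st.hom e he M ↔ 0 ≤ M)

/-- approximation of positive elements of the stabilisation by matrices -/
def StAPX : Prop := ∀ (A : Type u) (S : Type v) [CStarAlgebra A] [PartialOrder A]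
  [StarOrderedRing A] [NonUnitalCStarAlgebra S] [PartialOrder S] [StarOrderedRing S]
  (st : Stab A S) (s : S) (ε : ℝ), 0 ≤ s → 0 < ε →
    ∃ (n : ℕ) (b : MM n A), 0 ≤ b ∧ ‖s - st.hm n b‖ ≤ ε ∧ Cz (st.hm n b) s

/-- Cuntz subequivalence in the stabilisation implies it in the matrix algebra -/
def StTRF : Prop := ∀ (A : Type u) (S : Type v) [CStarAlgebra A] [PartialOrder A]
  [StarOrderedRing A] [NonUnitalCStarAlgebra S] [PartialOrder S] [StarOrderedRing S]
  (st : Stab A S) (n : ℕ) (a b : MM n A), Cz (st.hm n a) (st.hm n b) → Cz a b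

/-- the different embeddings are Cuntz equivalent -/
def StEQV : Prop := ∀ (A : Type u) (S : Type v) [CStarAlgebra A] [PartialOrder A]
  [StarOrderedRing A] [NonUnitalCStarAlgebra S] [PartialOrder S] [StarOrderedRing S]
  (st : Stab A S) (n : ℕ) (e e' : Fin n → ℕ) (he : Function.Injective e)
  (he' : Function.Injective e') (a : MM n A), Cz (st.hom e he a) (st.hom e' he' a)

/-- rank of `k` orthogonal copies -/
def StKSUM : Prop := ∀ (A : Type u) [CStarAlgebra A] [PartialOrder A] [StarOrderedRing A]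
  (k m N : ℕ) (e : Fin k → Fin m → Fin N) (he : ∀ j, Function.Injective (e j)),
    (∀ j j', j ≠ j' → ∀ i i', e j i ≠ e j' i') → ∀ (a : MM m A), 0 ≤ a →
      (0 ≤ ∑ j, emb (e j) (he j) a) ∧
      ∀ T : Tr A, rk (trM T (Fin N)) (∑ j, emb (e j) (he j) a) = k * rk (trM T (Fin m)) a

/-- comparison of multiples: if `k rk a < l rk b` for all tracial states then `k[a] ≤ l[b]` -/
def StCMP : Prop := ∀ (A : Type u) (S : Type v) [CStarAlgebra A] [PartialOrder A]
  [StarOrderedRing A] [NonUnitalCStarAlgebra S] [PartialOrder S] [StarOrderedRing S]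
  (st : Stab A S), SC A → ∀ (k l m n : ℕ) (a : MM m A) (b : MM n A), 0 ≤ a → 0 ≤ b → b ≠ 0 →
    1 ≤ l → (∀ T : Tr A, T.f 1 = 1 →
      (k : ℝ) * rk (trM T (Fin m)) a < l * rk (trM T (Fin n)) b) →
    ∃ z z' : S, IsMul k (st.hm m a) z ∧ IsMul l (st.hm n b) z' ∧ Cz z z'

/-- `k[a] ≤ l[b]` implies `k rk a ≤ l rk b` -/
def StUNM : Prop := ∀ (A : Type u) (S : Type v) [CStarAlgebra A] [PartialOrder A]
  [StarOrderedRing A] [NonUnitalCStarAlgebra S] [PartialOrder S] [StarOrderedRing S]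
  (st : Stab A S) (k l m n : ℕ) (a : MM m A) (b : MM n A) (z z' : S), 0 ≤ a → 0 ≤ b →
    IsMul k (st.hm m a) z → IsMul l (st.hm n b) z' → Cz z z' →
    ∀ T : Tr A, (k : ℝ) * rk (trM T (Fin m)) a ≤ l * rk (trM T (Fin n)) b

/-- almost unperforated -/
def StAU : Prop := ∀ (A : Type u) (S : Type v) [CStarAlgebra A] [PartialOrder A]
  [StarOrderedRing A] [NonUnitalCStarAlgebra S] [PartialOrder S] [StarOrderedRing S],
  SimpleC A → Stab A S → SC A → AlmostUnperforated S

/-- almost divisible -/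
def StAD : Prop := ∀ (A : Type u) (S : Type v) [CStarAlgebra A] [PartialOrder A]
  [StarOrderedRing A] [NonUnitalCStarAlgebra S] [PartialOrder S] [StarOrderedRing S],
  SimpleC A → ¬ FiniteDimensional ℂ A → Stab A S → SC A → AlmostDivisible S

end Pool.Agent.H327R4.Pure
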