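import Pool.Agent.H327R4.Pure.Stubs1
import Pool.Agent.H327R4.Pure.Stubs2

/-! All ranks almost occur, matrix version. -/

set_option autoImplicit false

namespace Pool.Agent.H327R4.Pure

open Filter Topology

universe u

theorem mat1_ex {B : Type u} [NonUnitalCStarAlgebra B] [PartialOrder B] [StarOrderedRing B]
    (a : B) (ha : 0 ≤ a) : ∃ x, a = star x * x :=
  CStarAlgebra.nonneg_iff_eq_star_mul_self.1 ha

theorem mat1_diag {A : Type u} [CStarAlgebra A] [PartialOrder A] [StarOrderedRing A] (m : ℕ)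
    (h : MM m A) (hh : 0 ≤ h) (k : Fin m) : 0 ≤ h k k := by
  obtain ⟨x, rfl⟩ := mat1_ex h hh
  rw [CStarMatrix.mul_apply]
  refine Finset.sum_nonneg fun j _ => ?_
  rw [CStarMatrix.star_apply]
  exact star_mul_self_nonneg _

theorem mat1_holds (hmain : StMAIN1.{u}) (hdiag : StDIAG.{u}) : StMAT1.{u} := by
  intro A _ _ _ hs hf m h ε hh hε
  obtain ⟨K, a, ha, hT⟩ := hmain A hs hf (∑ k, h k k) ε
    (Finset.sum_nonneg fun k _ => mat1_diag m h hh k) hε
  obtain ⟨hd, hr⟩ := hdiag A K a ha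
  refine ⟨K, dg a, hd, fun T => ?_⟩
  have h1 := hT T
  rw [map_sum] at h1
  rw [hr T, trM_apply]
  exact h1

end Pool.Agent.H327R4.Pure
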