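import Pool.Agent.H327R4.Pure.Stubs1

set_option autoImplicit false

namespace Pool.Agent.H327R4.Pure

open Filter Topology

universe u

namespace MONaux

theorem rt_eq {B : Type u} [NonUnitalCStarAlgebra B] [PartialOrder B] [StarOrderedRing B]
    (k : ℕ) (a : B) (ha : 0 ≤ a) (p : NNReal) (hp : (p : ℝ) = 1 / ((k : ℝ) + 1)) :
    rt k a = a ^ p := by
  rw [CFC.nnrpow_eq_cfcₙ_real a p ha]
  unfold rt
  rw [hp]

theorem rt_smul {B : Type u} [NonUnitalCStarAlgebra B] [PartialOrder B] [StarOrderedRing B]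
    (k : ℕ) (b : B) (hb : 0 ≤ b) (M : ℝ) (hM : 0 < M) :
    rt k (M • b) = (M ^ (1 / ((k : ℝ) + 1))) • rt k b := by
  have hk : (0 : ℝ) < 1 / ((k : ℝ) + 1) := by positivity
  have hc : ∀ s : Set ℝ, ContinuousOn (fun x : ℝ => x ^ (1 / ((k : ℝ) + 1))) s := fun s =>
    (Real.continuous_rpow_const hk.le).continuousOn
  have h0 : (0 : ℝ) ^ (1 / ((k : ℝ) + 1)) = 0 := Real.zero_rpow hk.ne'
  unfold rt
  rw [← cfcₙ_comp_smul M (fun x : ℝ => x ^ (1 / ((k : ℝ) + 1))) b (hc _) h0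
    (IsSelfAdjoint.of_nonneg hb), ← cfcₙ_smul (M ^ (1 / ((k : ℝ) + 1)))
    (fun x : ℝ => x ^ (1 / ((k : ℝ) + 1))) b (hc _) h0]
  refine cfcₙ_congr fun x hx => ?_
  have hx0 : 0 ≤ x := quasispectrum_nonneg_of_nonneg b hb x hx
  simp only [smul_eq_mul]
  rw [Real.mul_rpow hM.le hx0]

end MONaux

theorem mon_holds (hmt : StMT.{u}) (hrk : StRK.{u}) : StMON.{u} := by
  intro B _ _ _ T a b M ha hb hM hab
  have h1 : ∀ k : ℕ, (T.f (rt k a)).re ≤ M ^ (1 / ((k : ℝ) + 1)) * (T.f (rt k b)).re := by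
    intro k
    have hk : (0 : ℝ) ≤ 1 / ((k : ℝ) + 1) := by positivity
    have hk1 : 1 / ((k : ℝ) + 1) ≤ 1 := by
      rw [div_le_one (by positivity)]
      have : (0 : ℝ) ≤ k := Nat.cast_nonneg k
      linarith
    have hMb : 0 ≤ M • b := smul_nonneg hM.le hb
    have h2 : rt k a ≤ rt k (M • b) := by
      rw [MONaux.rt_eq k a ha ⟨1 / ((k : ℝ) + 1), hk⟩ rfl,
        MONaux.rt_eq k (M • b) hMb ⟨1 / ((k : ℝ) + 1), hk⟩ rfl]
      exact CFC.nnrpow_le_nnrpow ⟨bot_le, by exact_mod_cast hk1⟩ hab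
    have h3 := (hmt B T).1 _ _ h2
    rw [MONaux.rt_smul k b hb M hM] at h3
    have h4 : T.f ((M ^ (1 / ((k : ℝ) + 1))) • rt k b) =
        ((M ^ (1 / ((k : ℝ) + 1)) : ℝ) : ℂ) * T.f (rt k b) := by
      have : (M ^ (1 / ((k : ℝ) + 1))) • rt k b =
          ((M ^ (1 / ((k : ℝ) + 1)) : ℝ) : ℂ) • rt k b := (Complex.coe_smul _ _).symm
      rw [this, map_smul, smul_eq_mul]
    rw [h4, Complex.re_ofReal_mul] at h3
    exact h3
  have hla : Tendsto (fun k : ℕ => (T.f (rt k a)).re) atTop (𝓝 (rk T a)) := (hrk B T a ha).2.2.1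
  have hlb : Tendsto (fun k : ℕ => (T.f (rt k b)).re) atTop (𝓝 (rk T b)) := (hrk B T b hb).2.2.1
  have hlM : Tendsto (fun k : ℕ => M ^ (1 / ((k : ℝ) + 1))) atTop (𝓝 1) := by
    have h5 : Tendsto (fun k : ℕ => 1 / ((k : ℝ) + 1)) atTop (𝓝 0) :=
      tendsto_one_div_add_atTop_nhds_zero_nat
    have h6 := (Real.continuous_const_rpow hM.ne').tendsto (0 : ℝ)
    have h7 := h6.comp h5
    rw [Real.rpow_zero] at h7
    exact h7
  have hl := hlM.mul hlb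
  rw [one_mul] at hl
  exact le_of_tendsto_of_tendsto' hla hl h1

end Pool.Agent.H327R4.Pure
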