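import Pool.Agent.H327R4.Pure.Stubs1

/-!
# Strict comparison implies pure, step NIL: nilpotents in hereditary subalgebras (helper520)
-/

set_option autoImplicit false

namespace Pool.Agent.H327R4.Pure

universe u

namespace NILaux

/-- a tent function of width `e` around `l` -/
noncomputable def tent (l e x : ℝ) : ℝ := max 0 (1 - |x - l| / e)

lemma tent_cont (l e : ℝ) : Continuous (tent l e) := by
  unfold tent
  fun_prop

lemma tent_self (l e : ℝ) : tent l e l = 1 := by
  simp [tent]

lemma tent_zero (l e x : ℝ) (he : 0 < e) (h : e ≤ |x - l|) : tent l e x = 0 := by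
  unfold tent
  rw [max_eq_left]
  have : 1 ≤ |x - l| / e := by rwa [le_div_iff₀ he, one_mul]
  linarith

lemma tent_mul (l m e x : ℝ) (he : 0 < e) (h : 2 * e ≤ |l - m|) :
    tent m e x * tent l e x = 0 := by
  by_cases h1 : e ≤ |x - l|
  · rw [tent_zero l e x he h1, mul_zero]
  · have h2 : e ≤ |x - m| := by
      have h3 : |l - m| ≤ |x - l| + |x - m| := by
        have : l - m = -(x - l) + (x - m) := by ring
        rw [this]
        refine (abs_add_le _ _).trans ?_
        rw [abs_neg]
      linarith [not_le.mp h1]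
    rw [tent_zero m e x he h2, zero_mul]

variable {A : Type u} [CStarAlgebra A] [PartialOrder A] [StarOrderedRing A]

lemma cfc_ne_zero_of_mem (b : A) (hb : IsSelfAdjoint b) (f : ℝ → ℝ) (hf : Continuous f)
    (l : ℝ) (hl : l ∈ spectrum ℝ b) (h0 : f l ≠ 0) : cfc f b ≠ 0 := by
  intro h
  have h1 : f l ∈ spectrum ℝ (cfc f b) := by
    rw [cfc_map_spectrum f b hb hf.continuousOn]
    exact ⟨l, hl, rfl⟩
  rw [h] at h1
  have hnt : Nontrivial A := by
    by_contra hn
    rw [not_nontrivial_iff_subsingleton] at hn
    have : spectrum ℝ b = ∅ := spectrum.of_subsingleton b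
    rw [this] at hl
    exact hl
  rw [spectrum.zero_eq] at h1
  exact h0 h1

lemma one_point (hF : StFULL.{u}) (hA : SimpleC A) (s : A)
    (hnil : ∀ z : A, (s * z * s) * (s * z * s) = 0 → s * z * s = 0)
    (b b0 : A) (hb : b = s * b0 * s) (hbs : IsSelfAdjoint b) (l m : ℝ)
    (hl : l ∈ spectrum ℝ b) (hm : m ∈ spectrum ℝ b) (hl0 : l ≠ 0) (hm0 : m ≠ 0) : l = m := by
  by_contra hne
  set e : ℝ := |l - m| / 2 with he
  have he0 : 0 < e := by
    have : 0 < |l - m| := abs_pos.mpr (sub_ne_zero.mpr hne)
    positivity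
  have he2 : 2 * e ≤ |l - m| := by rw [he]; linarith
  set K : A := cfc (tent l e) b with hK
  set L : A := cfc (tent m e) b with hL
  have hid : cfc (fun x : ℝ => x) b = b := cfc_id' ℝ b hbs
  set U : A := cfc (fun x : ℝ => x * tent l e x) b with hU
  set V : A := cfc (fun x : ℝ => tent m e x * x) b with hV
  have hUe : U = b * K := by
    rw [hU, cfc_mul (fun x : ℝ => x) (tent l e) b continuousOn_id (tent_cont l e).continuousOn, hid]
  have hVe : V = L * b := by
    rw [hV, cfc_mul (tent m e) (fun x : ℝ => x) b (tent_cont m e).continuousOn continuousOn_id, hid]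
  have hVU : V * U = 0 := by
    rw [hU, hV, ← cfc_mul (fun x : ℝ => tent m e x * x) (fun x : ℝ => x * tent l e x) b
      (((tent_cont m e).mul continuous_id).continuousOn)
      ((continuous_id.mul (tent_cont l e)).continuousOn)]
    have : (fun x : ℝ => tent m e x * x * (x * tent l e x)) = fun _ => 0 := by
      funext x
      have h1 := tent_mul l m e x he0 he2
      calc tent m e x * x * (x * tent l e x) = (tent m e x * tent l e x) * (x * x) := by ring
        _ = 0 := by rw [h1, zero_mul]
    rw [this]
    exact cfc_const_zero ℝ b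
  have hUyV : ∀ y : A, U * y * V = 0 := by
    intro y
    have h1 : U * y * V = s * (b0 * s * K * y * L * s * b0) * s := by
      rw [hUe, hVe]
      conv_lhs => rw [hb]
      simp only [mul_assoc]
    have h2 : (U * y * V) * (U * y * V) = 0 := by
      calc (U * y * V) * (U * y * V) = U * y * (V * U) * y * V := by simp only [mul_assoc]
        _ = 0 := by rw [hVU]; simp
    rw [h1] at h2 ⊢
    exact hnil _ h2
  have hU0 : U ≠ 0 := cfc_ne_zero_of_mem b hbs _ (continuous_id.mul (tent_cont l e)) l hl (by
    simp only [tent_self, mul_one]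
    exact hl0)
  have hV0 : V ≠ 0 := cfc_ne_zero_of_mem b hbs _ ((tent_cont m e).mul continuous_id) m hm (by
    simp only [tent_self, one_mul]
    exact hm0)
  obtain ⟨n, y, hy⟩ := hF A hA (V * star V) (mul_star_self_nonneg V) (by
    intro h
    exact hV0 ((CStarRing.mul_star_self_eq_zero_iff V).mp h))
  apply hU0
  calc U = U * 1 := (mul_one U).symm
    _ = U * ∑ i, star (y i) * (V * star V) * y i := by rw [hy]
    _ = ∑ i, (U * star (y i) * V) * (star V * y i) := by
        rw [Finset.mul_sum]
        exact Finset.sum_congr rfl fun i _ => by simp only [mul_assoc]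
    _ = 0 := by
        refine Finset.sum_eq_zero fun i _ => ?_
        rw [hUyV, zero_mul]

lemma sq_mul (hF : StFULL.{u}) (hA : SimpleC A) (s : A)
    (hnil : ∀ z : A, (s * z * s) * (s * z * s) = 0 → s * z * s = 0)
    (b b0 : A) (hb : b = s * b0 * s) (hbs : IsSelfAdjoint b) :
    ∃ l : ℝ, b * b = l • b := by
  have hid : cfc (fun x : ℝ => x) b = b := cfc_id' ℝ b hbs
  have key : ∀ l : ℝ, (∀ x ∈ spectrum ℝ b, x = 0 ∨ x = l) → b * b = l • b := by
    intro l hl
    have h1 : b * b = cfc (fun x : ℝ => x * x) b := by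
      rw [cfc_mul (fun x : ℝ => x) (fun x : ℝ => x) b continuousOn_id continuousOn_id, hid]
    have h2 : l • b = cfc (fun x : ℝ => l * x) b := by
      rw [cfc_const_mul l (fun x : ℝ => x) b continuousOn_id, hid]
    rw [h1, h2]
    refine cfc_congr fun x hx => ?_
    rcases hl x hx with h | h
    · simp [h]
    · simp [h]
  by_cases h : ∃ l ∈ spectrum ℝ b, l ≠ 0
  · obtain ⟨l, hl, hl0⟩ := h
    refine ⟨l, key l fun x hx => ?_⟩
    by_cases hx0 : x = 0
    · exact Or.inl hx0
    · exact Or.inr (one_point hF hA s hnil b b0 hb hbs x l hx hl hx0 hl0)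
  · push Not at h
    exact ⟨0, key 0 fun x hx => Or.inl (h x hx)⟩

/-- `s A s` without nilpotents: `A` is finite dimensional -/
lemma findim (hF : StFULL.{u}) (hA : SimpleC A) (s c : A) (hs : IsSelfAdjoint s) (hsc : s * s = c)
    (hc : 0 ≤ c) (hc0 : c ≠ 0)
    (hnil : ∀ z : A, (s * z * s) * (s * z * s) = 0 → s * z * s = 0) :
    FiniteDimensional ℂ A := by
  have hcs : IsSelfAdjoint c := IsSelfAdjoint.of_nonneg hc
  have hsq := sq_mul hF hA s hnil
  obtain ⟨l0, hl0⟩ := hsq c 1 (by rw [mul_one, hsc]) hcs
  have hl00 : l0 ≠ 0 := by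
    intro h
    rw [h, zero_smul] at hl0
    have h1 : star c * c = 0 := by rw [hcs.star_eq]; exact hl0
    exact hc0 ((CStarRing.star_mul_self_eq_zero_iff c).mp h1)
  -- real multiples
  have hreal : ∀ w : A, IsSelfAdjoint w → ∃ k : ℝ, c * w * c = k • c := by
    intro w hw
    set b : A := c * w * c with hb
    have hbs : IsSelfAdjoint b := by
      rw [IsSelfAdjoint, hb, star_mul, star_mul, hcs.star_eq, hw.star_eq, mul_assoc]
    have hbc : b * c = l0 • b := by
      rw [hb]
      calc c * w * c * c = c * w * (c * c) := by rw [mul_assoc]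
        _ = l0 • (c * w * c) := by rw [hl0, mul_smul_comm]
    have hcb : c * b = l0 • b := by
      rw [hb]
      calc c * (c * w * c) = (c * c) * w * c := by simp only [mul_assoc]
        _ = l0 • (c * w * c) := by rw [hl0, smul_mul_assoc, smul_mul_assoc]
    have hform : ∀ t : ℝ, b + t • c = s * (s * w * s + t • (1 : A)) * s := by
      intro t
      rw [mul_add, add_mul, mul_smul_comm, mul_one, smul_mul_assoc, hsc, hb, ← hsc]
      simp only [mul_assoc]
    have hsa : ∀ t : ℝ, IsSelfAdjoint (b + t • c) := fun t =>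
      hbs.add (IsSelfAdjoint.smul (IsSelfAdjoint.all t) hcs)
    have hquad : ∀ t : ℝ, ∃ m : ℝ, b * b + (2 * t * l0) • b + (t * t * l0) • c = m • b + (m * t) • c := by
      intro t
      obtain ⟨m, hm⟩ := hsq _ _ (hform t) (hsa t)
      refine ⟨m, ?_⟩
      have h1 : (b + t • c) * (b + t • c) = b * b + (2 * t * l0) • b + (t * t * l0) • c := by
        rw [add_mul, mul_add, mul_add, mul_smul_comm, smul_mul_assoc, smul_mul_assoc,
          mul_smul_comm, hbc, hcb, hl0]
        module
      rw [← h1, hm]
      module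
    obtain ⟨a0, h0⟩ := hquad 0
    obtain ⟨a1, h1⟩ := hquad 1
    obtain ⟨a2, h2⟩ := hquad 2
    have e0 : b * b = a0 • b := by
      have := h0
      simp only [mul_zero, zero_mul, zero_smul, add_zero] at this
      exact this
    rw [e0] at h1 h2
    by_cases hx : a0 + 2 * l0 - a1 = 0
    · have h3 : (l0 - a1) • c = 0 := by
        have : (a0 + 2 * l0 - a1) • b + (l0 - a1) • c = 0 := by
          have h4 : (a0 + 2 * l0 - a1) • b + (l0 - a1) • c =
            (a0 • b + (2 * 1 * l0) • b + (1 * 1 * l0) • c) - (a1 • b + (a1 * 1) • c) := by module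
          rw [h4, h1, sub_self]
        rwa [hx, zero_smul, zero_add] at this
      have h5 : l0 - a1 = 0 := by
        rcases smul_eq_zero.mp h3 with h | h
        · exact h
        · exact absurd h hc0
      by_cases hy : a0 + 4 * l0 - a2 = 0
      · exfalso
        have h6 : (4 * l0 - 2 * a2) • c = 0 := by
          have : (a0 + 4 * l0 - a2) • b + (4 * l0 - 2 * a2) • c = 0 := by
            have h4 : (a0 + 4 * l0 - a2) • b + (4 * l0 - 2 * a2) • c =
              (a0 • b + (2 * 2 * l0) • b + (2 * 2 * l0) • c) - (a2 • b + (a2 * 2) • c) := by module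
            rw [h4, h2, sub_self]
          rwa [hy, zero_smul, zero_add] at this
        have h7 : 4 * l0 - 2 * a2 = 0 := by
          rcases smul_eq_zero.mp h6 with h | h
          · exact h
          · exact absurd h hc0
        apply hl00
        linarith
      · refine ⟨-(4 * l0 - 2 * a2) / (a0 + 4 * l0 - a2), ?_⟩
        have h4 : (a0 + 4 * l0 - a2) • b = (-(4 * l0 - 2 * a2)) • c := by
          have : (a0 + 4 * l0 - a2) • b = (-(4 * l0 - 2 * a2)) • c +
              ((a0 • b + (2 * 2 * l0) • b + (2 * 2 * l0) • c) - (a2 • b + (a2 * 2) • c)) := by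
            module
          rw [this, h2, sub_self, add_zero]
        rw [div_eq_inv_mul, mul_smul, ← h4, smul_smul, inv_mul_cancel₀ hy, one_smul]
    · refine ⟨-(l0 - a1) / (a0 + 2 * l0 - a1), ?_⟩
      have h4 : (a0 + 2 * l0 - a1) • b = (-(l0 - a1)) • c := by
        have : (a0 + 2 * l0 - a1) • b = (-(l0 - a1)) • c +
            ((a0 • b + (2 * 1 * l0) • b + (1 * 1 * l0) • c) - (a1 • b + (a1 * 1) • c)) := by
          module
        rw [this, h1, sub_self, add_zero]
      rw [div_eq_inv_mul, mul_smul, ← h4, smul_smul, inv_mul_cancel₀ hx, one_smul]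
  -- complex multiples
  have hcomplex : ∀ w : A, ∃ k : ℂ, c * w * c = k • c := by
    intro w
    obtain ⟨k1, h1⟩ := hreal (realPart w : A) (realPart w).2
    obtain ⟨k2, h2⟩ := hreal (imaginaryPart w : A) (imaginaryPart w).2
    refine ⟨(k1 : ℂ) + Complex.I * (k2 : ℂ), ?_⟩
    have hw : w = (realPart w : A) + Complex.I • (imaginaryPart w : A) :=
      (realPart_add_I_smul_imaginaryPart w).symm
    conv_lhs => rw [hw]
    rw [mul_add, add_mul, mul_smul_comm, smul_mul_assoc, h1, h2, add_smul, mul_smul]
    congr 1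
  obtain ⟨n, y, hy⟩ := hF A hA c hc hc0
  choose κ hκ using hcomplex
  have hspan : (⊤ : Submodule ℂ A) ≤
      Submodule.span ℂ (Set.range fun p : Fin n × Fin n => star (y p.1) * c * y p.2) := by
    intro a _
    have : a = ∑ i, ∑ j, κ (y i * a * star (y j)) • (star (y i) * c * y j) := by
      calc a = 1 * a * 1 := by rw [one_mul, mul_one]
        _ = (∑ i, star (y i) * c * y i) * a * (∑ j, star (y j) * c * y j) := by rw [hy]
        _ = ∑ i, ∑ j, star (y i) * (c * (y i * a * star (y j)) * c) * y j := by
            rw [Finset.sum_mul, Finset.sum_mul]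
            refine Finset.sum_congr rfl fun i _ => ?_
            rw [Finset.mul_sum]
            refine Finset.sum_congr rfl fun j _ => ?_
            simp only [mul_assoc]
        _ = _ := by
            refine Finset.sum_congr rfl fun i _ => Finset.sum_congr rfl fun j _ => ?_
            rw [hκ, mul_smul_comm, smul_mul_assoc]
    rw [this]
    refine Submodule.sum_mem _ fun i _ => Submodule.sum_mem _ fun j _ => ?_
    exact Submodule.smul_mem _ _ (Submodule.subset_span ⟨(i, j), rfl⟩)
  have : FiniteDimensional ℂ (⊤ : Submodule ℂ A) := by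
    have h1 : FiniteDimensional ℂ (Submodule.span ℂ
        (Set.range fun p : Fin n × Fin n => star (y p.1) * c * y p.2)) :=
      FiniteDimensional.span_of_finite ℂ (Set.finite_range _)
    exact Submodule.finiteDimensional_of_le hspan
  exact (LinearEquiv.finiteDimensional (Submodule.topEquiv : (⊤ : Submodule ℂ A) ≃ₗ[ℂ] A))

end NILaux

theorem nil_holds (hfull : StFULL.{u}) : StNIL.{u} := by
  intro A _ _ _ hA hfin c hc hc0
  set s : A := CFC.sqrt c with hs
  have hs0 : 0 ≤ s := CFC.sqrt_nonneg c
  have hsa : IsSelfAdjoint s := IsSelfAdjoint.of_nonneg hs0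
  have hsc : s * s = c := CFC.sqrt_mul_sqrt_self c hc
  by_cases hnil : ∀ z : A, (s * z * s) * (s * z * s) = 0 → s * z * s = 0
  · exact absurd (NILaux.findim hfull hA s c hsa hsc hc hc0 hnil) hfin
  push Not at hnil
  obtain ⟨z, hz, hz0⟩ := hnil
  refine ⟨s * z * s, ‖star z * c * z‖ + ‖z * c * star z‖ + 1, by positivity, hz0, hz, ?_, ?_⟩
  · have h1 : star (s * z * s) * (s * z * s) = star s * (star z * c * z) * s := by
      rw [star_mul, star_mul, hsa.star_eq, ← hsc]
      simp only [mul_assoc]
    have h2 : IsSelfAdjoint (star z * c * z) := by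
      have : IsSelfAdjoint c := IsSelfAdjoint.of_nonneg hc
      exact this.conjugate' z
    rw [h1]
    refine (CStarAlgebra.star_left_conjugate_le_norm_smul (hb := h2)).trans ?_
    rw [hsa.star_eq, hsc]
    refine smul_le_smul_of_nonneg_right ?_ hc
    have := norm_nonneg (z * c * star z)
    linarith
  · have h1 : (s * z * s) * star (s * z * s) = star s * (z * c * star z) * s := by
      rw [star_mul, star_mul, hsa.star_eq, ← hsc]
      simp only [mul_assoc]
    have h2 : IsSelfAdjoint (z * c * star z) := by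
      have : IsSelfAdjoint c := IsSelfAdjoint.of_nonneg hc
      exact this.conjugate z
    rw [h1]
    refine (CStarAlgebra.star_left_conjugate_le_norm_smul (hb := h2)).trans ?_
    rw [hsa.star_eq, hsc]
    refine smul_le_smul_of_nonneg_right ?_ hc
    have := norm_nonneg (star z * c * z)
    linarith

end Pool.Agent.H327R4.Pure
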