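import Pool.Agent.H327R4.Pure.Stubs1

/-! ORTH: functional calculus of a sum of two orthogonal positive elements. -/

set_option autoImplicit false

namespace Pool.Agent.H327R4.Pure

open Filter Topology

universe u v

namespace TORTH

open ContinuousMapZero

theorem eq_superset {B : Type u} [NonUnitalCStarAlgebra B] (a : B) (ha : IsSelfAdjoint a)
    (s : Set ℝ) (has : quasispectrum ℝ a ⊆ s) (f : ℝ → ℝ) (hf : Continuous f) (hf0 : f 0 = 0)
    [h0 : Fact (0 ∈ s)] (g : C(s, ℝ)₀) (hg : ∀ x : s, g x = f x) :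
    cfcₙ f a = cfcₙHomSuperset ha has g := by
  rw [cfcₙ_apply f a hf.continuousOn hf0 ha, cfcₙHomSuperset_apply]
  congr 1
  ext x
  have h1 := hg ⟨x.1, has x.2⟩
  exact h1.symm

end TORTH

set_option backward.isDefEq.respectTransparency false in
open TORTH NonUnitalContinuousFunctionalCalculus ContinuousMapZero in
theorem orth_holds : StORTH.{u} := by
  intro B _ _ _ p q f hp hq hpq hf hf0
  have hp' : IsSelfAdjoint p := .of_nonneg hp
  have hq' : IsSelfAdjoint q := .of_nonneg hq
  have ha : IsSelfAdjoint (p + q) := hp'.add hq'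
  let s := quasispectrum ℝ (p + q) ∪ quasispectrum ℝ p ∪ quasispectrum ℝ q
  have hs : CompactSpace s := by
    refine isCompact_iff_compactSpace.mp <| (IsCompact.union ?_ ?_).union ?_
    all_goals exact isCompact_quasispectrum _
  obtain ⟨has, hps, hqs⟩ : quasispectrum ℝ (p + q) ⊆ s ∧ quasispectrum ℝ p ⊆ s ∧
      quasispectrum ℝ q ⊆ s := by grind
  have h0 : Fact (0 ∈ s) := ⟨has (quasispectrum.zero_mem ℝ (p + q))⟩
  have mul₁ (f g : C(s, ℝ)₀) :
      (cfcₙHomSuperset hp' hps f) * (cfcₙHomSuperset hq' hqs g) = 0 := by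
    refine f.nonUnitalStarAlgHom_apply_mul_eq_zero _ _ ?id ?star_id
      (cfcₙHomSuperset_continuous hp' hps)
    case' star_id => rw [star_trivial]
    all_goals
      refine g.mul_nonUnitalStarAlgHom_apply_eq_zero _ _ ?_ ?_
        (cfcₙHomSuperset_continuous hq' hqs)
      all_goals simp only [star_trivial, cfcₙHomSuperset_id hp' hps,
        cfcₙHomSuperset_id hq' hqs, hpq]
  have mul₂ (f g : C(s, ℝ)₀) : (cfcₙHomSuperset hq' hqs f) * (cfcₙHomSuperset hp' hps g) = 0 := by
    simpa only [star_mul, star_zero, ← map_star, star_trivial] using congr(star $(mul₁ g f))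
  let ψ : C(s, ℝ)₀ →⋆ₙₐ[ℝ] B :=
    { (cfcₙHomSuperset hp' hps : C(s, ℝ)₀ →ₗ[ℝ] B) + (cfcₙHomSuperset hq' hqs : C(s, ℝ)₀ →ₗ[ℝ] B)
        with
      toFun := cfcₙHomSuperset hp' hps + cfcₙHomSuperset hq' hqs
      map_zero' := by simp [-cfcₙHomSuperset_apply]
      map_mul' := fun f g ↦ by
        simp only [Pi.add_apply, map_mul, mul_add, add_mul, mul₂, add_zero, mul₁,
          zero_add]
      map_star' := fun f ↦ by simp [← map_star] }
  have key : (cfcₙHomSuperset ha has) = ψ :=
    have : ContinuousMapZero.UniqueHom ℝ B := inferInstance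
    ContinuousMapZero.UniqueHom.eq_of_continuous_of_map_id s
    (cfcₙHomSuperset ha has) ψ (cfcₙHomSuperset_continuous ha has)
    ((cfcₙHomSuperset_continuous hp' hps).add (cfcₙHomSuperset_continuous hq' hqs))
    (by simp [ψ, -cfcₙHomSuperset_apply, cfcₙHomSuperset_id])
  let g : C(s, ℝ)₀ := ⟨⟨fun x => f x, by fun_prop⟩, hf0⟩
  have hg : ∀ x : s, g x = f x := fun x => rfl
  rw [eq_superset (p + q) ha s has f hf hf0 g hg, eq_superset p hp' s hps f hf hf0 g hg,
    eq_superset q hq' s hqs f hf hf0 g hg, key]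
  rfl

end Pool.Agent.H327R4.Pure
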