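import Pool.Agent.H327R4.Pure.Defs

set_option autoImplicit false

namespace Pool.Agent.H327R4.Pure

open Filter Topology

universe u v

/-- monotonicity of traces -/
def StMT : Prop := ∀ (B : Type u) [NonUnitalCStarAlgebra B] [PartialOrder B] [StarOrderedRing B]
  (T : Tr B), (∀ a b : B, a ≤ b → (T.f a).re ≤ (T.f b).re) ∧
    (∀ a : B, 0 ≤ a → 0 ≤ (T.f a).re ∧ (T.f a).im = 0) ∧
    (∀ a : B, IsSelfAdjoint a → (T.f a).im = 0)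

/-- basic facts on `cut` and `phi` -/
def StCT : Prop := ∀ (B : Type u) [NonUnitalCStarAlgebra B] [PartialOrder B] [StarOrderedRing B]
  (a : B), 0 ≤ a →
    (∀ ε : ℝ, 0 ≤ cut ε a) ∧
    (∀ ε : ℝ, 0 ≤ ε → cut ε a ≤ a) ∧
    (∀ ε ε' : ℝ, 0 ≤ ε → ε ≤ ε' → cut ε' a ≤ cut ε a) ∧
    (∀ ε η : ℝ, 0 ≤ ε → 0 ≤ η → cut ε (cut η a) = cut (ε + η) a) ∧
    cut 0 a = a ∧
    (∀ ε : ℝ, 0 ≤ ε → ‖a - cut ε a‖ ≤ ε) ∧
    (∀ ε : ℝ, 0 ≤ ε → ‖a‖ ≤ ε → cut ε a = 0) ∧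
    (∀ δ : ℝ, 0 < δ → 0 ≤ phi δ a ∧ ‖phi δ a‖ ≤ 1 ∧ (a ≠ 0 → phi δ a ≠ 0)) ∧
    (∀ ε : ℝ, 0 ≤ ε → ∀ b : B, (a * b = 0 → cut ε a * b = 0) ∧ (b * a = 0 → b * cut ε a = 0))

/-- the rank is the supremum of `T (phi δ a)` and the limit of `T (a ^ (1/k))` -/
def StRK : Prop := ∀ (B : Type u) [NonUnitalCStarAlgebra B] [PartialOrder B] [StarOrderedRing B]
  (T : Tr B) (a : B), 0 ≤ a →
    (∀ δ : ℝ, 0 < δ → (T.f (phi δ a)).re ≤ rk T a) ∧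
    (∀ ε : ℝ, 0 < ε → ∃ δ : ℝ, 0 < δ ∧ rk T a - ε < (T.f (phi δ a)).re) ∧
    IsRank T a (rk T a) ∧ 0 ≤ rk T a

/-- functional calculus of a sum of two orthogonal positive elements -/
def StORTH : Prop := ∀ (B : Type u) [NonUnitalCStarAlgebra B] [PartialOrder B] [StarOrderedRing B]
  (p q : B) (f : ℝ → ℝ), 0 ≤ p → 0 ≤ q → p * q = 0 → Continuous f → f 0 = 0 →
    cfcₙ f (p + q) = cfcₙ f p + cfcₙ f q

/-- the rank is additive on orthogonal sums -/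
def StADD : Prop := ∀ (B : Type u) [NonUnitalCStarAlgebra B] [PartialOrder B] [StarOrderedRing B]
  (T : Tr B) (p q : B), 0 ≤ p → 0 ≤ q → p * q = 0 → rk T (p + q) = rk T p + rk T q

/-- `T (f (x^* x)) = T (f (x x^*))` -/
def StSWAP : Prop := ∀ (B : Type u) [NonUnitalCStarAlgebra B] [PartialOrder B] [StarOrderedRing B]
  (T : Tr B) (x : B) (f : ℝ → ℝ), Continuous f → f 0 = 0 →
    T.f (cfcₙ f (star x * x)) = T.f (cfcₙ f (x * star x))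

/-- the rank is monotone: `0 ≤ a ≤ M b` -/
def StMON : Prop := ∀ (B : Type u) [NonUnitalCStarAlgebra B] [PartialOrder B] [StarOrderedRing B]
  (T : Tr B) (a b : B) (M : ℝ), 0 ≤ a → 0 ≤ b → 0 < M → a ≤ M • b → rk T a ≤ rk T b

/-- `rank (x b x^*) ≤ rank b` -/
def StCNJ : Prop := ∀ (B : Type u) [NonUnitalCStarAlgebra B] [PartialOrder B] [StarOrderedRing B]
  (T : Tr B) (x b : B), 0 ≤ b → rk T (x * b * star x) ≤ rk T b

/-- the rank is monotone for Cuntz subequivalence -/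
def StLSC : Prop := ∀ (B : Type u) [NonUnitalCStarAlgebra B] [PartialOrder B] [StarOrderedRing B]
  (T : Tr B) (a b : B), 0 ≤ a → 0 ≤ b → Cz a b → rk T a ≤ rk T b

/-- layer cake: `∑_{j=1}^K rk ((g-j)_+) ≤ T(g) ≤ rk g + ∑_{j=1}^K rk ((g-j)_+)` -/
def StCAKE : Prop := ∀ (B : Type u) [NonUnitalCStarAlgebra B] [PartialOrder B] [StarOrderedRing B]
  (T : Tr B) (g : B) (K : ℕ), 0 ≤ g → ‖g‖ ≤ K →
    ∑ j ∈ Finset.range K, rk T (cut ((j : ℝ) + 1) g) ≤ (T.f g).re ∧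
    (T.f g).re ≤ rk T g + ∑ j ∈ Finset.range K, rk T (cut ((j : ℝ) + 1) g)

/-- `rank ((a-ε)_+) ≤ T (phi ε a)` -/
def StSAND : Prop := ∀ (B : Type u) [NonUnitalCStarAlgebra B] [PartialOrder B] [StarOrderedRing B]
  (T : Tr B) (a : B) (ε : ℝ), 0 ≤ a → 0 < ε → rk T (cut ε a) ≤ (T.f (phi ε a)).re

/-- trace preserving homomorphisms preserve ranks -/
def StHOM : Prop := ∀ (B : Type u) (C : Type v) [NonUnitalCStarAlgebra B] [PartialOrder B]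
  [StarOrderedRing B] [NonUnitalCStarAlgebra C] [PartialOrder C] [StarOrderedRing C]
  (φ : B →⋆ₙₐ[ℂ] C) (a : B), 0 ≤ a →
    0 ≤ φ a ∧ (∀ ε : ℝ, 0 ≤ ε → φ (cut ε a) = cut ε (φ a)) ∧
    (∀ δ : ℝ, 0 < δ → φ (phi δ a) = phi δ (φ a)) ∧
    (∀ (T : Tr B) (T' : Tr C), (∀ x, T'.f (φ x) = T.f x) → rk T' (φ a) = rk T a)

/-- in a simple unital C*-algebra every nonzero positive element is full -/
def StFULL : Prop := ∀ (A : Type u) [CStarAlgebra A] [PartialOrder A] [StarOrderedRing A],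
  SimpleC A → ∀ c : A, 0 ≤ c → c ≠ 0 →
    ∃ (n : ℕ) (y : Fin n → A), ∑ i, star (y i) * c * y i = 1

/-- nilpotents in hereditary subalgebras -/
def StNIL : Prop := ∀ (A : Type u) [CStarAlgebra A] [PartialOrder A] [StarOrderedRing A],
  SimpleC A → ¬ FiniteDimensional ℂ A → ∀ c : A, 0 ≤ c → c ≠ 0 →
    ∃ (x : A) (M : ℝ), 0 < M ∧ x ≠ 0 ∧ x * x = 0 ∧ star x * x ≤ M • c ∧ x * star x ≤ M • c

/-- small positive elements -/
def StSMALL : Prop := ∀ (A : Type u) [CStarAlgebra A] [PartialOrder A] [StarOrderedRing A],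
  SimpleC A → ¬ FiniteDimensional ℂ A → ∀ N : ℕ, ∃ c : A, 0 ≤ c ∧ c ≠ 0 ∧
    ∀ T : Tr A, (N : ℝ) * rk T c ≤ (T.f 1).re

/-- uniform lower bound for traces -/
def StLOW : Prop := ∀ (A : Type u) [CStarAlgebra A] [PartialOrder A] [StarOrderedRing A],
  SimpleC A → ∀ c : A, 0 ≤ c → c ≠ 0 → ∃ η : ℝ, 0 < η ∧ ∀ T : Tr A, η * (T.f 1).re ≤ (T.f c).re

/-- all ranks almost occur (families instead of diagonal matrices) -/
def StMAIN1 : Prop := ∀ (A : Type u) [CStarAlgebra A] [PartialOrder A] [StarOrderedRing A],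
  SimpleC A → ¬ FiniteDimensional ℂ A → ∀ (h : A) (ε : ℝ), 0 ≤ h → 0 < ε →
    ∃ (K : ℕ) (a : Fin K → A), (∀ j, 0 ≤ a j) ∧ ∀ T : Tr A,
      (T.f h).re - ε * (T.f 1).re ≤ ∑ j, rk T (a j) ∧ ∑ j, rk T (a j) ≤ (T.f h).re

/-- `0 ≤ u ≤ v` implies `u ≾ v` -/
def StLE : Prop := ∀ (B : Type u) [NonUnitalCStarAlgebra B] [PartialOrder B] [StarOrderedRing B]
  (a b : B), 0 ≤ a → a ≤ b → Cz a b

/-- transitivity -/
def StTRA : Prop := ∀ (B : Type u) [NonUnitalCStarAlgebra B] (a b c : B),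
  Cz a b → Cz b c → Cz a c

/-- `‖a-b‖ ≤ ε` implies `(a-ε-η)_+ ≾ (b-η)_+` -/
def StKR : Prop := ∀ (B : Type u) [NonUnitalCStarAlgebra B] [PartialOrder B] [StarOrderedRing B]
  (a b : B) (ε η : ℝ), 0 ≤ a → 0 ≤ b → ‖a - b‖ ≤ ε → 0 ≤ η → Cz (cut (ε + η) a) (cut η b)

/-- Rørdam's lemma -/
def StROR : Prop := ∀ (B : Type u) [NonUnitalCStarAlgebra B] [PartialOrder B] [StarOrderedRing B]
  (a b : B) (ε : ℝ), 0 ≤ a → 0 ≤ b → Cz a b → 0 < ε → ∃ δ : ℝ, 0 < δ ∧ Cz (cut ε a) (cut δ b)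

/-- closedness -/
def StCLO : Prop := ∀ (B : Type u) [NonUnitalCStarAlgebra B] [PartialOrder B] [StarOrderedRing B]
  (a b : B), 0 ≤ a → (∀ ε : ℝ, 0 < ε → Cz (cut ε a) b) → Cz a b

/-- orthogonal sums of Cuntz subequivalences -/
def StOSM : Prop := ∀ (B : Type u) [NonUnitalCStarAlgebra B] [PartialOrder B] [StarOrderedRing B]
  (k : ℕ) (a b : Fin k → B), (∀ i, 0 ≤ a i) → (∀ i, 0 ≤ b i) →
    (∀ i j, i ≠ j → a i * a j = 0) → (∀ i j, i ≠ j → b i * b j = 0) → (∀ i, Cz (a i) (b i)) →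
    Cz (∑ i, a i) (∑ i, b i)

/-- `cut` of an orthogonal sum -/
def StCSM : Prop := ∀ (B : Type u) [NonUnitalCStarAlgebra B] [PartialOrder B] [StarOrderedRing B]
  (k : ℕ) (b : Fin k → B) (ε : ℝ), (∀ i, 0 ≤ b i) → (∀ i j, i ≠ j → b i * b j = 0) → 0 ≤ ε →
    cut ε (∑ i, b i) = ∑ i, cut ε (b i)

end Pool.Agent.H327R4.Pure
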