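import Mathlib
import Pool.Agent.H327R4.Pure.Stubs1

/-! Task OSM: orthogonal sums of Cuntz subequivalences. -/

set_option autoImplicit false

namespace Pool.Agent.H327R4.Pure

open Filter Topology

universe u

namespace OSM

theorem cz_of_forall {B : Type u} [NonUnitalCStarAlgebra B] {a b : B}
    (h : ∀ ε : ℝ, 0 < ε → ∃ x : B, ‖x * b * star x - a‖ < ε) : Cz a b := by
  choose! x hx using h
  refine ⟨fun n => x (1 / ((n : ℝ) + 1)), ?_⟩
  rw [tendsto_iff_norm_sub_tendsto_zero]
  refine squeeze_zero (fun _ => norm_nonneg _) (fun n => (hx _ (by positivity)).le) ?_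
  exact tendsto_one_div_add_atTop_nhds_zero_nat

theorem forall_of_cz {B : Type u} [NonUnitalCStarAlgebra B] {a b : B} (h : Cz a b) (ε : ℝ)
    (hε : 0 < ε) : ∃ x : B, ‖x * b * star x - a‖ < ε := by
  obtain ⟨x, hx⟩ := h
  rw [Metric.tendsto_atTop] at hx
  obtain ⟨n, hn⟩ := hx ε hε
  have hn' := hn n le_rfl
  rw [dist_eq_norm] at hn'
  exact ⟨x n, hn'⟩

variable {B : Type u} [NonUnitalCStarAlgebra B] [PartialOrder B] [StarOrderedRing B]

/-- the function `min (1, t / δ)` in the form `(t - (t-δ)_+) / δ` -/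
noncomputable def gf (δ : ℝ) (t : ℝ) : ℝ := (1 / δ) * (t - max (t - δ) 0)

theorem gf_cont (δ : ℝ) : Continuous (gf δ) := by
  unfold gf
  fun_prop

theorem gf_zero {δ : ℝ} (hδ : 0 < δ) : gf δ 0 = 0 := by
  unfold gf
  rw [max_eq_right (by linarith), sub_zero, mul_zero]

theorem gf_bound {δ : ℝ} (hδ : 0 < δ) (t : ℝ) (ht : 0 ≤ t) : ‖gf δ t * t * gf δ t - t‖ ≤ δ := by
  unfold gf
  rcases le_total t δ with h | h
  · rw [max_eq_right (by linarith), sub_zero]
    have e : 1 / δ * t * t * (1 / δ * t) - t = -(t * (1 - (t / δ) ^ 2)) := by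
      field_simp
      ring
    have h1 : 0 ≤ t / δ := by positivity
    have h2 : t / δ ≤ 1 := (div_le_one hδ).2 h
    have h3 : (t / δ) ^ 2 ≤ 1 := by nlinarith
    have h4 : 0 ≤ (t / δ) ^ 2 := by positivity
    rw [e, norm_neg, Real.norm_eq_abs, abs_of_nonneg (mul_nonneg ht (by linarith))]
    nlinarith
  · rw [max_eq_left (by linarith)]
    have e : 1 / δ * (t - (t - δ)) * t * (1 / δ * (t - (t - δ))) - t = 0 := by
      have : 1 / δ * (t - (t - δ)) = 1 := by
        field_simp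
        ring
      rw [this]
      ring
    rw [e, norm_zero]
    exact hδ.le

theorem gf_eq {b : B} (hb : 0 ≤ b) {δ : ℝ} (hδ : 0 < δ) :
    cfcₙ (gf δ) b = (1 / δ : ℝ) • (b - cut δ b) := by
  have hsa : IsSelfAdjoint b := IsSelfAdjoint.of_nonneg hb
  unfold cut gf
  rw [cfcₙ_const_mul (1 / δ) (fun t => t - max (t - δ) 0) b (by fun_prop)
    (by simp [hδ.le])]
  rw [cfcₙ_sub (fun t => t) (fun t => max (t - δ) 0) b (by fun_prop) (by rfl) (by fun_prop)
    (by simp [hδ.le])]
  rw [cfcₙ_id' ℝ b hsa]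

theorem gf_norm {b : B} (hb : 0 ≤ b) {δ : ℝ} (hδ : 0 < δ) :
    ‖cfcₙ (gf δ) b * b * cfcₙ (gf δ) b - b‖ ≤ δ := by
  have hsa : IsSelfAdjoint b := IsSelfAdjoint.of_nonneg hb
  have h0 := gf_zero hδ
  have hc := gf_cont δ
  have e : cfcₙ (gf δ) b * b * cfcₙ (gf δ) b - b =
      cfcₙ (fun t => gf δ t * t * gf δ t - t) b := by
    rw [cfcₙ_sub (fun t => gf δ t * t * gf δ t) (fun t => t) b (by fun_prop)
      (by simp) (by fun_prop) rfl]
    rw [cfcₙ_mul (fun t => gf δ t * t) (gf δ) b (by fun_prop) (by simp) (by fun_prop) h0]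
    rw [cfcₙ_mul (gf δ) (fun t => t) b (by fun_prop) h0 (by fun_prop) rfl]
    rw [cfcₙ_id' ℝ b hsa]
  rw [e]
  refine norm_cfcₙ_le ?_
  intro t ht
  exact gf_bound hδ t (quasispectrum_nonneg_of_nonneg b hb t ht)

end OSM

open OSM

theorem osm_holds (hct : StCT.{u}) : StOSM.{u} := by
  intro B _ _ _ k a b ha hb haa hbb hab
  apply cz_of_forall
  intro ε hε
  have h1 : ∀ i, ∃ y : B, ‖y * b i * star y - a i‖ < ε / (2 * ((k : ℝ) + 1)) := fun i =>
    forall_of_cz (hab i) _ (by positivity)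
  choose y hy using h1
  set S : ℝ := ∑ i, ‖y i‖ ^ 2 with hS
  have hS0 : 0 ≤ S := Finset.sum_nonneg fun i _ => by positivity
  have hSi : ∀ i, ‖y i‖ ^ 2 ≤ S := fun i =>
    Finset.single_le_sum (f := fun i => ‖y i‖ ^ 2) (fun j _ => by positivity) (Finset.mem_univ i)
  set δ : ℝ := ε / (2 * ((k : ℝ) + 1)) / (S + 1) with hδ
  have hδ0 : 0 < δ := by positivity
  set g : Fin k → B := fun i => cfcₙ (gf δ) (b i) with hg
  have hgstar : ∀ i, star (g i) = g i := fun i => by
    have : IsSelfAdjoint (cfcₙ (gf δ) (b i)) := cfcₙ_predicate (gf δ) (b i)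
    exact this.star_eq
  have hgeq : ∀ i, g i = (1 / δ : ℝ) • (b i - cut δ (b i)) := fun i => gf_eq (hb i) hδ0
  have hct' := fun i => (hct B (b i) (hb i)).2.2.2.2.2.2.2.2 δ hδ0.le
  have hgb : ∀ i j, i ≠ j → g i * b j = 0 := by
    intro i j hij
    rw [hgeq, smul_mul_assoc, sub_mul, hbb i j hij, (hct' i (b j)).1 (hbb i j hij), sub_zero,
      smul_zero]
  have hbg : ∀ i j, i ≠ j → b i * g j = 0 := by
    intro i j hij
    rw [hgeq, mul_smul_comm, mul_sub, hbb i j hij, (hct' j (b i)).2 (hbb i j hij), sub_zero,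
      smul_zero]
  refine ⟨∑ i, y i * g i, ?_⟩
  have e : (∑ i, y i * g i) * (∑ i, b i) * star (∑ i, y i * g i) =
      ∑ i, y i * (g i * b i * g i) * star (y i) := by
    rw [star_sum]
    have e1 : (∑ i, y i * g i) * (∑ i, b i) = ∑ i, y i * (g i * b i) := by
      rw [Finset.sum_mul]
      refine Finset.sum_congr rfl fun i _ => ?_
      rw [Finset.mul_sum, Finset.sum_eq_single i]
      · rw [mul_assoc]
      · intro j _ hj
        rw [mul_assoc, hgb i j (Ne.symm hj), mul_zero]
      · intro h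
        exact absurd (Finset.mem_univ i) h
    rw [e1, Finset.sum_mul]
    refine Finset.sum_congr rfl fun i _ => ?_
    rw [Finset.mul_sum, Finset.sum_eq_single i]
    · rw [star_mul, hgstar]
      simp only [mul_assoc]
    · intro j _ hj
      rw [star_mul, hgstar]
      have : b i * g j = 0 := hbg i j (Ne.symm hj)
      calc y i * (g i * b i) * (g j * star (y j)) = y i * g i * (b i * g j) * star (y j) := by
            simp only [mul_assoc]
        _ = 0 := by rw [this, mul_zero, zero_mul]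
    · intro h
      exact absurd (Finset.mem_univ i) h
  rw [e, ← Finset.sum_sub_distrib]
  have h3 : ∀ i ∈ (Finset.univ : Finset (Fin k)),
      ‖y i * (g i * b i * g i) * star (y i) - a i‖ ≤ ε / ((k : ℝ) + 1) := by
    intro i _
    have e2 : y i * (g i * b i * g i) * star (y i) - a i =
        y i * (g i * b i * g i - b i) * star (y i) + (y i * b i * star (y i) - a i) := by
      rw [mul_sub, sub_mul]
      abel
    rw [e2]
    refine (norm_add_le _ _).trans ?_
    have h4 : ‖y i * (g i * b i * g i - b i) * star (y i)‖ ≤ ε / (2 * ((k : ℝ) + 1)) := by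
      have h5 : ‖y i * (g i * b i * g i - b i) * star (y i)‖ ≤ ‖y i‖ * δ * ‖y i‖ := by
        refine (norm_mul_le _ _).trans ?_
        rw [norm_star]
        refine mul_le_mul_of_nonneg_right ?_ (norm_nonneg _)
        refine (norm_mul_le _ _).trans ?_
        exact mul_le_mul_of_nonneg_left (gf_norm (hb i) hδ0) (norm_nonneg _)
      have h6 : ‖y i‖ * δ * ‖y i‖ = ‖y i‖ ^ 2 * δ := by ring
      have h7 : ‖y i‖ ^ 2 * δ ≤ (S + 1) * δ := by
        apply mul_le_mul_of_nonneg_right _ hδ0.le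
        linarith [hSi i]
      have h8 : (S + 1) * δ = ε / (2 * ((k : ℝ) + 1)) := by
        rw [hδ]
        have : S + 1 ≠ 0 := by positivity
        field_simp
      linarith
    have h9 := (hy i).le
    have h10 : ε / (2 * ((k : ℝ) + 1)) + ε / (2 * ((k : ℝ) + 1)) = ε / ((k : ℝ) + 1) := by
      field_simp
      ring
    linarith
  refine lt_of_le_of_lt (norm_sum_le_of_le _ h3) ?_
  rw [Finset.sum_const, Finset.card_univ, Fintype.card_fin, nsmul_eq_mul]
  have hk : (k : ℝ) * (ε / ((k : ℝ) + 1)) = ε * (k / (k + 1)) := by ring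
  rw [hk]
  have h11 : (k : ℝ) / (k + 1) < 1 := by
    rw [div_lt_one (by positivity)]
    linarith
  nlinarith

end Pool.Agent.H327R4.Pure
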