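import Pool.Agent.H327R4.Pure.Stubs1

set_option autoImplicit false

namespace Pool.Agent.H327R4.Pure

open Filter Topology

universe u v

section RK

variable {B : Type u} [NonUnitalCStarAlgebra B] [PartialOrder B] [StarOrderedRing B]

theorem RK_smul (T : Tr B) (c : ℝ) (x : B) : (T.f (c • x)).re = c * (T.f x).re := by
  have : c • x = (c : ℂ) • x := (Complex.coe_smul c x).symm
  rw [this, map_smul]
  simp

theorem RK_spec {a : B} (ha : 0 ≤ a) {x : ℝ} (hx : x ∈ quasispectrum ℝ a) : 0 ≤ x ∧ x ≤ ‖a‖ := by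
  have h1 := quasispectrum_nonneg_of_nonneg a ha x hx
  refine ⟨h1, ?_⟩
  have h2 := NonUnitalIsometricContinuousFunctionalCalculus.norm_quasispectrum_le a hx
    (IsSelfAdjoint.of_nonneg ha)
  rwa [Real.norm_of_nonneg h1] at h2

/-- comparison of the traces of functions of `a` -/
theorem RK_cmp (hmt : StMT.{u}) (T : Tr B) {a : B} (ha : 0 ≤ a) (F G : ℝ → ℝ) (C η : ℝ)
    (hF : Continuous F) (hG : Continuous G) (hF0 : F 0 = 0) (hG0 : G 0 = 0) (hη : 0 ≤ η)
    (h : ∀ x : ℝ, 0 ≤ x → x ≤ ‖a‖ → F x ≤ C * G x + η) :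
    (T.f (cfcₙ F a)).re ≤ C * (T.f (cfcₙ G a)).re + ‖T.f‖ * η := by
  obtain ⟨H, hH⟩ : ∃ H : ℝ → ℝ, H = fun x => max (F x - C * G x) 0 := ⟨_, rfl⟩
  have hHc : Continuous H := by rw [hH]; fun_prop
  have hH0 : H 0 = 0 := by rw [hH]; simp [hF0, hG0]
  have hsa : IsSelfAdjoint a := IsSelfAdjoint.of_nonneg ha
  have h1 : cfcₙ F a ≤ C • cfcₙ G a + cfcₙ H a := by
    have e1 : C • cfcₙ G a + cfcₙ H a = cfcₙ (fun x => C * G x + H x) a := by
      rw [cfcₙ_add (fun x => C * G x) H a (by fun_prop) (by simp [hG0]) hHc.continuousOn hH0,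
        cfcₙ_const_mul C G a hG.continuousOn hG0]
    rw [e1]
    refine cfcₙ_mono (fun x _ => ?_) hF.continuousOn (by fun_prop) hF0 (by simp [hG0, hH0])
    rw [hH]
    have := le_max_left (F x - C * G x) 0
    simp only
    linarith
  have h2 := (hmt B T).1 _ _ h1
  rw [map_add, Complex.add_re, RK_smul] at h2
  have h3 : (T.f (cfcₙ H a)).re ≤ ‖T.f‖ * η := by
    calc (T.f (cfcₙ H a)).re ≤ ‖T.f (cfcₙ H a)‖ := Complex.re_le_norm _
      _ ≤ ‖T.f‖ * ‖cfcₙ H a‖ := T.f.le_opNorm _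
      _ ≤ ‖T.f‖ * η := by
        gcongr
        refine norm_cfcₙ_le (fun x hx => ?_)
        obtain ⟨hx0, hx1⟩ := RK_spec ha hx
        rw [hH]
        simp only
        rw [Real.norm_of_nonneg (le_max_right _ _)]
        apply max_le _ hη
        have := h x hx0 hx1
        linarith
  linarith

theorem RK_phi_cont (δ : ℝ) : Continuous (fun x : ℝ => min 1 (x / δ)) := by fun_prop

theorem RK_rt_cont (k : ℕ) : Continuous (fun x : ℝ => x ^ (1 / ((k : ℝ) + 1))) :=
  Real.continuous_rpow_const (by positivity)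

theorem RK_rt_zero (k : ℕ) : (0 : ℝ) ^ (1 / ((k : ℝ) + 1)) = 0 :=
  Real.zero_rpow (by positivity)

theorem RK_anti (hmt : StMT.{u}) (T : Tr B) {a : B} (ha : 0 ≤ a) {δ δ' : ℝ} (hδ : 0 < δ)
    (h : δ ≤ δ') : (T.f (phi δ' a)).re ≤ (T.f (phi δ a)).re := by
  have := RK_cmp hmt T ha (fun x : ℝ => min 1 (x / δ')) (fun x : ℝ => min 1 (x / δ)) 1 0
    (RK_phi_cont δ') (RK_phi_cont δ) (by simp) (by simp) le_rfl (fun x hx _ => by
      rw [one_mul, add_zero]
      exact min_le_min_left _ (div_le_div_of_nonneg_left hx hδ h))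
  rw [one_mul, mul_zero, add_zero] at this
  exact this

theorem rk_holds (hmt : StMT.{u}) : StRK.{u} := by
  intro B _ _ _ T a ha
  obtain ⟨r, hr⟩ : ∃ r : ℝ → ℝ, r = fun δ => (T.f (phi δ a)).re := ⟨_, rfl⟩
  have hrk : rk T a = ⨆ k : ℕ, r (1 / ((k : ℝ) + 1)) := by rw [hr]; rfl
  have hanti : ∀ δ δ' : ℝ, 0 < δ → δ ≤ δ' → r δ' ≤ r δ := by
    intro δ δ' h1 h2
    rw [hr]
    exact RK_anti hmt T ha h1 h2
  have hsa : IsSelfAdjoint a := IsSelfAdjoint.of_nonneg ha
  have hbd : ∀ δ : ℝ, 0 < δ → 0 ≤ r δ ∧ r δ ≤ ‖T.f‖ := by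
    intro δ hδ
    rw [hr]
    constructor
    · have h0 : 0 ≤ phi δ a := by
        apply cfcₙ_nonneg
        intro x hx
        obtain ⟨hx0, _⟩ := RK_spec ha hx
        exact le_min zero_le_one (by positivity)
      exact ((hmt B T).2.1 _ h0).1
    · have h1 := RK_cmp hmt T ha (fun x : ℝ => min 1 (x / δ)) (fun _ => 0) 0 1
        (RK_phi_cont δ) continuous_const (by simp) rfl zero_le_one (fun x hx _ => by simp)
      rw [zero_mul, zero_add, mul_one] at h1
      exact h1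
  have hpos : ∀ k : ℕ, (0 : ℝ) < 1 / ((k : ℝ) + 1) := fun k => by positivity
  have hBA : BddAbove (Set.range fun k : ℕ => r (1 / ((k : ℝ) + 1))) :=
    ⟨‖T.f‖, by rintro _ ⟨k, rfl⟩; exact (hbd _ (hpos k)).2⟩
  have hle : ∀ k : ℕ, r (1 / ((k : ℝ) + 1)) ≤ rk T a := fun k => by
    rw [hrk]; exact le_ciSup hBA k
  have hle' : ∀ δ : ℝ, 0 < δ → r δ ≤ rk T a := by
    intro δ hδ
    obtain ⟨k, hk⟩ := exists_nat_one_div_lt hδ
    exact (hanti _ _ (hpos k) hk.le).trans (hle k)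
  have hsup : ∀ ε : ℝ, 0 < ε → ∃ k : ℕ, rk T a - ε < r (1 / ((k : ℝ) + 1)) := by
    intro ε hε
    apply exists_lt_of_lt_ciSup
    rw [← hrk]
    linarith
  have hrk0 : 0 ≤ rk T a := (hbd _ (hpos 0)).1.trans (hle 0)
  refine ⟨fun δ hδ => by have := hle' δ hδ; rw [hr] at this; exact this, ?_, ?_, hrk0⟩
  · intro ε hε
    obtain ⟨k, hk⟩ := hsup ε hε
    rw [hr] at hk
    exact ⟨_, hpos k, hk⟩
  · -- the limit
    have hlim : ∀ c : ℝ, 0 < c → Tendsto (fun k : ℕ => c ^ (1 / ((k : ℝ) + 1))) atTop (𝓝 1) := by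
      intro c hc
      have h1 := (Real.continuousAt_const_rpow (b := 0) hc.ne').tendsto.comp
        (tendsto_one_div_add_atTop_nhds_zero_nat (𝕜 := ℝ))
      rw [Real.rpow_zero] at h1
      exact h1
    unfold IsRank
    rw [tendsto_order]
    constructor
    · intro a' ha'
      obtain ⟨k0, hk0⟩ := hsup ((rk T a - a') / 2) (by linarith)
      obtain ⟨δ, hδ⟩ : ∃ δ : ℝ, δ = 1 / ((k0 : ℝ) + 1) := ⟨_, rfl⟩
      have hδ0 : 0 < δ := by rw [hδ]; exact hpos k0
      rw [← hδ] at hk0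
      obtain ⟨η, hη0, hη1, hηN⟩ : ∃ η : ℝ, 0 < η ∧ η ≤ 1 ∧ ‖T.f‖ * η < (rk T a - a') / 2 := by
        have hN : 0 ≤ ‖T.f‖ := norm_nonneg _
        have hg : 0 < (rk T a - a') / 2 := by linarith
        refine ⟨min 1 ((rk T a - a') / 2 / (‖T.f‖ + 1)), lt_min one_pos (by positivity),
          min_le_left _ _, ?_⟩
        have h1 : min 1 ((rk T a - a') / 2 / (‖T.f‖ + 1)) ≤ (rk T a - a') / 2 / (‖T.f‖ + 1) :=
          min_le_right _ _
        have h2 : ‖T.f‖ * ((rk T a - a') / 2 / (‖T.f‖ + 1)) < (rk T a - a') / 2 := by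
          rw [mul_div_assoc', div_lt_iff₀ (by positivity)]
          nlinarith
        exact (mul_le_mul_of_nonneg_left h1 hN).trans_lt h2
      have hev := (hlim (η * δ) (by positivity)).eventually (eventually_gt_nhds
        (show 1 - η < 1 by linarith))
      filter_upwards [hev] with k hk
      have h1 := RK_cmp hmt T ha (fun x : ℝ => min 1 (x / δ))
        (fun x : ℝ => x ^ (1 / ((k : ℝ) + 1))) 1 η (RK_phi_cont δ) (RK_rt_cont k) (by simp)
        (RK_rt_zero k) hη0.le (fun x hx _ => by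
          rw [one_mul]
          rcases le_total x (η * δ) with hxx | hxx
          · have e1 : min 1 (x / δ) ≤ η := (min_le_right _ _).trans (by
              rw [div_le_iff₀ hδ0]; exact hxx)
            have e2 : 0 ≤ x ^ (1 / ((k : ℝ) + 1)) := Real.rpow_nonneg hx _
            linarith
          · have e1 : min 1 (x / δ) ≤ 1 := min_le_left _ _
            have e2 : (η * δ) ^ (1 / ((k : ℝ) + 1)) ≤ x ^ (1 / ((k : ℝ) + 1)) :=
              Real.rpow_le_rpow (by positivity) hxx (by positivity)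
            linarith)
      rw [one_mul] at h1
      have h2 : r δ ≤ (T.f (rt k a)).re + ‖T.f‖ * η := by rw [hr]; exact h1
      linarith
    · intro a' ha'
      obtain ⟨M, hM⟩ : ∃ M : ℝ, M = max 1 ‖a‖ := ⟨_, rfl⟩
      have hM1 : 1 ≤ M := by rw [hM]; exact le_max_left _ _
      have hMa : ‖a‖ ≤ M := by rw [hM]; exact le_max_right _ _
      have hq : ∀ k : ℕ, (T.f (rt k a)).re ≤ M ^ (1 / ((k : ℝ) + 1)) * rk T a := by
        intro k
        apply le_of_forall_pos_le_add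
        intro ε hε
        obtain ⟨ε', hε'0, hε'⟩ : ∃ ε' : ℝ, 0 < ε' ∧ ‖T.f‖ * ε' ≤ ε := by
          have hN : 0 ≤ ‖T.f‖ := norm_nonneg _
          refine ⟨ε / (‖T.f‖ + 1), by positivity, ?_⟩
          rw [mul_div_assoc', div_le_iff₀ (by positivity)]
          nlinarith
        obtain ⟨δ, hδ⟩ : ∃ δ : ℝ, δ = ε' ^ (k + 1) := ⟨_, rfl⟩
        have hδ0 : 0 < δ := by rw [hδ]; positivity
        have hδr : δ ^ (1 / ((k : ℝ) + 1)) = ε' := by
          rw [hδ, ← Real.rpow_natCast, ← Real.rpow_mul hε'0.le]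
          push_cast
          rw [mul_one_div_cancel (by positivity), Real.rpow_one]
        have hMp : 1 ≤ M ^ (1 / ((k : ℝ) + 1)) := Real.one_le_rpow hM1 (by positivity)
        have h1 := RK_cmp hmt T ha (fun x : ℝ => x ^ (1 / ((k : ℝ) + 1)))
          (fun x : ℝ => min 1 (x / δ)) (M ^ (1 / ((k : ℝ) + 1))) ε' (RK_rt_cont k)
          (RK_phi_cont δ) (RK_rt_zero k) (by simp) hε'0.le (fun x hx hxa => by
            rcases le_total x δ with hxx | hxx
            · have e1 : x ^ (1 / ((k : ℝ) + 1)) ≤ ε' := by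
                rw [← hδr]
                exact Real.rpow_le_rpow hx hxx (by positivity)
              have e2 : 0 ≤ min 1 (x / δ) := le_min zero_le_one (by positivity)
              nlinarith
            · have e1 : min 1 (x / δ) = 1 := min_eq_left ((one_le_div hδ0).2 hxx)
              rw [e1, mul_one]
              have e2 : x ^ (1 / ((k : ℝ) + 1)) ≤ M ^ (1 / ((k : ℝ) + 1)) :=
                Real.rpow_le_rpow hx (hxa.trans hMa) (by positivity)
              linarith)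
        have h2 : (T.f (rt k a)).re ≤ M ^ (1 / ((k : ℝ) + 1)) * r δ + ‖T.f‖ * ε' := by
          rw [hr]; exact h1
        have h3 : M ^ (1 / ((k : ℝ) + 1)) * r δ ≤ M ^ (1 / ((k : ℝ) + 1)) * rk T a :=
          mul_le_mul_of_nonneg_left (hle' δ hδ0) (by linarith)
        linarith
      have hT : Tendsto (fun k : ℕ => M ^ (1 / ((k : ℝ) + 1)) * rk T a) atTop (𝓝 (1 * rk T a)) :=
        (hlim M (by linarith)).mul_const _
      rw [one_mul] at hT
      filter_upwards [hT.eventually (eventually_lt_nhds ha')] with k hk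
      exact (hq k).trans_lt hk

end RK

end Pool.Agent.H327R4.Pure
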