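import Mathlib
import Pool.Agent.H327R4.Pure.Stubs1

/-! Task ROR: Rordam's lemma. -/

set_option autoImplicit false

namespace Pool.Agent.H327R4.Pure

open Filter Topology

universe u

theorem ror_holds (hkr : StKR.{u}) (htra : StTRA.{u}) (hct : StCT.{u}) : StROR.{u} := by
  intro B _ _ _ a b ε ha hb hab hε
  obtain ⟨x, hx⟩ := hab
  rw [Metric.tendsto_atTop] at hx
  obtain ⟨n, hn⟩ := hx (ε / 2) (by positivity)
  have hn' := hn n le_rfl
  rw [dist_eq_norm] at hn'
  set r := x n with hr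
  set δ : ℝ := ε / (2 * (‖r‖ ^ 2 + 1)) with hδ
  have hδ0 : 0 < δ := by positivity
  refine ⟨δ, hδ0, ?_⟩
  have hc0 : 0 ≤ cut δ b := (hct B b hb).1 δ
  have hc1 : ‖b - cut δ b‖ ≤ δ := (hct B b hb).2.2.2.2.2.1 δ hδ0.le
  set b' := r * cut δ b * star r with hb'
  have hb'0 : 0 ≤ b' := star_right_conjugate_nonneg hc0 r
  have h1 : ‖r * b * star r - b'‖ ≤ ε / 2 := by
    have e : r * b * star r - b' = r * (b - cut δ b) * star r := by
      rw [hb', mul_sub, sub_mul]
    rw [e]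
    have h2 : ‖r * (b - cut δ b) * star r‖ ≤ ‖r‖ * δ * ‖r‖ := by
      refine (norm_mul_le _ _).trans ?_
      rw [norm_star]
      refine mul_le_mul_of_nonneg_right ?_ (norm_nonneg _)
      refine (norm_mul_le _ _).trans ?_
      exact mul_le_mul_of_nonneg_left hc1 (norm_nonneg _)
    have h3 : ‖r‖ * δ * ‖r‖ ≤ ε / 2 := by
      have h4 : ‖r‖ * δ * ‖r‖ = ‖r‖ ^ 2 * δ := by ring
      have h5 : (‖r‖ ^ 2 + 1) * δ = ε / 2 := by
        rw [hδ]
        have : ‖r‖ ^ 2 + 1 ≠ 0 := by positivity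
        field_simp
      have h6 : ‖r‖ ^ 2 * δ ≤ (‖r‖ ^ 2 + 1) * δ := by
        apply mul_le_mul_of_nonneg_right _ hδ0.le
        linarith
      linarith
    exact h2.trans h3
  have h2 : ‖a - b'‖ ≤ ε := by
    have e : a - b' = -(r * b * star r - a) + (r * b * star r - b') := by abel
    rw [e]
    refine (norm_add_le _ _).trans ?_
    rw [norm_neg]
    linarith
  have h3 := hkr B a b' ε 0 ha hb'0 h2 le_rfl
  rw [add_zero, (hct B b' hb'0).2.2.2.2.1] at h3
  exact htra B _ _ _ h3 ⟨fun _ => r, tendsto_const_nhds⟩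

end Pool.Agent.H327R4.Pure
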