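import Pool.Agent.H327R4.Pure.Stubs1

/-! Task SAND. -/

set_option autoImplicit false

namespace Pool.Agent.H327R4.Pure

open Filter Topology

universe u v

namespace TSAND

theorem phi_cut_le {B : Type u} [NonUnitalCStarAlgebra B] [PartialOrder B] [StarOrderedRing B]
    (a : B) (ε δ : ℝ) (ha : 0 ≤ a) (hε : 0 < ε) (hδ : 0 < δ) :
    phi δ (cut ε a) ≤ phi ε a := by
  have hs : IsSelfAdjoint a := ha.isSelfAdjoint
  unfold phi cut
  have h0 : cfcₙ (fun x : ℝ => min 1 (x / δ)) (cfcₙ (fun x : ℝ => max (x - ε) 0) a) =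
      cfcₙ (fun x : ℝ => min 1 (max (x - ε) 0 / δ)) a := by
    refine (cfcₙ_comp' (fun x : ℝ => min 1 (x / δ)) (fun x : ℝ => max (x - ε) 0) a
      (by fun_prop) (by simp) (by fun_prop) (by simp [hε.le]) hs).symm
  rw [h0]
  refine cfcₙ_mono (fun x hx => ?_) (by fun_prop) (by fun_prop) (by simp [hε.le]) (by simp)
  have hx0 : 0 ≤ x := quasispectrum_nonneg_of_nonneg a ha x hx
  rcases le_total x ε with h | h
  · rw [max_eq_right (by linarith), zero_div]
    exact (min_le_right _ _).trans (le_min zero_le_one (div_nonneg hx0 hε.le))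
  · rw [min_eq_left (a := (1 : ℝ)) (b := x / ε) ((one_le_div hε).2 h)]
    exact min_le_left _ _

end TSAND

theorem sand_holds (hmt : StMT.{u}) : StSAND.{u} := by
  intro B _ _ _ T a ε ha hε
  unfold rk
  refine ciSup_le fun k => ?_
  exact (hmt B T).1 _ _ (TSAND.phi_cut_le a ε _ ha hε (by positivity))

end Pool.Agent.H327R4.Pure
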