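import Pool.Agent.H327R4.Pure.Stubs1

/-! small positive elements in simple infinite-dimensional C*-algebras -/

set_option autoImplicit false

namespace Pool.Agent.H327R4.Pure

open Filter Topology

universe u v

/-- the ranks of `x^* x` and `x x^*` agree -/
lemma small_rk_swap (hsw : StSWAP.{u}) (B : Type u) [NonUnitalCStarAlgebra B] [PartialOrder B]
    [StarOrderedRing B] (T : Tr B) (x : B) : rk T (star x * x) = rk T (x * star x) := by
  unfold rk
  congr 1
  funext k
  have h := hsw B T x (fun t : ℝ => min 1 (t / (1 / ((k : ℝ) + 1))))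
    (continuous_const.min (continuous_id.div_const _)) (by simp)
  unfold phi
  rw [h]

/-- the rank of `1` is at most `T 1` -/
lemma small_rk_one (hrk : StRK.{u}) (hmt : StMT.{u}) (hct : StCT.{u})
    (A : Type u) [CStarAlgebra A] [PartialOrder A] [StarOrderedRing A] (T : Tr A) :
    rk T (1 : A) ≤ (T.f 1).re := by
  have h1 : (0 : A) ≤ 1 := zero_le_one
  refine le_of_forall_pos_lt_add fun ε hε => ?_
  obtain ⟨δ, hδ, h⟩ := (hrk A T 1 h1).2.1 ε hε
  obtain ⟨-, -, -, -, -, -, -, hphi, -⟩ := hct A (1 : A) h1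
  obtain ⟨hp0, hp1, -⟩ := hphi δ hδ
  have h2 : phi δ (1 : A) ≤ 1 := (CStarAlgebra.norm_le_one_iff_of_nonneg _ hp0).mp hp1
  have h3 := (hmt A T).1 _ _ h2
  linarith

theorem small_holds (hnil : StNIL.{u}) (hmon : StMON.{u}) (hadd : StADD.{u}) (hsw : StSWAP.{u})
    (hrk : StRK.{u}) (hmt : StMT.{u}) (hct : StCT.{u}) : StSMALL.{u} := by
  intro A _ _ _ hA hinf N
  have : Nontrivial A := hA.1
  have key : ∀ k : ℕ, ∃ c : A, 0 ≤ c ∧ c ≠ 0 ∧ ∀ T : Tr A, (2 : ℝ) ^ k * rk T c ≤ (T.f 1).re := by
    intro k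
    induction k with
    | zero =>
      refine ⟨1, zero_le_one, one_ne_zero, fun T => ?_⟩
      rw [pow_zero, one_mul]
      exact small_rk_one hrk hmt hct A T
    | succ k ih =>
      obtain ⟨c, hc0, hcn, hc⟩ := ih
      obtain ⟨x, M, hM, hx, hxx, h1, h2⟩ := hnil A hA hinf c hc0 hcn
      refine ⟨star x * x, star_mul_self_nonneg x, ?_, fun T => ?_⟩
      · intro h
        exact hx (CStarRing.star_mul_self_eq_zero_iff x |>.mp h)
      · have horth : (star x * x) * (x * star x) = 0 := by
          rw [mul_assoc, ← mul_assoc x x, hxx, zero_mul, mul_zero]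
        have ha := hadd A T (star x * x) (x * star x) (star_mul_self_nonneg x)
          (mul_star_self_nonneg x) horth
        have hs := small_rk_swap hsw A T x
        have hle : star x * x + x * star x ≤ (2 * M) • c := by
          rw [two_mul, add_smul]
          exact add_le_add h1 h2
        have hm := hmon A T (star x * x + x * star x) c (2 * M)
          (add_nonneg (star_mul_self_nonneg x) (mul_star_self_nonneg x)) hc0 (by linarith) hle
        have hcT := hc T
        have hpos : (0 : ℝ) ≤ 2 ^ k := by positivity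
        have h5 : 2 * rk T (star x * x) ≤ rk T c := by linarith
        calc (2 : ℝ) ^ (k + 1) * rk T (star x * x) = 2 ^ k * (2 * rk T (star x * x)) := by ring
          _ ≤ 2 ^ k * rk T c := mul_le_mul_of_nonneg_left h5 hpos
          _ ≤ _ := hcT
  obtain ⟨c, hc0, hcn, hc⟩ := key N
  refine ⟨c, hc0, hcn, fun T => ?_⟩
  have h1 : (N : ℝ) ≤ 2 ^ N := by exact_mod_cast (Nat.lt_two_pow_self (n := N)).le
  exact (mul_le_mul_of_nonneg_right h1 (hrk A T c hc0).2.2.2).trans (hc T)

end Pool.Agent.H327R4.Pure
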