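import Pool.Agent.H327R4.Pure.Stubs1

set_option autoImplicit false

namespace Pool.Agent.H327R4.Pure

open Filter Topology Polynomial

universe u v

section swap

variable {B : Type u} [NonUnitalCStarAlgebra B] [PartialOrder B] [StarOrderedRing B]

theorem swap_pow (x : B) (n : ℕ) : ∃ y : B,
    cfcₙ (fun t : ℝ => t ^ (n + 1)) (star x * x) = star x * y ∧
    cfcₙ (fun t : ℝ => t ^ (n + 1)) (x * star x) = y * star x := by
  have ha : IsSelfAdjoint (star x * x) := IsSelfAdjoint.star_mul_self x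
  have hb : IsSelfAdjoint (x * star x) := IsSelfAdjoint.mul_star_self x
  induction n with
  | zero =>
    refine ⟨x, ?_, ?_⟩
    · simp only [zero_add, pow_one]
      exact cfcₙ_id' ℝ (star x * x) ha
    · simp only [zero_add, pow_one]
      exact cfcₙ_id' ℝ (x * star x) hb
  | succ n ih =>
    obtain ⟨y, h1, h2⟩ := ih
    refine ⟨x * star x * y, ?_, ?_⟩
    · have e : (fun t : ℝ => t ^ (n + 1 + 1)) = fun t : ℝ => (fun s : ℝ => s) t * (fun s : ℝ => s ^ (n + 1)) t := by
        funext t; simp only []; ring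
      rw [e, cfcₙ_mul (fun s : ℝ => s) (fun s : ℝ => s ^ (n + 1)) (star x * x)
        (by fun_prop) (by simp) (by fun_prop) (by simp), h1, cfcₙ_id' ℝ (star x * x) ha]
      simp only [mul_assoc]
    · have e : (fun t : ℝ => t ^ (n + 1 + 1)) = fun t : ℝ => (fun s : ℝ => s) t * (fun s : ℝ => s ^ (n + 1)) t := by
        funext t; simp only []; ring
      rw [e, cfcₙ_mul (fun s : ℝ => s) (fun s : ℝ => s ^ (n + 1)) (x * star x)
        (by fun_prop) (by simp) (by fun_prop) (by simp), h2, cfcₙ_id' ℝ (x * star x) hb]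
      simp only [mul_assoc]

theorem swap_poly (T : Tr B) (x : B) (p : ℝ[X]) :
    T.f (cfcₙ (fun t : ℝ => t * p.eval t) (star x * x)) =
      T.f (cfcₙ (fun t : ℝ => t * p.eval t) (x * star x)) := by
  induction p using Polynomial.induction_on' with
  | add p q hp hq =>
    have e : (fun t : ℝ => t * (p + q).eval t) =
        fun t : ℝ => (fun s : ℝ => s * p.eval s) t + (fun s : ℝ => s * q.eval s) t := by
      funext t; simp only [Polynomial.eval_add]; ring
    rw [e, cfcₙ_add (fun s : ℝ => s * p.eval s) (fun s : ℝ => s * q.eval s) (star x * x)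
      (by fun_prop) (by simp) (by fun_prop) (by simp),
      cfcₙ_add (fun s : ℝ => s * p.eval s) (fun s : ℝ => s * q.eval s) (x * star x)
      (by fun_prop) (by simp) (by fun_prop) (by simp), map_add, map_add, hp, hq]
  | monomial n c =>
    have e : (fun t : ℝ => t * (Polynomial.monomial n c).eval t) =
        fun t : ℝ => c * (fun s : ℝ => s ^ (n + 1)) t := by
      funext t; simp only [Polynomial.eval_monomial]; ring
    rw [e, cfcₙ_const_mul c (fun s : ℝ => s ^ (n + 1)) (star x * x) (by fun_prop),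
      cfcₙ_const_mul c (fun s : ℝ => s ^ (n + 1)) (x * star x) (by fun_prop)]
    obtain ⟨y, h1, h2⟩ := swap_pow x n
    rw [h1, h2]
    have e1 : c • (star x * y) = star x * (c • y) := by rw [mul_smul_comm]
    have e2 : c • (y * star x) = (c • y) * star x := by rw [smul_mul_assoc]
    rw [e1, e2]
    exact T.tr _ _

theorem swap_close (a : B) (ha : IsSelfAdjoint a) (R δ : ℝ) (hR : ∀ t ∈ quasispectrum ℝ a, t ∈ Set.Icc 0 R)
    (f g : ℝ → ℝ) (hf : Continuous f) (hg : Continuous g) (hf0 : f 0 = 0) (hg0 : g 0 = 0)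
    (h : ∀ t ∈ Set.Icc 0 R, |f t - g t| ≤ δ) : ‖cfcₙ f a - cfcₙ g a‖ ≤ δ := by
  rw [← cfcₙ_sub f g a hf.continuousOn hf0 hg.continuousOn hg0]
  apply norm_cfcₙ_le
  intro t ht
  exact h t (hR t ht)

end swap

theorem swap_holds : StSWAP.{u} := by
  intro B _ _ _ T x f hf hf0
  have ha : 0 ≤ star x * x := star_mul_self_nonneg x
  have hb : 0 ≤ x * star x := mul_star_self_nonneg x
  set R : ℝ := ‖star x * x‖ + ‖x * star x‖ with hR
  have hRa : ∀ t ∈ quasispectrum ℝ (star x * x), t ∈ Set.Icc 0 R := by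
    intro t ht
    have h1 := quasispectrum_nonneg_of_nonneg (star x * x) ha t ht
    have h2 := NonUnitalIsometricContinuousFunctionalCalculus.norm_quasispectrum_le
      (star x * x) ht ha.isSelfAdjoint
    rw [Real.norm_eq_abs] at h2
    refine ⟨h1, (le_abs_self t).trans (h2.trans ?_)⟩
    rw [hR]
    linarith [norm_nonneg (x * star x)]
  have hRb : ∀ t ∈ quasispectrum ℝ (x * star x), t ∈ Set.Icc 0 R := by
    intro t ht
    have h1 := quasispectrum_nonneg_of_nonneg (x * star x) hb t ht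
    have h2 := NonUnitalIsometricContinuousFunctionalCalculus.norm_quasispectrum_le
      (x * star x) ht hb.isSelfAdjoint
    rw [Real.norm_eq_abs] at h2
    refine ⟨h1, (le_abs_self t).trans (h2.trans ?_)⟩
    rw [hR]
    linarith [norm_nonneg (star x * x)]
  have hR0 : 0 ≤ R := by positivity
  rw [← sub_eq_zero, ← norm_eq_zero]
  refine le_antisymm ?_ (norm_nonneg _)
  refine le_of_forall_pos_le_add ?_
  intro ε hε
  rw [zero_add]
  set M : ℝ := ‖T.f‖ + 1 with hM
  have hM0 : 0 < M := by positivity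
  set δ : ℝ := ε / (4 * M) with hδ
  have hδ0 : 0 < δ := by positivity
  obtain ⟨p, hp⟩ := exists_polynomial_near_of_continuousOn 0 R f hf.continuousOn δ hδ0
  set g : ℝ → ℝ := fun t => t * (Polynomial.divX p).eval t with hg
  have hgc : Continuous g := by rw [hg]; fun_prop
  have hg0 : g 0 = 0 := by simp [hg]
  have hp0 : |p.coeff 0| < δ := by
    have := hp 0 ⟨le_rfl, hR0⟩
    rwa [hf0, sub_zero, ← Polynomial.coeff_zero_eq_eval_zero] at this
  have hfg : ∀ t ∈ Set.Icc 0 R, |f t - g t| ≤ 2 * δ := by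
    intro t ht
    have h1 := hp t ht
    have h2 : p.eval t = g t + p.coeff 0 := by
      have h3 := congrArg (Polynomial.eval t) (Polynomial.divX_mul_X_add p)
      rw [Polynomial.eval_add, Polynomial.eval_mul, Polynomial.eval_X, Polynomial.eval_C] at h3
      rw [← h3, hg]; ring
    have h4 : f t - g t = -(p.eval t - f t) + p.coeff 0 := by rw [h2]; ring
    rw [h4]
    calc _ ≤ |-(p.eval t - f t)| + |p.coeff 0| := abs_add_le _ _
      _ ≤ δ + δ := by rw [abs_neg]; exact add_le_add h1.le hp0.le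
      _ = 2 * δ := by ring
  have e1 := swap_close (star x * x) ha.isSelfAdjoint R (2 * δ) hRa f g hf hgc hf0 hg0 hfg
  have e2 := swap_close (x * star x) hb.isSelfAdjoint R (2 * δ) hRb f g hf hgc hf0 hg0 hfg
  have e3 := swap_poly T x (Polynomial.divX p)
  have e4 : T.f (cfcₙ f (star x * x)) - T.f (cfcₙ f (x * star x)) =
      T.f (cfcₙ f (star x * x) - cfcₙ g (star x * x)) -
      T.f (cfcₙ f (x * star x) - cfcₙ g (x * star x)) := by
    rw [map_sub, map_sub, hg, e3]; ring
  rw [e4]
  have e5 : ‖T.f (cfcₙ f (star x * x) - cfcₙ g (star x * x))‖ ≤ M * (2 * δ) := by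
    calc _ ≤ ‖T.f‖ * ‖cfcₙ f (star x * x) - cfcₙ g (star x * x)‖ := T.f.le_opNorm _
      _ ≤ M * (2 * δ) := by
        apply mul_le_mul _ e1 (norm_nonneg _) hM0.le
        rw [hM]; linarith
  have e6 : ‖T.f (cfcₙ f (x * star x) - cfcₙ g (x * star x))‖ ≤ M * (2 * δ) := by
    calc _ ≤ ‖T.f‖ * ‖cfcₙ f (x * star x) - cfcₙ g (x * star x)‖ := T.f.le_opNorm _
      _ ≤ M * (2 * δ) := by
        apply mul_le_mul _ e2 (norm_nonneg _) hM0.le
        rw [hM]; linarith
  calc _ ≤ _ := norm_sub_le _ _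
    _ ≤ M * (2 * δ) + M * (2 * δ) := add_le_add e5 e6
    _ = ε := by rw [hδ]; field_simp; ring

end Pool.Agent.H327R4.Pure
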