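import Pool.Agent.H327R4.Pure.Stubs2

set_option autoImplicit false

namespace Pool.Agent.H327R4.Pure

open Filter Topology

universe u v

section

variable {A : Type u} {S : Type v} [CStarAlgebra A] [PartialOrder A] [StarOrderedRing A]
  [NonUnitalCStarAlgebra S] [PartialOrder S] [StarOrderedRing S]

theorem trf_hm (st : Stab A S) (n : ℕ) (M : MM n A) :
    st.hm n M = ∑ i : Fin n, ∑ j : Fin n, st.E (i : ℕ) (j : ℕ) (M i j) := rfl

theorem trf_single (st : Stab A S) (n : ℕ) (k l : Fin n) (a : A) :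
    st.E (k : ℕ) (l : ℕ) a = st.hm n (CStarMatrix.ofMatrix (Matrix.single k l a)) := by
  rw [trf_hm, Finset.sum_eq_single k, Finset.sum_eq_single l]
  · simp [CStarMatrix.ofMatrix_apply]
  · intro j _ hj
    simp [CStarMatrix.ofMatrix_apply, Matrix.single_apply, Ne.symm hj]
  · simp
  · intro i _ hi
    refine Finset.sum_eq_zero fun j _ => ?_
    simp [CStarMatrix.ofMatrix_apply, Matrix.single_apply, Ne.symm hi]
  · simp

theorem trf_left (st : Stab A S) (n : ℕ) (M : MM n A) {k : ℕ} (hk : n ≤ k) (l : ℕ) (a : A) :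
    st.hm n M * st.E k l a = 0 := by
  rw [trf_hm, Finset.sum_mul]
  refine Finset.sum_eq_zero fun i _ => ?_
  rw [Finset.sum_mul]
  refine Finset.sum_eq_zero fun j _ => ?_
  rw [st.mul, if_neg]
  have := j.2
  omega

theorem trf_right (st : Stab A S) (n : ℕ) (M : MM n A) (k : ℕ) {l : ℕ} (hl : n ≤ l) (a : A) :
    st.E k l a * st.hm n M = 0 := by
  rw [trf_hm, Finset.mul_sum]
  refine Finset.sum_eq_zero fun i _ => ?_
  rw [Finset.mul_sum]
  refine Finset.sum_eq_zero fun j _ => ?_
  rw [st.mul, if_neg]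
  have := i.2
  omega

theorem trf_corner (st : Stab A S) (n : ℕ) (hnorm : ∀ M : MM n A, ‖st.hm n M‖ = ‖M‖) (s : S) :
    ∃ c : MM n A, st.hm n c = st.hm n 1 * s * st.hm n 1 := by
  have hiso : Isometry (st.hm n) := AddMonoidHomClass.isometry_of_norm _ hnorm
  have hcl : IsClosed (Set.range (st.hm n)) := hiso.isClosedEmbedding.isClosed_range
  have hV : IsClosed {s : S | st.hm n 1 * s * st.hm n 1 ∈ Set.range (st.hm n)} :=
    hcl.preimage (by fun_prop : Continuous fun s : S => st.hm n 1 * s * st.hm n 1)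
  have hspan : (Submodule.span ℂ (⋃ i, ⋃ j, Set.range (st.E i j)) : Set S) ⊆
      {s : S | st.hm n 1 * s * st.hm n 1 ∈ Set.range (st.hm n)} := by
    intro s hs
    induction hs using Submodule.span_induction with
    | mem x hx =>
      simp only [Set.mem_iUnion, Set.mem_range] at hx
      obtain ⟨k, l, a, rfl⟩ := hx
      by_cases hk : n ≤ k
      · refine ⟨0, ?_⟩
        rw [trf_left st n 1 hk, zero_mul, map_zero]
      · by_cases hl : n ≤ l
        · refine ⟨0, ?_⟩
          rw [mul_assoc, trf_right st n 1 k hl, mul_zero, map_zero]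
        · push Not at hk hl
          have e := trf_single st n ⟨k, hk⟩ ⟨l, hl⟩ a
          refine ⟨_, e.symm.trans ?_⟩
          change st.E k l a = st.hm n 1 * st.E k l a * st.hm n 1
          have e' : st.E k l a = st.hm n
            (CStarMatrix.ofMatrix (Matrix.single ⟨k, hk⟩ ⟨l, hl⟩ a)) := e
          rw [e', ← map_mul, ← map_mul, one_mul, mul_one]
    | zero => exact ⟨0, by rw [map_zero, mul_zero, zero_mul]⟩
    | add x y _ _ hx hy =>
      obtain ⟨c, hc⟩ := hx
      obtain ⟨d, hd⟩ := hy
      exact ⟨c + d, by rw [map_add, hc, hd, mul_add, add_mul]⟩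
    | smul r x _ hx =>
      obtain ⟨c, hc⟩ := hx
      exact ⟨r • c, by rw [map_smul, hc, mul_smul_comm, smul_mul_assoc]⟩
  have h1 := hV.closure_subset_iff.2 hspan
  rw [st.dense] at h1
  exact h1 (Set.mem_univ s)

end

/-- transfer of Cuntz subequivalence -/
theorem trf_holds (hiso : StISO.{u, v}) : StTRF.{u, v} := by
  intro A S _ _ _ _ _ _ st n a b ⟨x, hx⟩
  have hnorm : ∀ M : MM n A, ‖st.hm n M‖ = ‖M‖ := (hiso A S st n _ Fin.val_injective).1
  choose c hc using fun k => trf_corner st n hnorm (x k)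
  have hstar1 : star (st.hm n 1) = st.hm n 1 := by rw [← map_star, star_one]
  have h1 : ∀ k, st.hm n (c k * b * star (c k)) =
      st.hm n 1 * (x k * st.hm n b * star (x k)) * st.hm n 1 := by
    intro k
    have e1 : st.hm n 1 * st.hm n b = st.hm n b := by rw [← map_mul, one_mul]
    have e2 : st.hm n b * st.hm n 1 = st.hm n b := by rw [← map_mul, mul_one]
    rw [map_mul, map_mul, map_star, hc, star_mul, star_mul, hstar1]
    calc st.hm n 1 * x k * st.hm n 1 * st.hm n b * (st.hm n 1 * (star (x k) * st.hm n 1))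
        = st.hm n 1 * x k * ((st.hm n 1 * st.hm n b) * st.hm n 1) * (star (x k) * st.hm n 1) := by
          simp only [mul_assoc]
      _ = st.hm n 1 * (x k * st.hm n b * star (x k)) * st.hm n 1 := by
          rw [e1, e2]
          simp only [mul_assoc]
  have h2 : Tendsto (fun k => st.hm n (c k * b * star (c k))) atTop (𝓝 (st.hm n a)) := by
    have h3 : st.hm n a = st.hm n 1 * st.hm n a * st.hm n 1 := by
      rw [← map_mul, ← map_mul, one_mul, mul_one]
    rw [h3]
    simp only [h1]
    exact (hx.const_mul (st.hm n 1)).mul_const (st.hm n 1)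
  refine ⟨c, ?_⟩
  have hiso' : Isometry (st.hm n) := AddMonoidHomClass.isometry_of_norm _ hnorm
  exact (hiso'.isUniformInducing.isInducing.tendsto_nhds_iff).2 h2

end Pool.Agent.H327R4.Pure
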