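import Pool.Agent.H327R4.Pure.Stubs2

/-! Multiples: comparison implies ranks. -/

set_option autoImplicit false

namespace Pool.Agent.H327R4.Pure

open Filter Topology

universe u v

namespace UNM

/-- the `i`-th block of size `m` in `Fin N` -/
def blk {k m N : ℕ} (h : k * m ≤ N) (i : Fin k) (x : Fin m) : Fin N :=
  ⟨i.1 * m + x.1, by
    have h1 : i.1 * m + x.1 < (i.1 + 1) * m := by
      have := x.2
      rw [Nat.add_mul, Nat.one_mul]
      omega
    exact (h1.trans_le (Nat.mul_le_mul_right m i.2)).trans_le h⟩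

theorem blk_inj2 {k m N : ℕ} (h : k * m ≤ N) (i i' : Fin k) (x x' : Fin m)
    (he : blk h i x = blk h i' x') : i = i' ∧ x = x' := by
  have h1 : i.1 * m + x.1 = i'.1 * m + x'.1 := congrArg Fin.val he
  have hm : 0 < m := lt_of_le_of_lt (Nat.zero_le _) x.2
  have h2 : i.1 = i'.1 := by
    have a1 : (i.1 * m + x.1) / m = i.1 := by
      rw [Nat.mul_comm, Nat.mul_add_div hm, Nat.div_eq_of_lt x.2, Nat.add_zero]
    have a2 : (i'.1 * m + x'.1) / m = i'.1 := by
      rw [Nat.mul_comm, Nat.mul_add_div hm, Nat.div_eq_of_lt x'.2, Nat.add_zero]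
    rw [← a1, ← a2, h1]
  rw [h2] at h1
  exact ⟨Fin.ext h2, Fin.ext (by omega)⟩

theorem blk_inj {k m N : ℕ} (h : k * m ≤ N) (i : Fin k) : Function.Injective (blk (m := m) h i) :=
  fun x x' he => (blk_inj2 h i i x x' he).2

theorem blk_disj {k m N : ℕ} (h : k * m ≤ N) (i i' : Fin k) (hi : i ≠ i') (x x' : Fin m) :
    blk h i x ≠ blk h i' x' := fun he => hi (blk_inj2 h i i' x x' he).1

end UNM

open UNM in
theorem unm_holds (hksum : StKSUM.{u}) (heqv : StEQV.{u, v}) (hiso : StISO.{u, v})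
    (htrf : StTRF.{u, v}) (hlsc : StLSC.{u}) (hosm : StOSM.{v}) (htra : StTRA.{v}) :
    StUNM.{u, v} := by
  intro A S _ _ _ _ _ _ st k l m n a b z z' ha hb hz hz' hzz T
  have hk : k * m ≤ k * m + l * n := Nat.le_add_right _ _
  have hl : l * n ≤ k * m + l * n := Nat.le_add_left _ _
  obtain ⟨hP, hPr⟩ := hksum A k m (k * m + l * n) (fun i => blk hk i) (fun i => blk_inj hk i)
    (fun i i' hi x x' => blk_disj hk i i' hi x x') a ha
  obtain ⟨hQ, hQr⟩ := hksum A l n (k * m + l * n) (fun i => blk hl i) (fun i => blk_inj hl i)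
    (fun i i' hi x x' => blk_disj hl i i' hi x x') b hb
  obtain ⟨Y, hY1, hY2, rfl⟩ := hz
  obtain ⟨Y', hY1', hY2', rfl⟩ := hz'
  -- the copies of `a`
  have c1 : Cz (st.hm (k * m + l * n) (∑ i, emb (blk hk i) (blk_inj hk i) a)) (∑ i, Y i) := by
    rw [map_sum]
    refine hosm S k _ _ ?_ (fun i => (hY1 i).1) ?_ hY2 ?_
    · intro i
      unfold Stab.hm
      rw [Stab.hom_emb]
      exact ((hiso A S st m _ _).2 a).2 ha
    · intro i i' hi
      rw [← map_mul, emb_mul_emb _ _ _ _ (blk_disj hk i i' hi), map_zero]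
    · intro i
      refine htra S _ (st.hm m a) _ ?_ (hY1 i).2.2
      unfold Stab.hm
      rw [Stab.hom_emb]
      exact heqv A S st m _ _ _ _ a
  have c2 : Cz (∑ i, Y' i) (st.hm (k * m + l * n) (∑ i, emb (blk hl i) (blk_inj hl i) b)) := by
    rw [map_sum]
    refine hosm S l _ _ (fun i => (hY1' i).1) ?_ hY2' ?_ ?_
    · intro i
      unfold Stab.hm
      rw [Stab.hom_emb]
      exact ((hiso A S st n _ _).2 b).2 hb
    · intro i i' hi
      rw [← map_mul, emb_mul_emb _ _ _ _ (blk_disj hl i i' hi), map_zero]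
    · intro i
      refine htra S _ (st.hm n b) _ (hY1' i).2.1 ?_
      unfold Stab.hm
      rw [Stab.hom_emb]
      exact heqv A S st n _ _ _ _ b
  have c3 := htra S _ _ _ (htra S _ _ _ c1 hzz) c2
  have c4 := htrf A S st _ _ _ c3
  have c5 := hlsc (MM (k * m + l * n) A) (trM T (Fin (k * m + l * n))) _ _ hP hQ c4
  rw [hPr T, hQr T] at c5
  exact c5

end Pool.Agent.H327R4.Pure
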