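import Pool.Agent.H327R4.Pure.TADD
import Pool.Agent.H327R4.Pure.TAPX
import Pool.Agent.H327R4.Pure.TAU
import Pool.Agent.H327R4.Pure.TCAKE
import Pool.Agent.H327R4.Pure.TCLO
import Pool.Agent.H327R4.Pure.TCNJ
import Pool.Agent.H327R4.Pure.TCSM
import Pool.Agent.H327R4.Pure.TCT
import Pool.Agent.H327R4.Pure.TEQV
import Pool.Agent.H327R4.Pure.TFULL
import Pool.Agent.H327R4.Pure.THOM
import Pool.Agent.H327R4.Pure.TISO
import Pool.Agent.H327R4.Pure.TKR
import Pool.Agent.H327R4.Pure.TLE
import Pool.Agent.H327R4.Pure.TLOW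
import Pool.Agent.H327R4.Pure.TLOWM
import Pool.Agent.H327R4.Pure.TLSC
import Pool.Agent.H327R4.Pure.TMAIN1
import Pool.Agent.H327R4.Pure.TMAT1
import Pool.Agent.H327R4.Pure.TMON
import Pool.Agent.H327R4.Pure.TMT
import Pool.Agent.H327R4.Pure.TNIL
import Pool.Agent.H327R4.Pure.TORTH
import Pool.Agent.H327R4.Pure.TOSM
import Pool.Agent.H327R4.Pure.TRK
import Pool.Agent.H327R4.Pure.TROR
import Pool.Agent.H327R4.Pure.TSAND
import Pool.Agent.H327R4.Pure.TSMALL
import Pool.Agent.H327R4.Pure.TSWAP
import Pool.Agent.H327R4.Pure.TTRA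
import Pool.Agent.H327R4.Pure.TTRF
import Pool.Agent.H327R4.Pure.TUNM
import Pool.Agent.H327R4.Pure.TAD
import Pool.Agent.H327R4.Pure.TDIAG
import Pool.Agent.H327R4.Pure.TKSUM

/-!
# All the statements of `Stubs1` and `Stubs2`, with their hypotheses discharged

(by helpers 615 724 799 708 535 303 756 551 640 715 75 154 911 409 70 656 617 9 520 909 113 553
279 235 40 305 231 207 793 419 835 222)
-/

set_option autoImplicit false

namespace Pool.Agent.H327R4.Pure

universe u v

theorem mt' : StMT.{u} := mt_holds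
theorem ct' : StCT.{u} := ct_holds
theorem rk' : StRK.{u} := rk_holds mt'
theorem orth' : StORTH.{u} := orth_holds
theorem swap' : StSWAP.{u} := swap_holds
theorem mon' : StMON.{u} := mon_holds mt' rk'
theorem add' : StADD.{u} := add_holds orth' rk'
theorem cnj' : StCNJ.{u} := cnj_holds swap' mon'
theorem lsc' : StLSC.{u} := lsc_holds rk' cnj'
theorem cake' : StCAKE.{u} := cake_holds mt' rk' ct'
theorem sand' : StSAND.{u} := sand_holds mt'
theorem hom' : StHOM.{u, v} := hom_holds
theorem full' : StFULL.{u} := full_holds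
theorem nil' : StNIL.{u} := nil_holds full'
theorem small' : StSMALL.{u} := small_holds nil' mon' add' swap' rk' mt' ct'
theorem low' : StLOW.{u} := low_holds full' mt'
theorem main1' : StMAIN1.{u} := main1_holds mt' ct' mon' small' full' cake'
theorem le' : StLE.{u} := le_holds
theorem tra' : StTRA.{u} := tra_holds
theorem kr' : StKR.{u} := kr_holds le' tra' ct'
theorem ror' : StROR.{u} := ror_holds kr' tra' ct'
theorem clo' : StCLO.{u} := clo_holds ct'
theorem osm' : StOSM.{u} := osm_holds ct'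
theorem csm' : StCSM.{u} := csm_holds orth'
theorem diag' : StDIAG.{u} := diag_holds rk'
theorem mat1' : StMAT1.{u} := mat1_holds main1' diag'
theorem lowm' : StLOWM.{u} := lowm_holds low' mt'
theorem iso' : StISO.{u, v} := iso_holds
theorem apx' : StAPX.{u, v} := apx_holds iso'
theorem trf' : StTRF.{u, v} := trf_holds iso'
theorem eqv' : StEQV.{u, v} := eqv_holds
theorem ksum' : StKSUM.{u} := ksum_holds add' hom'
theorem unm' : StUNM.{u, v} := unm_holds ksum' eqv' iso' trf' lsc' osm' tra'

theorem au'' (hcmp : StCMP.{u, v}) : StAU.{u, v} :=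
  au_holds ct' ct' rk' le' tra' kr' ror' clo' osm' csm' lowm' iso' apx' eqv' hcmp unm'

theorem ad'' (hcmp : StCMP.{u, v}) : StAD.{u, v} :=
  ad_holds ct' ct' le' tra' clo' kr' apx' hom' hcmp lowm' mat1' rk' sand'

end Pool.Agent.H327R4.Pure
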