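import Pool.Agent.H327R4.Pure.Stubs3
import Pool.Agent.H327R4.Pure.All

/-!
# Dimension drop algebras in a simple C*-algebra with strict comparison
-/

set_option autoImplicit false
set_option linter.unusedSectionVars false

namespace Pool.Agent.H327R4.Pure

open Filter Topology

universe u

section

variable {A : Type u} [CStarAlgebra A] [PartialOrder A] [StarOrderedRing A]

theorem drop_unitAt {N : ℕ} (i₀ i j : Fin N) :
    (unitAt i₀ : MM N A) i j = if i₀ = i ∧ i₀ = j then 1 else 0 := by
  unfold unitAt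
  rw [CStarMatrix.ofMatrix_apply, Matrix.single_apply]

theorem drop_left {N : ℕ} (i₀ : Fin N) (x : MM N A) (i j : Fin N) :
    (unitAt i₀ * x : MM N A) i j = if i₀ = i then x i₀ j else 0 := by
  rw [CStarMatrix.mul_apply]
  by_cases h : i₀ = i
  · subst h
    rw [if_pos rfl, Finset.sum_eq_single i₀]
    · rw [drop_unitAt, if_pos ⟨rfl, rfl⟩, one_mul]
    · intro k _ hk
      rw [drop_unitAt, if_neg (fun h => hk h.2.symm), zero_mul]
    · simp
  · rw [if_neg h]
    refine Finset.sum_eq_zero fun k _ => ?_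
    rw [drop_unitAt, if_neg (fun h' => h h'.1), zero_mul]

theorem drop_right {N : ℕ} (i₀ : Fin N) (x : MM N A) (i j : Fin N) :
    (x * unitAt i₀ : MM N A) i j = if i₀ = j then x i i₀ else 0 := by
  rw [CStarMatrix.mul_apply]
  by_cases h : i₀ = j
  · subst h
    rw [if_pos rfl, Finset.sum_eq_single i₀]
    · rw [drop_unitAt, if_pos ⟨rfl, rfl⟩, mul_one]
    · intro k _ hk
      rw [drop_unitAt, if_neg (fun h => hk h.1.symm), mul_zero]
    · simp
  · rw [if_neg h]
    refine Finset.sum_eq_zero fun k _ => ?_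
    rw [drop_unitAt, if_neg (fun h' => h h'.2), mul_zero]

theorem drop_star_p {N : ℕ} (i₀ : Fin N) : star (unitAt i₀ : MM N A) = unitAt i₀ := by
  ext i j
  rw [CStarMatrix.star_apply, drop_unitAt, drop_unitAt]
  by_cases h1 : i₀ = i
  · by_cases h2 : i₀ = j
    · rw [if_pos ⟨h2, h1⟩, if_pos ⟨h1, h2⟩, star_one]
    · rw [if_neg (fun h => h2 h.1), if_neg (fun h => h2 h.2), star_zero]
  · rw [if_neg (fun h => h1 h.2), if_neg (fun h => h1 h.1), star_zero]

theorem drop_p_p {N : ℕ} (i₀ : Fin N) : (unitAt i₀ : MM N A) * unitAt i₀ = unitAt i₀ := by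
  ext i j
  rw [drop_left, drop_unitAt, drop_unitAt]
  by_cases h1 : i₀ = i
  · rw [if_pos h1]
    by_cases h2 : i₀ = j
    · rw [if_pos ⟨rfl, h2⟩, if_pos ⟨h1, h2⟩]
    · rw [if_neg (fun h => h2 h.2), if_neg (fun h => h2 h.2)]
  · rw [if_neg h1, if_neg (fun h => h1 h.1)]

/-- multiplicativity of the entry on the corner -/
theorem drop_mul {N : ℕ} (i₀ : Fin N) (x y : MM N A) (hx : x * unitAt i₀ = x) :
    (x * y) i₀ i₀ = x i₀ i₀ * y i₀ i₀ := by
  rw [CStarMatrix.mul_apply]
  refine Finset.sum_eq_single i₀ ?_ (by simp)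
  intro k _ hk
  have h1 : x i₀ k = (x * unitAt i₀ : MM N A) i₀ k := by rw [hx]
  rw [h1, drop_right, if_neg (fun h => hk h.symm), zero_mul]

theorem drop_mul' {N : ℕ} (i₀ : Fin N) (x y : MM N A) (hy : unitAt i₀ * y = y) :
    (x * y) i₀ i₀ = x i₀ i₀ * y i₀ i₀ := by
  rw [CStarMatrix.mul_apply]
  refine Finset.sum_eq_single i₀ ?_ (by simp)
  intro k _ hk
  have h1 : y k i₀ = (unitAt i₀ * y : MM N A) k i₀ := by rw [hy]
  rw [h1, drop_left, if_neg (fun h => hk h.symm), mul_zero]

/-- transport from the corner of the matrix algebra to `A` -/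
theorem drop_transport (n N : ℕ) (i₀ : Fin N) (c : Fin (n + 1) → MM N A) (s : MM N A)
    (hc : ∀ i, unitAt i₀ * c i = c i ∧ c i * unitAt i₀ = c i) (hs : unitAt i₀ * s = s)
    (h0 : 0 ≤ c 0)
    (hcc : ∀ i j, c i * star (c j) = if i = j then c 0 * c 0 else 0)
    (hsum : ∑ i, star (c i) * c i + star s * s = unitAt i₀) (hcs : c 0 * s = s) :
    ∃ (c : Fin (n + 1) → A) (s : A),
    0 ≤ c 0 ∧ (∀ i j, c i * star (c j) = if i = j then c 0 * c 0 else 0) ∧
    ∑ i, star (c i) * c i + star s * s = 1 ∧ c 0 * s = s := by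
  refine ⟨fun i => c i i₀ i₀, s i₀ i₀, mat1_diag N _ h0 i₀, ?_, ?_, ?_⟩
  · intro i j
    have h1 := drop_mul i₀ (c i) (star (c j)) (hc i).2
    rw [CStarMatrix.star_apply, hcc i j] at h1
    have h2 := drop_mul i₀ (c 0) (c 0) (hc 0).2
    rw [← h1]
    split_ifs with h
    · exact h2
    · rfl
  · have h1 : ∀ i, star (c i i₀ i₀) * c i i₀ i₀ = (star (c i) * c i) i₀ i₀ := by
      intro i
      rw [drop_mul' i₀ _ _ (hc i).1, CStarMatrix.star_apply]
    have h2 : star (s i₀ i₀) * s i₀ i₀ = (star s * s) i₀ i₀ := by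
      rw [drop_mul' i₀ _ _ hs, CStarMatrix.star_apply]
    have h3 : (∑ i, star (c i) * c i + star s * s) i₀ i₀ = (unitAt i₀ : MM N A) i₀ i₀ := by
      rw [hsum]
    rw [CStarMatrix.add_apply, drop_unitAt, if_pos ⟨rfl, rfl⟩] at h3
    have h4 : (∑ i, star (c i) * c i : MM N A) i₀ i₀ = ∑ i, (star (c i) * c i) i₀ i₀ := by
      induction (Finset.univ : Finset (Fin (n + 1))) using Finset.induction_on with
      | empty => rfl
      | insert a t ha ih => rw [Finset.sum_insert ha, Finset.sum_insert ha,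
          CStarMatrix.add_apply, ih]
    rw [h4] at h3
    simp only [h1, h2]
    exact h3
  · have h1 := drop_mul i₀ (c 0) s (hc 0).2
    rw [hcs] at h1
    exact h1.symm

end

/-! ### the case without traces -/

/-- isometries in a corner give the relations -/
theorem drop_rel {B : Type u} [CStarAlgebra B] [PartialOrder B] [StarOrderedRing B] (n : ℕ)
    (p : B) (v : Fin (n + 1) → B) (hp : star p = p) (hpp : p * p = p) (hpv : ∀ i, p * v i = v i)
    (hvp : ∀ i, v i * p = v i) (hv : ∀ i j, star (v i) * v j = if i = j then p else 0) :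
    ∃ (c : Fin (n + 1) → B) (s : B), (∀ i, p * c i = c i ∧ c i * p = c i) ∧ p * s = s ∧
      0 ≤ c 0 ∧ (∀ i j, c i * star (c j) = if i = j then c 0 * c 0 else 0) ∧
      ∑ i, star (c i) * c i + star s * s = p ∧ c 0 * s = s := by
  have hvp' : ∀ i, star (v i) * p = star (v i) := by
    intro i
    rw [← hp, ← star_mul, hpv]
  have hpv' : ∀ i, p * star (v i) = star (v i) := by
    intro i
    rw [← hp, ← star_mul, hvp]
  have h00 : star (v 0) * v 0 = p := by rw [hv, if_pos rfl]
  set S : B := ∑ i, v i * star (v i) with hS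
  have hSv : ∀ j, S * v j = v j := by
    intro j
    rw [hS, Finset.sum_mul, Finset.sum_eq_single j]
    · rw [mul_assoc, hv, if_pos rfl, hvp]
    · intro i _ hij
      rw [mul_assoc, hv, if_neg hij, mul_zero]
    · simp
  have hSS : S * S = S := by
    conv_lhs => rw [hS, Finset.mul_sum]
    rw [← hS]
    conv_rhs => rw [hS]
    refine Finset.sum_congr rfl fun j _ => ?_
    rw [← mul_assoc, hSv]
  have hpS : p * S = S := by
    rw [hS, Finset.mul_sum]
    refine Finset.sum_congr rfl fun j _ => ?_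
    rw [← mul_assoc, hpv]
  have hSp : S * p = S := by
    rw [hS, Finset.sum_mul]
    refine Finset.sum_congr rfl fun j _ => ?_
    rw [mul_assoc, hvp']
  have hSst : star S = S := by
    rw [hS, star_sum]
    refine Finset.sum_congr rfl fun j _ => ?_
    rw [star_mul, star_star]
  have hQQ : (p - S) * (p - S) = p - S := by
    rw [sub_mul, mul_sub, mul_sub, hpp, hpS, hSp, hSS]
    abel
  refine ⟨fun i => v 0 * star (v i), v 0 * (p - S), ?_, ?_, ?_, ?_, ?_, ?_⟩
  · intro i
    constructor
    · rw [← mul_assoc, hpv]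
    · rw [mul_assoc, hvp']
  · rw [← mul_assoc, hpv]
  · exact mul_star_self_nonneg _
  · intro i j
    have e1 : v 0 * star (v i) * star (v 0 * star (v j)) =
        v 0 * (star (v i) * v j) * star (v 0) := by
      rw [star_mul, star_star]
      simp only [mul_assoc]
    have e2 : v 0 * star (v 0) * (v 0 * star (v 0)) = v 0 * star (v 0) := by
      calc v 0 * star (v 0) * (v 0 * star (v 0)) = v 0 * (star (v 0) * v 0) * star (v 0) := by
            simp only [mul_assoc]
        _ = v 0 * star (v 0) := by rw [h00, hvp]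
    rw [e1, hv, e2]
    split_ifs with h
    · rw [hvp]
    · rw [mul_zero, zero_mul]
  · have e1 : ∀ i, star (v 0 * star (v i)) * (v 0 * star (v i)) = v i * star (v i) := by
      intro i
      calc star (v 0 * star (v i)) * (v 0 * star (v i)) =
            v i * (star (v 0) * v 0) * star (v i) := by
            rw [star_mul, star_star]
            simp only [mul_assoc]
        _ = v i * star (v i) := by rw [h00, hvp]
    have e2 : star (v 0 * (p - S)) * (v 0 * (p - S)) = p - S := by
      calc star (v 0 * (p - S)) * (v 0 * (p - S)) =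
            (p - S) * ((star (v 0) * v 0) * (p - S)) := by
            rw [star_mul, star_sub, hp, hSst]
            simp only [mul_assoc]
        _ = p - S := by rw [h00, mul_sub p p S, hpp, hpS, hQQ]
    simp only [e1, e2]
    rw [← hS]
    abel
  · calc v 0 * star (v 0) * (v 0 * (p - S)) = v 0 * ((star (v 0) * v 0) * (p - S)) := by
          simp only [mul_assoc]
      _ = v 0 * (p - S) := by rw [h00, mul_sub p p S, hpp, hpS]

section

variable {A : Type u} [CStarAlgebra A] [PartialOrder A] [StarOrderedRing A]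

/-- matrix units -/
noncomputable def drop_E {N : ℕ} (i j : Fin N) : MM N A :=
  CStarMatrix.ofMatrix (Matrix.single i j 1)

theorem drop_E_mul {N : ℕ} (i j k l : Fin N) :
    (drop_E i j * drop_E k l : MM N A) = if j = k then drop_E i l else 0 := by
  have h : (drop_E i j * drop_E k l : MM N A) =
      CStarMatrix.ofMatrix (Matrix.single i j 1 * Matrix.single k l 1) := rfl
  rw [h]
  split_ifs with hjk
  · subst hjk
    rw [Matrix.single_mul_single_same, one_mul]
    rfl
  · rw [Matrix.single_mul_single_of_ne _ _ _ _ hjk]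
    rfl

theorem drop_E_star {N : ℕ} (i j : Fin N) : star (drop_E i j : MM N A) = drop_E j i := by
  ext k l
  rw [CStarMatrix.star_apply]
  unfold drop_E
  rw [CStarMatrix.ofMatrix_apply, CStarMatrix.ofMatrix_apply, Matrix.single_apply,
    Matrix.single_apply]
  by_cases h1 : i = l
  · by_cases h2 : j = k
    · rw [if_pos ⟨h1, h2⟩, if_pos ⟨h2, h1⟩, star_one]
    · rw [if_neg (fun h => h2 h.2), if_neg (fun h => h2 h.1), star_zero]
  · rw [if_neg (fun h => h1 h.1), if_neg (fun h => h1 h.2), star_zero]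

/-- a projection dominating the unit gives an isometry -/
theorem drop_isom {B : Type u} [CStarAlgebra B] [PartialOrder B] [StarOrderedRing B] (p : B)
    (hp : star p = p) (hpp : p * p = p) (hcz : Cz 1 p) :
    ∃ V : B, star V * V = 1 ∧ p * V = V := by
  obtain ⟨x, hx⟩ := hcz
  have h1 : ∀ᶠ k in atTop, ‖1 - x k * p * star (x k)‖ < 1 := by
    have h2 : Tendsto (fun k => ‖1 - x k * p * star (x k)‖) atTop (𝓝 ‖(1 : B) - 1‖) :=
      (tendsto_const_nhds.sub hx).norm
    rw [sub_self, norm_zero] at h2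
    exact h2.eventually (gt_mem_nhds one_pos)
  obtain ⟨k, hk⟩ := h1.exists
  set z : B := x k * p * star (x k) with hz
  have hzu : IsUnit z := by
    have := isUnit_one_sub_of_norm_lt_one hk
    rwa [sub_sub_cancel] at this
  have hz0 : 0 ≤ z := by
    have : z = (x k * p) * star (x k * p) := by
      rw [hz, star_mul, hp]
      calc x k * p * star (x k) = x k * (p * p) * star (x k) := by rw [hpp]
        _ = x k * p * (p * star (x k)) := by simp only [mul_assoc]
    rw [this]
    exact mul_star_self_nonneg _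
  have hw : CFC.sqrt z * CFC.sqrt z = z := CFC.sqrt_mul_sqrt_self z hz0
  have hwsa : star (CFC.sqrt z) = CFC.sqrt z := (CFC.sqrt_nonneg z).isSelfAdjoint
  obtain ⟨u, hu⟩ := (CFC.isUnit_sqrt_iff z hz0).2 hzu
  set w : B := (↑u⁻¹ : B) with hwdef
  have hwu : w * CFC.sqrt z = 1 := by rw [← hu, hwdef, Units.inv_mul]
  have huw : CFC.sqrt z * w = 1 := by rw [← hu, hwdef, Units.mul_inv]
  have hws : star w = w := by
    have h3 : star w * CFC.sqrt z = 1 := by
      rw [← hwsa, ← star_mul, huw, star_one]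
    calc star w = star w * (CFC.sqrt z * w) := by rw [huw, mul_one]
      _ = w := by rw [← mul_assoc, h3, one_mul]
  refine ⟨p * star (x k) * w, ?_, ?_⟩
  · calc star (p * star (x k) * w) * (p * star (x k) * w) =
          w * (x k * (p * p) * star (x k)) * w := by
          rw [star_mul, star_mul, star_star, hp, hws]
          simp only [mul_assoc]
      _ = w * (CFC.sqrt z * CFC.sqrt z) * w := by rw [hpp, ← hz, hw]
      _ = (w * CFC.sqrt z) * (CFC.sqrt z * w) := by simp only [mul_assoc]
      _ = 1 := by rw [hwu, huw, one_mul]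
  · rw [← mul_assoc, ← mul_assoc, hpp]

/-- the case without traces -/
theorem drop_inf (n : ℕ) (hcz : Cz (1 : MM (n + 1) A) (unitAt 0)) :
    ∃ (c : Fin (n + 1) → A) (s : A),
    0 ≤ c 0 ∧ (∀ i j, c i * star (c j) = if i = j then c 0 * c 0 else 0) ∧
    ∑ i, star (c i) * c i + star s * s = 1 ∧ c 0 * s = s := by
  obtain ⟨V, hV, hpV⟩ := drop_isom (unitAt 0 : MM (n + 1) A) (drop_star_p 0) (drop_p_p 0) hcz
  have hpE : (unitAt 0 : MM (n + 1) A) = drop_E 0 0 := rfl
  obtain ⟨c, s, h1, h2, h3, h4, h5, h6⟩ := drop_rel n (unitAt 0 : MM (n + 1) A)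
    (fun i => V * drop_E i 0) (drop_star_p 0) (drop_p_p 0)
    (by intro i; rw [← mul_assoc, hpV])
    (by intro i; rw [mul_assoc, hpE, drop_E_mul, if_pos rfl])
    (by
      intro i j
      calc star (V * drop_E i 0) * (V * drop_E j 0) =
            drop_E 0 i * ((star V * V) * drop_E j 0) := by
            rw [star_mul, drop_E_star]
            simp only [mul_assoc]
        _ = if i = j then unitAt 0 else 0 := by
            rw [hV, one_mul, drop_E_mul]
            rfl)
  exact drop_transport n (n + 1) 0 c s h1 h2 h3 h4 h5 h6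

end

/-! ### the general case -/

theorem drop_phi_zero {B : Type u} [NonUnitalCStarAlgebra B] (δ : ℝ) : phi δ (0 : B) = 0 := by
  unfold phi
  exact cfcₙ_apply_zero

theorem drop_rk_zero {B : Type u} [NonUnitalCStarAlgebra B] (T : Tr B) : rk T (0 : B) = 0 := by
  unfold rk
  simp [drop_phi_zero]

theorem drop_f_smul {B : Type u} [CStarAlgebra B] (T : Tr B) (t : ℝ) (x : B) :
    (T.f (t • x)).re = t * (T.f x).re := by
  have : t • x = (t : ℂ) • x := (Complex.coe_smul t x).symm
  rw [this, map_smul, smul_eq_mul, Complex.re_ofReal_mul]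

theorem drop_holds (hDDA : StDDA.{u}) (hRKC : StRKC.{u}) (hROW : StROW.{u})
    (hDINI : StDINI.{u}) : StDROP.{u} := by
  intro A _ _ _ hsimp hinf hsc n
  have hnt : Nontrivial A := hsimp.1
  by_cases hTS : ∃ T : Tr A, T.f 1 = 1
  · obtain ⟨T₀, hT₀⟩ := hTS
    have hn1 : (0 : ℝ) < (n : ℝ) + 1 := by positivity
    have hn2 : (0 : ℝ) < (n : ℝ) + 2 := by positivity
    have hlt : 1 / ((n : ℝ) + 2) < 1 / ((n : ℝ) + 1) :=
      one_div_lt_one_div_of_lt hn1 (by linarith)
    obtain ⟨θ, hθ1, hθ2⟩ := exists_between hlt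
    obtain ⟨θ', hθ3, hθ4⟩ := exists_between hθ1
    have hθ0 : 0 ≤ θ := by
      have : 0 < 1 / ((n : ℝ) + 2) := by positivity
      linarith
    have hh0 : (0 : A) ≤ θ • (1 : A) := smul_nonneg hθ0 zero_le_one
    obtain ⟨K, a, ha, hrk⟩ := main1' A hsimp hinf (θ • (1 : A)) (θ - θ') hh0 (by linarith)
    obtain ⟨hd0, hdr⟩ := diag' A K a ha
    -- the ranks of the diagonal matrix
    have hr : ∀ T : Tr A, T.f 1 = 1 → 1 / ((n : ℝ) + 2) < rk (trM T (Fin K)) (dg a) ∧
        rk (trM T (Fin K)) (dg a) < 1 / ((n : ℝ) + 1) := by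
      intro T hT
      obtain ⟨h1, h2⟩ := hrk T
      rw [drop_f_smul, hT, Complex.one_re] at h1 h2
      rw [hdr T]
      constructor
      · linarith
      · linarith
    obtain ⟨e, he, heT⟩ := hDINI A K (dg a) ((1 / ((n : ℝ) + 2)) • (1 : A)) hd0 (by
      intro T
      rw [drop_f_smul, T.2, Complex.one_re, mul_one]
      exact (hr T.1 T.2).1)
    have heT' : ∀ T : Tr A, T.f 1 = 1 →
        1 / ((n : ℝ) + 2) < rk (trM T (Fin K)) (cut e (dg a)) := by
      intro T hT
      have := heT ⟨T, hT⟩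
      rw [drop_f_smul] at this
      change 1 / ((n : ℝ) + 2) * (T.f 1).re < rk (trM T (Fin K)) (cut e (dg a)) at this
      rw [hT, Complex.one_re, mul_one] at this
      exact this
    obtain ⟨N, i₀, r, b, hb0, hpr, hrr, hcut⟩ := hROW A hsc hnt (n + 1) K (dg a) (e / 2) hd0
      (by linarith) (by
        intro T hT
        have h1 := (hr T hT).2
        have h2 : ((n + 1 : ℕ) : ℝ) = (n : ℝ) + 1 := by push_cast; ring
        rw [h2]
        calc ((n : ℝ) + 1) * rk (trM T (Fin K)) (dg a) < ((n : ℝ) + 1) * (1 / ((n : ℝ) + 1)) :=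
              mul_lt_mul_of_pos_left h1 hn1
          _ = 1 := by field_simp)
    have hcut' : ∀ T : Tr A, rk (trM T (Fin N)) (cut (e / 2) b) =
        rk (trM T (Fin K)) (cut e (dg a)) := by
      intro T
      rw [hcut T (e / 2) (by linarith), add_halves]
    have hC : ∀ T : Tr A, _ := fun T => hRKC (MM N A) (trM T (Fin N)) (unitAt i₀) (n + 1) r b
      (0 : Fin (n + 1)) (e / 4) (e / 2) (drop_star_p i₀) (drop_p_p i₀) hb0 hpr hrr
      (by linarith) (by linarith)
    have hfp : ∀ T : Tr A, (trM T (Fin N)).f (unitAt i₀) = T.f 1 := by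
      intro T
      rw [trM_apply, Finset.sum_eq_single i₀]
      · rw [drop_unitAt, if_pos ⟨rfl, rfl⟩]
      · intro k _ hk
        rw [drop_unitAt, if_neg (fun h => hk h.1.symm), map_zero]
      · simp
    have hlt' : ∀ T : Tr A, T.f 1 = 1 →
        rk (trM T (Fin N)) (unitAt i₀ - ramp (e / 4) (e / 2) (∑ i, r i * star (r i))) <
          rk (trM T (Fin N)) (cut (e / 2) (r 0 * star (r 0))) := by
      intro T hT
      obtain ⟨_, h2, h3⟩ := hC T
      rw [h3, hcut' T]
      rw [hfp T, hT, Complex.one_re, hcut' T] at h2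
      have h4 := heT' T hT
      have h5 : ((n + 1 : ℕ) : ℝ) = (n : ℝ) + 1 := by push_cast; ring
      rw [h5] at h2
      have h6 : 1 < ((n : ℝ) + 2) * rk (trM T (Fin K)) (cut e (dg a)) := by
        have h7 := mul_lt_mul_of_pos_left h4 hn2
        have h8 : ((n : ℝ) + 2) * (1 / ((n : ℝ) + 2)) = 1 := by field_simp
        rw [h8] at h7
        exact h7
      linarith
    have hrr0 : 0 ≤ r 0 * star (r 0) := mul_star_self_nonneg _
    have hcut0 : 0 ≤ cut (e / 2) (r 0 * star (r 0)) := (ct' (MM N A) _ hrr0).1 _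
    have hne : cut (e / 2) (r 0 * star (r 0)) ≠ 0 := by
      intro h0
      have h1 := (hC T₀).2.2
      rw [h0, drop_rk_zero, hcut' T₀] at h1
      have h2 := heT' T₀ hT₀
      have h3 : 0 < 1 / ((n : ℝ) + 2) := by positivity
      linarith
    have hcz : Cz (unitAt i₀ - ramp (e / 4) (e / 2) (∑ i, r i * star (r i)))
        (cut (e / 2) (r 0 * star (r 0))) := by
      apply hsc N _ _ (hC T₀).1 hcut0 hne
      intro T hT
      exact ⟨_, _, (rk' (MM N A) (trM T (Fin N)) _ (hC T₀).1).2.2.1,
        (rk' (MM N A) (trM T (Fin N)) _ hcut0).2.2.1, hlt' T hT⟩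
    obtain ⟨c, s, h1, h2, _, h4, h5, h6, h7⟩ := hDDA (MM N A) (unitAt i₀) (n + 1) r b
      (0 : Fin (n + 1)) (e / 4) (e / 2) (drop_star_p i₀) (drop_p_p i₀) hb0 hpr hrr
      (by linarith) (by linarith) hcz
    exact drop_transport n N i₀ c s h1 h2 h4 h5 h6 h7
  · -- no tracial states
    apply drop_inf
    have h1 : (0 : MM (n + 1) A) ≤ 1 := zero_le_one
    have h2 : (0 : MM (n + 1) A) ≤ unitAt 0 := by
      have := star_mul_self_nonneg (unitAt 0 : MM (n + 1) A)
      rw [drop_star_p, drop_p_p] at this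
      exact this
    apply hsc (n + 1) 1 (unitAt 0) h1 h2
    · intro h0
      have h3 : (unitAt 0 : MM (n + 1) A) 0 0 = (0 : MM (n + 1) A) 0 0 := by rw [h0]
      rw [drop_unitAt, if_pos ⟨rfl, rfl⟩] at h3
      exact one_ne_zero h3
    · intro T hT
      exact absurd ⟨T, hT⟩ hTS

end Pool.Agent.H327R4.Pure
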