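import Pool.Agent.H327R4.Pure.Stubs3
import Pool.Agent.H327R4.Pure.All

/-!
# Ranks in the dimension drop construction
-/

set_option autoImplicit false

namespace Pool.Agent.H327R4.Pure

open Filter Topology

universe u

namespace TRKC

section

variable {B : Type u} [CStarAlgebra B] [PartialOrder B] [StarOrderedRing B]

/-- the rank of a finite orthogonal sum -/
theorem rk_sum (hadd : StADD.{u}) (T : Tr B) (n : ℕ) (a : Fin n → B)
    (ha : ∀ i, 0 ≤ a i) (hij : ∀ i j, i ≠ j → a i * a j = 0) :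
    rk T (∑ i, a i) = ∑ i, rk T (a i) := by
  induction n with
  | zero =>
    simp only [Finset.univ_eq_empty, Finset.sum_empty]
    have h := hadd B T 0 0 le_rfl le_rfl (mul_zero 0)
    rw [add_zero] at h
    linarith
  | succ n ih =>
    rw [Fin.sum_univ_succ, Fin.sum_univ_succ, ← ih (fun i => a i.succ) (fun i => ha _)
      (fun i j h => hij _ _ (fun h' => h (Fin.succ_injective _ h')))]
    refine hadd B T _ _ (ha 0) (Finset.sum_nonneg fun i _ => ha _) ?_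
    rw [Finset.mul_sum]
    exact Finset.sum_eq_zero fun i _ => hij _ _ (Fin.succ_ne_zero i).symm

/-- rank of `(x x^* - δ)_+` and of `(x^* x - δ)_+` -/
theorem rk_swap (hswap : StSWAP.{u}) (T : Tr B) (x : B) (δ : ℝ) (hδ : 0 ≤ δ) :
    rk T (cut δ (x * star x)) = rk T (cut δ (star x * x)) := by
  have h : ∀ k : ℕ, T.f (phi (1 / ((k : ℝ) + 1)) (cut δ (x * star x))) =
      T.f (phi (1 / ((k : ℝ) + 1)) (cut δ (star x * x))) := by
    intro k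
    have hk : (0 : ℝ) < 1 / ((k : ℝ) + 1) := by positivity
    have e : ∀ y : B, IsSelfAdjoint y → phi (1 / ((k : ℝ) + 1)) (cut δ y) =
        cfcₙ (fun t : ℝ => min 1 (max (t - δ) 0 / (1 / ((k : ℝ) + 1)))) y := by
      intro y hy
      unfold phi cut
      exact (cfcₙ_comp' (fun t : ℝ => min 1 (t / (1 / ((k : ℝ) + 1)))) (fun t : ℝ => max (t - δ) 0) y
        (by fun_prop) (by simp) (by fun_prop) (by simp [hδ]) hy).symm
    rw [e _ (IsSelfAdjoint.mul_star_self x), e _ (IsSelfAdjoint.star_mul_self x)]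
    exact (hswap B T x _ (by fun_prop) (by simp [hδ])).symm
  unfold rk
  simp_rw [h]

/-- rank of a projection -/
theorem rk_proj (hmt : StMT.{u}) (T : Tr B) (p : B) (hp : star p = p) (hpp : p * p = p) :
    rk T p ≤ (T.f p).re := by
  have hsa : IsSelfAdjoint p := hp
  unfold rk
  refine ciSup_le fun k => ?_
  refine (hmt B T).1 _ _ ?_
  have hk : (0 : ℝ) < 1 / ((k : ℝ) + 1) := by positivity
  have hsq : ∀ x ∈ quasispectrum ℝ p, x * x = x := by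
    have h1 : cfcₙ (fun x : ℝ => x * x) p = cfcₙ (fun x : ℝ => x) p := by
      rw [cfcₙ_mul (fun x : ℝ => x) (fun x : ℝ => x) p, cfcₙ_id' ℝ p, hpp]
    exact (cfcₙ_eq_cfcₙ_iff_eqOn (R := ℝ) hsa (by fun_prop) (by simp) (by fun_prop) (by simp)).mp h1
  conv_rhs => rw [← cfcₙ_id' ℝ p]
  unfold phi
  refine cfcₙ_mono (fun x hx => ?_) (by fun_prop) (by fun_prop) (by simp) (by simp)
  have h2 := hsq x hx
  have h3 : x = 0 ∨ x = 1 := by
    have : x * (x - 1) = 0 := by linarith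
    rcases mul_eq_zero.mp this with h | h
    · exact Or.inl h
    · exact Or.inr (by linarith)
  rcases h3 with rfl | rfl
  · simp
  · exact min_le_left _ _

/-- the function `ramp` -/
noncomputable def rf (δ₀ δ₁ t : ℝ) : ℝ := min 1 (max 0 ((t - δ₀) / (δ₁ - δ₀)))

theorem rf_cont (δ₀ δ₁ : ℝ) : Continuous (rf δ₀ δ₁) := by
  unfold rf
  fun_prop

theorem rf_zero (δ₀ δ₁ : ℝ) (_ : 0 < δ₀) (h1 : δ₀ < δ₁) (t : ℝ) (ht : t ≤ δ₀) :
    rf δ₀ δ₁ t = 0 := by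
  unfold rf
  have : (t - δ₀) / (δ₁ - δ₀) ≤ 0 := div_nonpos_of_nonpos_of_nonneg (by linarith) (by linarith)
  rw [max_eq_left this]
  exact min_eq_right (by norm_num)

theorem rf_one (δ₀ δ₁ : ℝ) (h1 : δ₀ < δ₁) (t : ℝ) (ht : δ₁ ≤ t) :
    rf δ₀ δ₁ t = 1 := by
  unfold rf
  have : 1 ≤ (t - δ₀) / (δ₁ - δ₀) := by
    rw [one_le_div (by linarith)]
    linarith
  exact min_eq_left (this.trans (le_max_right _ _))

theorem rf_nonneg (δ₀ δ₁ t : ℝ) : 0 ≤ rf δ₀ δ₁ t := le_min zero_le_one (le_max_left _ _)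

/-- `ramp R = R G = G R` -/
theorem ramp_fac (R : B) (hR : 0 ≤ R) (δ₀ δ₁ : ℝ) (h0 : 0 < δ₀) (h1 : δ₀ < δ₁) :
    ∃ G : B, ramp δ₀ δ₁ R = R * G ∧ ramp δ₀ δ₁ R = G * R := by
  have hsa : IsSelfAdjoint R := hR.isSelfAdjoint
  have hmax : ∀ t : ℝ, max t δ₀ ≠ 0 := fun t => (lt_of_lt_of_le h0 (le_max_right _ _)).ne'
  have hc : Continuous (fun t : ℝ => rf δ₀ δ₁ t / max t δ₀) :=
    (rf_cont δ₀ δ₁).div (by fun_prop) hmax
  have hz : (fun t : ℝ => rf δ₀ δ₁ t / max t δ₀) 0 = 0 := by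
    simp only
    rw [rf_zero δ₀ δ₁ h0 h1 0 h0.le, zero_div]
  have key : ∀ t : ℝ, rf δ₀ δ₁ t = t * (rf δ₀ δ₁ t / max t δ₀) := by
    intro t
    rcases le_total t δ₀ with h | h
    · rw [rf_zero δ₀ δ₁ h0 h1 t h, zero_div, mul_zero]
    · rw [max_eq_left h]
      have : t ≠ 0 := (lt_of_lt_of_le h0 h).ne'
      field_simp
  refine ⟨cfcₙ (fun t : ℝ => rf δ₀ δ₁ t / max t δ₀) R, ?_, ?_⟩
  · have e : ramp δ₀ δ₁ R = cfcₙ (fun t : ℝ => t * (rf δ₀ δ₁ t / max t δ₀)) R :=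
      cfcₙ_congr fun t _ => key t
    rw [e, cfcₙ_mul (fun t : ℝ => t) (fun t : ℝ => rf δ₀ δ₁ t / max t δ₀) R (by fun_prop) rfl
      hc.continuousOn hz, cfcₙ_id' ℝ R]
  · have e : ramp δ₀ δ₁ R = cfcₙ (fun t : ℝ => (rf δ₀ δ₁ t / max t δ₀) * t) R :=
      cfcₙ_congr fun t _ => (key t).trans (mul_comm _ _)
    rw [e, cfcₙ_mul (fun t : ℝ => rf δ₀ δ₁ t / max t δ₀) (fun t : ℝ => t) R hc.continuousOn hz
      (by fun_prop) rfl, cfcₙ_id' ℝ R]

/-- `ramp R * (R - δ₁)_+ = (R - δ₁)_+` -/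
theorem ramp_cut (R : B) (hR : 0 ≤ R) (δ₀ δ₁ : ℝ) (h0 : 0 < δ₀) (h1 : δ₀ < δ₁) :
    ramp δ₀ δ₁ R * cut δ₁ R = cut δ₁ R := by
  have hsa : IsSelfAdjoint R := hR.isSelfAdjoint
  have hz1 : rf δ₀ δ₁ 0 = 0 := rf_zero δ₀ δ₁ h0 h1 0 h0.le
  have hz2 : (fun t : ℝ => max (t - δ₁) 0) 0 = 0 := by
    simp only
    exact max_eq_right (by linarith)
  have e1 : ramp δ₀ δ₁ R = cfcₙ (rf δ₀ δ₁) R := rfl
  have e2 : cut δ₁ R = cfcₙ (fun t : ℝ => max (t - δ₁) 0) R := rfl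
  rw [e1, e2, ← cfcₙ_mul (rf δ₀ δ₁) (fun t : ℝ => max (t - δ₁) 0) R (rf_cont δ₀ δ₁).continuousOn hz1
    (by fun_prop) hz2]
  refine cfcₙ_congr fun t _ => ?_
  rcases le_total t δ₁ with h | h
  · rw [max_eq_right (by linarith), mul_zero]
  · rw [rf_one δ₀ δ₁ h1 t h, one_mul]

/-- `0 ≤ ramp R ≤ p` -/
theorem ramp_le (R p : B) (hR : 0 ≤ R) (hp : star p = p) (hpp : p * p = p) (hpR : p * R = R)
    (δ₀ δ₁ : ℝ) (h0 : 0 < δ₀) (h1 : δ₀ < δ₁) : 0 ≤ ramp δ₀ δ₁ R ∧ ramp δ₀ δ₁ R ≤ p := by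
  have hsa : IsSelfAdjoint R := hR.isSelfAdjoint
  have hRp : R * p = R := by
    have := congrArg star hpR
    rwa [star_mul, hp, hsa.star_eq] at this
  obtain ⟨G, hG1, hG2⟩ := ramp_fac R hR δ₀ δ₁ h0 h1
  have hpr : p * ramp δ₀ δ₁ R = ramp δ₀ δ₁ R := by rw [hG1, ← mul_assoc, hpR]
  have hrp : ramp δ₀ δ₁ R * p = ramp δ₀ δ₁ R := by rw [hG2, mul_assoc, hRp]
  have hnn : 0 ≤ ramp δ₀ δ₁ R := cfcₙ_nonneg fun t _ => rf_nonneg δ₀ δ₁ t
  have hz1 : rf δ₀ δ₁ 0 = 0 := rf_zero δ₀ δ₁ h0 h1 0 h0.le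
  have hle : ramp δ₀ δ₁ R ≤ 1 := by
    have e1 : ramp δ₀ δ₁ R = cfcₙ (rf δ₀ δ₁) R := rfl
    have e2 : cfcₙ (rf δ₀ δ₁) R = cfc (rf δ₀ δ₁) R :=
      cfcₙ_eq_cfc (rf_cont δ₀ δ₁).continuousOn hz1
    rw [e1, e2]
    exact cfc_le_one _ _ fun t _ => min_le_left _ _
  refine ⟨hnn, ?_⟩
  have h2 := star_left_conjugate_le_conjugate hle p
  rw [hp, mul_one, hpp, hpr, hrp] at h2
  exact h2

end

theorem core (hmt : StMT.{u}) (hct : StCT.{u}) (hadd : StADD.{u})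
    (hswap : StSWAP.{u}) (hmon : StMON.{u}) (hcsm : StCSM.{u}) : StRKC.{u} := by
  intro B _ _ _ T p n r b i₀ δ₀ δ₁ hp hpp hb hpr hrr h0 h1
  have hδ1 : 0 < δ₁ := h0.trans h1
  obtain ⟨R, hR⟩ : ∃ R : B, R = ∑ i, r i * star (r i) := ⟨_, rfl⟩
  rw [← hR]
  have hterm : ∀ i, 0 ≤ r i * star (r i) := fun i => mul_star_self_nonneg _
  have hR0 : 0 ≤ R := by rw [hR]; exact Finset.sum_nonneg fun i _ => hterm i
  have hpR : p * R = R := by
    rw [hR, Finset.mul_sum]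
    exact Finset.sum_congr rfl fun i _ => by rw [← mul_assoc, hpr]
  have hRsa : IsSelfAdjoint R := hR0.isSelfAdjoint
  have hRp : R * p = R := by
    have := congrArg star hpR
    rwa [star_mul, hp, hRsa.star_eq] at this
  obtain ⟨g1, g2⟩ := ramp_le R p hR0 hp hpp hpR δ₀ δ₁ h0 h1
  have hP1 : 0 ≤ p - ramp δ₀ δ₁ R := sub_nonneg.mpr g2
  -- the ranks of the summands
  have hrki : ∀ i, rk T (cut δ₁ (r i * star (r i))) = rk T (cut δ₁ b) := by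
    intro i
    rw [rk_swap hswap T (r i) δ₁ hδ1.le, hrr i i, if_pos rfl]
  refine ⟨hP1, ?_, hrki i₀⟩
  -- orthogonality
  have horth : ∀ i j, i ≠ j → (r i * star (r i)) * (r j * star (r j)) = 0 := by
    intro i j hij
    have e : (r i * star (r i)) * (r j * star (r j)) = r i * (star (r i) * r j) * star (r j) := by
      simp only [mul_assoc]
    rw [e, hrr i j, if_neg hij, mul_zero, zero_mul]
  have hcut : cut δ₁ R = ∑ i, cut δ₁ (r i * star (r i)) := by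
    rw [hR]
    exact hcsm B n _ δ₁ hterm horth hδ1.le
  have horth2 : ∀ i j, i ≠ j → cut δ₁ (r i * star (r i)) * cut δ₁ (r j * star (r j)) = 0 := by
    intro i j hij
    have e1 := ((hct B _ (hterm i)).2.2.2.2.2.2.2.2 δ₁ hδ1.le _).1 (horth i j hij)
    exact ((hct B _ (hterm j)).2.2.2.2.2.2.2.2 δ₁ hδ1.le _).2 e1
  have hrkC : rk T (cut δ₁ R) = n * rk T (cut δ₁ b) := by
    rw [hcut, rk_sum hadd T n _ (fun i => (hct B _ (hterm i)).1 δ₁) horth2,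
      Finset.sum_congr rfl fun i _ => hrki i]
    simp
  have hC0 : 0 ≤ cut δ₁ R := (hct B R hR0).1 δ₁
  have hpC : p * cut δ₁ R = cut δ₁ R := by
    have e1 : (1 - p) * R = 0 := by rw [sub_mul, one_mul, hpR, sub_self]
    have e2 := ((hct B R hR0).2.2.2.2.2.2.2.2 δ₁ hδ1.le (1 - p)).2 e1
    rw [sub_mul, one_mul, sub_eq_zero] at e2
    exact e2.symm
  have hPC : (p - ramp δ₀ δ₁ R) * cut δ₁ R = 0 := by
    rw [sub_mul, hpC, ramp_cut R hR0 δ₀ δ₁ h0 h1, sub_self]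
  have hsum := hadd B T _ _ hP1 hC0 hPC
  rw [← hrkC, ← hsum]
  refine le_trans ?_ (rk_proj hmt T p hp hpp)
  -- comparison with `p`
  have hp0 : 0 ≤ p := g1.trans g2
  have hRle : R ≤ ‖R‖ • p := by
    have e1 : R ≤ algebraMap ℝ B ‖R‖ := IsSelfAdjoint.le_algebraMap_norm_self hRsa
    have e2 := star_left_conjugate_le_conjugate e1 p
    rw [hp, hpR, hRp, Algebra.algebraMap_eq_smul_one, mul_smul_comm, mul_one, smul_mul_assoc,
      hpp] at e2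
    exact e2
  have hCle : cut δ₁ R ≤ ‖R‖ • p := ((hct B R hR0).2.1 δ₁ hδ1.le).trans hRle
  refine hmon B T _ _ (1 + ‖R‖) (add_nonneg hP1 hC0) hp0 (by positivity) ?_
  rw [add_smul, one_smul]
  refine add_le_add ?_ hCle
  exact sub_le_self _ g1

end TRKC

theorem rkc_holds : StRKC.{u} := TRKC.core mt' ct' add' swap' mon' csm'

end Pool.Agent.H327R4.Pure
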