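import Pool.Agent.H327R4.Pure.All3
import Pool.Agent.H327R4.Pure.TRKC
import Pool.Agent.H327R4.Pure.TDROP

/-! Dimension drop algebras. -/

set_option autoImplicit false

namespace Pool.Agent.H327R4.Pure

universe u

theorem drop' : StDROP.{u} := drop_holds dda' rkc_holds row' dini'

end Pool.Agent.H327R4.Pure
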