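import Pool.Agent.H327R4.Pure.Stubs3
import Pool.Agent.H327R4.Pure.TMT

set_option autoImplicit false

namespace Pool.Agent.H327R4.Pure

open Filter Topology

universe u v

namespace CPTaux

variable {A : Type u} [CStarAlgebra A]

theorem bound_sa (T : TS A) {a : A} (ha : IsSelfAdjoint a) : ‖T.1.f a‖ ≤ ‖a‖ := by
  let _ : PartialOrder A := CStarAlgebra.spectralOrder A
  have _ : StarOrderedRing A := CStarAlgebra.spectralOrderedRing A
  obtain ⟨h1, h2, h3⟩ := mt_holds A T.1
  have e1 := h1 _ _ ha.le_algebraMap_norm_self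
  have e2 := h1 _ _ ha.neg_algebraMap_norm_le_self
  have e3 : T.1.f (algebraMap ℝ A ‖a‖) = (‖a‖ : ℂ) := by
    have : algebraMap ℝ A ‖a‖ = (‖a‖ : ℂ) • (1 : A) := by
      rw [Algebra.algebraMap_eq_smul_one]
      rw [Complex.coe_smul]
    rw [this, map_smul, T.2, smul_eq_mul, mul_one]
  rw [e3, Complex.ofReal_re] at e1
  rw [map_neg, e3, Complex.neg_re, Complex.ofReal_re] at e2
  have e4 : T.1.f a = ((T.1.f a).re : ℂ) := Complex.ext (by simp) (by simp [h3 a ha])
  rw [e4, Complex.norm_real, Real.norm_eq_abs, abs_le]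
  exact ⟨e2, e1⟩

theorem bound (T : TS A) (x : A) : ‖T.1.f x‖ ≤ 2 * ‖x‖ := by
  have h := realPart_add_I_smul_imaginaryPart x
  have e : T.1.f x = T.1.f (realPart x : A) + Complex.I * T.1.f (imaginaryPart x : A) := by
    conv_lhs => rw [← h]
    rw [map_add, map_smul, smul_eq_mul]
  rw [e]
  have h1 := bound_sa T (realPart x).2
  have h2 := bound_sa T (imaginaryPart x).2
  have h3 : ‖(realPart x : A)‖ ≤ ‖x‖ := realPart.norm_le x
  have h4 : ‖(imaginaryPart x : A)‖ ≤ ‖x‖ := imaginaryPart.norm_le x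
  calc ‖T.1.f (realPart x : A) + Complex.I * T.1.f (imaginaryPart x : A)‖
      ≤ ‖T.1.f (realPart x : A)‖ + ‖Complex.I * T.1.f (imaginaryPart x : A)‖ := norm_add_le _ _
    _ ≤ ‖x‖ + ‖x‖ := by
        rw [norm_mul, Complex.norm_I, one_mul]
        exact add_le_add (h1.trans h3) (h2.trans h4)
    _ = 2 * ‖x‖ := by ring

/-- the image -/
def Kc (A : Type u) [CStarAlgebra A] : Set (A → ℂ) :=
  {g | (∀ x, ‖g x‖ ≤ 2 * ‖x‖) ∧ (∀ x y, g (x + y) = g x + g y) ∧ (∀ (c : ℂ) x, g (c • x) = c * g x) ∧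
    (∀ x, 0 ≤ (g (star x * x)).re ∧ (g (star x * x)).im = 0) ∧ (∀ x y, g (x * y) = g (y * x)) ∧
    g 1 = 1}

theorem range_eq : Set.range (fun (T : TS A) (x : A) => T.1.f x) = Kc A := by
  ext g
  constructor
  · rintro ⟨T, rfl⟩
    exact ⟨bound T, fun x y => map_add _ _ _, fun c x => map_smul _ _ _, T.1.pos, T.1.tr, T.2⟩
  · rintro ⟨h1, h2, h3, h4, h5, h6⟩
    let L : A →ₗ[ℂ] ℂ := { toFun := g, map_add' := h2, map_smul' := fun c x => h3 c x }
    exact ⟨⟨⟨L.mkContinuous 2 h1, h4, h5⟩, h6⟩, rfl⟩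

theorem isCompact_K : IsCompact (Kc A) := by
  have hc : IsCompact (Set.pi Set.univ fun x : A => Metric.closedBall (0 : ℂ) (2 * ‖x‖)) :=
    isCompact_univ_pi fun x => isCompact_closedBall _ _
  refine hc.of_isClosed_subset ?_ ?_
  · have ev : ∀ x : A, Continuous fun g : A → ℂ => g x := fun x => continuous_apply x
    have c1 : IsClosed {g : A → ℂ | ∀ x, ‖g x‖ ≤ 2 * ‖x‖} := by
      simp only [Set.ofPred_forall]
      exact isClosed_iInter fun x => isClosed_le (ev x).norm continuous_const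
    have c2 : IsClosed {g : A → ℂ | ∀ x y, g (x + y) = g x + g y} := by
      simp only [Set.ofPred_forall]
      exact isClosed_iInter fun x => isClosed_iInter fun y =>
        isClosed_eq (ev _) ((ev _).add (ev _))
    have c3 : IsClosed {g : A → ℂ | ∀ (c : ℂ) x, g (c • x) = c * g x} := by
      simp only [Set.ofPred_forall]
      exact isClosed_iInter fun c => isClosed_iInter fun x =>
        isClosed_eq (ev _) (continuous_const.mul (ev _))
    have c4 : IsClosed {g : A → ℂ | ∀ x, 0 ≤ (g (star x * x)).re ∧ (g (star x * x)).im = 0} := by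
      simp only [Set.ofPred_forall, Set.ofPred_and]
      exact isClosed_iInter fun x => (isClosed_le continuous_const
        (Complex.continuous_re.comp (ev _))).inter
          (isClosed_eq (Complex.continuous_im.comp (ev _)) continuous_const)
    have c5 : IsClosed {g : A → ℂ | ∀ x y, g (x * y) = g (y * x)} := by
      simp only [Set.ofPred_forall]
      exact isClosed_iInter fun x => isClosed_iInter fun y => isClosed_eq (ev _) (ev _)
    have c6 : IsClosed {g : A → ℂ | g 1 = 1} := isClosed_eq (ev _) continuous_const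
    exact c1.inter (c2.inter (c3.inter (c4.inter (c5.inter c6))))
  · intro g hg
    rw [Set.mem_univ_pi]
    intro x
    rw [mem_closedBall_zero_iff]
    exact hg.1 x

end CPTaux

theorem cpt_holds : StCPT.{u} := by
  intro A _
  have hi : IsInducing (fun (T : TS A) (x : A) => T.1.f x) := ⟨rfl⟩
  rw [← isCompact_univ_iff, hi.isCompact_iff, Set.image_univ, CPTaux.range_eq]
  exact CPTaux.isCompact_K

end Pool.Agent.H327R4.Pure
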