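import Pool.Agent.H327R4.Pure.Stubs3
import Pool.Agent.H327R4.Pure.All

/-! Task DINI: Dini for ranks. -/

set_option autoImplicit false

namespace Pool.Agent.H327R4.Pure

open Filter Topology

universe u v

namespace TDINI

theorem phi_cut_near {B : Type u} [NonUnitalCStarAlgebra B] [PartialOrder B] [StarOrderedRing B]
    (a : B) (ε δ : ℝ) (ha : 0 ≤ a) (hε : 0 < ε) (hδ : 0 < δ) :
    ‖phi δ (cut ε a) - phi δ a‖ ≤ ε / δ := by
  have hs : IsSelfAdjoint a := ha.isSelfAdjoint
  unfold phi cut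
  have h0 : cfcₙ (fun x : ℝ => min 1 (x / δ)) (cfcₙ (fun x : ℝ => max (x - ε) 0) a) =
      cfcₙ (fun x : ℝ => min 1 (max (x - ε) 0 / δ)) a := by
    refine (cfcₙ_comp' (fun x : ℝ => min 1 (x / δ)) (fun x : ℝ => max (x - ε) 0) a
      (by fun_prop) (by simp) (by fun_prop) (by simp [hε.le]) hs).symm
  rw [h0, ← cfcₙ_sub (fun x : ℝ => min 1 (max (x - ε) 0 / δ)) (fun x : ℝ => min 1 (x / δ)) a
    (by fun_prop) (by simp [hε.le]) (by fun_prop) (by simp)]
  refine norm_cfcₙ_le fun x hx => ?_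
  have hx0 : 0 ≤ x := quasispectrum_nonneg_of_nonneg a ha x hx
  rw [Real.norm_eq_abs]
  have h1 : |min 1 (max (x - ε) 0 / δ) - min 1 (x / δ)| ≤ |max (x - ε) 0 / δ - x / δ| := by
    have := abs_min_sub_min_le_max 1 (max (x - ε) 0 / δ) 1 (x / δ)
    simpa using this
  refine h1.trans ?_
  rw [← sub_div, abs_div, abs_of_pos hδ]
  apply div_le_div_of_nonneg_right _ hδ.le
  rcases le_total x ε with h | h
  · rw [max_eq_right (by linarith), zero_sub, abs_neg, abs_of_nonneg hx0]
    exact h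
  · rw [max_eq_left (by linarith), show x - ε - x = -ε by ring, abs_neg, abs_of_pos hε]

theorem exists_min {ι : Type u} (t : Finset ι) (e : ι → ℝ) (he : ∀ i, 0 < e i) :
    ∃ ε : ℝ, 0 < ε ∧ ∀ i ∈ t, ε ≤ e i := by
  classical
  induction t using Finset.induction_on with
  | empty => exact ⟨1, one_pos, by simp⟩
  | insert a t _ ih =>
    obtain ⟨ε, h1, h2⟩ := ih
    refine ⟨min ε (e a), lt_min h1 (he a), fun i hi => ?_⟩
    rcases Finset.mem_insert.1 hi with rfl | hi
    · exact min_le_right _ _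
    · exact (min_le_left _ _).trans (h2 i hi)

theorem cont_ev {A : Type u} [CStarAlgebra A] (x : A) : Continuous fun T : TS A => T.1.f x :=
  (continuous_apply x).comp continuous_induced_dom

end TDINI

open TDINI in
theorem dini_holds (hcpt : StCPT.{u}) : StDINI.{u} := by
  intro A _ _ _ K a h ha hlt
  have hloc : ∀ T₀ : TS A, ∃ (e : ℝ) (U : Set (TS A)), 0 < e ∧ U ∈ 𝓝 T₀ ∧
      ∀ T ∈ U, (T.1.f h).re < rk (trM T.1 (Fin K)) (cut e a) := by
    intro T₀
    set F := (trM T₀.1 (Fin K)).f with hF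
    obtain ⟨d, hd, hd2⟩ := (rk' (MM K A) (trM T₀.1 (Fin K)) a ha).2.1
      (rk (trM T₀.1 (Fin K)) a - (T₀.1.f h).re) (by have := hlt T₀; linarith)
    have hd3 : (T₀.1.f h).re < (F (phi d a)).re := by rw [hF]; linarith
    set g := (F (phi d a)).re - (T₀.1.f h).re with hg
    have hg0 : 0 < g := by linarith
    set e := d * g / (2 * (‖F‖ + 1)) with he
    have he0 : 0 < e := by positivity
    have hce : 0 ≤ cut e a := (ct' (MM K A) a ha).1 e
    have h1 : ‖F (phi d (cut e a)) - F (phi d a)‖ ≤ g / 2 := by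
      rw [← map_sub]
      calc ‖F (phi d (cut e a) - phi d a)‖ ≤ ‖F‖ * ‖phi d (cut e a) - phi d a‖ :=
            F.le_opNorm _
        _ ≤ (‖F‖ + 1) * (e / d) := by
            apply mul_le_mul _ (phi_cut_near a e d ha he0 hd) (norm_nonneg _) (by positivity)
            linarith
        _ = g / 2 := by
            rw [he]
            field_simp
    have h2 : (T₀.1.f h).re < (F (phi d (cut e a))).re := by
      have h3 := Complex.abs_re_le_norm (F (phi d (cut e a)) - F (phi d a))
      rw [Complex.sub_re] at h3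
      have h4 := (abs_le.1 (h3.trans h1)).1
      linarith
    refine ⟨e, {T : TS A | (T.1.f h).re < ((trM T.1 (Fin K)).f (phi d (cut e a))).re}, he0, ?_, ?_⟩
    · refine IsOpen.mem_nhds ?_ (show T₀ ∈ {T : TS A | (T.1.f h).re <
        ((trM T.1 (Fin K)).f (phi d (cut e a))).re} from h2)
      apply isOpen_lt
      · exact Complex.continuous_re.comp (cont_ev h)
      · have e1 : (fun T : TS A => ((trM T.1 (Fin K)).f (phi d (cut e a))).re) =
            fun T : TS A => (∑ i, T.1.f ((phi d (cut e a)) i i)).re := by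
          funext T
          rw [trM_apply]
        rw [e1]
        exact Complex.continuous_re.comp (continuous_finsetSum _ fun i _ => cont_ev _)
    · intro T hT
      have hT' : (T.1.f h).re < ((trM T.1 (Fin K)).f (phi d (cut e a))).re := hT
      exact hT'.trans_le ((rk' (MM K A) (trM T.1 (Fin K)) (cut e a) hce).1 d hd)
  choose e U he hU hU2 using hloc
  have := hcpt A
  obtain ⟨t, ht⟩ := CompactSpace.elim_nhds_subcover U hU
  obtain ⟨ε, hε, hε2⟩ := exists_min t e he
  refine ⟨ε, hε, fun T => ?_⟩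
  have hT : T ∈ ⋃ x ∈ t, U x := by
    rw [ht]
    trivial
  simp only [Set.mem_iUnion] at hT
  obtain ⟨T₀, hT₀, hTU⟩ := hT
  refine (hU2 T₀ T hTU).trans_le ?_
  have hc := ct' (MM K A) a ha
  apply mon' (MM K A) (trM T.1 (Fin K)) _ _ 1 (hc.1 _) (hc.1 _) one_pos
  refine (hc.2.2.1 ε (e T₀) hε.le (hε2 T₀ hT₀)).trans (le_of_eq ?_)
  exact (one_smul ℝ (cut ε a)).symm

end Pool.Agent.H327R4.Pure
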