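import Pool.Agent.H327R4.Pure.Stubs3
import Pool.Agent.H327R4.Pure.TLE
import Pool.Agent.H327R4.Pure.TCT

/-!
# EXA: exact form of Cuntz comparison (Rordam's lemma)
-/

set_option autoImplicit false

namespace Pool.Agent.H327R4.Pure

open Filter Topology

universe u

namespace EXAx

variable {B : Type u} [NonUnitalCStarAlgebra B] [PartialOrder B] [StarOrderedRing B]

theorem star_cfcn (f : ℝ → ℝ) (b : B) : star (cfcₙ f b) = cfcₙ f b :=
  (cfcₙ_predicate (R := ℝ) (p := IsSelfAdjoint) _ b).star_eq

/-- products of three functions, the middle one the identity -/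
theorem mul3 (f g : ℝ → ℝ) (hf : Continuous f) (hf0 : f 0 = 0) (hg : Continuous g)
    (hg0 : g 0 = 0) (b : B) (hb : 0 ≤ b) :
    cfcₙ f b * b * cfcₙ g b = cfcₙ (fun t => f t * t * g t) b := by
  have hid : cfcₙ (fun t : ℝ => t) b = b := cfcₙ_id' ℝ b
  rw [cfcₙ_mul (fun t => f t * t) g b (hf.mul continuous_id).continuousOn (by simp)
    hg.continuousOn hg0, cfcₙ_mul f (fun t => t) b hf.continuousOn hf0
    continuous_id.continuousOn rfl, hid]

/-- factorisation -/
theorem fac {u v w g : B} (hu : 0 ≤ u) (hw : w = v * star v) (huw : u ≤ w) (hg : v * g = v) :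
    ∃ s : B, s * star s = u ∧ s * g = s := by
  have hw0 : 0 ≤ w := hu.trans huw
  set c := CFC.sqrt u with hcdef
  have hc : IsSelfAdjoint c := IsSelfAdjoint.of_nonneg (CFC.sqrt_nonneg u)
  have hcc : c * c = u := CFC.sqrt_mul_sqrt_self u hu
  set δ : ℕ → ℝ := fun k => 1 / ((k : ℝ) + 1) with hδdef
  have hδ : ∀ k, 0 < δ k := fun k => by positivity
  have hδt : Tendsto δ atTop (𝓝 0) := tendsto_one_div_add_atTop_nhds_zero_nat
  set P : ℕ → B := fun k => cfcₙ (fun t : ℝ => t / (|t| + δ k)) w with hP
  set H : ℕ → B := fun k => cfcₙ (fun t : ℝ => Real.sqrt t / (|t| + δ k)) w with hH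
  have hPs : ∀ k, star (P k) = P k := fun k => star_cfcn _ _
  have hHs : ∀ k, star (H k) = H k := fun k => star_cfcn _ _
  have hHP : ∀ m k, H m * w * H k = P m * P k := by
    intro m k
    rw [hH, hP]
    simp only
    rw [mul3 _ _ (TLE_wc (hδ m)) (by simp) (TLE_wc (hδ k)) (by simp) w hw0,
      ← cfcₙ_mul (fun t : ℝ => t / (|t| + δ m)) (fun t : ℝ => t / (|t| + δ k)) w
        (TLE_pc (hδ m)).continuousOn (by simp) (TLE_pc (hδ k)).continuousOn (by simp)]
    refine cfcₙ_congr (fun t ht => ?_)
    have ht0 : 0 ≤ t := quasispectrum_nonneg_of_nonneg w hw0 t ht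
    have h3 := Real.mul_self_sqrt ht0
    generalize |t| + δ m = y1
    generalize |t| + δ k = y2
    calc Real.sqrt t / y1 * t * (Real.sqrt t / y2) =
          (Real.sqrt t * Real.sqrt t) * t / (y1 * y2) := by ring
      _ = t / y1 * (t / y2) := by rw [h3]; ring
  set K : ℕ → B := fun k => P k * c with hK
  have hKt : Tendsto K atTop (𝓝 c) := by
    rw [tendsto_iff_norm_sub_tendsto_zero]
    have h3 : Tendsto (fun k => Real.sqrt (δ k)) atTop (𝓝 0) := by
      have := (Real.continuous_sqrt.tendsto 0).comp hδt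
      rw [Real.sqrt_zero] at this
      exact this
    refine squeeze_zero (fun _ => norm_nonneg _) (fun k => ?_) h3
    rw [norm_sub_rev]
    exact Real.le_sqrt_of_sq_le (TLE_key hc hcc hu huw (hδ k))
  set S : ℕ → B := fun k => c * H k * v with hS
  have hSS : ∀ m k, S m * star (S k) = star (K m) * K k := by
    intro m k
    show c * H m * v * star (c * H k * v) = star (P m * c) * (P k * c)
    rw [star_mul, star_mul, star_mul, hHs, hPs, hc.star_eq]
    calc c * H m * v * (star v * (H k * c)) = c * (H m * (v * star v) * H k) * c := by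
          simp only [mul_assoc]
      _ = c * P m * (P k * c) := by
          rw [← hw, hHP]
          simp only [mul_assoc]
  have hdist : ∀ m k, dist (S m) (S k) = dist (K m) (K k) := by
    intro m k
    rw [dist_eq_norm, dist_eq_norm]
    have h1 : (S m - S k) * star (S m - S k) = star (K m - K k) * (K m - K k) := by
      rw [star_sub, star_sub, sub_mul, mul_sub, mul_sub, sub_mul, mul_sub, mul_sub,
        hSS, hSS, hSS, hSS]
    have h2 : ‖S m - S k‖ * ‖S m - S k‖ = ‖K m - K k‖ * ‖K m - K k‖ := by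
      rw [← CStarRing.norm_self_mul_star, h1, CStarRing.norm_star_mul_self]
    exact (mul_self_inj (norm_nonneg _) (norm_nonneg _)).1 h2
  have hSc : CauchySeq S := by
    rw [Metric.cauchySeq_iff]
    intro ε hε
    obtain ⟨N, hN⟩ := Metric.cauchySeq_iff.1 hKt.cauchySeq ε hε
    exact ⟨N, fun m hm k hk => by rw [hdist]; exact hN m hm k hk⟩
  obtain ⟨s, hs⟩ := cauchySeq_tendsto_of_complete hSc
  refine ⟨s, ?_, ?_⟩
  · have h1 : Tendsto (fun k => S k * star (S k)) atTop (𝓝 (s * star s)) :=
      hs.mul ((continuous_star.tendsto s).comp hs)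
    have h2 : Tendsto (fun k => star (K k) * K k) atTop (𝓝 (star c * c)) :=
      ((continuous_star.tendsto c).comp hKt).mul hKt
    simp only [hSS] at h1
    have h3 := tendsto_nhds_unique h1 h2
    rw [h3, hc.star_eq, hcc]
  · have h1 : Tendsto (fun k => S k * g) atTop (𝓝 (s * g)) := hs.mul tendsto_const_nhds
    have h2 : ∀ k, S k * g = S k := by
      intro k
      show c * H k * v * g = c * H k * v
      rw [mul_assoc, hg]
    simp only [h2] at h1
    exact tendsto_nhds_unique h1 hs

end EXAx

open EXAx in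
theorem exa_holds : StEXA.{u} := by
  intro B _ _ _ a b ε ha hb hab hε
  have hct : StCT.{u} := ct_holds
  obtain ⟨x, hx⟩ := hab
  rw [Metric.tendsto_atTop] at hx
  obtain ⟨n, hn⟩ := hx (ε / 4) (by positivity)
  have hn' := hn n le_rfl
  rw [dist_eq_norm] at hn'
  set r := x n with hr
  set δ : ℝ := ε / (8 * (‖r‖ ^ 2 + 1)) with hδ
  have hδ0 : 0 < δ := by positivity
  have hsa : IsSelfAdjoint a := IsSelfAdjoint.of_nonneg ha
  have hc0 : 0 ≤ cut (2 * δ) b := (hct B b hb).1 (2 * δ)
  have hc1 : ‖b - cut (2 * δ) b‖ ≤ 2 * δ := (hct B b hb).2.2.2.2.2.1 (2 * δ) (by positivity)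
  set b' := r * cut (2 * δ) b * star r with hb'
  have hb'0 : 0 ≤ b' := star_right_conjugate_nonneg hc0 r
  have h1 : ‖r * b * star r - b'‖ ≤ ε / 4 := by
    have e : r * b * star r - b' = r * (b - cut (2 * δ) b) * star r := by
      rw [hb', mul_sub, sub_mul]
    rw [e]
    have h2 : ‖r * (b - cut (2 * δ) b) * star r‖ ≤ ‖r‖ * (2 * δ) * ‖r‖ := by
      refine (norm_mul_le _ _).trans ?_
      rw [norm_star]
      refine mul_le_mul_of_nonneg_right ?_ (norm_nonneg _)
      refine (norm_mul_le _ _).trans ?_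
      exact mul_le_mul_of_nonneg_left hc1 (norm_nonneg _)
    have h3 : ‖r‖ * (2 * δ) * ‖r‖ ≤ ε / 4 := by
      have h4 : ‖r‖ * (2 * δ) * ‖r‖ = 2 * (‖r‖ ^ 2 * δ) := by ring
      have h5 : (‖r‖ ^ 2 + 1) * δ = ε / 8 := by
        rw [hδ]
        have : ‖r‖ ^ 2 + 1 ≠ 0 := by positivity
        field_simp
      have h6 : ‖r‖ ^ 2 * δ ≤ (‖r‖ ^ 2 + 1) * δ := by
        apply mul_le_mul_of_nonneg_right _ hδ0.le
        linarith
      linarith
    exact h2.trans h3
  have h2 : ‖a - b'‖ ≤ ε / 2 := by
    have e : a - b' = -(r * b * star r - a) + (r * b * star r - b') := by abel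
    rw [e]
    refine (norm_add_le _ _).trans ?_
    rw [norm_neg]
    linarith
  -- the function `f`
  set f : ℝ → ℝ := fun t => Real.sqrt (max (t - ε) 0 / (max t ε - ε / 2)) with hf
  have hden : ∀ t : ℝ, 0 < max t ε - ε / 2 := fun t => by
    have := le_max_right t ε
    linarith
  have hfc : Continuous f := by
    rw [hf]
    refine Real.continuous_sqrt.comp (Continuous.div (by fun_prop) (by fun_prop) fun t => ?_)
    exact (hden t).ne'
  have hf0 : f 0 = 0 := by
    have : max (0 - ε) 0 = 0 := max_eq_right (by linarith)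
    simp only [hf]
    rw [this, zero_div, Real.sqrt_zero]
  have hff : ∀ t, f t * f t = max (t - ε) 0 / (max t ε - ε / 2) := fun t =>
    Real.mul_self_sqrt (div_nonneg (le_max_right _ _) (hden t).le)
  set Fa := cfcₙ f a with hFa
  have hFs : star Fa = Fa := star_cfcn _ _
  -- `cut ε a = F a F - (ε / 2) F F`
  have h3 : cut ε a + (ε / 2) • (Fa * Fa) = Fa * a * Fa := by
    rw [hFa, mul3 f f hfc hf0 hfc hf0 a ha, ← cfcₙ_mul f f a hfc.continuousOn hf0 hfc.continuousOn
      hf0, ← cfcₙ_smul (ε / 2) (fun t => f t * f t) a (hfc.mul hfc).continuousOn (by simp [hf0])]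
    unfold cut
    rw [← cfcₙ_add (fun t : ℝ => max (t - ε) 0) (fun t => (ε / 2) • (f t * f t)) a
      (Continuous.continuousOn (by fun_prop)) (by
        show max (0 - ε) 0 = 0
        exact max_eq_right (by linarith))
      (((hfc.mul hfc).const_smul (ε / 2)).continuousOn) (by simp [hf0])]
    refine cfcₙ_congr fun t _ => ?_
    simp only [smul_eq_mul]
    have e1 : f t * t * f t = (f t * f t) * t := by ring
    rw [e1, hff t]
    rcases le_total t ε with h | h
    · have h4 : max (t - ε) 0 = 0 := max_eq_right (by linarith)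
      rw [h4]
      simp
    · have h4 : max (t - ε) 0 = t - ε := max_eq_left (by linarith)
      have h5 : max t ε = t := max_eq_left h
      rw [h4, h5]
      have h6 : t - ε / 2 ≠ 0 := by
        have : 0 < t - ε / 2 := by linarith
        exact this.ne'
      have h7 : (t - ε) / (t - ε / 2) * (t - ε / 2) = t - ε := div_mul_cancel₀ _ h6
      generalize (t - ε) / (t - ε / 2) = z at h7 ⊢
      linarith
  have h4 : Fa * (a - b') * Fa ≤ (ε / 2) • (Fa * Fa) := by
    have := CStarAlgebra.star_right_conjugate_le_norm_smul (a := Fa) (b := a - b')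
      (hsa.sub (IsSelfAdjoint.of_nonneg hb'0))
    rw [hFs] at this
    refine this.trans ?_
    refine smul_le_smul_of_nonneg_right h2 ?_
    have := mul_star_self_nonneg Fa
    rwa [hFs] at this
  have h5 : cut ε a ≤ Fa * b' * Fa := by
    have e1 : cut ε a = Fa * a * Fa - (ε / 2) • (Fa * Fa) := eq_sub_of_add_eq h3
    have e2 : Fa * a * Fa = Fa * (a - b') * Fa + Fa * b' * Fa := by noncomm_ring
    rw [e1, e2]
    calc Fa * (a - b') * Fa + Fa * b' * Fa - (ε / 2) • (Fa * Fa)
        ≤ (ε / 2) • (Fa * Fa) + Fa * b' * Fa - (ε / 2) • (Fa * Fa) := by gcongr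
      _ = Fa * b' * Fa := by abel
  -- the functions of `b`
  set q : ℝ → ℝ := fun t => Real.sqrt (max (t - 2 * δ) 0) with hq
  have hqc : Continuous q := by
    rw [hq]
    exact Real.continuous_sqrt.comp (by fun_prop)
  have hq0 : q 0 = 0 := by
    have : max (0 - 2 * δ) 0 = 0 := max_eq_right (by linarith)
    simp only [hq]
    rw [this, Real.sqrt_zero]
  have hqq : ∀ t, q t * q t = max (t - 2 * δ) 0 := fun t => Real.mul_self_sqrt (le_max_right _ _)
  set l : ℝ → ℝ := fun t => Real.sqrt (max (t - δ) 0) / max (t - δ) δ with hl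
  have hlden : ∀ t : ℝ, 0 < max (t - δ) δ := fun t => lt_of_lt_of_le hδ0 (le_max_right _ _)
  have hlc : Continuous l := by
    rw [hl]
    refine Continuous.div (Real.continuous_sqrt.comp (by fun_prop)) (by fun_prop) fun t => ?_
    exact (hlden t).ne'
  have hl0 : l 0 = 0 := by
    have : max (0 - δ) 0 = 0 := max_eq_right (by linarith)
    simp only [hl]
    rw [this, Real.sqrt_zero, zero_div]
  set m : ℝ → ℝ := fun t => max (t - δ) 0 with hm
  have hmc : Continuous m := by rw [hm]; fun_prop
  have hm0 : m 0 = 0 := by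
    simp only [hm]
    exact max_eq_right (by linarith)
  set Q := cfcₙ q b with hQ
  set L := cfcₙ l b with hL
  set G := L * cut δ b * L with hG
  have hQs : star Q = Q := star_cfcn _ _
  have hLs : star L = L := star_cfcn _ _
  have hQQ : Q * Q = cut (2 * δ) b := by
    rw [hQ, ← cfcₙ_mul q q b hqc.continuousOn hq0 hqc.continuousOn hq0]
    exact cfcₙ_congr fun t _ => hqq t
  have hGf : G = cfcₙ (fun t => l t * m t * l t) b := by
    rw [cfcₙ_mul (fun t => l t * m t) l b (hlc.mul hmc).continuousOn (by simp [hl0])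
      hlc.continuousOn hl0, cfcₙ_mul l m b hlc.continuousOn hl0 hmc.continuousOn hm0]
    rfl
  have hQG : Q * G = Q := by
    rw [hGf, hQ, ← cfcₙ_mul q (fun t => l t * m t * l t) b hqc.continuousOn hq0
      ((hlc.mul hmc).mul hlc).continuousOn (by simp [hl0])]
    refine cfcₙ_congr fun t _ => ?_
    show q t * (l t * m t * l t) = q t
    rcases le_total t (2 * δ) with h | h
    · have h6 : q t = 0 := by
        have : max (t - 2 * δ) 0 = 0 := max_eq_right (by linarith)
        simp only [hq]
        rw [this, Real.sqrt_zero]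
      rw [h6, zero_mul]
    · have h6 : max (t - δ) 0 = t - δ := max_eq_left (by linarith)
      have h7 : max (t - δ) δ = t - δ := max_eq_left (by linarith)
      have h8 : 0 < t - δ := by linarith
      have h9 : l t * m t * l t = 1 := by
        simp only [hl, hm]
        rw [h6, h7]
        have h10 : Real.sqrt (t - δ) * Real.sqrt (t - δ) = t - δ := Real.mul_self_sqrt h8.le
        generalize t - δ = y at h8 h10 ⊢
        calc Real.sqrt y / y * y * (Real.sqrt y / y)
            = (Real.sqrt y * Real.sqrt y) * y / (y * y) := by ring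
          _ = 1 := by
            rw [h10]
            exact div_self (mul_pos h8 h8).ne'
      rw [h9, mul_one]
  -- the factorisation
  set v := Fa * r * Q with hv
  have hvv : Fa * b' * Fa = v * star v := by
    rw [hv, star_mul, star_mul, hQs, hFs, hb', ← hQQ]
    simp only [mul_assoc]
  have hvG : v * G = v := by
    rw [hv, mul_assoc, hQG]
  obtain ⟨s, hs1, hs2⟩ := fac (u := cut ε a) (v := v) (w := Fa * b' * Fa) (g := G)
    ((hct B a ha).1 ε) hvv h5 hvG
  refine ⟨δ, s * L, hδ0, ?_⟩
  rw [star_mul, hLs]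
  calc cut ε a = s * star s := hs1.symm
    _ = s * G * star s := by rw [hs2]
    _ = s * L * cut δ b * (L * star s) := by
      rw [hG]
      simp only [mul_assoc]

end Pool.Agent.H327R4.Pure
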