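import Pool.Agent.H327R4.Pure.Stubs3
import Pool.Agent.H327R4.Pure.All

set_option autoImplicit false
set_option linter.unusedSectionVars false

namespace Pool.Agent.H327R4.Pure

open Filter Topology

universe u v w

/-- functional calculus of a projection -/
theorem row_cfc_proj {B : Type u} [NonUnitalCStarAlgebra B] {p : B} (h1 : star p = p)
    (h2 : p * p = p) (f : ℝ → ℝ) (hf : Continuous f) (hf0 : f 0 = 0) :
    cfcₙ f p = f 1 • p := by
  have hsa : IsSelfAdjoint p := h1
  have hq : quasispectrum ℝ p ⊆ {0, 1} := IsIdempotentElem.quasispectrum_subset ℝ h2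
  have h3 : cfcₙ f p = cfcₙ (fun x : ℝ => f 1 * x) p := by
    apply cfcₙ_congr
    intro x hx
    rcases hq hx with h | h
    · rw [h]; simp [hf0]
    · rw [Set.mem_singleton_iff.1 h]; simp
  rw [h3]
  exact cfcₙ_const_mul_id (f 1) p

theorem row_cfc_proj_one {B : Type u} [NonUnitalCStarAlgebra B] {p : B} (h1 : star p = p)
    (h2 : p * p = p) (f : ℝ → ℝ) (hf : Continuous f) (hf0 : f 0 = 0) (hf1 : f 1 = 1) :
    cfcₙ f p = p := by
  rw [row_cfc_proj h1 h2 f hf hf0, hf1, one_smul]

theorem row_root {B : Type u} [NonUnitalCStarAlgebra B] {p : B} (h1 : star p = p)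
    (h2 : p * p = p) (δ : ℝ) (hδ : 0 < δ) (x : B) :
    ∃ X : B, star X * X = x * cut δ p * star x ∧ p * X = X := by
  have hcut : cut δ p = (max (1 - δ) 0) • p :=
    row_cfc_proj h1 h2 (fun x : ℝ => max (x - δ) 0) (by fun_prop) (by simp [hδ.le])
  obtain ⟨t, ht0, ht⟩ : ∃ t : ℝ, 0 ≤ t ∧ t * t = max (1 - δ) 0 :=
    ⟨Real.sqrt (max (1 - δ) 0), Real.sqrt_nonneg _, Real.mul_self_sqrt (le_max_right _ _)⟩
  refine ⟨t • (p * star x), ?_, ?_⟩
  · rw [hcut, star_smul, star_mul, star_star, h1, smul_mul_smul_comm]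
    simp only [star_trivial]
    rw [ht, mul_smul_comm, smul_mul_assoc]
    congr 1
    rw [← mul_assoc, mul_assoc x, h2]
  · rw [mul_smul_comm, ← mul_assoc, h2]

section

variable {A : Type u} [CStarAlgebra A] [PartialOrder A] [StarOrderedRing A]

/-- generalised matrix units -/
def rowG {ι : Type v} {κ : Type w} [Fintype ι] [DecidableEq κ] (e e' : ι → κ)
    (M : CStarMatrix ι ι A) : CStarMatrix κ κ A :=
  CStarMatrix.ofMatrix (fun p q => ∑ i, ∑ j, if e i = p ∧ e' j = q then M i j else 0)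

theorem rowG_apply {ι : Type v} {κ : Type w} [Fintype ι] [DecidableEq κ] {e e' : ι → κ}
    (he : Function.Injective e) (he' : Function.Injective e') (M : CStarMatrix ι ι A) (i j : ι) :
    rowG e e' M (e i) (e' j) = M i j := by
  classical
  simp only [rowG, CStarMatrix.ofMatrix_apply]
  rw [Finset.sum_eq_single i, Finset.sum_eq_single j]
  · simp
  · intro b _ hb
    have : e' b ≠ e' j := fun h => hb (he' h)
    simp [this]
  · simp
  · intro b _ hb
    have : e b ≠ e i := fun h => hb (he h)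
    simp [this]
  · simp

theorem rowG_left {ι : Type v} {κ : Type w} [Fintype ι] [DecidableEq κ] {e e' : ι → κ}
    (M : CStarMatrix ι ι A) {p : κ} (hp : p ∉ Set.range e) (q : κ) :
    rowG e e' M p q = 0 := by
  simp only [rowG, CStarMatrix.ofMatrix_apply]
  refine Finset.sum_eq_zero fun i _ => Finset.sum_eq_zero fun j _ => ?_
  have : e i ≠ p := fun h => hp ⟨i, h⟩
  simp [this]

theorem rowG_right {ι : Type v} {κ : Type w} [Fintype ι] [DecidableEq κ] {e e' : ι → κ}
    (M : CStarMatrix ι ι A) (p : κ) {q : κ} (hq : q ∉ Set.range e') :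
    rowG e e' M p q = 0 := by
  simp only [rowG, CStarMatrix.ofMatrix_apply]
  refine Finset.sum_eq_zero fun i _ => Finset.sum_eq_zero fun j _ => ?_
  have : e' j ≠ q := fun h => hq ⟨j, h⟩
  simp [this]

theorem rowG_self {ι : Type v} {κ : Type w} [Fintype ι] [DecidableEq κ] (e : ι → κ)
    (M : CStarMatrix ι ι A) : rowG e e M = embf e M := rfl

theorem rowG_star {ι : Type v} {κ : Type w} [Fintype ι] [DecidableEq κ] (e e' : ι → κ)
    (M : CStarMatrix ι ι A) : star (rowG e e' M) = rowG e' e (star M) := by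
  ext p q
  simp only [rowG, CStarMatrix.ofMatrix_apply, CStarMatrix.star_apply, star_sum]
  rw [Finset.sum_comm]
  refine Finset.sum_congr rfl fun i _ => Finset.sum_congr rfl fun j _ => ?_
  by_cases h1 : e j = q <;> by_cases h2 : e' i = p <;> simp [h1, h2]

theorem rowG_mul {ι : Type v} {κ : Type w} [Fintype ι] [Fintype κ] [DecidableEq κ]
    {e e' e'' : ι → κ} (he : Function.Injective e) (he' : Function.Injective e')
    (he'' : Function.Injective e'') (M N : CStarMatrix ι ι A) :
    rowG e e' M * rowG e' e'' N = rowG e e'' (M * N) := by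
  ext p q
  rw [CStarMatrix.mul_apply]
  by_cases hp : p ∈ Set.range e
  · by_cases hq : q ∈ Set.range e''
    · obtain ⟨i, rfl⟩ := hp
      obtain ⟨j, rfl⟩ := hq
      rw [rowG_apply he he'', CStarMatrix.mul_apply]
      symm
      refine Fintype.sum_of_injective e' he' _ _ ?_ ?_
      · intro r hr
        rw [rowG_right M _ hr, zero_mul]
      · intro k
        rw [rowG_apply he he', rowG_apply he' he'']
    · rw [rowG_right _ _ hq]
      refine Finset.sum_eq_zero fun r _ => ?_
      rw [rowG_right _ _ hq, mul_zero]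
  · rw [rowG_left _ hp]
    refine Finset.sum_eq_zero fun r _ => ?_
    rw [rowG_left _ hp, zero_mul]

theorem rowG_mul_zero {ι : Type v} {κ : Type w} [Fintype ι] [Fintype κ] [DecidableEq κ]
    {e e' f f' : ι → κ} (h : ∀ i j, e' i ≠ f j) (M N : CStarMatrix ι ι A) :
    rowG e e' M * rowG f f' N = 0 := by
  ext p q
  rw [CStarMatrix.mul_apply]
  refine Finset.sum_eq_zero fun r _ => ?_
  by_cases hr : r ∈ Set.range e'
  · obtain ⟨i, rfl⟩ := hr
    have : e' i ∉ Set.range f := by
      rintro ⟨j, hj⟩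
      exact h i j hj.symm
    rw [rowG_left N this, mul_zero]
  · rw [rowG_right M _ hr, zero_mul]

theorem row_uA_star {N : ℕ} (i : Fin N) : star (unitAt i : MM N A) = unitAt i := by
  ext p q
  rw [CStarMatrix.star_apply]
  simp only [unitAt, CStarMatrix.ofMatrix_apply, Matrix.single_apply]
  by_cases h1 : i = p <;> by_cases h2 : i = q
  · subst h1; subst h2; simp
  · simp [h1, h2]
    subst h1
    simp [h2]
  · simp [h1, h2]
    subst h2
    simp [h1]
  · simp [h1, h2]

theorem row_uA_mul {N : ℕ} (i : Fin N) : (unitAt i : MM N A) * unitAt i = unitAt i := by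
  have h : (Matrix.single i i (1 : A)) * Matrix.single i i 1 = Matrix.single i i 1 := by simp
  exact h

theorem row_uA_ne [Nontrivial A] {N : ℕ} (i : Fin N) : (unitAt i : MM N A) ≠ 0 := by
  intro h
  have h1 : (unitAt i : MM N A) i i = 0 := by rw [h]; rfl
  have h2 : (unitAt i : MM N A) i i = 1 := by
    simp [unitAt, CStarMatrix.ofMatrix_apply]
  rw [h2] at h1
  exact one_ne_zero h1

theorem row_uA_nonneg {N : ℕ} (i : Fin N) : (0 : MM N A) ≤ unitAt i := by
  have h := star_mul_self_nonneg (unitAt i : MM N A)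
  rwa [row_uA_star, row_uA_mul] at h

theorem row_uA_tr {N : ℕ} (i : Fin N) (T : Tr A) :
    (trM T (Fin N)).f (unitAt i : MM N A) = T.f 1 := by
  rw [trM_apply]
  rw [Finset.sum_eq_single i]
  · simp [unitAt, CStarMatrix.ofMatrix_apply]
  · intro b _ hb
    simp [unitAt, CStarMatrix.ofMatrix_apply, Matrix.single_apply, Ne.symm hb]
  · simp

theorem row_uA_rk {N : ℕ} (i : Fin N) (T : Tr A) :
    rk (trM T (Fin N)) (unitAt i : MM N A) = (T.f 1).re := by
  have h : ∀ k : ℕ, ((trM T (Fin N)).f (phi (1 / ((k : ℝ) + 1)) (unitAt i : MM N A))).re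
      = (T.f 1).re := by
    intro k
    have h1 : phi (1 / ((k : ℝ) + 1)) (unitAt i : MM N A) = unitAt i := by
      have hk : (0 : ℝ) < (k : ℝ) + 1 := by positivity
      have h2 : min (1 : ℝ) (1 / (1 / ((k : ℝ) + 1))) = 1 := by
        rw [min_eq_left]
        rw [one_div_one_div]
        linarith
      exact row_cfc_proj_one (row_uA_star (A := A) i) (row_uA_mul i)
        (fun x : ℝ => min 1 (x / (1 / ((k : ℝ) + 1)))) (by fun_prop) (by simp) h2
    rw [h1, row_uA_tr]
  unfold rk
  simp_rw [h]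
  simp

end

theorem row_holds (hexa : StEXA.{u}) : StROW.{u} := by
  intro A _ _ _ hsc hnt n K a ε ha hε hT
  obtain ⟨N, hN⟩ : ∃ N, N = (n + 1) * K + 1 := ⟨_, rfl⟩
  subst hN
  -- the embeddings
  let e : Fin (n + 1) → Fin K → Fin ((n + 1) * K + 1) :=
    fun j i => Fin.castSucc (finProdFinEquiv (j, i))
  have hinj : ∀ j j' i i', e j i = e j' i' → j = j' ∧ i = i' := by
    intro j j' i i' h
    have h1 := Fin.castSucc_injective _ h
    have h2 := finProdFinEquiv.injective h1
    exact Prod.mk.inj h2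
  have he : ∀ j, Function.Injective (e j) := fun j i i' h => (hinj _ _ _ _ h).2
  have hdis : ∀ j j', j ≠ j' → ∀ i i', e j i ≠ e j' i' :=
    fun j j' hj i i' h => hj (hinj _ _ _ _ h).1
  let L : Fin (n + 1) := Fin.last n
  let f : Fin n → Fin K → Fin ((n + 1) * K + 1) := fun j => e (Fin.castSucc j)
  have hf : ∀ j, Function.Injective (f j) := fun j => he _
  have hfd : ∀ j j', j ≠ j' → ∀ i i', f j i ≠ f j' i' :=
    fun j j' hj => hdis _ _ (fun h => hj (Fin.castSucc_injective _ h))
  let i₀ : Fin ((n + 1) * K + 1) := Fin.last _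
  obtain ⟨ha', hrk'⟩ := ksum' A n K _ f hf hfd a ha
  set a' : MM ((n + 1) * K + 1) A := ∑ j, emb (f j) (hf j) a with ha'def
  -- comparison
  have hcz : Cz a' (unitAt i₀) := by
    apply hsc _ a' (unitAt i₀) ha' (row_uA_nonneg i₀) (row_uA_ne i₀)
    intro T hT1
    refine ⟨_, _, (rk' _ (trM T _) a' ha').2.2.1, (rk' _ (trM T _) _ (row_uA_nonneg i₀)).2.2.1, ?_⟩
    rw [hrk', row_uA_rk, hT1]
    simpa using hT T hT1
  obtain ⟨δ, x, hδ, hx⟩ := hexa _ a' (unitAt i₀) ε ha' (row_uA_nonneg i₀) hcz hε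
  obtain ⟨X, hXX', hPX⟩ := row_root (row_uA_star (A := A) i₀) (row_uA_mul i₀) δ hδ x
  have hXX : star X * X = cut ε a' := hXX'.trans hx.symm
  -- the cut of a'
  let c : MM K A := cut ε a
  have hc0 : 0 ≤ c := (ct' _ a ha).1 ε
  have hcuta : cut ε a' = ∑ j, rowG (f j) (f j) c := by
    have h1 := csm' _ n (fun j => emb (f j) (hf j) a) ε
      (fun j => (hom' _ _ (emb (f j) (hf j)) a ha).1)
      (fun i j hij => emb_mul_emb _ _ _ _ (hfd i j hij) a a) hε.le
    rw [ha'def, h1]
    refine Finset.sum_congr rfl fun j _ => ?_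
    rw [← (hom' _ _ (emb (f j) (hf j)) a ha).2.1 ε hε.le]
    rfl
  have hfL : ∀ j, ∀ i i', f j i ≠ e L i' := by
    intro j i i'
    apply hdis
    exact (Fin.castSucc_lt_last j).ne
  refine ⟨(n + 1) * K + 1, i₀, fun j => X * rowG (f j) (e L) 1, emb (e L) (he L) c,
    (hom' _ _ (emb (e L) (he L)) c hc0).1, ?_, ?_, ?_⟩
  · intro i
    rw [← mul_assoc, hPX]
  · intro i j
    have h1 : star (X * rowG (f i) (e L) 1) * (X * rowG (f j) (e L) 1) =
        rowG (e L) (f i) 1 * cut ε a' * rowG (f j) (e L) 1 := by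
      rw [star_mul, rowG_star, star_one, ← hXX]
      simp only [mul_assoc]
    change star (X * rowG (f i) (e L) 1) * (X * rowG (f j) (e L) 1) = _
    rw [h1, hcuta, Finset.mul_sum]
    have h2 : ∀ l, rowG (e L) (f i) (1 : MM K A) * rowG (f l) (f l) c =
        if l = i then rowG (e L) (f i) c else 0 := by
      intro l
      split_ifs with h
      · rw [h, rowG_mul (he L) (hf i) (hf i), one_mul]
      · exact rowG_mul_zero (hfd i l (Ne.symm h)) _ _
    simp_rw [h2]
    rw [Finset.sum_ite_eq' Finset.univ i, if_pos (Finset.mem_univ i)]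
    split_ifs with h
    · subst h
      rw [rowG_mul (he L) (hf i) (he L), mul_one]
      rfl
    · exact rowG_mul_zero (hfd i j h) _ _
  · intro T δ' hδ'
    have h1 := hom' _ _ (emb (e L) (he L)) c hc0
    have h2 : cut δ' (emb (e L) (he L) c) = emb (e L) (he L) (cut δ' c) := (h1.2.1 δ' hδ').symm
    have hc1 : 0 ≤ cut δ' c := (ct' _ c hc0).1 δ'
    have h3 := (hom' _ _ (emb (e L) (he L)) (cut δ' c) hc1).2.2.2 (trM T (Fin K))
      (trM T (Fin ((n + 1) * K + 1))) (fun y => trM_emb T (e L) (he L) y)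
    rw [h2, h3]
    have h4 : cut δ' c = cut (δ' + ε) a := (ct' _ a ha).2.2.2.1 δ' ε hδ' hε.le
    rw [h4, add_comm]

end Pool.Agent.H327R4.Pure
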