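import Pool.Agent.H327R4.Pure.Stubs1

set_option autoImplicit false

namespace Pool.Agent.H327R4.Pure

open Filter Topology

universe u v

/-- the rank is additive on orthogonal sums -/
theorem add_holds (horth : StORTH.{u}) (hrk : StRK.{u}) : StADD.{u} := by
  intro B _ _ _ T p q hp hq hpq
  have h1 := (hrk B T p hp).2.2.1
  have h2 := (hrk B T q hq).2.2.1
  have h3 := (hrk B T (p + q) (add_nonneg hp hq)).2.2.1
  have h4 : Tendsto (fun k : ℕ => (T.f (rt k (p + q))).re) atTop (𝓝 (rk T p + rk T q)) := by
    have h5 : (fun k : ℕ => (T.f (rt k (p + q))).re) =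
        fun k : ℕ => (T.f (rt k p)).re + (T.f (rt k q)).re := by
      funext k
      have hk : (0 : ℝ) < 1 / ((k : ℝ) + 1) := by positivity
      have h6 := horth B p q (fun x : ℝ => x ^ (1 / ((k : ℝ) + 1))) hp hq hpq
        (Real.continuous_rpow_const hk.le) (Real.zero_rpow hk.ne')
      unfold rt
      rw [h6, map_add, Complex.add_re]
    rw [h5]
    exact h1.add h2
  exact tendsto_nhds_unique h3 h4

end Pool.Agent.H327R4.Pure
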