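import Pool.Agent.H327R4.Pure.Stubs3

/-!
# Polar decomposition lemma (StEX)
-/

set_option autoImplicit false

namespace Pool.Agent.H327R4.Pure

open Filter Topology

universe u

section

variable {B : Type u} [CStarAlgebra B] [PartialOrder B] [StarOrderedRing B]

omit [PartialOrder B] [StarOrderedRing B] in
theorem EX_norm_W (W β z : B) (hβ : star β = β) (hββ : β * β = star W * W) :
    ‖W * z‖ ^ 2 = ‖β * z‖ ^ 2 := by
  have h1 : star (W * z) * (W * z) = star (β * z) * (β * z) := by
    rw [star_mul, star_mul, hβ]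
    calc star z * star W * (W * z) = star z * (star W * W) * z := by simp only [mul_assoc]
      _ = star z * (β * β) * z := by rw [hββ]
      _ = star z * β * (β * z) := by simp only [mul_assoc]
  have h2 := CStarRing.norm_star_mul_self (x := W * z)
  have h3 := CStarRing.norm_star_mul_self (x := β * z)
  rw [h1] at h2
  rw [h2] at h3
  nlinarith [h3]

theorem EX_est (b ρ σ β h : B) (C : ℝ) (hρ : 0 ≤ ρ) (hle : ρ ≤ C • b)
    (hσ : star σ = σ) (hσσ : σ * σ = ρ) (hβ : star β = β) (hββ : β * β = b) :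
    ‖h * σ‖ ^ 2 ≤ |C| * ‖h * β‖ ^ 2 := by
  have h1 : (h * σ) * star (h * σ) = h * ρ * star h := by
    rw [star_mul, hσ, ← hσσ]; simp only [mul_assoc]
  have h2 : (h * β) * star (h * β) = h * b * star h := by
    rw [star_mul, hβ, ← hββ]; simp only [mul_assoc]
  have h3 : ‖h * σ‖ ^ 2 = ‖h * ρ * star h‖ := by
    rw [← h1, CStarRing.norm_self_mul_star]; ring
  have h4 : ‖h * β‖ ^ 2 = ‖h * b * star h‖ := by
    rw [← h2, CStarRing.norm_self_mul_star]; ring
  have h5 : 0 ≤ h * ρ * star h := by
    have := star_left_conjugate_nonneg hρ (star h)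
    simpa using this
  have h6 : h * ρ * star h ≤ C • (h * b * star h) := by
    have := star_left_conjugate_le_conjugate hle (star h)
    simpa using this
  have h7 := CStarAlgebra.norm_le_norm_of_nonneg_of_le h5 h6
  rw [norm_smul, Real.norm_eq_abs] at h7
  rw [h3, h4]
  exact h7

theorem EX_sqrt_est {t e : ℝ} (ht : 0 ≤ t) (he : 0 < e) :
    |√t * (√(t + e))⁻¹ * √t - √t| ≤ √e := by
  have h1 : 0 < √(t + e) := Real.sqrt_pos.mpr (by linarith)
  have h2 : √t ≤ √(t + e) := Real.sqrt_le_sqrt (by linarith)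
  have h3 : √(t + e) ≤ √t + √e := by
    rw [Real.sqrt_le_left (by positivity)]
    nlinarith [Real.sq_sqrt ht, Real.sq_sqrt he.le, Real.sqrt_nonneg t, Real.sqrt_nonneg e]
  have h4 : √t * (√(t + e))⁻¹ * √t - √t = -(√t * (√(t + e) - √t) / √(t + e)) := by
    field_simp
    ring
  rw [h4, abs_neg, abs_of_nonneg (by
    apply div_nonneg _ h1.le
    exact mul_nonneg (Real.sqrt_nonneg _) (by linarith))]
  rw [div_le_iff₀ h1]
  nlinarith [Real.sqrt_nonneg t, Real.sqrt_nonneg e, mul_nonneg (Real.sqrt_nonneg t)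
    (Real.sqrt_nonneg e)]

theorem EX_core (W ρ : B) (C : ℝ) (hρ : 0 ≤ ρ) (hle : ρ ≤ C • (star W * W)) :
    ∃ (s : B) (y : ℕ → B), star s * s = ρ ∧ Tendsto (fun k => W * y k) atTop (𝓝 s) := by
  set b : B := star W * W with hb
  have hb0 : 0 ≤ b := star_mul_self_nonneg W
  have hbsa : IsSelfAdjoint b := hb0.isSelfAdjoint
  have hspec : ∀ t ∈ spectrum ℝ b, 0 ≤ t := fun t ht => spectrum_nonneg_of_nonneg hb0 ht
  -- square roots
  set σ : B := CFC.sqrt ρ with hσd
  have hσ0 : 0 ≤ σ := CFC.sqrt_nonneg ρ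
  have hσ : star σ = σ := hσ0.isSelfAdjoint.star_eq
  have hσσ : σ * σ = ρ := CFC.sqrt_mul_sqrt_self ρ hρ
  set β : B := cfc (fun t : ℝ => √t) b with hβd
  have hβ : star β = β := (cfc_predicate (R := ℝ) (fun t : ℝ => √t) b).star_eq
  have hββ : β * β = b := by
    rw [hβd, ← cfc_mul (fun t : ℝ => √t) (fun t : ℝ => √t) b
      (Real.continuous_sqrt.continuousOn) (Real.continuous_sqrt.continuousOn)]
    conv_rhs => rw [← cfc_id ℝ b]
    apply cfc_congr
    intro t ht
    simpa using Real.mul_self_sqrt (hspec t ht)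
  set e : ℕ → ℝ := fun k => 1 / ((k : ℝ) + 1) with hed
  have he : ∀ k, 0 < e k := fun k => by simp only [hed]; positivity
  have het : Tendsto e atTop (𝓝 0) := tendsto_one_div_add_atTop_nhds_zero_nat
  set F : ℕ → B := fun k => cfc (fun t : ℝ => (√(t + e k))⁻¹) b with hFd
  have hcF : ∀ k, ContinuousOn (fun t : ℝ => (√(t + e k))⁻¹) (spectrum ℝ b) := by
    intro k
    apply ContinuousOn.inv₀
    · exact (Real.continuous_sqrt.comp (continuous_id.add continuous_const)).continuousOn
    · intro t ht
      have := hspec t ht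
      exact (Real.sqrt_pos.mpr (by linarith [he k])).ne'
  have hcs : ContinuousOn (fun t : ℝ => √t) (spectrum ℝ b) := Real.continuous_sqrt.continuousOn
  have hF : ∀ k, star (F k) = F k := fun k => (cfc_predicate (R := ℝ) _ b).star_eq
  set G : ℕ → B := fun k => β * F k * β with hGd
  have hG : ∀ k, G k = cfc (fun t : ℝ => √t * (√(t + e k))⁻¹ * √t) b := by
    intro k
    simp only [hGd, hFd, hβd]
    have hc2 : ContinuousOn (fun t : ℝ => √t * (√(t + e k))⁻¹) (spectrum ℝ b) :=
      hcs.mul (hcF k)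
    rw [← cfc_mul _ _ b hcs (hcF k), ← cfc_mul _ _ b hc2 hcs]
  have hGβ : ∀ k, ‖G k - β‖ ≤ √(e k) := by
    intro k
    have hc3 : ContinuousOn (fun t : ℝ => √t * (√(t + e k))⁻¹ * √t) (spectrum ℝ b) :=
      (hcs.mul (hcF k)).mul hcs
    rw [hG k, hβd, ← cfc_sub _ _ b hc3 hcs]
    apply norm_cfc_le (Real.sqrt_nonneg _)
    intro t ht
    rw [Real.norm_eq_abs]
    exact EX_sqrt_est (hspec t ht) (he k)
  have hGt : Tendsto G atTop (𝓝 β) := by
    rw [tendsto_iff_norm_sub_tendsto_zero]
    have h0 : Tendsto (fun k => √(e k)) atTop (𝓝 0) := by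
      have := (Real.continuous_sqrt.tendsto 0).comp het
      simpa [Function.comp_def] using this
    exact squeeze_zero (fun k => norm_nonneg _) hGβ h0
  have hGc : CauchySeq G := hGt.cauchySeq
  set y : ℕ → B := fun k => F k * σ with hyd
  -- distances
  have hdist : ∀ k l, ‖W * y k - W * y l‖ ≤ √|C| * ‖G k - G l‖ := by
    intro k l
    have h1 : W * y k - W * y l = W * ((F k - F l) * σ) := by
      simp only [hyd, sub_mul, mul_sub]
    have h2 := EX_norm_W W β ((F k - F l) * σ) hβ hββ
    have h3 := EX_est b ρ σ β (β * (F k - F l)) C hρ hle hσ hσσ hβ hββ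
    have h4 : β * (F k - F l) * β = G k - G l := by
      simp only [hGd, mul_sub, sub_mul]
    rw [h4] at h3
    rw [h1]
    have h5 : ‖W * ((F k - F l) * σ)‖ ^ 2 ≤ (√|C| * ‖G k - G l‖) ^ 2 := by
      rw [h2, mul_pow, Real.sq_sqrt (abs_nonneg C), ← mul_assoc]
      exact h3
    exact (sq_le_sq₀ (norm_nonneg _) (by positivity)).mp h5
  have hc : CauchySeq (fun k => W * y k) := by
    rw [Metric.cauchySeq_iff'] at hGc ⊢
    intro ε hε
    obtain ⟨N, hN⟩ := hGc (ε / (√|C| + 1)) (by positivity)
    refine ⟨N, fun n hn => ?_⟩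
    have h1 := hN n hn
    rw [dist_eq_norm] at h1 ⊢
    calc ‖W * y n - W * y N‖ ≤ √|C| * ‖G n - G N‖ := hdist n N
      _ ≤ (√|C| + 1) * ‖G n - G N‖ := by
          apply mul_le_mul_of_nonneg_right _ (norm_nonneg _); linarith
      _ < (√|C| + 1) * (ε / (√|C| + 1)) := by
          apply mul_lt_mul_of_pos_left h1; positivity
      _ = ε := by field_simp
  obtain ⟨s, hs⟩ := cauchySeq_tendsto_of_complete hc
  refine ⟨s, y, ?_, hs⟩
  -- the limit of `star s_k * s_k`
  have hlim1 : Tendsto (fun k => star (W * y k) * (W * y k)) atTop (𝓝 (star s * s)) :=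
    (hs.star).mul hs
  have hlim2 : Tendsto (fun k => star (W * y k) * (W * y k)) atTop (𝓝 ρ) := by
    rw [tendsto_iff_norm_sub_tendsto_zero]
    have hbound : ∀ k, ‖star (W * y k) * (W * y k) - ρ‖ ≤ |C| * e k := by
      intro k
      set R : B := cfc (fun t : ℝ => √(e k / (t + e k))) b with hRd
      have hcR : ContinuousOn (fun t : ℝ => √(e k / (t + e k))) (spectrum ℝ b) := by
        apply ContinuousOn.sqrt
        apply ContinuousOn.div continuousOn_const
          ((continuous_id.add continuous_const).continuousOn)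
        intro t ht
        have h1 := hspec t ht
        have h2 := he k
        have h3 : t + e k > 0 := by linarith
        exact h3.ne'
      have hR : star R = R := (cfc_predicate (R := ℝ) _ b).star_eq
      have hone : F k * b * F k + R * R = 1 := by
        have hb' : b = cfc (fun t : ℝ => t) b := (cfc_id' ℝ b).symm
        have hc4 : ContinuousOn (fun t : ℝ => (√(t + e k))⁻¹ * t) (spectrum ℝ b) :=
          (hcF k).mul (continuousOn_id' _)
        have hc5 : ContinuousOn (fun t : ℝ => (√(t + e k))⁻¹ * t * (√(t + e k))⁻¹)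
          (spectrum ℝ b) := hc4.mul (hcF k)
        have hc6 : ContinuousOn (fun t : ℝ => √(e k / (t + e k)) * √(e k / (t + e k)))
          (spectrum ℝ b) := hcR.mul hcR
        have h1 : F k * b * F k
            = cfc (fun t : ℝ => (√(t + e k))⁻¹ * t * (√(t + e k))⁻¹) b := by
          conv_lhs => rw [show F k * b * F k = F k * cfc (fun t : ℝ => t) b * F k by
            rw [← hb']]
          simp only [hFd]
          rw [← cfc_mul _ _ b (hcF k) (continuousOn_id' _), ← cfc_mul _ _ b hc4 (hcF k)]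
        have h2 : R * R = cfc (fun t : ℝ => √(e k / (t + e k)) * √(e k / (t + e k))) b := by
          rw [hRd, ← cfc_mul _ _ b hcR hcR]
        rw [h1, h2, ← cfc_add b _ _ hc5 hc6, ← cfc_one ℝ b]
        apply cfc_congr
        intro t ht
        have h3 := hspec t ht
        have h4 := he k
        have h5 : 0 < t + e k := by linarith
        have h6 : 0 < √(t + e k) := Real.sqrt_pos.mpr h5
        simp only
        rw [Real.mul_self_sqrt (by positivity)]
        have h7 : (√(t + e k))⁻¹ * t * (√(t + e k))⁻¹ = t / (t + e k) := by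
          rw [eq_div_iff h5.ne']
          have h8 : √(t + e k) * √(t + e k) = t + e k := Real.mul_self_sqrt h5.le
          calc (√(t + e k))⁻¹ * t * (√(t + e k))⁻¹ * (t + e k)
              = (√(t + e k))⁻¹ * t * (√(t + e k))⁻¹ * (√(t + e k) * √(t + e k)) := by rw [h8]
            _ = t := by field_simp
        rw [h7]
        simp only [Pi.one_apply]
        field_simp
      have h1 : ρ - star (W * y k) * (W * y k) = star (R * σ) * (R * σ) := by
        have h2 : star (W * y k) * (W * y k) = σ * (F k * b * F k) * σ := by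
          simp only [hyd, star_mul, hσ, hF k, hb]
          simp only [mul_assoc]
        have h3 : F k * b * F k = 1 - R * R := by rw [← hone]; abel
        rw [h2, h3, star_mul, hσ, hR, mul_sub, sub_mul, mul_one, hσσ]
        simp only [mul_assoc]
        abel
      have h2 : ‖R * σ‖ ^ 2 ≤ |C| * ‖R * β‖ ^ 2 :=
        EX_est b ρ σ β R C hρ hle hσ hσσ hβ hββ
      have h3 : ‖R * β‖ ≤ √(e k) := by
        rw [hRd, hβd, ← cfc_mul _ _ b hcR hcs]
        apply norm_cfc_le (Real.sqrt_nonneg _)
        intro t ht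
        have h3 := hspec t ht
        have h4 := he k
        have h5 : 0 < t + e k := by linarith
        rw [Real.norm_eq_abs, abs_of_nonneg (by positivity), ← Real.sqrt_mul (by positivity)]
        apply Real.sqrt_le_sqrt
        rw [div_mul_eq_mul_div, div_le_iff₀ h5]
        nlinarith
      have h4 : ‖R * β‖ ^ 2 ≤ e k := by
        calc ‖R * β‖ ^ 2 ≤ (√(e k)) ^ 2 := by
              exact pow_le_pow_left₀ (norm_nonneg _) h3 2
          _ = e k := Real.sq_sqrt (he k).le
      rw [norm_sub_rev, h1, CStarRing.norm_star_mul_self]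
      calc ‖R * σ‖ * ‖R * σ‖ = ‖R * σ‖ ^ 2 := by ring
        _ ≤ |C| * ‖R * β‖ ^ 2 := h2
        _ ≤ |C| * e k := mul_le_mul_of_nonneg_left h4 (abs_nonneg C)
    have h0 : Tendsto (fun k => |C| * e k) atTop (𝓝 0) := by
      simpa using het.const_mul |C|
    exact squeeze_zero (fun k => norm_nonneg _) hbound h0
  exact tendsto_nhds_unique hlim1 hlim2

end

theorem ex_holds : StEX.{u} := by
  intro B _ _ _ W ρ C hρ hle
  exact EX_core W ρ C hρ hle

end Pool.Agent.H327R4.Pure
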