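import Pool.Agent.H327R4.Pure.Stubs2

set_option autoImplicit false

namespace Pool.Agent.H327R4.Pure

open Filter Topology

universe u v

/-- the block embedding `x ↦ s + i * m + x` -/
def blk (k m s N : ℕ) (h : s + k * m ≤ N) (i : Fin k) (x : Fin m) : Fin N :=
  ⟨s + (i * m + x), by
    have h1 : (i : ℕ) * m + x < k * m := by
      calc (i : ℕ) * m + x < i * m + m := by have := x.2; omega
        _ = (i + 1) * m := by ring
        _ ≤ k * m := Nat.mul_le_mul_right m i.2
    omega⟩

theorem blk_inj (k m s N : ℕ) (h : s + k * m ≤ N) (i : Fin k) :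
    Function.Injective (blk k m s N h i) := by
  intro x y hxy
  have := congrArg Fin.val hxy
  simp only [blk] at this
  exact Fin.ext (by omega)

theorem blk_ne (k m s N : ℕ) (h : s + k * m ≤ N) (i j : Fin k) (hij : i ≠ j) (x y : Fin m) :
    blk k m s N h i x ≠ blk k m s N h j y := by
  intro hxy
  have h0 := congrArg Fin.val hxy
  simp only [blk] at h0
  have hne : (i : ℕ) ≠ j := fun h => hij (Fin.ext h)
  rcases Nat.lt_or_gt_of_ne hne with h1 | h1
  · have h2 : ((i : ℕ) + 1) * m ≤ j * m := Nat.mul_le_mul_right m h1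
    have h3 := x.2
    have h4 : ((i : ℕ) + 1) * m = i * m + m := by ring
    omega
  · have h2 : ((j : ℕ) + 1) * m ≤ i * m := Nat.mul_le_mul_right m h1
    have h3 := y.2
    have h4 : ((j : ℕ) + 1) * m = j * m + m := by ring
    omega

theorem sum_emb_ne_zero {A : Type u} [CStarAlgebra A] [PartialOrder A] [StarOrderedRing A]
    {l n N : ℕ} (f : Fin l → Fin n → Fin N) (hf : ∀ j, Function.Injective (f j))
    (hd : ∀ j j', j ≠ j' → ∀ i i', f j i ≠ f j' i') (hl : 1 ≤ l) (b : MM n A) (hb : b ≠ 0) :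
    ∑ j, emb (f j) (hf j) b ≠ 0 := by
  intro h0
  apply hb
  ext x y
  have j0 : Fin l := ⟨0, hl⟩
  have h1 : (∑ j, emb (f j) (hf j) b) (f j0 x) (f j0 y) = b x y := by
    have h2 : (∑ j, emb (f j) (hf j) b) (f j0 x) (f j0 y) =
        ∑ j, (emb (f j) (hf j) b) (f j0 x) (f j0 y) := by
      have : ∀ s : Finset (Fin l), (∑ j ∈ s, emb (f j) (hf j) b) (f j0 x) (f j0 y) =
        ∑ j ∈ s, (emb (f j) (hf j) b) (f j0 x) (f j0 y) := by
        classical
        intro s
        induction s using Finset.induction_on with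
        | empty => simp
        | insert a s ha ih =>
          rw [Finset.sum_insert ha, Finset.sum_insert ha, CStarMatrix.add_apply, ih]
      exact this _
    rw [h2, Finset.sum_eq_single j0]
    · rw [emb_apply, embf_apply (hf j0)]
    · intro j _ hj
      rw [emb_apply]
      apply embf_left
      rintro ⟨i, hi⟩
      exact hd j j0 hj i x hi
    · simp
  rw [← h1, h0]
  simp

theorem cmp_holds (hksum : StKSUM.{u}) (heqv : StEQV.{u, v}) (hiso : StISO.{u, v})
    (hrk : StRK.{u}) : StCMP.{u, v} := by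
  intro A S _ _ _ _ _ _ st hSC k l m n a b ha hb hb0 hl hT
  set N := k * m + l * n with hN
  have hE : 0 + k * m ≤ N := by omega
  have hF : k * m + l * n ≤ N := by omega
  set e : Fin k → Fin m → Fin N := blk k m 0 N hE with he
  set f : Fin l → Fin n → Fin N := blk l n (k * m) N hF with hf
  have hei : ∀ j, Function.Injective (e j) := blk_inj k m 0 N hE
  have hfi : ∀ j, Function.Injective (f j) := blk_inj l n (k * m) N hF
  have hed : ∀ j j', j ≠ j' → ∀ i i', e j i ≠ e j' i' := fun j j' h i i' =>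
    blk_ne k m 0 N hE j j' h i i'
  have hfd : ∀ j j', j ≠ j' → ∀ i i', f j i ≠ f j' i' := fun j j' h i i' =>
    blk_ne l n (k * m) N hF j j' h i i'
  obtain ⟨hP, hPr⟩ := hksum A k m N e hei hed a ha
  obtain ⟨hQ, hQr⟩ := hksum A l n N f hfi hfd b hb
  have hQ0 := sum_emb_ne_zero f hfi hfd hl b hb0
  have hcz : Cz (∑ j, emb (e j) (hei j) a) (∑ j, emb (f j) (hfi j) b) := by
    refine hSC N _ _ hP hQ hQ0 ?_
    intro T hT1
    refine ⟨_, _, (hrk (MM N A) (trM T (Fin N)) _ hP).2.2.1,
      (hrk (MM N A) (trM T (Fin N)) _ hQ).2.2.1, ?_⟩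
    rw [hPr, hQr]
    exact hT T hT1
  have hmul : ∀ (k' m' : ℕ) (g : Fin k' → Fin m' → Fin N) (hg : ∀ j, Function.Injective (g j))
      (_ : ∀ j j', j ≠ j' → ∀ i i', g j i ≠ g j' i') (c : MM m' A) (_ : 0 ≤ c),
      IsMul k' (st.hm m' c) (st.hm N (∑ j, emb (g j) (hg j) c)) := by
    intro k' m' g hg hgd c hc
    refine ⟨fun j => st.hm N (emb (g j) (hg j) c), ?_, ?_, ?_⟩
    · intro j
      have h1 : st.hm N (emb (g j) (hg j) c) =
          st.hom (fun i => ((g j i : Fin N) : ℕ)) (Fin.val_injective.comp (hg j)) c :=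
        Stab.hom_emb st (g j) (hg j) (fun i : Fin N => (i : ℕ)) Fin.val_injective c
      refine ⟨?_, ?_, ?_⟩
      · change 0 ≤ st.hm N (emb (g j) (hg j) c)
        rw [h1]
        exact ((hiso A S st m' _ _).2 c).2 hc
      · change Cz (st.hm N (emb (g j) (hg j) c)) _
        rw [h1]
        exact heqv A S st m' _ _ _ _ c
      · change Cz _ (st.hm N (emb (g j) (hg j) c))
        rw [h1]
        exact heqv A S st m' _ _ _ _ c
    · intro i j hij
      change st.hm N (emb (g i) (hg i) c) * st.hm N (emb (g j) (hg j) c) = 0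
      rw [← map_mul, emb_mul_emb (g i) (hg i) (g j) (hg j) (hgd i j hij), map_zero]
    · exact map_sum (st.hm N) _ _
  refine ⟨_, _, hmul k m e hei hed a ha, hmul l n f hfi hfd b hb, ?_⟩
  obtain ⟨x, hx⟩ := hcz
  refine ⟨fun i => st.hm N (x i), ?_⟩
  have hcont : Continuous (st.hm N) := by
    have hn : ∀ M : MM N A, ‖st.hm N M‖ = ‖M‖ := (hiso A S st N _ _).1
    refine (AddMonoidHomClass.isometry_of_norm (st.hm N) hn).continuous
  have h2 := (hcont.tendsto _).comp hx
  refine h2.congr ?_
  intro i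
  simp only [Function.comp_apply, map_mul, map_star]

end Pool.Agent.H327R4.Pure
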