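import Pool.Agent.H327R4.Pure.Ex

set_option autoImplicit false

open scoped ComplexOrder InnerProductSpace Pointwise
open Filter Topology

namespace Pool.Agent.H327R4.Pure

universe u v

namespace EXSaux

variable {H : Type u} [NormedAddCommGroup H] [InnerProductSpace ℂ H] [CompleteSpace H]

/-- the Hilbert space -/
abbrev KH (H : Type u) [NormedAddCommGroup H] [InnerProductSpace ℂ H] [CompleteSpace H] : Type u :=
  lp (fun _ : ℕ => H) 2

/-- the isometries -/
noncomputable def V (i : ℕ) : H →L[ℂ] KH H :=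
  lp.singleContinuousLinearMap ℂ (fun _ : ℕ => H) 2 i

theorem V_inner (i j : ℕ) (x y : H) :
    ⟪V (H := H) i x, V j y⟫_ℂ = if i = j then ⟪x, y⟫_ℂ else 0 := by
  unfold V
  rw [lp.singleContinuousLinearMap_apply, lp.singleContinuousLinearMap_apply,
    lp.inner_single_left]
  by_cases h : i = j
  · subst h
    rw [if_pos rfl, lp.single_apply_self]
  · rw [if_neg h, lp.single_apply_ne _ _ _ h, inner_zero_right]

theorem VV (i j : ℕ) : (ContinuousLinearMap.adjoint (V (H := H) i)).comp (V j) =
    if i = j then ContinuousLinearMap.id ℂ H else 0 := by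
  ext y
  refine ext_inner_left ℂ fun x => ?_
  rw [ContinuousLinearMap.comp_apply, ContinuousLinearMap.adjoint_inner_right, V_inner]
  by_cases h : i = j
  · rw [if_pos h, if_pos h, ContinuousLinearMap.id_apply]
  · rw [if_neg h, if_neg h, zero_apply, inner_zero_right]

/-- matrix units -/
noncomputable def M (i j : ℕ) (T : H →L[ℂ] H) : KH H →L[ℂ] KH H :=
  (V i).comp (T.comp (ContinuousLinearMap.adjoint (V j)))

theorem M_mul (i j k l : ℕ) (T T' : H →L[ℂ] H) :
    M i j T * M k l T' = if j = k then M i l (T * T') else 0 := by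
  have h : M i j T * M k l T' = (V i).comp (T.comp
      (((ContinuousLinearMap.adjoint (V j)).comp (V k)).comp
        (T'.comp (ContinuousLinearMap.adjoint (V l))))) := rfl
  rw [h, VV]
  by_cases hjk : j = k
  · rw [if_pos hjk, if_pos hjk]
    rfl
  · rw [if_neg hjk, if_neg hjk, ContinuousLinearMap.zero_comp, ContinuousLinearMap.comp_zero,
      ContinuousLinearMap.comp_zero]

theorem M_star (i j : ℕ) (T : H →L[ℂ] H) : star (M i j T) = M j i (star T) := by
  unfold M
  rw [ContinuousLinearMap.star_eq_adjoint, ContinuousLinearMap.star_eq_adjoint,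
    ContinuousLinearMap.adjoint_comp, ContinuousLinearMap.adjoint_comp,
    ContinuousLinearMap.adjoint_adjoint]
  rfl

theorem M_zero {i j : ℕ} {T : H →L[ℂ] H} (h : M i j T = 0) : T = 0 := by
  have h1 : T = (ContinuousLinearMap.adjoint (V i)).comp ((M i j T).comp (V j)) := by
    have h2 : (ContinuousLinearMap.adjoint (V i)).comp ((M i j T).comp (V j)) =
        ((ContinuousLinearMap.adjoint (V i)).comp (V i)).comp
          (T.comp ((ContinuousLinearMap.adjoint (V j)).comp (V j))) := rfl
    rw [h2, VV, VV, if_pos rfl, if_pos rfl]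
    rfl
  rw [h1, h, ContinuousLinearMap.zero_comp, ContinuousLinearMap.comp_zero]

/-- matrix units, linear in the entry -/
noncomputable def ML (i j : ℕ) : (H →L[ℂ] H) →ₗ[ℂ] (KH H →L[ℂ] KH H) where
  toFun T := M i j T
  map_add' T T' := by
    unfold M
    rw [ContinuousLinearMap.add_comp, ContinuousLinearMap.comp_add]
  map_smul' c T := by
    unfold M
    rw [ContinuousLinearMap.smul_comp, ContinuousLinearMap.comp_smul, RingHom.id_apply]

variable {A : Type u} [CStarAlgebra A] (π : A →⋆ₐ[ℂ] (H →L[ℂ] H))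

/-- the generators -/
def X : Set (KH H →L[ℂ] KH H) := ⋃ i, ⋃ j, Set.range fun a : A => M i j (π a)

theorem mem_X (i j : ℕ) (a : A) : M i j (π a) ∈ X π :=
  Set.mem_iUnion.2 ⟨i, Set.mem_iUnion.2 ⟨j, ⟨a, rfl⟩⟩⟩

theorem X_mul {x y : KH H →L[ℂ] KH H} (hx : x ∈ X π) (hy : y ∈ X π) :
    x * y ∈ Submodule.span ℂ (X π) := by
  obtain ⟨i, hx⟩ := Set.mem_iUnion.1 hx
  obtain ⟨j, a, rfl⟩ := Set.mem_iUnion.1 hx
  obtain ⟨k, hy⟩ := Set.mem_iUnion.1 hy
  obtain ⟨l, b, rfl⟩ := Set.mem_iUnion.1 hy
  simp only
  rw [M_mul]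
  split_ifs
  · rw [← map_mul]
    exact Submodule.subset_span (mem_X π _ _ _)
  · exact Submodule.zero_mem _

theorem X_star {x : KH H →L[ℂ] KH H} (hx : x ∈ X π) : star x ∈ X π := by
  obtain ⟨i, hx⟩ := Set.mem_iUnion.1 hx
  obtain ⟨j, a, rfl⟩ := Set.mem_iUnion.1 hx
  simp only
  rw [M_star, ← map_star]
  exact mem_X π _ _ _

/-- the star algebra generated by the generators -/
noncomputable def W : NonUnitalStarSubalgebra ℂ (KH H →L[ℂ] KH H) where
  carrier := (Submodule.span ℂ (X π) : Set (KH H →L[ℂ] KH H))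
  add_mem' := fun hx hy => Submodule.add_mem _ hx hy
  zero_mem' := Submodule.zero_mem _
  smul_mem' := fun c _ hx => Submodule.smul_mem _ c hx
  mul_mem' := by
    intro x y hx hy
    have h1 : x * y ∈ Submodule.span ℂ (X π) * Submodule.span ℂ (X π) :=
      Submodule.mul_mem_mul hx hy
    rw [Submodule.span_mul_span] at h1
    have h2 : Submodule.span ℂ (X π * X π) ≤ Submodule.span ℂ (X π) := by
      rw [Submodule.span_le]
      rintro _ ⟨a, ha, b, hb, rfl⟩
      exact X_mul π ha hb
    exact h2 h1
  star_mem' := by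
    intro x hx
    change x ∈ Submodule.span ℂ (X π) at hx
    change star x ∈ Submodule.span ℂ (X π)
    induction hx using Submodule.span_induction with
    | mem x hx => exact Submodule.subset_span (X_star π hx)
    | zero => rw [star_zero]; exact Submodule.zero_mem _
    | add x y _ _ hx hy => rw [star_add]; exact Submodule.add_mem _ hx hy
    | smul c x _ hx => rw [star_smul]; exact Submodule.smul_mem _ _ hx

/-- the closed star algebra -/
noncomputable def Wc : NonUnitalStarSubalgebra ℂ (KH H →L[ℂ] KH H) := (W π).topologicalClosure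

instance : IsClosed ((Wc π : NonUnitalStarSubalgebra ℂ (KH H →L[ℂ] KH H)) :
    Set (KH H →L[ℂ] KH H)) :=
  NonUnitalStarSubalgebra.isClosed_topologicalClosure _

theorem coe_Wc : ((Wc π : NonUnitalStarSubalgebra ℂ (KH H →L[ℂ] KH H)) :
    Set (KH H →L[ℂ] KH H)) = closure (Submodule.span ℂ (X π) : Set (KH H →L[ℂ] KH H)) :=
  rfl

theorem mem_Wc (i j : ℕ) (a : A) : M i j (π a) ∈ Wc π :=
  subset_closure (Submodule.subset_span (mem_X π i j a) :
    M i j (π a) ∈ (Submodule.span ℂ (X π) : Set (KH H →L[ℂ] KH H)))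

/-- the matrix units in the closed algebra -/
noncomputable def EE (i j : ℕ) : A →ₗ[ℂ] (Wc π) where
  toFun a := ⟨M i j (π a), mem_Wc π i j a⟩
  map_add' a b := by
    apply Subtype.ext
    change ML i j (π (a + b)) = ML i j (π a) + ML i j (π b)
    rw [map_add, map_add]
  map_smul' c a := by
    apply Subtype.ext
    change ML i j (π (c • a)) = c • ML i j (π a)
    rw [map_smul, map_smul]

/-- the stabilisation -/
noncomputable def stab (hπ : ∀ b, ‖π b‖ = ‖b‖) : Stab A (Wc π) where
  E := EE π
  mul i j k l a b := by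
    apply Subtype.ext
    change M i j (π a) * M k l (π b) = _
    rw [M_mul, ← map_mul]
    split_ifs <;> rfl
  str i j a := by
    apply Subtype.ext
    change star (M i j (π a)) = M j i (π (star a))
    rw [M_star, map_star]
  inj := by
    rw [injective_iff_map_eq_zero]
    intro a ha
    have h1 : M 0 0 (π a) = 0 := congrArg Subtype.val ha
    have h2 := M_zero h1
    rw [← norm_eq_zero, ← hπ, h2, norm_zero]
  dense := by
    have key : (Subtype.val '' ((Submodule.span ℂ (⋃ i, ⋃ j, Set.range (EE π i j)) :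
        Submodule ℂ (Wc π)) : Set (Wc π))) = (Submodule.span ℂ (X π) : Set (KH H →L[ℂ] KH H)) := by
      have h1 := Submodule.map_span ((Wc π).toNonUnitalSubalgebra.toSubmodule.subtype)
        (⋃ i, ⋃ j, Set.range (EE π i j))
      have h2 : ((Wc π).toNonUnitalSubalgebra.toSubmodule.subtype) ''
          (⋃ i, ⋃ j, Set.range (EE π i j)) = X π := by
        rw [Set.image_iUnion]
        unfold X
        refine Set.iUnion_congr fun i => ?_
        rw [Set.image_iUnion]
        refine Set.iUnion_congr fun j => ?_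
        rw [← Set.range_comp]
        rfl
      rw [h2] at h1
      rw [← h1]
      rfl
    rw [← dense_iff_closure_eq]
    intro x
    rw [closure_subtype, key]
    exact x.2

end EXSaux

theorem exs_holds (hrep : StREP.{u}) : StEXS.{u} := by
  intro A _
  obtain ⟨H, _, _, _, π, hπ⟩ := hrep A
  exact ⟨EXSaux.Wc π, inferInstance, ⟨EXSaux.stab π hπ⟩⟩

end Pool.Agent.H327R4.Pure
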