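import Pool.Agent.H327R4.Pure.All
import Pool.Agent.H327R4.Pure.TCMP
import Pool.Agent.H327R4.Pure.TREP
import Pool.Agent.H327R4.Pure.TEXS

/-! Almost unperforation and almost divisibility, existence of the stabilisation. -/

set_option autoImplicit false

namespace Pool.Agent.H327R4.Pure

universe u v

theorem cmp' : StCMP.{u, v} := cmp_holds ksum' eqv' iso' rk'

theorem au' : StAU.{u, v} := au'' cmp'

theorem ad' : StAD.{u, v} := ad'' cmp'

theorem exs' : StEXS.{u} := exs_holds rep_holds

/-- the stabilisation exists, with its order -/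
theorem exists_stab (A : Type u) [CStarAlgebra A] :
    ∃ (S : Type u) (_ : NonUnitalCStarAlgebra S) (_ : PartialOrder S) (_ : StarOrderedRing S),
      Nonempty (Stab A S) := by
  obtain ⟨S, i, h⟩ := exs' A
  exact ⟨S, i, CStarAlgebra.spectralOrder S, CStarAlgebra.spectralOrderedRing S, h⟩

end Pool.Agent.H327R4.Pure
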