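import Pool.Agent.H327R4.Pure.Stubs3
import Pool.Agent.H327R4.Pure.All

/-! All ranks almost occur: every strictly positive continuous affine function on the tracial
state space is up to `ε` a rank function. -/

set_option autoImplicit false

namespace Pool.Agent.H327R4.Pure

open Filter Topology

universe u

theorem alm_min (cpt : StCPT.{u}) (A : Type u) [CStarAlgebra A] (f : TS A → ℝ)
    (hc : Continuous f) (hpos : ∀ T, 0 < f T) : ∃ m : ℝ, 0 < m ∧ ∀ T, m ≤ f T := by
  haveI : CompactSpace (TS A) := cpt A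
  rcases isEmpty_or_nonempty (TS A) with he | hne
  · exact ⟨1, one_pos, fun T => (he.false T).elim⟩
  · obtain ⟨T₀, -, hT₀⟩ := (isCompact_univ : IsCompact (Set.univ : Set (TS A))).exists_isMinOn
      Set.univ_nonempty hc.continuousOn
    exact ⟨f T₀, hpos T₀, fun T => hT₀ (Set.mem_univ T)⟩

theorem alm_rank (A : Type u) [CStarAlgebra A] [PartialOrder A] [StarOrderedRing A] (K : ℕ)
    (T : Tr A) (a : MM K A) (ha : 0 ≤ a) :
    IsRank (trM T (Fin K)) a (rk (trM T (Fin K)) a) :=
  (rk' (MM K A) (trM T (Fin K)) a ha).2.2.1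

theorem alm_holds (hb1 : StHB1.{u}) (hb2 : StHB2.{u}) (cpt : StCPT.{u}) : StALM.{u} := by
  intro A _ _ _ hs hf f ε hc haff hpos hε
  obtain ⟨m, hm, hfm⟩ := alm_min cpt A f hc hpos
  obtain ⟨e, he, he1, he2⟩ : ∃ e : ℝ, 0 < e ∧ 8 * e ≤ ε ∧ 8 * e ≤ m := by
    refine ⟨min ε m / 8, by have := lt_min hε hm; linarith, ?_, ?_⟩
    · have := min_le_left ε m
      linarith
    · have := min_le_right ε m
      linarith
  obtain ⟨h, hsa, hh⟩ : ∃ h : A, IsSelfAdjoint h ∧ ∀ T : TS A,
      (f T - 2 * e) - e < (T.1.f h).re ∧ (T.1.f h).re < f T - 2 * e := by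
    refine hb1 A (fun T => f T - 2 * e) e (hc.sub continuous_const) ?_ ?_ he
    · intro t T T' T'' h0 h1 hmix
      have := haff t T T' T'' h0 h1 hmix
      show f T'' - 2 * e = t * (f T - 2 * e) + (1 - t) * (f T' - 2 * e)
      rw [this]
      ring
    · intro T
      have := hfm T
      show 0 < f T - 2 * e
      linarith
  obtain ⟨h', hh'0, hh'⟩ := hb2 A h e hsa
    (fun T => by
      have h1 := (hh T).1
      have h2 := hfm T
      linarith) he
  obtain ⟨K, a, ha, hT⟩ := main1' A hs hf h' e hh'0 he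
  obtain ⟨hd, hr⟩ := diag' A K a ha
  refine ⟨K, dg a, hd, fun T => ⟨rk (trM T.1 (Fin K)) (dg a), alm_rank A K T.1 (dg a) hd, ?_, ?_⟩⟩
  · have h1 := (hT T.1).1
    rw [T.2] at h1
    rw [hr T.1]
    have h2 := (hh T).1
    have h3 := abs_le.1 (hh' T)
    simp only [Complex.one_re, mul_one] at h1
    linarith [h3.1]
  · have h1 := (hT T.1).2
    rw [hr T.1]
    have h2 := (hh T).2
    have h3 := abs_le.1 (hh' T)
    linarith [h3.2]

end Pool.Agent.H327R4.Pure
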