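import Pool.Agent.H327R4.Pure.Stubs3
import Pool.Agent.H327R4.Pure.All

set_option autoImplicit false

namespace Pool.Agent.H327R4.Pure

open Filter Topology

universe u v

namespace ALM2Aux

lemma cont {A : Type u} [CStarAlgebra A] (x : A) : Continuous (fun T : TS A => (T.1.f x).re) := by
  have h1 : Continuous (fun (T : TS A) (x : A) => T.1.f x) := continuous_induced_dom
  exact Complex.continuous_re.comp ((continuous_apply x).comp h1)

end ALM2Aux

open ALM2Aux in
theorem alm2_holds (hcpt : StCPT.{u}) : StALM2.{u} := by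
  intro A _ _ _ hS hI h h' hh hh' hlt
  have : CompactSpace (TS A) := hcpt A
  obtain ⟨m, hm, hmle⟩ : ∃ m : ℝ, 0 < m ∧ ∀ T : TS A, (T.1.f h).re + m ≤ (T.1.f h').re := by
    rcases isEmpty_or_nonempty (TS A) with hE | hN
    · exact ⟨1, one_pos, fun T => (hE.false T).elim⟩
    · obtain ⟨T₀, -, hT₀⟩ := isCompact_univ.exists_isMinOn (Set.univ_nonempty (α := TS A))
        ((cont h').sub (cont h)).continuousOn
      refine ⟨(T₀.1.f h').re - (T₀.1.f h).re, sub_pos.mpr (hlt T₀), fun T => ?_⟩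
      have h5 : (T₀.1.f h').re - (T₀.1.f h).re ≤ (T.1.f h').re - (T.1.f h).re :=
        hT₀ (Set.mem_univ T)
      linarith
  have hpos : 0 ≤ ((1 / 2 : ℝ)) • (h + h') := smul_nonneg (by norm_num) (add_nonneg hh hh')
  obtain ⟨K, a, ha, hT⟩ := main1' A hS hI (((1 / 2 : ℝ)) • (h + h')) (m / 4) hpos (by positivity)
  obtain ⟨hd0, hd⟩ := diag' A K a ha
  refine ⟨K, dg a, hd0, fun T => ?_⟩
  obtain ⟨h1, h2⟩ := hT T.1
  have h3 := hmle T
  have h4 : (T.1.f (((1 / 2 : ℝ)) • (h + h'))).re = ((T.1.f h).re + (T.1.f h').re) / 2 := by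
    have : ((1 / 2 : ℝ)) • (h + h') = ((1 / 2 : ℝ) : ℂ) • (h + h') := by
      rw [Complex.coe_smul]
    rw [this, map_smul, map_add, smul_eq_mul, Complex.re_ofReal_mul, Complex.add_re]
    ring
  rw [T.2, Complex.one_re, h4] at h1
  rw [h4] at h2
  rw [hd T.1]
  constructor <;> linarith

end Pool.Agent.H327R4.Pure
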