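import Pool.Agent.H327R4.Pure.Stubs3
import Pool.Agent.H327R4.Pure.All

/-!
# The dimension drop relations in a corner
-/

set_option autoImplicit false

namespace Pool.Agent.H327R4.Pure

open Filter Topology Polynomial

universe u v

namespace DDAx

section conj

variable {B : Type u} [NonUnitalCStarAlgebra B] [PartialOrder B] [StarOrderedRing B]

theorem conj_pow (x : B) (n : ℕ) :
    x * cfcₙ (fun t : ℝ => t ^ (n + 1)) (star x * x) =
      cfcₙ (fun t : ℝ => t ^ (n + 1)) (x * star x) * x := by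
  have ha : IsSelfAdjoint (star x * x) := IsSelfAdjoint.star_mul_self x
  have hb : IsSelfAdjoint (x * star x) := IsSelfAdjoint.mul_star_self x
  induction n with
  | zero =>
    simp only [zero_add, pow_one]
    rw [cfcₙ_id' ℝ (star x * x) ha, cfcₙ_id' ℝ (x * star x) hb, mul_assoc]
  | succ n ih =>
    have e : (fun t : ℝ => t ^ (n + 1 + 1)) =
        fun t : ℝ => (fun s : ℝ => s ^ (n + 1)) t * (fun s : ℝ => s) t := by
      funext t; simp only []; ring
    rw [e, cfcₙ_mul (fun s : ℝ => s ^ (n + 1)) (fun s : ℝ => s) (star x * x)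
      (by fun_prop) (by simp) (by fun_prop) (by simp),
      cfcₙ_mul (fun s : ℝ => s ^ (n + 1)) (fun s : ℝ => s) (x * star x)
      (by fun_prop) (by simp) (by fun_prop) (by simp), cfcₙ_id' ℝ (star x * x) ha,
      cfcₙ_id' ℝ (x * star x) hb, ← mul_assoc, ih]
    simp only [mul_assoc]

theorem conj_poly (x : B) (p : ℝ[X]) :
    x * cfcₙ (fun t : ℝ => t * p.eval t) (star x * x) =
      cfcₙ (fun t : ℝ => t * p.eval t) (x * star x) * x := by
  induction p using Polynomial.induction_on' with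
  | add p q hp hq =>
    have e : (fun t : ℝ => t * (p + q).eval t) =
        fun t : ℝ => (fun s : ℝ => s * p.eval s) t + (fun s : ℝ => s * q.eval s) t := by
      funext t; simp only [Polynomial.eval_add]; ring
    rw [e, cfcₙ_add (fun s : ℝ => s * p.eval s) (fun s : ℝ => s * q.eval s) (star x * x)
      (by fun_prop) (by simp) (by fun_prop) (by simp),
      cfcₙ_add (fun s : ℝ => s * p.eval s) (fun s : ℝ => s * q.eval s) (x * star x)
      (by fun_prop) (by simp) (by fun_prop) (by simp), mul_add, add_mul, hp, hq]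
  | monomial n c =>
    have e : (fun t : ℝ => t * (Polynomial.monomial n c).eval t) =
        fun t : ℝ => c * (fun s : ℝ => s ^ (n + 1)) t := by
      funext t; simp only [Polynomial.eval_monomial]; ring
    rw [e, cfcₙ_const_mul c (fun s : ℝ => s ^ (n + 1)) (star x * x) (by fun_prop),
      cfcₙ_const_mul c (fun s : ℝ => s ^ (n + 1)) (x * star x) (by fun_prop),
      mul_smul_comm, smul_mul_assoc, conj_pow]

/-- `x f(x^*x) = f(xx^*) x` -/
theorem conj_cfc (x : B) (f : ℝ → ℝ) (hf : Continuous f) (hf0 : f 0 = 0) :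
    x * cfcₙ f (star x * x) = cfcₙ f (x * star x) * x := by
  have ha : 0 ≤ star x * x := star_mul_self_nonneg x
  have hb : 0 ≤ x * star x := mul_star_self_nonneg x
  set R : ℝ := ‖star x * x‖ + ‖x * star x‖ with hR
  have hRa : ∀ t ∈ quasispectrum ℝ (star x * x), t ∈ Set.Icc 0 R := by
    intro t ht
    have h1 := quasispectrum_nonneg_of_nonneg (star x * x) ha t ht
    have h2 := NonUnitalIsometricContinuousFunctionalCalculus.norm_quasispectrum_le
      (star x * x) ht ha.isSelfAdjoint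
    rw [Real.norm_eq_abs] at h2
    refine ⟨h1, (le_abs_self t).trans (h2.trans ?_)⟩
    rw [hR]
    linarith [norm_nonneg (x * star x)]
  have hRb : ∀ t ∈ quasispectrum ℝ (x * star x), t ∈ Set.Icc 0 R := by
    intro t ht
    have h1 := quasispectrum_nonneg_of_nonneg (x * star x) hb t ht
    have h2 := NonUnitalIsometricContinuousFunctionalCalculus.norm_quasispectrum_le
      (x * star x) ht hb.isSelfAdjoint
    rw [Real.norm_eq_abs] at h2
    refine ⟨h1, (le_abs_self t).trans (h2.trans ?_)⟩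
    rw [hR]
    linarith [norm_nonneg (star x * x)]
  have hR0 : 0 ≤ R := by positivity
  rw [← sub_eq_zero, ← norm_eq_zero]
  refine le_antisymm ?_ (norm_nonneg _)
  refine le_of_forall_pos_le_add ?_
  intro ε hε
  rw [zero_add]
  set M : ℝ := ‖x‖ + 1 with hM
  have hM0 : 0 < M := by positivity
  set δ : ℝ := ε / (4 * M) with hδ
  have hδ0 : 0 < δ := by positivity
  obtain ⟨p, hp⟩ := exists_polynomial_near_of_continuousOn 0 R f hf.continuousOn δ hδ0
  set g : ℝ → ℝ := fun t => t * (Polynomial.divX p).eval t with hg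
  have hgc : Continuous g := by rw [hg]; fun_prop
  have hg0 : g 0 = 0 := by simp [hg]
  have hp0 : |p.coeff 0| < δ := by
    have := hp 0 ⟨le_rfl, hR0⟩
    rwa [hf0, sub_zero, ← Polynomial.coeff_zero_eq_eval_zero] at this
  have hfg : ∀ t ∈ Set.Icc 0 R, |f t - g t| ≤ 2 * δ := by
    intro t ht
    have h1 := hp t ht
    have h2 : p.eval t = g t + p.coeff 0 := by
      have h3 := congrArg (Polynomial.eval t) (Polynomial.divX_mul_X_add p)
      rw [Polynomial.eval_add, Polynomial.eval_mul, Polynomial.eval_X, Polynomial.eval_C] at h3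
      rw [← h3, hg]; ring
    have h4 : f t - g t = -(p.eval t - f t) + p.coeff 0 := by rw [h2]; ring
    rw [h4]
    calc _ ≤ |-(p.eval t - f t)| + |p.coeff 0| := abs_add_le _ _
      _ ≤ δ + δ := by rw [abs_neg]; exact add_le_add h1.le hp0.le
      _ = 2 * δ := by ring
  have e1 := swap_close (star x * x) ha.isSelfAdjoint R (2 * δ) hRa f g hf hgc hf0 hg0 hfg
  have e2 := swap_close (x * star x) hb.isSelfAdjoint R (2 * δ) hRb f g hf hgc hf0 hg0 hfg
  have e3 : x * cfcₙ g (star x * x) = cfcₙ g (x * star x) * x := conj_poly x (Polynomial.divX p)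
  have e4 : x * cfcₙ f (star x * x) - cfcₙ f (x * star x) * x =
      x * (cfcₙ f (star x * x) - cfcₙ g (star x * x)) -
      (cfcₙ f (x * star x) - cfcₙ g (x * star x)) * x := by
    rw [mul_sub, sub_mul, e3]; abel
  rw [e4]
  have e5 : ‖x * (cfcₙ f (star x * x) - cfcₙ g (star x * x))‖ ≤ M * (2 * δ) := by
    calc _ ≤ ‖x‖ * ‖cfcₙ f (star x * x) - cfcₙ g (star x * x)‖ := norm_mul_le _ _
      _ ≤ M * (2 * δ) := by
        apply mul_le_mul _ e1 (norm_nonneg _) hM0.le
        rw [hM]; linarith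
  have e6 : ‖(cfcₙ f (x * star x) - cfcₙ g (x * star x)) * x‖ ≤ M * (2 * δ) := by
    calc _ ≤ ‖cfcₙ f (x * star x) - cfcₙ g (x * star x)‖ * ‖x‖ := norm_mul_le _ _
      _ ≤ (2 * δ) * M := by
        apply mul_le_mul e2 _ (norm_nonneg _) (by positivity)
        rw [hM]; linarith
      _ = M * (2 * δ) := mul_comm _ _
  calc _ ≤ _ := norm_sub_le _ _
    _ ≤ M * (2 * δ) + M * (2 * δ) := add_le_add e5 e6
    _ = ε := by rw [hδ]; field_simp; ring

/-- the function `f(t) / t` for a function which vanishes up to `η` -/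
noncomputable def kd (η : ℝ) (f : ℝ → ℝ) (t : ℝ) : ℝ := f t / max t η

theorem kd_cont {η : ℝ} (hη : 0 < η) {f : ℝ → ℝ} (hf : Continuous f) : Continuous (kd η f) := by
  unfold kd
  apply hf.div (by fun_prop)
  intro t
  exact (lt_of_lt_of_le hη (le_max_right _ _)).ne'

theorem kd_zero {η : ℝ} (hη : 0 < η) {f : ℝ → ℝ} (h0 : ∀ t, t ≤ η → f t = 0) : kd η f 0 = 0 := by
  unfold kd
  rw [h0 0 hη.le, zero_div]

theorem kd_mul {η : ℝ} (hη : 0 < η) {f : ℝ → ℝ} (h0 : ∀ t, t ≤ η → f t = 0) (t : ℝ) :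
    kd η f t * t = f t := by
  unfold kd
  by_cases h : t ≤ η
  · rw [h0 t h, zero_div, zero_mul]
  · push Not at h
    rw [max_eq_left h.le, div_mul_cancel₀ _ (hη.trans h).ne']

/-- `x (f/t)(x^*x) x^* = f(xx^*)` -/
theorem conj_kd (x : B) {η : ℝ} (hη : 0 < η) {f : ℝ → ℝ} (hf : Continuous f)
    (h0 : ∀ t, t ≤ η → f t = 0) :
    x * cfcₙ (kd η f) (star x * x) * star x = cfcₙ f (x * star x) := by
  have hb : IsSelfAdjoint (x * star x) := IsSelfAdjoint.mul_star_self x
  rw [conj_cfc x _ (kd_cont hη hf) (kd_zero hη h0), mul_assoc]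
  conv_lhs => rw [← cfcₙ_id' ℝ (x * star x) hb]
  rw [cfcₙ_id' ℝ (x * star x) hb]
  have : cfcₙ (kd η f) (x * star x) * (x * star x) =
      cfcₙ (fun t : ℝ => kd η f t * t) (x * star x) := by
    rw [cfcₙ_mul (kd η f) (fun t : ℝ => t) (x * star x) (kd_cont hη hf).continuousOn
      (kd_zero hη h0) (by fun_prop) rfl, cfcₙ_id' ℝ (x * star x) hb]
  rw [this]
  congr 1
  funext t
  exact kd_mul hη h0 t

/-- functional calculus of orthogonal sums -/
theorem sum_cfc (f : ℝ → ℝ) (hf : Continuous f) (hf0 : f 0 = 0) : ∀ (k : ℕ) (b : Fin k → B),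
    (∀ i, 0 ≤ b i) → (∀ i j, i ≠ j → b i * b j = 0) →
    cfcₙ f (∑ i, b i) = ∑ i, cfcₙ f (b i) := by
  intro k
  induction k with
  | zero =>
    intro b _ _
    simp only [Finset.univ_eq_empty, Finset.sum_empty]
    exact cfcₙ_apply_zero
  | succ k ih =>
    intro b hb hbb
    rw [Fin.sum_univ_succ, Fin.sum_univ_succ, ← ih (fun i => b i.succ) (fun i => hb _)
      (fun i j hij => hbb _ _ (fun h => hij (Fin.succ_injective _ h)))]
    refine orth' B (b 0) (∑ i : Fin k, b i.succ) f (hb 0)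
      (Finset.sum_nonneg (fun i _ => hb _)) ?_ hf hf0
    rw [Finset.mul_sum]
    exact Finset.sum_eq_zero (fun i _ => hbb _ _ (Fin.succ_ne_zero i).symm)

end conj

/-! ### the functions -/

/-- `0` up to `η`, `1` from `2 η` on -/
noncomputable def mm (η t : ℝ) : ℝ := min 1 (max 0 ((t - η) / η))

/-- `2 m - m^2` -/
noncomputable def g2 (η t : ℝ) : ℝ := 2 * mm η t - mm η t * mm η t

/-- its root -/
noncomputable def gg (η t : ℝ) : ℝ := Real.sqrt (g2 η t)

/-- `√((t - δ)_+)` -/
noncomputable def sq (δ t : ℝ) : ℝ := Real.sqrt (max (t - δ) 0)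

theorem mm_cont (η : ℝ) : Continuous (mm η) := by unfold mm; fun_prop

theorem g2_cont (η : ℝ) : Continuous (g2 η) := by
  unfold g2
  have := mm_cont η
  fun_prop

theorem gg_cont (η : ℝ) : Continuous (gg η) := by
  unfold gg
  exact (g2_cont η).sqrt

theorem sq_cont (δ : ℝ) : Continuous (sq δ) := by unfold sq; fun_prop

theorem mm_zero {η : ℝ} (hη : 0 < η) (t : ℝ) (ht : t ≤ η) : mm η t = 0 := by
  unfold mm
  have : (t - η) / η ≤ 0 := div_nonpos_of_nonpos_of_nonneg (by linarith) hη.le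
  rw [max_eq_left this, min_eq_right zero_le_one]

theorem mm_one {η : ℝ} (hη : 0 < η) (t : ℝ) (ht : 2 * η ≤ t) : mm η t = 1 := by
  unfold mm
  have : 1 ≤ (t - η) / η := by rw [le_div_iff₀ hη]; linarith
  rw [min_eq_left (this.trans (le_max_right _ _))]

theorem mm_nonneg (η t : ℝ) : 0 ≤ mm η t := le_min zero_le_one (le_max_left _ _)

theorem mm_le (η t : ℝ) : mm η t ≤ 1 := min_le_left _ _

theorem g2_nonneg (η t : ℝ) : 0 ≤ g2 η t := by
  unfold g2
  nlinarith [mm_nonneg η t, mm_le η t]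

theorem g2_zero {η : ℝ} (hη : 0 < η) (t : ℝ) (ht : t ≤ η) : g2 η t = 0 := by
  unfold g2
  rw [mm_zero hη t ht]
  ring

theorem gg_zero {η : ℝ} (hη : 0 < η) (t : ℝ) (ht : t ≤ η) : gg η t = 0 := by
  unfold gg
  rw [g2_zero hη t ht, Real.sqrt_zero]

theorem gg_one {η : ℝ} (hη : 0 < η) (t : ℝ) (ht : 2 * η ≤ t) : gg η t = 1 := by
  unfold gg g2
  rw [mm_one hη t ht]
  norm_num

theorem gg_sq (η t : ℝ) : gg η t * gg η t = g2 η t := Real.mul_self_sqrt (g2_nonneg η t)

theorem sq_zero {δ : ℝ} (t : ℝ) (ht : t ≤ δ) : sq δ t = 0 := by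
  unfold sq
  rw [max_eq_right (by linarith), Real.sqrt_zero]

theorem sq_sq (δ t : ℝ) : sq δ t * sq δ t = max (t - δ) 0 := Real.mul_self_sqrt (le_max_right _ _)

/-- the ramp function -/
noncomputable def rp (δ₀ δ₁ t : ℝ) : ℝ := min 1 (max 0 ((t - δ₀) / (δ₁ - δ₀)))

theorem rp_cont (δ₀ δ₁ : ℝ) : Continuous (rp δ₀ δ₁) := by unfold rp; fun_prop

theorem rp_zero {δ₀ δ₁ : ℝ} (h : δ₀ < δ₁) (t : ℝ) (ht : t ≤ δ₀) : rp δ₀ δ₁ t = 0 := by
  unfold rp
  have : (t - δ₀) / (δ₁ - δ₀) ≤ 0 :=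
    div_nonpos_of_nonpos_of_nonneg (by linarith) (by linarith)
  rw [max_eq_left this, min_eq_right zero_le_one]

end DDAx

open DDAx in
theorem dda_holds (hex : StEX.{u}) : StDDA.{u} := by
  intro B _ _ _ p n r b i₀ δ₀ δ₁ hp hpp hb hpr hrr hδ₀ hδ₁ hcz
  obtain ⟨η, hη, hη2⟩ : ∃ η : ℝ, 0 < η ∧ 2 * η = δ₀ := ⟨δ₀ / 2, by positivity, by ring⟩
  have hrp : ∀ i, star (r i) * p = star (r i) := by
    intro i
    have := congrArg star (hpr i)
    rwa [star_mul, hp] at this
  have hri : ∀ i, star (r i) * r i = b := fun i => by rw [hrr, if_pos rfl]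
  set R := ∑ i, r i * star (r i) with hR
  have hRR : ∀ (f : ℝ → ℝ) (ζ : ℝ), Continuous f → 0 < ζ → (∀ t, t ≤ ζ → f t = 0) →
      cfcₙ f R = ∑ i, r i * cfcₙ (kd ζ f) b * star (r i) := by
    intro f ζ hf hζ h0
    rw [hR, sum_cfc f hf (h0 0 hζ.le) n (fun i => r i * star (r i))
      (fun i => mul_star_self_nonneg _) ?_]
    · refine Finset.sum_congr rfl fun i _ => ?_
      rw [← conj_kd (r i) hζ hf h0, hri]
    · intro i j hij
      rw [mul_assoc, ← mul_assoc (star (r i)), hrr, if_neg hij, zero_mul, mul_zero]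
  have hpR : ∀ (f : ℝ → ℝ) (ζ : ℝ), Continuous f → 0 < ζ → (∀ t, t ≤ ζ → f t = 0) →
      p * cfcₙ f R = cfcₙ f R := by
    intro f ζ hf hζ h0
    rw [hRR f ζ hf hζ h0, Finset.mul_sum]
    refine Finset.sum_congr rfl fun i _ => ?_
    rw [← mul_assoc, ← mul_assoc, hpr]
  have hRp : ∀ (f : ℝ → ℝ) (ζ : ℝ), Continuous f → 0 < ζ → (∀ t, t ≤ ζ → f t = 0) →
      cfcₙ f R * p = cfcₙ f R := by
    intro f ζ hf hζ h0
    rw [hRR f ζ hf hζ h0, Finset.sum_mul]
    refine Finset.sum_congr rfl fun i _ => ?_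
    rw [mul_assoc, hrp]
  -- the elements `c i`
  set K := cfcₙ (kd η (gg η)) b with hK
  have hKs : star K = K := (cfcₙ_predicate (kd η (gg η)) b : IsSelfAdjoint K)
  have hKbK : K * b * K = cfcₙ (kd η (g2 η)) b := by
    have h1 : K * b = cfcₙ (fun t : ℝ => kd η (gg η) t * t) b := by
      rw [cfcₙ_mul (kd η (gg η)) (fun t : ℝ => t) b (kd_cont hη (gg_cont η)).continuousOn
        (kd_zero hη (gg_zero hη)) (by fun_prop) rfl, cfcₙ_id' ℝ b hb.isSelfAdjoint]
    rw [h1, hK, ← cfcₙ_mul (fun t : ℝ => kd η (gg η) t * t) (kd η (gg η)) b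
      (((kd_cont hη (gg_cont η)).mul continuous_id).continuousOn) (by simp)
      (kd_cont hη (gg_cont η)).continuousOn (kd_zero hη (gg_zero hη))]
    congr 1
    funext t
    rw [kd_mul hη (gg_zero hη)]
    unfold kd
    rw [← mul_div_assoc, gg_sq]
  have hc0 : r i₀ * K * star (r i₀) = cfcₙ (gg η) (r i₀ * star (r i₀)) := by
    rw [← conj_kd (r i₀) hη (gg_cont η) (gg_zero hη), hri]
  have hcc : ∀ i j, r i₀ * K * star (r i) * star (r i₀ * K * star (r j)) =
      if i = j then r i₀ * (K * b * K) * star (r i₀) else 0 := by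
    intro i j
    rw [star_mul, star_mul, star_star, hKs]
    calc r i₀ * K * star (r i) * (r j * (K * star (r i₀)))
        = r i₀ * K * (star (r i) * r j) * (K * star (r i₀)) := by simp only [mul_assoc]
      _ = _ := by
        rw [hrr]
        split_ifs
        · simp only [mul_assoc]
        · simp
  have hc00 : r i₀ * K * star (r i₀) * (r i₀ * K * star (r i₀)) =
      r i₀ * (K * b * K) * star (r i₀) := by
    calc r i₀ * K * star (r i₀) * (r i₀ * K * star (r i₀))
        = r i₀ * K * (star (r i₀) * r i₀) * K * star (r i₀) := by simp only [mul_assoc]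
      _ = _ := by rw [hri]; simp only [mul_assoc]
  have hsc : ∀ i, star (r i₀ * K * star (r i)) * (r i₀ * K * star (r i)) =
      r i * (K * b * K) * star (r i) := by
    intro i
    rw [star_mul, star_mul, star_star, hKs]
    calc r i * (K * star (r i₀)) * (r i₀ * K * star (r i))
        = r i * K * (star (r i₀) * r i₀) * K * star (r i) := by simp only [mul_assoc]
      _ = _ := by rw [hri]; simp only [mul_assoc]
  have hsum : ∑ i, star (r i₀ * K * star (r i)) * (r i₀ * K * star (r i)) = cfcₙ (g2 η) R := by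
    rw [hRR (g2 η) η (g2_cont η) hη (g2_zero hη)]
    refine Finset.sum_congr rfl fun i _ => ?_
    rw [hsc, hKbK]
  -- the element `Q`
  set m := cfcₙ (mm η) R with hm
  set P := cfcₙ (rp δ₀ δ₁) R with hP
  have hms : star m = m := (cfcₙ_predicate (mm η) R : IsSelfAdjoint m)
  have hPs : star P = P := (cfcₙ_predicate (rp δ₀ δ₁) R : IsSelfAdjoint P)
  have hpm : p * m = m := hpR (mm η) η (mm_cont η) hη (mm_zero hη)
  have hmp : m * p = m := hRp (mm η) η (mm_cont η) hη (mm_zero hη)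
  have hpP : p * P = P := hpR (rp δ₀ δ₁) δ₀ (rp_cont δ₀ δ₁) hδ₀ (rp_zero hδ₁)
  have hPp : P * p = P := hRp (rp δ₀ δ₁) δ₀ (rp_cont δ₀ δ₁) hδ₀ (rp_zero hδ₁)
  have hPm : P * m = P := by
    rw [hP, hm, ← cfcₙ_mul (rp δ₀ δ₁) (mm η) R (rp_cont δ₀ δ₁).continuousOn
      (rp_zero hδ₁ 0 hδ₀.le) (mm_cont η).continuousOn (mm_zero hη 0 hη.le)]
    congr 1
    funext t
    by_cases ht : t ≤ δ₀
    · rw [rp_zero hδ₁ t ht, zero_mul]
    · rw [mm_one hη t (by rw [hη2]; exact (not_le.1 ht).le), mul_one]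
  have hg2 : cfcₙ (g2 η) R = (2 : ℝ) • m - m * m := by
    rw [hm, ← cfcₙ_mul (mm η) (mm η) R (mm_cont η).continuousOn (mm_zero hη 0 hη.le)
      (mm_cont η).continuousOn (mm_zero hη 0 hη.le),
      ← cfcₙ_const_mul (2 : ℝ) (mm η) R (mm_cont η).continuousOn (mm_zero hη 0 hη.le),
      ← cfcₙ_sub (fun t => 2 * mm η t) (fun t => mm η t * mm η t) R
      (continuous_const.mul (mm_cont η)).continuousOn (by simp [mm_zero hη 0 hη.le])
      ((mm_cont η).mul (mm_cont η)).continuousOn (by simp [mm_zero hη 0 hη.le])]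
    rfl
  set Q := p - m with hQ
  have hQs : star Q = Q := by rw [hQ, star_sub, hp, hms]
  have hQQ : Q * Q = p - cfcₙ (g2 η) R := by
    rw [hg2, hQ, sub_mul, mul_sub, mul_sub, hpp, hpm, hmp, two_smul]
    abel
  have hQp : Q * p = Q := by rw [hQ, sub_mul, hpp, hmp]
  have hPQ : (p - P) * Q = Q := by
    rw [hQ, sub_mul, mul_sub, mul_sub, hpp, hpm, hPp, hPm]
    abel
  -- the element `v`
  set a := r i₀ * star (r i₀) with ha
  set v := cfcₙ (sq δ₁) a with hv
  have hvs : star v = v := (cfcₙ_predicate (sq δ₁) a : IsSelfAdjoint v)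
  have hδ₁0 : 0 < δ₁ := hδ₀.trans hδ₁
  have hvv : v * v = cut δ₁ a := by
    rw [hv, ← cfcₙ_mul (sq δ₁) (sq δ₁) a (sq_cont δ₁).continuousOn (sq_zero 0 hδ₁0.le)
      (sq_cont δ₁).continuousOn (sq_zero 0 hδ₁0.le)]
    unfold cut
    congr 1
    funext t
    exact sq_sq δ₁ t
  have hcv : r i₀ * K * star (r i₀) * v = v := by
    rw [hc0, hv, ← cfcₙ_mul (gg η) (sq δ₁) a (gg_cont η).continuousOn (gg_zero hη 0 hη.le)
      (sq_cont δ₁).continuousOn (sq_zero 0 hδ₁0.le)]
    congr 1
    funext t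
    by_cases ht : t ≤ δ₁
    · rw [sq_zero t ht, mul_zero]
    · rw [gg_one hη t (by rw [hη2]; exact (hδ₁.trans (not_le.1 ht)).le), one_mul]
  -- approximation
  obtain ⟨x, hx⟩ := hcz
  have hramp : ramp δ₀ δ₁ R = P := rfl
  rw [hramp, ← hvv] at hx
  obtain ⟨N, hN⟩ := (Metric.tendsto_atTop.1 hx (1 / 2) (by norm_num))
  have hx2 := hN N le_rfl
  rw [dist_eq_norm, norm_sub_rev] at hx2
  set y := x N with hy
  set D := p - P - y * (v * v) * star y with hD
  have hDs : IsSelfAdjoint D := by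
    rw [IsSelfAdjoint, hD, star_sub, star_sub, hp, hPs, star_mul, star_mul, star_mul, star_star,
      hvs]
    simp only [mul_assoc]
  have hD1 : D ≤ (1 / 2 : ℝ) • (1 : B) := by
    have h1 : D ≤ algebraMap ℝ B ‖D‖ := hDs.le_algebraMap_norm_self
    refine h1.trans ?_
    rw [Algebra.algebraMap_eq_smul_one]
    have h2 : 0 ≤ ((1 / 2 : ℝ) - ‖D‖) • (1 : B) :=
      smul_nonneg (by linarith) zero_le_one
    rw [sub_smul] at h2
    exact sub_nonneg.1 h2
  set W := v * star y * Q with hW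
  have hWW : star W * W = Q * (y * (v * v) * star y) * Q := by
    rw [hW, star_mul, star_mul, star_star, hvs, hQs]
    simp only [mul_assoc]
  have hQDQ : Q * D * Q ≤ (1 / 2 : ℝ) • (Q * Q) := by
    have h1 := star_left_conjugate_le_conjugate hD1 Q
    rw [hQs] at h1
    refine h1.trans (le_of_eq ?_)
    rw [mul_smul_comm, smul_mul_assoc, mul_one]
  have hQDQ2 : Q * D * Q = Q * Q - star W * W := by
    have aux : ∀ Q' E F : B, Q' * (E - F) * Q' = Q' * (E * Q') - Q' * F * Q' := by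
      intro Q' E F
      rw [mul_sub, sub_mul, mul_assoc Q' E Q']
    rw [hWW, hD, aux, hPQ]
  have hle : Q * Q ≤ (2 : ℝ) • (star W * W) := by
    rw [hQDQ2] at hQDQ
    have h1 : 0 ≤ (2 : ℝ) • ((1 / 2 : ℝ) • (Q * Q) - (Q * Q - star W * W)) :=
      smul_nonneg (by norm_num) (sub_nonneg.2 hQDQ)
    have h2 : (2 : ℝ) • ((1 / 2 : ℝ) • (Q * Q) - (Q * Q - star W * W)) =
        (2 : ℝ) • (star W * W) - Q * Q := by
      rw [smul_sub, smul_sub, smul_smul]
      norm_num
      rw [two_smul ℝ (Q * Q)]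
      abel
    rw [h2] at h1
    exact sub_nonneg.1 h1
  have hρ : 0 ≤ Q * Q := by
    have := star_mul_self_nonneg Q
    rwa [hQs] at this
  obtain ⟨s, z, hss, hz⟩ := hex B W (Q * Q) 2 hρ hle
  have hcW : r i₀ * K * star (r i₀) * W = W := by
    rw [hW, ← mul_assoc, ← mul_assoc, hcv]
  have hcs : r i₀ * K * star (r i₀) * s = s := by
    have h1 : Tendsto (fun k => r i₀ * K * star (r i₀) * (W * z k)) atTop
        (𝓝 (r i₀ * K * star (r i₀) * s)) := hz.const_mul _
    have h2 : (fun k => r i₀ * K * star (r i₀) * (W * z k)) = fun k => W * z k := by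
      funext k
      rw [← mul_assoc, hcW]
    rw [h2] at h1
    exact tendsto_nhds_unique h1 hz
  refine ⟨fun i => r i₀ * K * star (r i), s, ?_, ?_, ?_, ?_, ?_, ?_, hcs⟩
  · intro i
    refine ⟨?_, ?_⟩
    · rw [← mul_assoc, ← mul_assoc, hpr]
    · rw [mul_assoc, hrp]
  · calc p * s = p * (r i₀ * K * star (r i₀) * s) := by rw [hcs]
      _ = (p * r i₀) * K * star (r i₀) * s := by simp only [mul_assoc]
      _ = s := by rw [hpr, hcs]
  · have h1 : star (s - s * p) * (s - s * p) = 0 := by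
      rw [star_sub, star_mul, hp]
      calc (star s - p * star s) * (s - s * p)
          = star s * s - star s * s * p - p * (star s * s) + p * (star s * s) * p := by
            noncomm_ring
        _ = 0 := by
            rw [hss]
            have h2 : Q * Q * p = Q * Q := by rw [mul_assoc, hQp]
            have h3 : p * (Q * Q) = Q * Q := by
              have := congrArg star h2
              rwa [star_mul, star_mul, hp, hQs] at this
            rw [h2, h3, h2]
            abel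
    have h2 : s - s * p = 0 := CStarRing.star_mul_self_eq_zero_iff _ |>.1 h1
    exact (sub_eq_zero.1 h2).symm
  · change 0 ≤ r i₀ * K * star (r i₀)
    rw [hc0]
    exact cfcₙ_nonneg fun t _ => Real.sqrt_nonneg _
  · intro i j
    change r i₀ * K * star (r i) * star (r i₀ * K * star (r j)) = if i = j then
      r i₀ * K * star (r i₀) * (r i₀ * K * star (r i₀)) else 0
    rw [hcc, hc00]
  · rw [hss, hsum, hQQ]
    abel

end Pool.Agent.H327R4.Pure
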