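import Pool.Agent.H327R4.Pure.Stubs3
import Pool.Agent.H327R4.Pure.TMT

/-! Continuous linear functionals on `(A → ℝ) × ℝ` (helper298). -/

set_option autoImplicit false

namespace Pool.Agent.H327R4.Pure

open Filter Topology

universe u

theorem dual_sa {A : Type u} [CStarAlgebra A] (T : Tr A) (a : A) (ha : IsSelfAdjoint a) :
    (T.f a).im = 0 := by
  let _ := CStarAlgebra.spectralOrder A
  let _ := CStarAlgebra.spectralOrderedRing A
  exact (mt_holds A T).2.2 a ha

theorem dual_star {A : Type u} [CStarAlgebra A] (T : Tr A) (x : A) :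
    (T.f (star x)).re = (T.f x).re := by
  have h1 : IsSelfAdjoint (Complex.I • (x - star x)) := by
    rw [IsSelfAdjoint, star_smul, star_sub, star_star, Complex.star_def, Complex.conj_I, neg_smul,
      ← smul_neg, neg_sub]
  have h2 := dual_sa T _ h1
  rw [map_smul, map_sub, smul_eq_mul, Complex.mul_im, Complex.I_re, Complex.I_im, zero_mul, one_mul,
    zero_add, Complex.sub_re] at h2
  linarith

theorem dual_fin {A : Type u} (G : (A → ℝ) →L[ℝ] ℝ) : ∃ (I : Finset A) (g : A → ℝ),
    ∀ x : A → ℝ, G x = ∑ a ∈ I, x a * g a := by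
  classical
  have h1 : {x : A → ℝ | |G x| < 1} ∈ 𝓝 (0 : A → ℝ) := by
    have hc : Continuous (fun x : A → ℝ => |G x|) := G.continuous.abs
    exact (isOpen_lt hc continuous_const).mem_nhds (by simp)
  rw [nhds_pi, Filter.mem_pi] at h1
  obtain ⟨I, hI, t, ht, hsub⟩ := h1
  have h2 : ∀ x : A → ℝ, (∀ a ∈ I, x a = 0) → G x = 0 := by
    intro x hx
    by_contra hne
    have h3 : (1 / G x) • x ∈ I.pi t := by
      intro a ha
      rw [Pi.smul_apply, hx a ha, smul_zero]
      exact mem_of_mem_nhds (ht a)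
    have h4 := hsub h3
    rw [Set.mem_setOf_eq, map_smul, smul_eq_mul, one_div, inv_mul_cancel₀ hne, abs_one] at h4
    exact lt_irrefl _ h4
  refine ⟨hI.toFinset, fun a => G (Pi.single a 1), fun x => ?_⟩
  have h3 := h2 (x - ∑ a ∈ hI.toFinset, x a • (Pi.single a (1 : ℝ) : A → ℝ)) (by
    intro a ha
    rw [Pi.sub_apply, Finset.sum_apply, Finset.sum_eq_single a]
    · simp
    · intro b _ hb
      rw [Pi.smul_apply, Pi.single_eq_of_ne hb.symm, smul_zero]
    · intro h
      exact absurd (hI.mem_toFinset.2 ha) h)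
  rw [map_sub, map_sum, sub_eq_zero] at h3
  rw [h3]
  exact Finset.sum_congr rfl fun a _ => by rw [map_smul, smul_eq_mul]

theorem dual_holds : StDUAL.{u} := by
  intro A _ F
  obtain ⟨I, g, hg⟩ := dual_fin (F.comp (ContinuousLinearMap.inl ℝ (A → ℝ) ℝ))
  set h0 : A := ∑ a ∈ I, ((g a : ℝ) : ℂ) • a with hh0
  refine ⟨((1 / 2 : ℝ) : ℂ) • (h0 + star h0), F (0, 1), ?_, ?_⟩
  · rw [IsSelfAdjoint, star_smul, star_add, star_star, Complex.star_def, Complex.conj_ofReal,
      add_comm (star h0)]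
  · intro T r
    have e1 : pt T r = (ContinuousLinearMap.inl ℝ (A → ℝ) ℝ) (fun x => (T.1.f x).re) +
        r • ((0, 1) : (A → ℝ) × ℝ) := by
      unfold pt
      ext <;> simp
    have e2 := hg (fun x => (T.1.f x).re)
    rw [ContinuousLinearMap.comp_apply] at e2
    rw [e1, map_add, map_smul, e2, smul_eq_mul, mul_comm r]
    congr 1
    rw [map_smul, smul_eq_mul, Complex.re_ofReal_mul, map_add, Complex.add_re, dual_star]
    rw [hh0, map_sum, Complex.re_sum]
    have e3 : ∀ a ∈ I, (T.1.f (((g a : ℝ) : ℂ) • a)).re = (T.1.f a).re * g a := by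
      intro a _
      rw [map_smul, smul_eq_mul, Complex.re_ofReal_mul, mul_comm]
    rw [Finset.sum_congr rfl e3]
    ring

end Pool.Agent.H327R4.Pure
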