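import Pool.Agent.H327R4.Pure.Stubs3
import Pool.Agent.H327R4.Pure.All

set_option autoImplicit false
set_option linter.unusedSectionVars false

namespace Pool.Agent.H327R4.Pure

open Filter Topology
open scoped ENNReal

universe u v

namespace ENT

section

variable {A : Type u} {S : Type v} [CStarAlgebra A] [PartialOrder A] [StarOrderedRing A]
  [NonUnitalCStarAlgebra S]

/-- the corner homomorphism `a ↦ a ⊗ e_ii` -/
noncomputable def cor (st : Stab A S) (i : ℕ) : A →⋆ₙₐ[ℂ] S where
  toFun := st.E i i
  map_smul' c a := map_smul _ _ _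
  map_zero' := map_zero _
  map_add' := map_add _
  map_mul' a b := by rw [st.mul, if_pos rfl]
  map_star' a := (st.str i i a).symm

theorem cor_apply (st : Stab A S) (i : ℕ) (a : A) : cor st i a = st.E i i a := rfl

theorem cor_inj (st : Stab A S) (i : ℕ) : Function.Injective (cor st i) := by
  rw [injective_iff_map_eq_zero]
  intro a ha
  exact ISO.E_inj st i i a ha

theorem E_inj' (st : Stab A S) (i : ℕ) : Function.Injective (st.E i i) := cor_inj st i

theorem norm_cor (st : Stab A S) (i : ℕ) (a : A) : ‖st.E i i a‖ = ‖a‖ :=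
  NonUnitalStarAlgHom.norm_map (cor st i) (cor_inj st i) a

theorem range_closed (st : Stab A S) (i : ℕ) : IsClosed (Set.range (st.E i i)) := by
  have h : Isometry (cor st i) := NonUnitalStarAlgHom.isometry (cor st i) (cor_inj st i)
  exact h.isClosedEmbedding.isClosed_range

theorem star_p (st : Stab A S) (i : ℕ) : star (st.E i i 1) = st.E i i 1 := by
  rw [st.str, star_one]

theorem p_p (st : Stab A S) (i : ℕ) : st.E i i 1 * st.E i i 1 = st.E i i 1 := by
  rw [st.mul, if_pos rfl, mul_one]

/-- compression by `1 ⊗ e_ii` -/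
noncomputable def cmp (st : Stab A S) (i : ℕ) : S →ₗ[ℂ] S where
  toFun s := st.E i i 1 * s * st.E i i 1
  map_add' s t := by rw [mul_add, add_mul]
  map_smul' c s := by rw [mul_smul_comm, smul_mul_assoc, RingHom.id_apply]

theorem cmp_apply (st : Stab A S) (i : ℕ) (s : S) :
    cmp st i s = st.E i i 1 * s * st.E i i 1 := rfl

theorem cmp_E (st : Stab A S) (i k l : ℕ) (a : A) :
    cmp st i (st.E k l a) = if i = k ∧ l = i then st.E i i a else 0 := by
  rw [cmp_apply, st.mul]
  by_cases h1 : i = k
  · rw [if_pos h1, st.mul]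
    by_cases h2 : l = i
    · rw [if_pos h2, if_pos ⟨h1, h2⟩, one_mul, mul_one]
    · rw [if_neg h2, if_neg (fun h => h2 h.2)]
  · rw [if_neg h1, zero_mul, if_neg (fun h => h1 h.1)]

theorem cmp_mem (st : Stab A S) (i : ℕ) (s : S) :
    cmp st i s ∈ LinearMap.range (st.E i i) := by
  have hcont : Continuous (cmp st i) := by
    change Continuous (fun s => st.E i i 1 * s * st.E i i 1)
    fun_prop
  have hcl : IsClosed {s : S | cmp st i s ∈ Set.range (st.E i i)} :=
    (range_closed st i).preimage hcont
  have hspan : (Submodule.span ℂ (⋃ k, ⋃ l, Set.range (st.E k l)) : Set S) ⊆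
      {s : S | cmp st i s ∈ Set.range (st.E i i)} := by
    have h : Submodule.span ℂ (⋃ k, ⋃ l, Set.range (st.E k l)) ≤
        (LinearMap.range (st.E i i)).comap (cmp st i) := by
      rw [Submodule.span_le]
      intro x hx
      rw [Set.mem_iUnion] at hx
      obtain ⟨k, hx⟩ := hx
      rw [Set.mem_iUnion] at hx
      obtain ⟨l, a, rfl⟩ := hx
      change cmp st i (st.E k l a) ∈ LinearMap.range (st.E i i)
      rw [cmp_E]
      split_ifs
      · exact ⟨a, rfl⟩
      · exact ⟨0, map_zero _⟩
    intro x hx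
    exact h hx
  have h2 := closure_minimal hspan hcl
  rw [st.dense] at h2
  exact h2 (Set.mem_univ s)

/-- the diagonal entry -/
noncomputable def P (st : Stab A S) (i : ℕ) : S →ₗ[ℂ] A :=
  (LinearEquiv.ofInjective (st.E i i) (E_inj' st i)).symm.toLinearMap ∘ₗ
    ((cmp st i).codRestrict (LinearMap.range (st.E i i)) (cmp_mem st i))

theorem E_P (st : Stab A S) (i : ℕ) (s : S) :
    st.E i i (P st i s) = st.E i i 1 * s * st.E i i 1 := by
  have h := LinearEquiv.apply_symm_apply (LinearEquiv.ofInjective (st.E i i) (E_inj' st i))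
    ((cmp st i).codRestrict (LinearMap.range (st.E i i)) (cmp_mem st i) s)
  have h2 := congrArg Subtype.val h
  exact h2

theorem norm_p (st : Stab A S) (i : ℕ) : ‖st.E i i 1‖ ≤ 1 := by
  have h : ‖st.E i i 1‖ * ‖st.E i i 1‖ = ‖st.E i i 1‖ := by
    rw [← CStarRing.norm_star_mul_self, star_p, p_p]
  by_contra hc
  push Not at hc
  nlinarith [norm_nonneg (st.E i i 1)]

end

end ENT

theorem ent_holds : StENT.{u, v} := by
  intro A S _ _ _ _ _ _ st
  refine ⟨fun i => ENT.P st i, fun i s => (ENT.E_P st i s).symm, ?_, ?_, ?_, ?_⟩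
  · intro i s
    rw [← ENT.norm_cor st i, ENT.E_P]
    calc ‖st.E i i 1 * s * st.E i i 1‖ ≤ ‖st.E i i 1 * s‖ * ‖st.E i i 1‖ := norm_mul_le _ _
      _ ≤ (‖st.E i i 1‖ * ‖s‖) * ‖st.E i i 1‖ := by
          gcongr
          exact norm_mul_le _ _
      _ ≤ (1 * ‖s‖) * 1 := by
          have := ENT.norm_p st i
          gcongr
      _ = ‖s‖ := by ring
  · intro i s hs
    apply ISO.refl (ENT.cor st i) (ENT.cor_inj st i)
    rw [ENT.cor_apply, ENT.E_P]
    have h := star_left_conjugate_nonneg hs (st.E i i 1)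
    rw [ENT.star_p] at h
    exact h
  · intro n M i
    apply ENT.E_inj' st (i : ℕ)
    rw [ENT.E_P]
    change ENT.cmp st i (st.hom _ _ M) = _
    rw [Stab.hom_apply, map_sum]
    simp only [map_sum, ENT.cmp_E]
    rw [Finset.sum_eq_single i]
    · rw [Finset.sum_eq_single i]
      · simp
      · intro l _ hl
        rw [if_neg]
        intro h
        exact hl (Fin.ext h.2)
      · simp
    · intro k _ hk
      refine Finset.sum_eq_zero fun l _ => ?_
      rw [if_neg]
      intro h
      exact hk (Fin.ext h.1.symm)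
    · simp
  · intro n M i hi
    apply ENT.E_inj' st i
    rw [ENT.E_P, map_zero]
    change ENT.cmp st i (st.hom _ _ M) = _
    rw [Stab.hom_apply, map_sum]
    simp only [map_sum, ENT.cmp_E]
    refine Finset.sum_eq_zero fun k _ => Finset.sum_eq_zero fun l _ => ?_
    rw [if_neg]
    intro h
    have := k.isLt
    omega

end Pool.Agent.H327R4.Pure
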