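import Pool.Agent.H327R4.Pure.Stubs3

set_option autoImplicit false

namespace Pool.Agent.H327R4.Pure

open Filter Topology
open scoped ENNReal

universe u v

theorem HB1_continuous_re (A : Type u) [CStarAlgebra A] (x : A) :
    Continuous fun T : TS A => (T.1.f x).re := by
  have h1 : Continuous (fun (T : TS A) (x : A) => T.1.f x) := continuous_induced_dom
  exact Complex.continuous_re.comp ((continuous_apply x).comp h1)

theorem HB1_affE {A : Type u} [CStarAlgebra A] (f : TS A → ℝ) (hf : IsAff f)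
    (hpos : ∀ T, 0 < f T) : IsAffE fun T => ENNReal.ofReal (f T) := by
  intro t T T' T'' h0 h1 hmix
  have h2 := hf t T T' T'' h0 h1 hmix
  have h3 : 0 ≤ 1 - t := by linarith
  change ENNReal.ofReal (f T'') = ENNReal.ofReal t * ENNReal.ofReal (f T) +
    ENNReal.ofReal (1 - t) * ENNReal.ofReal (f T')
  rw [h2, ENNReal.ofReal_add (mul_nonneg h0 (hpos T).le) (mul_nonneg h3 (hpos T').le),
    ENNReal.ofReal_mul h0, ENNReal.ofReal_mul h3]

/-- HB1: approximation of continuous affine functions from below. -/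
theorem hb1_holds (hsep : StSEP.{u}) (hcpt : StCPT.{u}) : StHB1.{u} := by
  classical
  intro A _ f η hf haff hpos hη
  have hlsc : LowerSemicontinuous fun T : TS A => ENNReal.ofReal (f T) :=
    (ENNReal.continuous_ofReal.comp hf).lowerSemicontinuous
  have haffE := HB1_affE f haff hpos
  -- the local functions
  have hloc : ∀ T₀ : TS A, ∃ h : A, IsSelfAdjoint h ∧ (∀ T : TS A, (T.1.f h).re < f T) ∧
      f T₀ - η < (T₀.1.f h).re := by
    intro T₀
    have h0 : ∀ T : TS A, ENNReal.ofReal (T.1.f (0 : A)).re < ENNReal.ofReal (f T) := by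
      intro T
      rw [map_zero, Complex.zero_re, ENNReal.ofReal_zero]
      exact ENNReal.ofReal_pos.mpr (hpos T)
    obtain ⟨h, hsa, h1, h2⟩ := hsep A (fun T => ENNReal.ofReal (f T)) hlsc haffE 0 0 T₀
      (f T₀ - η) h0 h0 ((ENNReal.ofReal_lt_ofReal_iff (hpos T₀)).mpr (by linarith))
    exact ⟨h, hsa, fun T => (ENNReal.ofReal_lt_ofReal_iff (hpos T)).mp (h1 T).2.2, h2⟩
  choose H hsa hlt hat using hloc
  -- finite subcover
  haveI : CompactSpace (TS A) := hcpt A
  have hopen : ∀ T₀ : TS A, IsOpen {T : TS A | f T - η < (T.1.f (H T₀)).re} := fun T₀ =>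
    isOpen_lt (hf.sub continuous_const) (HB1_continuous_re A (H T₀))
  obtain ⟨s, hs⟩ := isCompact_univ.elim_finite_subcover
    (fun T₀ : TS A => {T : TS A | f T - η < (T.1.f (H T₀)).re}) hopen
    (fun T _ => Set.mem_iUnion.mpr ⟨T, hat T⟩)
  -- combine
  have hcomb : ∀ s : Finset (TS A), ∃ g : A, IsSelfAdjoint g ∧ (∀ T : TS A, (T.1.f g).re < f T) ∧
      ∀ T₀ ∈ s, ∀ T : TS A, (T.1.f (H T₀)).re < (T.1.f g).re := by
    intro s
    induction s using Finset.induction_on with
    | empty =>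
      refine ⟨0, IsSelfAdjoint.zero A, fun T => ?_, fun T₀ h => absurd h (Finset.notMem_empty _)⟩
      rw [map_zero, Complex.zero_re]
      exact hpos T
    | insert a s ha ih =>
      obtain ⟨g, hg, hg1, hg2⟩ := ih
      obtain ⟨h, hsa', h1, h2⟩ := hsep A (fun T => ENNReal.ofReal (f T)) hlsc haffE g (H a) a
        (f a - η) (fun T => (ENNReal.ofReal_lt_ofReal_iff (hpos T)).mpr (hg1 T))
        (fun T => (ENNReal.ofReal_lt_ofReal_iff (hpos T)).mpr (hlt a T))
        ((ENNReal.ofReal_lt_ofReal_iff (hpos a)).mpr (by linarith))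
      refine ⟨h, hsa', fun T => (ENNReal.ofReal_lt_ofReal_iff (hpos T)).mp (h1 T).2.2, ?_⟩
      intro T₀ hT₀ T
      rcases Finset.mem_insert.mp hT₀ with rfl | hT₀
      · exact (h1 T).2.1
      · exact (hg2 T₀ hT₀ T).trans (h1 T).1
  obtain ⟨g, hg, hg1, hg2⟩ := hcomb s
  refine ⟨g, hg, fun T => ⟨?_, hg1 T⟩⟩
  obtain ⟨T₀, hT₀, hT⟩ := Set.mem_iUnion₂.mp (hs (Set.mem_univ T))
  exact lt_trans hT (hg2 T₀ hT₀ T)

end Pool.Agent.H327R4.Pure
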