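import Pool.Agent.H327R4.Pure.Stubs3
import Pool.Agent.H327R4.Pure.TMT

/-! An element which is positive on the traces has up to `ε` the same traces as a positive
element (helper959). -/

set_option autoImplicit false

namespace Pool.Agent.H327R4.Pure

open Filter Topology
open scoped ENNReal

universe u

namespace HB2

section

variable {A : Type u} [CStarAlgebra A] [PartialOrder A] [StarOrderedRing A]

/-- the real part -/
noncomputable def rp (x : A) : A := (1 / 2 : ℝ) • (x + star x)

theorem rp_sa (x : A) : IsSelfAdjoint (rp x) := by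
  unfold rp
  rw [isSelfAdjoint_iff, star_smul, star_add, star_star, add_comm]
  simp

theorem rp_norm (x : A) : ‖rp x‖ ≤ ‖x‖ := by
  unfold rp
  rw [norm_smul]
  have h1 : ‖x + star x‖ ≤ ‖x‖ + ‖x‖ := by
    refine (norm_add_le _ _).trans ?_
    rw [norm_star]
  have h2 : ‖(1 / 2 : ℝ)‖ = 1 / 2 := by norm_num
  rw [h2]
  linarith

theorem rp_self (x : A) (hx : IsSelfAdjoint x) : rp x = x := by
  unfold rp
  rw [hx.star_eq, ← two_smul ℝ x, smul_smul]
  norm_num

theorem T_star (T : Tr A) (x : A) : T.f (star x) = starRingEnd ℂ (T.f x) := by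
  -- `x = a + i b`
  have ha : IsSelfAdjoint (rp x) := rp_sa x
  have hb : IsSelfAdjoint (rp (Complex.I • x)) := rp_sa _
  have him := (mt_holds A T).2.2
  have h1 := him _ ha
  have h2 := him _ hb
  have e0 : ∀ y : A, (T.f ((1 / 2 : ℝ) • y)) = ((1 / 2 : ℝ) : ℂ) * T.f y := by
    intro y
    have : ((1 / 2 : ℝ) • y) = (((1 / 2 : ℝ) : ℂ) • y) := (Complex.coe_smul _ _).symm
    rw [this, map_smul, smul_eq_mul]
  unfold rp at h1 h2
  rw [e0, map_add] at h1
  rw [e0, map_add, star_smul, map_smul, map_smul] at h2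
  simp only [Complex.star_def, Complex.conj_I, smul_eq_mul] at h2
  apply Complex.ext
  · simp only [Complex.mul_im, Complex.ofReal_re, Complex.ofReal_im, Complex.add_im,
      Complex.add_re, Complex.mul_re, Complex.I_re, Complex.I_im, Complex.neg_re, Complex.neg_im]
      at h2
    rw [Complex.conj_re]
    linarith
  · simp only [Complex.mul_im, Complex.ofReal_re, Complex.ofReal_im, Complex.add_im] at h1
    rw [Complex.conj_im]
    linarith

theorem T_rp (T : Tr A) (x : A) : (T.f (rp x)).re = (T.f x).re := by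
  have e0 : ∀ y : A, (T.f ((1 / 2 : ℝ) • y)) = ((1 / 2 : ℝ) : ℂ) * T.f y := by
    intro y
    have : ((1 / 2 : ℝ) • y) = (((1 / 2 : ℝ) : ℂ) • y) := (Complex.coe_smul _ _).symm
    rw [this, map_smul, smul_eq_mul]
  unfold rp
  rw [e0, map_add, T_star]
  simp only [Complex.mul_re, Complex.ofReal_re, Complex.ofReal_im, Complex.add_re,
    Complex.conj_re]
  ring

theorem T_bound (T : TS A) (x : A) : |(T.1.f x).re| ≤ ‖x‖ := by
  rw [← T_rp]
  have hs := rp_sa x
  have h1 := hs.le_algebraMap_norm_self
  have h2 := hs.neg_algebraMap_norm_le_self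
  have hmono := (mt_holds A T.1).1
  have e1 : ∀ r : ℝ, T.1.f (algebraMap ℝ A r) = (r : ℂ) := by
    intro r
    rw [Algebra.algebraMap_eq_smul_one]
    have : (r • (1 : A)) = ((r : ℂ) • (1 : A)) := (Complex.coe_smul _ _).symm
    rw [this, map_smul, T.2, smul_eq_mul, mul_one]
  have h3 := hmono _ _ h1
  have h4 := hmono _ _ h2
  rw [e1, Complex.ofReal_re] at h3
  rw [map_neg, e1, Complex.neg_re, Complex.ofReal_re] at h4
  have h5 := rp_norm x
  rw [abs_le]
  constructor <;> linarith

/-- the cone of the elements which are positive up to elements with zero traces -/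
def K0 (A : Type u) [CStarAlgebra A] [PartialOrder A] [StarOrderedRing A] : Set A :=
  {x | ∃ p z : A, 0 ≤ p ∧ (∀ T : TS A, (T.1.f z).re = 0) ∧ x = p + z}

theorem T_rsmul (T : Tr A) (a : ℝ) (x : A) : (T.f (a • x)).re = a * (T.f x).re := by
  have : (a • x) = (((a : ℝ) : ℂ) • x) := (Complex.coe_smul _ _).symm
  rw [this, map_smul, smul_eq_mul, Complex.mul_re, Complex.ofReal_re, Complex.ofReal_im]
  ring

theorem K0_smul {x : A} (hx : x ∈ K0 A) {a : ℝ} (ha : 0 ≤ a) : a • x ∈ K0 A := by
  obtain ⟨p, z, hp, hz, rfl⟩ := hx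
  refine ⟨a • p, a • z, smul_nonneg ha hp, fun T => ?_, smul_add a p z⟩
  rw [T_rsmul, hz, mul_zero]

theorem K0_add {x y : A} (hx : x ∈ K0 A) (hy : y ∈ K0 A) : x + y ∈ K0 A := by
  obtain ⟨p, z, hp, hz, rfl⟩ := hx
  obtain ⟨q, w, hq, hw, rfl⟩ := hy
  refine ⟨p + q, z + w, add_nonneg hp hq, fun T => ?_, by abel⟩
  rw [map_add, Complex.add_re, hz, hw, add_zero]

theorem K0_convex : Convex ℝ (K0 A) := by
  intro x hx y hy a b ha hb _
  exact K0_add (K0_smul hx ha) (K0_smul hy hb)

theorem pos_mem {p : A} (hp : 0 ≤ p) : p ∈ K0 A :=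
  ⟨p, 0, hp, fun T => by simp, (add_zero p).symm⟩

theorem zero_mem {z : A} (hz : ∀ T : TS A, (T.1.f z).re = 0) : z ∈ K0 A :=
  ⟨0, z, le_refl _, hz, (zero_add z).symm⟩

end

end HB2

open HB2 in
theorem hb2_holds : StHB2.{u} := by
  intro A _ _ _ h ε hh hpos hε
  by_cases hK : h ∈ closure (K0 A)
  · obtain ⟨x, hx, hd⟩ := Metric.mem_closure_iff.1 hK ε hε
    obtain ⟨p, z, hp, hz, rfl⟩ := hx
    refine ⟨p, hp, fun T => ?_⟩
    have h1 := T_bound T (p + z - h)
    rw [map_sub, Complex.sub_re, map_add, Complex.add_re, hz T, add_zero] at h1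
    rw [dist_comm, dist_eq_norm] at hd
    linarith
  · exfalso
    obtain ⟨f, u, hf1, hf2⟩ := geometric_hahn_banach_closed_point (K0_convex (A := A)).closure
      isClosed_closure hK
    have hu : 0 < u := by
      have := hf1 0 (subset_closure (pos_mem (le_refl (0 : A))))
      rwa [map_zero] at this
    -- `f ≤ 0` on the cone
    have hneg : ∀ x ∈ K0 A, f x ≤ 0 := by
      intro x hx
      by_contra hcon
      push Not at hcon
      have h1 := hf1 ((u / f x) • x) (subset_closure (K0_smul hx (div_pos hu hcon).le))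
      rw [map_smul, smul_eq_mul, div_mul_cancel₀ _ hcon.ne'] at h1
      exact lt_irrefl _ h1
    have hzero : ∀ z : A, (∀ T : TS A, (T.1.f z).re = 0) → f z = 0 := by
      intro z hz
      have h1 := hneg z (zero_mem hz)
      have h2 := hneg (-z) (zero_mem (fun T => by rw [map_neg, Complex.neg_re, hz T, neg_zero]))
      rw [map_neg] at h2
      linarith
    -- the real linear functional `ψ x = - f (rp x)`
    let ψ : A →L[ℝ] ℝ :=
      (-f).comp ((1 / 2 : ℝ) • (ContinuousLinearMap.id ℝ A + ((starL' ℝ : A ≃L[ℝ] A) : A →L[ℝ] A)))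
    have hψ : ∀ x, ψ x = - f (rp x) := by
      intro x
      rfl
    let F : A →L[ℂ] ℂ := StrongDual.extendRCLike (𝕜 := ℂ) ψ
    have hFre : ∀ x, (F x).re = ψ x := fun x => by
      have := StrongDual.re_extendRCLike_apply (𝕜 := ℂ) ψ x
      exact this
    have hFim : ∀ x, (F x).im = - ψ (Complex.I • x) := fun x => by
      have := StrongDual.im_extendRCLike_apply (𝕜 := ℂ) ψ x
      exact this
    -- commutators
    have hcomm : ∀ x y : A, ψ (x * y - y * x) = 0 := by
      intro x y
      rw [hψ, hzero, neg_zero]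
      intro T
      rw [T_rp, map_sub, T.1.tr x y, sub_self, Complex.zero_re]
    have hself : ∀ s : A, IsSelfAdjoint s → ψ (Complex.I • s) = 0 := by
      intro s hs
      rw [hψ]
      have : rp (Complex.I • s) = 0 := by
        unfold rp
        rw [star_smul, hs.star_eq, ← add_smul]
        simp
      rw [this, map_zero, neg_zero]
    have hone : 0 < - f (1 : A) := by
      have h1 : (0 : A) ≤ h + algebraMap ℝ A ‖h‖ := by
        have := hh.neg_algebraMap_norm_le_self
        have h2 := add_le_add_left this (algebraMap ℝ A ‖h‖)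
        simpa using h2
      have h2 := hneg _ (pos_mem h1)
      rw [Algebra.algebraMap_eq_smul_one, map_add, map_smul, smul_eq_mul] at h2
      by_contra hcon
      push Not at hcon
      have h3 : 0 ≤ f (1 : A) := by linarith
      have h4 : 0 ≤ ‖h‖ * f (1 : A) := mul_nonneg (norm_nonneg _) h3
      linarith
    have hF1re : (F 1).re = - f (1 : A) := by
      rw [hFre, hψ, rp_self 1 (IsSelfAdjoint.one A)]
    have hF1im : (F 1).im = 0 := by
      rw [hFim, hself 1 (IsSelfAdjoint.one A), neg_zero]
    have hF1 : F 1 = ((- f (1 : A) : ℝ) : ℂ) := by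
      apply Complex.ext
      · rw [hF1re, Complex.ofReal_re]
      · rw [hF1im, Complex.ofReal_im]
    set r : ℝ := - f (1 : A) with hr
    have hsc : ∀ x : A, ((((r⁻¹ : ℝ) : ℂ) • F) x) = ((r⁻¹ : ℝ) : ℂ) * F x := fun x => rfl
    let T0 : Tr A :=
      { f := ((r⁻¹ : ℝ) : ℂ) • F
        pos := by
          intro x
          have hsa : IsSelfAdjoint (star x * x) := IsSelfAdjoint.star_mul_self x
          have h1 : 0 ≤ (F (star x * x)).re := by
            rw [hFre, hψ, rp_self _ hsa]
            have := hneg _ (pos_mem (star_mul_self_nonneg x))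
            linarith
          have h2 : (F (star x * x)).im = 0 := by
            rw [hFim, hself _ hsa, neg_zero]
          rw [hsc]
          constructor
          · rw [Complex.re_ofReal_mul]
            exact mul_nonneg (inv_nonneg.2 hone.le) h1
          · rw [Complex.im_ofReal_mul, h2, mul_zero]
        tr := by
          intro x y
          rw [hsc, hsc]
          congr 1
          have h1 : F (x * y - y * x) = 0 := by
            apply Complex.ext
            · rw [hFre, hcomm, Complex.zero_re]
            · rw [hFim, Complex.zero_im]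
              have : Complex.I • (x * y - y * x) = (Complex.I • x) * y - y * (Complex.I • x) := by
                rw [smul_sub, smul_mul_assoc, mul_smul_comm]
              rw [this, hcomm, neg_zero]
          rw [map_sub] at h1
          exact sub_eq_zero.1 h1 }
    have hT1 : T0.f 1 = 1 := by
      show (((r⁻¹ : ℝ) : ℂ) • F) 1 = 1
      rw [hsc, hF1, ← Complex.ofReal_mul, inv_mul_cancel₀ hone.ne', Complex.ofReal_one]
    have h5 := hpos ⟨T0, hT1⟩
    have h6 : (T0.f h).re = r⁻¹ * (- f h) := by
      show ((((r⁻¹ : ℝ) : ℂ) • F) h).re = _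
      rw [hsc, Complex.re_ofReal_mul, hFre, hψ, rp_self h hh]
    have h7 : 0 < (T0.f h).re := h5
    rw [h6] at h7
    have h8 : r⁻¹ * (- f h) ≤ 0 :=
      mul_nonpos_of_nonneg_of_nonpos (inv_nonneg.2 hone.le) (by linarith)
    linarith

end Pool.Agent.H327R4.Pure
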