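import Pool.Agent.H327R4.Pure.Stubs3
import Pool.Agent.H327R4.Pure.TMT

/-!
# Task LSQ: a lower semicontinuous affine function is the limit of an increasing sequence of
positive elements (helper862)
-/

set_option autoImplicit false

namespace Pool.Agent.H327R4.Pure

open Filter Topology
open scoped ENNReal ComplexStarModule

universe u

namespace LSQx

variable {A : Type u} [CStarAlgebra A]

/-- the value of a tracial state -/
noncomputable def ev (x : A) (T : TS A) : ℝ := (T.1.f x).re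

theorem ev_cont (x : A) : Continuous (ev x) := by
  have h1 : Continuous (fun (T : TS A) (x : A) => T.1.f x) := continuous_induced_dom
  exact Complex.continuous_re.comp ((continuous_apply x).comp h1)

theorem ev_add (x y : A) (T : TS A) : ev (x + y) T = ev x T + ev y T := by
  unfold ev
  rw [map_add, Complex.add_re]

theorem ev_sub (x y : A) (T : TS A) : ev (x - y) T = ev x T - ev y T := by
  unfold ev
  rw [map_sub, Complex.sub_re]

theorem ev_zero (T : TS A) : ev (0 : A) T = 0 := by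
  unfold ev
  rw [map_zero, Complex.zero_re]

theorem ev_smul (c : ℝ) (x : A) (T : TS A) : ev (c • x) T = c * ev x T := by
  unfold ev
  have h : c • x = (c : ℂ) • x := by rw [Complex.coe_smul]
  rw [h, map_smul, smul_eq_mul, Complex.re_ofReal_mul]

theorem ev_one (T : TS A) : ev (1 : A) T = 1 := by
  unfold ev
  rw [T.2, Complex.one_re]

section order

variable [PartialOrder A] [StarOrderedRing A]

theorem ev_mono {x y : A} (h : x ≤ y) (T : TS A) : ev x T ≤ ev y T :=
  (mt_holds A T.1).1 x y h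

theorem ev_real (x : A) (T : TS A) : ev (ℜ x : A) T = ev x T := by
  have h1 : (T.1.f (ℑ x : A)).im = 0 := (mt_holds A T.1).2.2 _ (ℑ x).2
  have h2 : T.1.f x = T.1.f (ℜ x : A) + Complex.I * T.1.f (ℑ x : A) := by
    conv_lhs => rw [← realPart_add_I_smul_imaginaryPart x]
    rw [map_add, map_smul, smul_eq_mul]
  unfold ev
  rw [h2, Complex.add_re, Complex.mul_re, Complex.I_re, Complex.I_im, h1]
  ring

theorem ev_abs_le (x : A) (T : TS A) : |ev x T| ≤ ‖x‖ := by
  rw [← ev_real x T]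
  have h0 : ‖(ℜ x : A)‖ ≤ ‖x‖ := realPart.norm_le x
  have hs : IsSelfAdjoint (ℜ x : A) := (ℜ x).2
  have h1 : (ℜ x : A) ≤ ‖(ℜ x : A)‖ • (1 : A) := by
    have := hs.le_algebraMap_norm_self
    rwa [Algebra.algebraMap_eq_smul_one] at this
  have h2 : -(‖(ℜ x : A)‖ • (1 : A)) ≤ (ℜ x : A) := by
    have := hs.neg_algebraMap_norm_le_self
    rwa [Algebra.algebraMap_eq_smul_one] at this
  have h3 := ev_mono h1 T
  have h4 := ev_mono h2 T
  rw [ev_smul, ev_one, mul_one] at h3
  rw [← neg_smul, ev_smul, ev_one, mul_one] at h4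
  rw [abs_le]
  constructor <;> linarith

end order

/-- compactness -/
theorem cover [CompactSpace (TS A)] (U : ℕ → Set (TS A)) (hU : ∀ n, IsOpen (U n))
    (hm : Monotone U) (hc : ∀ T, ∃ n, T ∈ U n) : ∃ n, ∀ T, T ∈ U n := by
  obtain ⟨n, hn⟩ := isCompact_univ.elim_directed_cover U hU
    (fun T _ => Set.mem_iUnion.2 (hc T)) (hm.directed_le)
  exact ⟨n, fun T => hn (Set.mem_univ T)⟩

/-- gap between two continuous functions -/
theorem gapR [CompactSpace (TS A)] {g h : A} (H : ∀ T, ev g T < ev h T) :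
    ∃ e : ℝ, 0 < e ∧ ∀ T, ev g T + e < ev h T := by
  obtain ⟨n, hn⟩ := cover (fun n : ℕ => {T | ev g T + 1 / ((n : ℝ) + 1) < ev h T})
    (fun n => isOpen_lt ((ev_cont g).add continuous_const) (ev_cont h))
    (fun m n hmn T hT => by
      have h1 : 1 / ((n : ℝ) + 1) ≤ 1 / ((m : ℝ) + 1) := Nat.one_div_le_one_div hmn
      have h2 : ev g T + 1 / ((m : ℝ) + 1) < ev h T := hT
      show ev g T + 1 / ((n : ℝ) + 1) < ev h T
      linarith)
    (fun T => by
      obtain ⟨n, hn⟩ := exists_nat_one_div_lt (sub_pos.2 (H T))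
      refine ⟨n, ?_⟩
      show ev g T + 1 / ((n : ℝ) + 1) < ev h T
      linarith)
  exact ⟨1 / ((n : ℝ) + 1), by positivity, hn⟩

/-- gap between a continuous and a lower semicontinuous function -/
theorem gapE [CompactSpace (TS A)] {f : TS A → ℝ≥0∞} (hf : LowerSemicontinuous f) {h : A}
    (H : ∀ T, ENNReal.ofReal (ev h T) < f T) :
    ∃ e : ℝ, 0 < e ∧ ∀ T, ENNReal.ofReal (ev h T + e) < f T := by
  obtain ⟨n, hn⟩ := cover (fun n : ℕ => {T | ENNReal.ofReal (ev h T + 1 / ((n : ℝ) + 1)) < f T})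
    (fun n => by
      rw [isOpen_iff_mem_nhds]
      intro T hT
      obtain ⟨c, hc1, hc2⟩ := exists_between (show ENNReal.ofReal (ev h T + 1 / ((n : ℝ) + 1)) <
        f T from hT)
      have h1 : Continuous (fun T => ENNReal.ofReal (ev h T + 1 / ((n : ℝ) + 1))) :=
        ENNReal.continuous_ofReal.comp ((ev_cont h).add continuous_const)
      filter_upwards [hf T c hc2, h1.continuousAt.eventually (gt_mem_nhds hc1)] with T' h2 h3
      exact lt_trans h3 h2)
    (fun m n hmn T hT => by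
      have h1 : 1 / ((n : ℝ) + 1) ≤ 1 / ((m : ℝ) + 1) := Nat.one_div_le_one_div hmn
      have h2 : ENNReal.ofReal (ev h T + 1 / ((m : ℝ) + 1)) < f T := hT
      show ENNReal.ofReal (ev h T + 1 / ((n : ℝ) + 1)) < f T
      exact lt_of_le_of_lt (ENNReal.ofReal_le_ofReal (by linarith)) h2)
    (fun T => by
      have h1 : Tendsto (fun n : ℕ => ENNReal.ofReal (ev h T + 1 / ((n : ℝ) + 1))) atTop
          (𝓝 (ENNReal.ofReal (ev h T + 0))) := by
        refine (ENNReal.continuous_ofReal.tendsto _).comp ?_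
        exact tendsto_const_nhds.add tendsto_one_div_add_atTop_nhds_zero_nat
      rw [add_zero] at h1
      exact (h1.eventually (gt_mem_nhds (H T))).exists)
  exact ⟨1 / ((n : ℝ) + 1), by positivity, hn⟩

end LSQx

open LSQx in
theorem lsq_holds (hsep : StSEP.{u}) (hhb : StHB2.{u}) (hcpt : StCPT.{u}) : StLSQ.{u} := by
  intro A _ _ _ _ f hf haff hf0
  classical
  rcases isEmpty_or_nonempty (TS A) with hE | hN
  · exact ⟨fun _ => 0, fun _ => le_rfl, fun _ T => (hE.false T).elim, fun T => (hE.false T).elim⟩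
  have : CompactSpace (TS A) := hcpt A
  have : Nonempty A := ⟨0⟩
  set x : ℕ → A := fun k => (ℜ (TopologicalSpace.denseSeq A k) : A) with hx
  have hxs : ∀ k, IsSelfAdjoint (x k) := fun k => (ℜ (TopologicalSpace.denseSeq A k)).2
  have hxe : ∀ k T, ev (x k) T = ev (TopologicalSpace.denseSeq A k) T := fun k T => ev_real _ T
  -- the claim (*)
  have star1 : ∀ (g₁ g₂ : A) (T₀ : TS A) (r : ℝ), (∀ T, ENNReal.ofReal (ev g₁ T) < f T) →
      (∀ T, ENNReal.ofReal (ev g₂ T) < f T) → ENNReal.ofReal r < f T₀ →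
      ∃ k, (∀ T, ENNReal.ofReal (ev (x k) T) < f T) ∧ (∀ T, ev g₁ T < ev (x k) T) ∧
        (∀ T, ev g₂ T < ev (x k) T) ∧ r < ev (x k) T₀ := by
    intro g₁ g₂ T₀ r h1 h2 h3
    obtain ⟨h, hh, hA, hB⟩ := hsep A f hf haff g₁ g₂ T₀ r h1 h2 h3
    obtain ⟨e₁, he₁, h4⟩ := gapR (g := g₁) (h := h) fun T => (hA T).1
    obtain ⟨e₂, he₂, h5⟩ := gapR (g := g₂) (h := h) fun T => (hA T).2.1
    obtain ⟨e₃, he₃, h6⟩ := gapE hf (h := h) fun T => (hA T).2.2
    have hB' : 0 < ev h T₀ - r := sub_pos.2 hB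
    obtain ⟨e, he, q1, q2, q3, q4⟩ : ∃ e : ℝ, 0 < e ∧ e ≤ e₁ ∧ e ≤ e₂ ∧ e ≤ e₃ ∧
        e ≤ ev h T₀ - r := by
      refine ⟨min (min e₁ e₂) (min e₃ (ev h T₀ - r)), ?_, ?_, ?_, ?_, ?_⟩
      · exact lt_min (lt_min he₁ he₂) (lt_min he₃ hB')
      · exact (min_le_left _ _).trans (min_le_left _ _)
      · exact (min_le_left _ _).trans (min_le_right _ _)
      · exact (min_le_right _ _).trans (min_le_left _ _)
      · exact (min_le_right _ _).trans (min_le_right _ _)
    obtain ⟨k, hk⟩ := (TopologicalSpace.denseRange_denseSeq A).exists_dist_lt h he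
    have h7 : ∀ T, |ev h T - ev (x k) T| < e := by
      intro T
      rw [hxe, ← ev_sub]
      refine lt_of_le_of_lt (ev_abs_le _ T) ?_
      rwa [← dist_eq_norm]
    refine ⟨k, fun T => ?_, fun T => ?_, fun T => ?_, ?_⟩
    · refine lt_of_le_of_lt (ENNReal.ofReal_le_ofReal ?_) (h6 T)
      have := abs_lt.1 (h7 T)
      linarith [this.1, this.2]
    · have := abs_lt.1 (h7 T)
      linarith [this.1, this.2, h4 T]
    · have := abs_lt.1 (h7 T)
      linarith [this.1, this.2, h5 T]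
    · have := abs_lt.1 (h7 T₀)
      linarith [this.1, this.2]
  have hz : ∀ T : TS A, ENNReal.ofReal (ev (0 : A) T) < f T := fun T => by
    rw [ev_zero, ENNReal.ofReal_zero]
    exact pos_iff_ne_zero.2 (hf0 T)
  obtain ⟨T₁⟩ := hN
  set Dm : Type := {k : ℕ // ∀ T, ENNReal.ofReal (ev (x k) T) < f T} with hDm
  -- the sequence
  have start : ∃ k : Dm, ∀ T, 0 < ev (x k.1) T := by
    obtain ⟨k, hk, hk1, -, -⟩ := star1 0 0 T₁ 0 hz hz (by
      rw [ENNReal.ofReal_zero]; exact pos_iff_ne_zero.2 (hf0 T₁))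
    exact ⟨⟨k, hk⟩, fun T => by have := hk1 T; rwa [ev_zero] at this⟩
  have next : ∀ (n : ℕ) (k : Dm), ∃ k' : Dm, (∀ T, ev (x k.1) T < ev (x k'.1) T) ∧
      ((∀ T, ENNReal.ofReal (ev (x n) T) < f T) → ∀ T, ev (x n) T < ev (x k'.1) T) := by
    intro n k
    by_cases hn : ∀ T, ENNReal.ofReal (ev (x n) T) < f T
    · obtain ⟨k', h1, h2, h3, -⟩ := star1 (x k.1) (x n) T₁ 0 k.2 hn (by
        rw [ENNReal.ofReal_zero]; exact pos_iff_ne_zero.2 (hf0 T₁))
      exact ⟨⟨k', h1⟩, h2, fun _ => h3⟩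
    · obtain ⟨k', h1, h2, h3, -⟩ := star1 (x k.1) 0 T₁ 0 k.2 hz (by
        rw [ENNReal.ofReal_zero]; exact pos_iff_ne_zero.2 (hf0 T₁))
      exact ⟨⟨k', h1⟩, h2, fun h => absurd h hn⟩
  choose nx hnx1 hnx2 using next
  obtain ⟨k₀, hk₀⟩ := start
  set κ : ℕ → Dm := fun n => Nat.rec k₀ (fun n k => nx n k) n with hκ
  have hκ0 : κ 0 = k₀ := rfl
  have hκs : ∀ n, κ (n + 1) = nx n (κ n) := fun n => rfl
  set a : ℕ → A := fun n => x (κ n).1 with ha
  have ha_lt : ∀ n T, ev (a n) T < ev (a (n + 1)) T := by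
    intro n T
    show ev (x (κ n).1) T < ev (x (κ (n + 1)).1) T
    rw [hκs]
    exact hnx1 n (κ n) T
  have ha_mono : ∀ T, Monotone fun n => ev (a n) T := fun T =>
    monotone_nat_of_le_succ fun n => (ha_lt n T).le
  have ha_pos : ∀ n T, 0 < ev (a n) T := by
    intro n T
    have h1 : 0 < ev (a 0) T := by
      show 0 < ev (x (κ 0).1) T
      rw [hκ0]
      exact hk₀ T
    exact lt_of_lt_of_le h1 (ha_mono T (Nat.zero_le n))
  have ha_f : ∀ n T, ENNReal.ofReal (ev (a n) T) < f T := fun n T => (κ n).2 T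
  have ha_lim : ∀ T, Tendsto (fun n => ENNReal.ofReal (ev (a n) T)) atTop (𝓝 (f T)) := by
    intro T
    rw [tendsto_order]
    constructor
    · intro c hc
      obtain ⟨c', hc1, hc2⟩ := exists_between hc
      have hc3 : c' ≠ ⊤ := ne_top_of_lt hc2
      have hc4 : ENNReal.ofReal c'.toReal = c' := ENNReal.ofReal_toReal hc3
      obtain ⟨j, hj1, -, -, hj4⟩ := star1 0 0 T c'.toReal hz hz (by rw [hc4]; exact hc2)
      filter_upwards [eventually_ge_atTop (j + 1)] with n hn
      have h1 : ev (x j) T < ev (a (j + 1)) T := by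
        show ev (x j) T < ev (x (κ (j + 1)).1) T
        rw [hκs]
        exact hnx2 j (κ j) hj1 T
      have h2 : c'.toReal ≤ ev (a n) T := (hj4.trans h1).le.trans (ha_mono T hn)
      refine lt_of_lt_of_le hc1 ?_
      rw [← hc4]
      exact ENNReal.ofReal_le_ofReal h2
    · intro c hc
      exact Eventually.of_forall fun n => (ha_f n T).trans hc
  -- positive elements in between
  have pos : ∀ n, ∃ h : A, 0 ≤ h ∧ ∀ T, ev (a n) T < ev h T ∧ ev h T < ev (a (n + 1)) T := by
    intro n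
    obtain ⟨e, he, hg⟩ := gapR (g := a n) (h := a (n + 1)) (ha_lt n)
    have hsa : IsSelfAdjoint ((1 / 2 : ℝ) • (a n + a (n + 1))) :=
      IsSelfAdjoint.smul (IsSelfAdjoint.all _) ((hxs _).add (hxs _))
    have hval : ∀ T, ev ((1 / 2 : ℝ) • (a n + a (n + 1))) T =
        (ev (a n) T + ev (a (n + 1)) T) / 2 := fun T => by
      rw [ev_smul, ev_add]; ring
    obtain ⟨h, hh0, hh1⟩ := hhb A ((1 / 2 : ℝ) • (a n + a (n + 1))) (e / 4) hsa (fun T => by
      have h1 := hval T
      have h2 := ha_pos n T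
      have h3 := ha_pos (n + 1) T
      show 0 < ev ((1 / 2 : ℝ) • (a n + a (n + 1))) T
      linarith) (by linarith)
    refine ⟨h, hh0, fun T => ?_⟩
    have h1 : |ev h T - ev ((1 / 2 : ℝ) • (a n + a (n + 1))) T| ≤ e / 4 := hh1 T
    rw [hval] at h1
    have h2 := abs_le.1 h1
    have h3 := hg T
    constructor <;> linarith [h2.1, h2.2]
  choose h hh0 hh1 using pos
  refine ⟨h, hh0, fun n T => (hh1 n T).2.trans (hh1 (n + 1) T).1, fun T => ?_⟩
  refine tendsto_of_tendsto_of_tendsto_of_le_of_le (ha_lim T) tendsto_const_nhds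
    (fun n => ENNReal.ofReal_le_ofReal (hh1 n T).1.le) (fun n => ?_)
  exact (ENNReal.ofReal_le_ofReal (hh1 n T).2.le).trans (ha_f (n + 1) T).le

end Pool.Agent.H327R4.Pure
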