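import Pool.Agent.H327R4.Pure.Stubs3
import Pool.Agent.H327R4.Pure.All

/-!
# Nesting: an orthogonal larger element can be rotated to contain `(a - ε)_+`
-/

set_option autoImplicit false

namespace Pool.Agent.H327R4.Pure

open Filter Topology

universe u

section

variable {B : Type u} [CStarAlgebra B] [PartialOrder B] [StarOrderedRing B]

omit [PartialOrder B] [StarOrderedRing B] in
theorem nest_zero {z : B} (h : star z * z = 0) : z = 0 :=
  (CStarRing.star_mul_self_eq_zero_iff z).1 h

/-- the partial isometry-like element and the unitary -/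
theorem nest_unitary {V : B} (hVV : V * V = 0) (hg : star V * V ≤ 1) :
    ∃ R : B, star R = R ∧ R * V = V * R ∧ R * R = 1 - star V * V - V * star V := by
  have hVs : star V * star V = 0 := by rw [← star_mul, hVV, star_zero]
  have hg0 : 0 ≤ star V * V := star_mul_self_nonneg V
  have hh0 : 0 ≤ V * star V := mul_star_self_nonneg V
  have hn : ‖V * star V‖ ≤ 1 := by
    have h1 : ‖V * star V‖ = ‖star V * V‖ := by
      rw [CStarRing.norm_self_mul_star, CStarRing.norm_star_mul_self]
    rw [h1]
    exact (CStarAlgebra.norm_le_one_iff_of_nonneg _ hg0).2 hg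
  have hh : V * star V ≤ 1 := (CStarAlgebra.norm_le_one_iff_of_nonneg _ hh0).1 hn
  have hgh : (star V * V) * (V * star V) = 0 := by
    rw [mul_assoc, ← mul_assoc V V, hVV, zero_mul, mul_zero]
  have hhg : (V * star V) * (star V * V) = 0 := by
    rw [mul_assoc, ← mul_assoc (star V) (star V), hVs, zero_mul, mul_zero]
  have hP : 0 ≤ 1 - star V * V - V * star V := by
    have h1 : (1 - star V * V) * (1 - V * star V) = 1 - star V * V - V * star V := by
      rw [sub_mul, mul_sub, mul_sub, hgh]
      simp only [one_mul, mul_one, sub_zero]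
      try abel
    have h2 : (1 - V * star V) * (1 - star V * V) = 1 - star V * V - V * star V := by
      rw [sub_mul, mul_sub, mul_sub, hhg]
      simp only [one_mul, mul_one, sub_zero]
      try abel
    rw [← h1]
    exact Commute.mul_nonneg (sub_nonneg.2 hg) (sub_nonneg.2 hh) (h1.trans h2.symm)
  have hc : Commute (1 - star V * V - V * star V) V := by
    change (1 - star V * V - V * star V) * V = V * (1 - star V * V - V * star V)
    rw [sub_mul, sub_mul, mul_sub, mul_sub, mul_assoc (star V) V V, hVV, mul_zero,
      ← mul_assoc V V (star V), hVV, zero_mul, one_mul, mul_one, sub_zero, sub_zero, mul_assoc]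
  refine ⟨CFC.sqrt (1 - star V * V - V * star V), ?_, ?_, ?_⟩
  · exact (IsSelfAdjoint.of_nonneg (CFC.sqrt_nonneg _)).star_eq
  · exact (Commute.cfcₙ_nnreal hc NNReal.sqrt).eq
  · exact CFC.sqrt_mul_sqrt_self _ hP

/-- the function `1 / sqrt (max t e)` -/
noncomputable def nest_k (e : ℝ) (t : ℝ) : ℝ := 1 / √(max t e)

theorem nest_k_cont {e : ℝ} (he : 0 < e) : Continuous (nest_k e) := by
  unfold nest_k
  refine continuous_const.div (by fun_prop) fun t => ?_
  exact (Real.sqrt_pos.2 (lt_max_of_lt_right he)).ne'

theorem nest_k_sq {e : ℝ} (he : 0 < e) (t : ℝ) : nest_k e t * nest_k e t * max t e = 1 := by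
  unfold nest_k
  have h1 : 0 < max t e := lt_max_of_lt_right he
  have h2 : √(max t e) * √(max t e) = max t e := Real.mul_self_sqrt h1.le
  have h3 : 0 < √(max t e) := Real.sqrt_pos.2 h1
  field_simp
  nlinarith

/-- the element `V` -/
theorem nest_V {A x : B} {e : ℝ} (he : 0 < e) (hA : 0 ≤ A) (hx : star x * x = A)
    (hAx : A * x = 0) :
    ∃ (V : B) (C : ℝ), 0 ≤ C ∧ V * V = 0 ∧ star V * V ≤ 1 ∧ star V * V * cut e A = cut e A ∧
      cut e A * V = 0 ∧ V * star V ≤ C • (x * star x) := by
  have hAs : IsSelfAdjoint A := IsSelfAdjoint.of_nonneg hA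
  have hkc := nest_k_cont he
  set k : B := cfc (nest_k e) A with hk
  have hks : IsSelfAdjoint k := cfc_predicate _ A
  have hkA : k * A = A * k := (Commute.cfc_real (Commute.refl A) (nest_k e)).eq
  have hyx : cut e A * x = 0 := by
    obtain ⟨-, -, -, -, -, -, -, -, h9⟩ := ct' B A hA
    exact (h9 e he.le x).1 hAx
  have hg : star (x * k) * (x * k) = cfc (fun t => nest_k e t * t * nest_k e t) A := by
    rw [star_mul, hks.star_eq, mul_assoc, ← mul_assoc (star x) x k, hx]
    have h1 : A = cfc (fun t : ℝ => t) A := (cfc_id' ℝ A).symm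
    rw [cfc_mul (fun t => nest_k e t * t) (nest_k e) A (by fun_prop) (by fun_prop),
      cfc_mul (nest_k e) (fun t => t) A (by fun_prop) (by fun_prop), cfc_id' ℝ A, mul_assoc]
  have hgx : star (x * k) * (x * k) * x = 0 := by
    have h1 : star (x * k) * (x * k) * x = k * ((star x * x) * (k * x)) := by
      rw [star_mul, hks.star_eq]; simp only [mul_assoc]
    have h2 : A * (k * x) = 0 := by
      rw [← mul_assoc, ← hkA, mul_assoc, hAx, mul_zero]
    rw [h1, hx, h2, mul_zero]
  refine ⟨x * k, ‖k * k‖, norm_nonneg _, ?_, ?_, ?_, ?_, ?_⟩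
  · apply nest_zero
    have h1 : star (x * k * (x * k)) * (x * k * (x * k)) =
        star (x * k) * ((star (x * k) * (x * k) * x) * k) := by
      rw [star_mul]; simp only [mul_assoc]
    rw [h1, hgx, zero_mul, mul_zero]
  · rw [hg]
    apply cfc_le_one
    intro t ht
    have ht0 : 0 ≤ t := spectrum_nonneg_of_nonneg hA ht
    have h1 := nest_k_sq he t
    have h2 : nest_k e t * t * nest_k e t ≤ nest_k e t * nest_k e t * max t e := by
      have : nest_k e t * t * nest_k e t = nest_k e t * nest_k e t * t := by ring
      rw [this]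
      exact mul_le_mul_of_nonneg_left (le_max_left _ _) (mul_self_nonneg _)
    exact h2.trans h1.le
  · rw [hg]
    have hcut : cut e A = cfc (fun t : ℝ => max (t - e) 0) A := by
      unfold cut
      exact cfcₙ_eq_cfc (by fun_prop) (by simp [he.le])
    rw [hcut, ← cfc_mul _ _ A (by fun_prop) (by fun_prop)]
    apply cfc_congr
    intro t _
    change nest_k e t * t * nest_k e t * max (t - e) 0 = max (t - e) 0
    rcases le_or_gt t e with h | h
    · rw [max_eq_right (by linarith), mul_zero]
    · have h1 := nest_k_sq he t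
      rw [max_eq_left h.le] at h1
      have : nest_k e t * t * nest_k e t = 1 := by rw [← h1]; ring
      rw [this, one_mul]
  · rw [← mul_assoc, hyx, zero_mul]
  · have h1 : x * k * star (x * k) = x * (k * k) * star x := by
      rw [star_mul, hks.star_eq]; simp only [mul_assoc]
    rw [h1]
    apply CStarAlgebra.star_right_conjugate_le_norm_smul
    rw [isSelfAdjoint_iff, star_mul, hks.star_eq]

/-- the unitary conjugation -/
noncomputable def nest_conj (W : B) (hW : star W * W = 1) : B →⋆ₙₐ[ℂ] B where
  toFun x := W * x * star W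
  map_smul' c x := by simp
  map_zero' := by simp
  map_add' x y := by simp [mul_add, add_mul]
  map_mul' x y := by
    have h1 : W * x * star W * (W * y * star W) = W * x * (star W * W) * y * star W := by
      simp only [mul_assoc]
    rw [h1, hW, mul_one]
    simp only [mul_assoc]
  map_star' x := by
    simp only [star_mul, star_star, mul_assoc]

end

theorem nest_holds (hexa : StEXA.{u}) : StNEST.{u} := by
  intro B _ _ _ a b ε ha hb hab hcz hε
  have hε2 : 0 < ε / 2 := by positivity
  obtain ⟨δ, r, hδ, hr⟩ := hexa B a b (ε / 2) ha hb hcz hε2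
  obtain ⟨a1, -, -, a4, -, -, -, -, a9⟩ := ct' B a ha
  obtain ⟨b1, -, -, -, -, -, -, -, b9⟩ := ct' B b hb
  set A : B := cut (ε / 2) a with hA
  set c : B := cut δ b with hc
  have hA0 : 0 ≤ A := a1 _
  have hc0 : 0 ≤ c := b1 _
  have hAs : star A = A := (IsSelfAdjoint.of_nonneg hA0).star_eq
  -- orthogonality
  have hAb : A * b = 0 := (a9 (ε / 2) hε2.le b).1 hab
  have hAc : A * c = 0 := (b9 δ hδ.le A).2 hAb
  -- the square root
  set s : B := CFC.sqrt c with hs
  have hss : s * s = c := CFC.sqrt_mul_sqrt_self c hc0
  have hsa : star s = s := (IsSelfAdjoint.of_nonneg (CFC.sqrt_nonneg c)).star_eq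
  have hsA : s * A = 0 := by
    apply nest_zero
    rw [star_mul, hsa, hAs]
    have : A * s * (s * A) = A * (s * s) * A := by simp only [mul_assoc]
    rw [this, hss, hAc, zero_mul]
  have hAs' : A * s = 0 := by
    have := congrArg star hsA
    rwa [star_mul, hsa, hAs, star_zero] at this
  set x : B := s * star r with hx
  have hxx : star x * x = A := by
    rw [hx, star_mul, star_star, hsa]
    have : r * s * (s * star r) = r * (s * s) * star r := by simp only [mul_assoc]
    rw [this, hss, ← hr]
  have hAx : A * x = 0 := by rw [hx, ← mul_assoc, hAs', zero_mul]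
  obtain ⟨V, C, hC, hVV, hV1, hVy, hyV, hVx⟩ := nest_V hε2 hA0 hxx hAx
  obtain ⟨R, hRs, hRV, hRR⟩ := nest_unitary hVV hV1
  set y : B := cut (ε / 2) A with hy
  have hyy : cut ε a = y := by
    rw [hy, hA, a4 _ _ hε2.le hε2.le]
    congr 1
    ring
  have hy0 : 0 ≤ y := by
    rw [← hyy]; exact a1 _
  have hys : star y = y := (IsSelfAdjoint.of_nonneg hy0).star_eq
  have hVs : star V * star V = 0 := by rw [← star_mul, hVV, star_zero]
  have hVsy : star V * y = 0 := by
    have := congrArg star hyV
    rwa [star_mul, hys, star_zero] at this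
  have hRVs : R * star V = star V * R := by
    have := congrArg star hRV
    rw [star_mul, star_mul, hRs] at this
    exact this.symm
  have hRy : R * y = 0 := by
    apply nest_zero
    rw [star_mul, hys, hRs]
    have h1 : y * R * (R * y) = y * (R * R * y) := by simp only [mul_assoc]
    rw [h1, hRR, sub_mul, sub_mul, one_mul, hVy, mul_assoc V, hVsy, mul_zero, sub_self, sub_zero,
      mul_zero]
  -- the unitary
  set U : B := V - star V + R with hU
  have hUs : star U = star V - V + R := by
    rw [hU, star_add, star_sub, star_star, hRs]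
  have hUU : star U * U = 1 := by
    rw [hUs, hU]
    have h1 : (star V - V + R) * (V - star V + R) = star V * V - star V * star V + star V * R
        - V * V + V * star V - V * R + R * V - R * star V + R * R := by
      noncomm_ring
    rw [h1, hVs, hVV, hRV, hRVs, hRR]
    abel
  have hUU' : U * star U = 1 := by
    rw [hUs, hU]
    have h1 : (V - star V + R) * (star V - V + R) = V * star V - V * V + V * R
        - star V * star V + star V * V - star V * R + R * star V - R * V + R * R := by
      noncomm_ring
    rw [h1, hVs, hVV, hRV, hRVs, hRR]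
    abel
  have hUy : U * y = V * y := by
    rw [hU, add_mul, sub_mul, hVsy, hRy, sub_zero, add_zero]
  have hyU : y * star U = y * star V := by
    have := congrArg star hUy
    rwa [star_mul, star_mul, hys] at this
  have hUyU : U * y * star U = V * y * star V := by
    rw [hUy, mul_assoc, hyU, ← mul_assoc]
  -- the bound
  have hle1 : V * y * star V ≤ ‖y‖ • (V * star V) :=
    CStarAlgebra.star_right_conjugate_le_norm_smul (IsSelfAdjoint.of_nonneg hy0)
  have hle2 : x * star x ≤ ‖star r * r‖ • c := by
    have h1 : x * star x = s * (star r * r) * star s := by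
      rw [hx, star_mul, star_star]; simp only [mul_assoc]
    have h2 : s * (star r * r) * star s ≤ ‖star r * r‖ • (s * star s) :=
      CStarAlgebra.star_right_conjugate_le_norm_smul (IsSelfAdjoint.star_mul_self r)
    rw [hsa, hss] at h2
    rw [h1, hsa]
    exact h2
  set M : ℝ := ‖y‖ * (C * ‖star r * r‖) + 1 with hM
  have hMpos : 0 < M := by positivity
  have hle3 : U * y * star U ≤ M • c := by
    rw [hUyU]
    calc V * y * star V ≤ ‖y‖ • (V * star V) := hle1
      _ ≤ ‖y‖ • (C • (‖star r * r‖ • c)) :=
        smul_le_smul_of_nonneg_left (hVx.trans (smul_le_smul_of_nonneg_left hle2 hC))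
          (norm_nonneg _)
      _ = (‖y‖ * (C * ‖star r * r‖)) • c := by rw [smul_smul, smul_smul]; congr 1; ring
      _ ≤ M • c := smul_le_smul_of_nonneg_right (by rw [hM]; linarith) hc0
  have hW : star (star U) * star U = 1 := by rw [star_star]; exact hUU'
  have hconj : star U * c * star (star U) = cut δ (star U * b * star (star U)) := by
    obtain ⟨-, h2, -, -⟩ := hom'.{u, u} B B (nest_conj (star U) hW) b hb
    exact h2 δ hδ.le
  refine ⟨star U, δ, M, hW, by rw [star_star]; exact hUU, hδ, hMpos, ?_⟩
  rw [hyy, ← hconj, star_star]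
  have h1 : star U * (U * y * star U) * U ≤ star U * (M • c) * U :=
    star_left_conjugate_le_conjugate hle3 U
  have h2 : star U * (U * y * star U) * U = y := by
    have : star U * (U * y * star U) * U = (star U * U) * y * (star U * U) := by
      simp only [mul_assoc]
    rw [this, hUU, one_mul, mul_one]
  rw [h2] at h1
  refine h1.trans (le_of_eq ?_)
  rw [mul_smul_comm, smul_mul_assoc]

end Pool.Agent.H327R4.Pure
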