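import Pool.Agent.H327R4.Pure.Stubs3
import Pool.Agent.H327R4.Pure.All

/-!
# The rank of the limit of a nested sequence

Prover: helper676.
-/

set_option autoImplicit false
set_option linter.unusedSectionVars false

namespace Pool.Agent.H327R4.Pure

open Filter Topology
open scoped ENNReal

universe u v

namespace RKSaux

section

variable {B : Type u} [NonUnitalCStarAlgebra B] [PartialOrder B] [StarOrderedRing B]

theorem rt_nonneg (k : ℕ) {a : B} (ha : 0 ≤ a) : 0 ≤ rt k a :=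
  cfcₙ_nonneg fun x hx => Real.rpow_nonneg (quasispectrum_nonneg_of_nonneg a ha x hx) _

theorem rt_mono (k : ℕ) {a b : B} (ha : 0 ≤ a) (hab : a ≤ b) : rt k a ≤ rt k b := by
  have hk : (0 : ℝ) ≤ 1 / ((k : ℝ) + 1) := by positivity
  have hk1 : 1 / ((k : ℝ) + 1) ≤ 1 := by
    rw [div_le_one (by positivity)]
    have : (0 : ℝ) ≤ k := Nat.cast_nonneg k
    linarith
  rw [MONaux.rt_eq k a ha ⟨1 / ((k : ℝ) + 1), hk⟩ rfl,
    MONaux.rt_eq k b (ha.trans hab) ⟨1 / ((k : ℝ) + 1), hk⟩ rfl]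
  exact CFC.nnrpow_le_nnrpow ⟨bot_le, by exact_mod_cast hk1⟩ hab

theorem rt_le_rk (T : Tr B) {a : B} (ha : 0 ≤ a) (h1 : ‖a‖ ≤ 1) (k : ℕ) :
    (T.f (rt k a)).re ≤ rk T a := by
  have hm : Monotone fun k : ℕ => (T.f (rt k a)).re := by
    refine monotone_nat_of_le_succ fun k => ?_
    have h := RK_cmp mt' T ha (fun x : ℝ => x ^ (1 / ((k : ℝ) + 1)))
      (fun x : ℝ => x ^ (1 / (((k + 1 : ℕ) : ℝ) + 1))) 1 0 (RK_rt_cont k) (RK_rt_cont (k + 1))
      (RK_rt_zero k) (RK_rt_zero (k + 1)) le_rfl (fun x hx hxa => by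
        rw [one_mul, add_zero]
        refine Real.rpow_le_rpow_of_exponent_ge' hx (hxa.trans h1) (by positivity) ?_
        push_cast
        apply one_div_le_one_div_of_le (by positivity)
        linarith)
    rw [one_mul, mul_zero, add_zero] at h
    exact h
  exact hm.ge_of_tendsto (rk' B T a ha).2.2.1 k

theorem rt_tendsto (k : ℕ) {x : ℕ → B} {s : B} (hx : ∀ n, 0 ≤ x n) (hx1 : ∀ n, ‖x n‖ ≤ 1)
    (hs : 0 ≤ s) (hs1 : ‖s‖ ≤ 1) (h : Tendsto x atTop (𝓝 s)) :
    Tendsto (fun n => rt k (x n)) atTop (𝓝 (rt k s)) := by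
  have hq : ∀ a : B, 0 ≤ a → ‖a‖ ≤ 1 → quasispectrum ℝ a ⊆ Set.Icc 0 1 := by
    intro a ha ha1 t ht
    obtain ⟨h0, h1⟩ := RK_spec ha ht
    exact ⟨h0, h1.trans ha1⟩
  exact Filter.Tendsto.cfcₙ (isCompact_Icc (a := (0 : ℝ)) (b := 1)) _ h
    (Eventually.of_forall fun n => hq _ (hx n) (hx1 n))
    (Eventually.of_forall fun n => IsSelfAdjoint.of_nonneg (hx n)) (hq s hs hs1)
    (IsSelfAdjoint.of_nonneg hs) (RK_rt_cont k).continuousOn (RK_rt_zero k)

theorem rt_hom {C : Type v} [NonUnitalCStarAlgebra C] [PartialOrder C] [StarOrderedRing C]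
    (φ : B →⋆ₙₐ[ℂ] C) {a : B} (ha : 0 ≤ a) (k : ℕ) : φ (rt k a) = rt k (φ a) :=
  NonUnitalStarAlgHomClass.map_cfcₙ (S := ℂ) φ _ a (RK_rt_cont k).continuousOn (RK_rt_zero k)
    (map_continuous φ) (IsSelfAdjoint.of_nonneg ha) (IsSelfAdjoint.of_nonneg (map_nonneg φ ha))

end

section

variable {B : Type u} [NonUnitalCStarAlgebra B]

/-- real multiples -/
noncomputable def rs (c : ℝ) (b : B) : B := c • b

theorem hom_rs {C : Type v} [NonUnitalCStarAlgebra C]
    (φ : B →⋆ₙₐ[ℂ] C) (a : B) (c : ℝ) : φ (rs c a) = c • φ a := by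
  unfold rs
  rw [← Complex.coe_smul c a, map_smul, Complex.coe_smul]

theorem rs_nonneg [PartialOrder B] [StarOrderedRing B] {c : ℝ} {b : B} (hc : 0 ≤ c)
    (hb : 0 ≤ b) : 0 ≤ rs c b := smul_nonneg hc hb

theorem rs_re [PartialOrder B] [StarOrderedRing B] (T : Tr B) (c : ℝ) (x : B) : (T.f (rs c x)).re = c * (T.f x).re := RK_smul T c x

end

section

variable {A : Type u} {S : Type v} [CStarAlgebra A] [PartialOrder A]
  [StarOrderedRing A] [NonUnitalCStarAlgebra S] [PartialOrder S] [StarOrderedRing S]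

theorem up (st : Stab A S) {n m : ℕ} (h : n ≤ m) (a : MM n A) (ha : 0 ≤ a) :
    ∃ a' : MM m A, 0 ≤ a' ∧ st.hm m a' = st.hm n a ∧
      ∀ T : Tr A, rk (trM T (Fin m)) a' = rk (trM T (Fin n)) a := by
  have h1 := hom' (MM n A) (MM m A) (emb (Fin.castLE h) (Fin.castLE_injective h)) a ha
  refine ⟨emb (Fin.castLE h) (Fin.castLE_injective h) a, h1.1, ?_, fun T => ?_⟩
  · exact st.hom_emb _ _ _ _ a
  · exact h1.2.2.2 _ _ fun x => trM_emb T _ _ x

theorem rk_le (st : Stab A S) {n m : ℕ} (a : MM n A) (b : MM m A) (ha : 0 ≤ a) (hb : 0 ≤ b)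
    (M : ℝ) (hM : 0 < M) (h : st.hm n a ≤ M • st.hm m b) (T : Tr A) :
    rk (trM T (Fin n)) a ≤ rk (trM T (Fin m)) b := by
  obtain ⟨a', ha', ea, ra⟩ := up st (le_max_left n m) a ha
  obtain ⟨b', hb', eb, rb⟩ := up st (le_max_right n m) b hb
  have h1 : a' ≤ rs M b' := by
    rw [← sub_nonneg]
    apply ((iso' A S st _ _ Fin.val_injective).2 (rs M b' - a')).1
    have h2 : st.hom (fun i : Fin (max n m) => (i : ℕ)) Fin.val_injective (rs M b' - a') =
        M • st.hm m b - st.hm n a := by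
      rw [map_sub, hom_rs]
      show M • st.hm _ b' - st.hm _ a' = _
      rw [ea, eb]
    rw [h2, sub_nonneg]
    exact h
  rw [← ra T, ← rb T]
  exact mon' _ _ _ _ M ha' hb' hM h1

end

end RKSaux

open RKSaux in
theorem rks_holds (hent : StENT.{u, v}) : StRKS.{u, v} := by
  intro A S _ _ _ _ _ _ st N z hz hnest
  obtain ⟨P, hP1, hP2, hP3, hP4, hP5⟩ := hent A S st
  choose Mc hMc hle using hnest
  set y : ℕ → S := fun n => st.hm (N n) (z n) with hydef
  have hy : ∀ n, 0 ≤ y n := fun n => map_nonneg (st.hm (N n)) (hz n)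
  set t : ℕ → ℝ := fun n => (1 / 2) ^ (n + 1) / (‖y n‖ + 1) with htdef
  have ht : ∀ n, 0 < t n := fun n => by
    have := norm_nonneg (y n)
    simp only [htdef]
    positivity
  have hty : ∀ n, ‖t n • y n‖ ≤ (1 / 2) ^ (n + 1) := by
    intro n
    have h0 := norm_nonneg (y n)
    rw [norm_smul, Real.norm_of_nonneg (ht n).le]
    simp only [htdef]
    rw [div_mul_eq_mul_div, div_le_iff₀ (by positivity)]
    have h1 : (0 : ℝ) < (1 / 2) ^ (n + 1) := by positivity
    nlinarith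
  have hgeo : ∀ n : ℕ, ∑ k ∈ Finset.range n, (1 / 2 : ℝ) ^ (k + 1) ≤ 1 - (1 / 2) ^ n := by
    intro n
    induction n with
    | zero => simp
    | succ n ih =>
      rw [Finset.sum_range_succ]
      have : (1 / 2 : ℝ) ^ (n + 1) = (1 / 2) ^ n / 2 := by rw [pow_succ]; ring
      linarith
  have hsg : Summable fun n : ℕ => (1 / 2 : ℝ) ^ (n + 1) := by
    have := (summable_geometric_two).mul_right (1 / 2 : ℝ)
    refine this.congr fun n => ?_
    rw [pow_succ]
  have hsum : Summable fun n => t n • y n := Summable.of_norm_bounded hsg hty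
  set s : S := ∑' n, t n • y n with hsdef
  have hsn : Tendsto (fun n => ∑ k ∈ Finset.range n, t k • y k) atTop (𝓝 s) :=
    hsum.hasSum.tendsto_sum_nat
  have hterm : ∀ n, 0 ≤ t n • y n := fun n => smul_nonneg (ht n).le (hy n)
  have hpn : ∀ n, 0 ≤ ∑ k ∈ Finset.range n, t k • y k := fun n =>
    Finset.sum_nonneg fun k _ => hterm k
  have hp1 : ∀ n, ‖∑ k ∈ Finset.range n, t k • y k‖ ≤ 1 := by
    intro n
    refine (norm_sum_le _ _).trans ((Finset.sum_le_sum fun k _ => hty k).trans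
      ((hgeo n).trans ?_))
    have : (0 : ℝ) < (1 / 2) ^ n := by positivity
    linarith
  have hs : 0 ≤ s := ge_of_tendsto' hsn hpn
  have hs1 : ‖s‖ ≤ 1 := le_of_tendsto' hsn.norm hp1
  -- partial sums are matrices
  have hQ : ∀ n, ∃ (m : ℕ) (Q : MM m A), 0 ≤ Q ∧
      st.hm m Q = ∑ k ∈ Finset.range n, t k • y k := by
    intro n
    induction n with
    | zero => exact ⟨0, 0, le_rfl, by simp⟩
    | succ n ih =>
      obtain ⟨m, Q, hQ0, hQ⟩ := ih
      obtain ⟨Q', hQ', e1, -⟩ := up st (le_max_left m (N n)) Q hQ0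
      obtain ⟨z', hz', e2, -⟩ := up st (le_max_right m (N n)) (z n) (hz n)
      refine ⟨max m (N n), Q' + rs (t n) z', add_nonneg hQ' (rs_nonneg (ht n).le hz'), ?_⟩
      rw [map_add, hom_rs, e1, e2, hQ, Finset.sum_range_succ]
  -- partial sums are bounded by the last element
  have hbd : ∀ n, ∃ M : ℝ, 0 < M ∧ ∑ k ∈ Finset.range (n + 1), t k • y k ≤ M • y n := by
    intro n
    induction n with
    | zero => exact ⟨t 0, ht 0, by simp⟩
    | succ n ih =>
      obtain ⟨M, hM, h⟩ := ih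
      refine ⟨M * Mc n + t (n + 1), by have := hMc n; have := ht (n + 1); positivity, ?_⟩
      rw [Finset.sum_range_succ, add_smul, mul_smul]
      exact add_le_add_left (h.trans (smul_le_smul_of_nonneg_left (hle n) hM.le)) _
  suffices hmain : ∀ (T : Tr A) (d : ℝ≥0∞),
      Tendsto (fun n => ENNReal.ofReal (rk (trM T (Fin (N n))) (z n))) atTop (𝓝 d) →
      IsRankS st T s d from ⟨s, hs, fun T d hd => hmain T.1 d hd⟩
  intro T d hd
  -- monotonicity of the ranks
  have hrkm : Monotone fun n => ENNReal.ofReal (rk (trM T (Fin (N n))) (z n)) := by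
    refine monotone_nat_of_le_succ fun n => ?_
    exact ENNReal.ofReal_le_ofReal (rk_le st _ _ (hz n) (hz (n + 1)) (Mc n) (hMc n) (hle n) T)
  have hrkd : ∀ n, ENNReal.ofReal (rk (trM T (Fin (N n))) (z n)) ≤ d := fun n =>
    hrkm.ge_of_tendsto hd n
  -- the functionals
  have hτc : ∀ i, Continuous fun x : S => (T.f (P i x)).re := by
    intro i
    have h1 : Continuous (P i) := (AddMonoidHomClass.continuous_of_bound (P i) 1
      (fun x => by rw [one_mul]; exact hP2 i x))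
    exact Complex.continuous_re.comp (T.f.continuous.comp h1)
  have hτm : ∀ i (x x' : S), x ≤ x' → (T.f (P i x)).re ≤ (T.f (P i x')).re := by
    intro i x x' hxx
    apply (mt' A T).1
    rw [← sub_nonneg, ← map_sub]
    exact hP3 i _ (sub_nonneg.2 hxx)
  have hTS : ∀ (n : ℕ) (M : MM n A), 0 ≤ M →
      ∑' i, ENNReal.ofReal (T.f (P i (st.hm n M))).re =
        ENNReal.ofReal ((trM T (Fin n)).f M).re := by
    intro n M hM
    rw [tsum_eq_sum (s := Finset.range n)]
    · rw [Finset.sum_range, trM_apply, Complex.re_sum, ENNReal.ofReal_sum_of_nonneg]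
      · exact Finset.sum_congr rfl fun i _ => by rw [hP4 n M i]
      · intro i _
        rw [← hP4 n M i]
        exact ((mt' A T).2.1 _ (hP3 _ _ (map_nonneg (st.hm n) hM))).1
    · intro i hi
      rw [hP5 n M i (by simpa using hi), map_zero]
      simp
  refine ⟨fun k => ∑' i, ENNReal.ofReal (T.f (P i (rt k s))).re,
    fun k => ⟨fun i => P i (rt k s), fun i => hP1 i _, rfl⟩, ?_⟩
  -- upper bound
  have hup : ∀ k, ∑' i, ENNReal.ofReal (T.f (P i (rt k s))).re ≤ d := by
    intro k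
    rw [ENNReal.tsum_eq_iSup_sum]
    refine iSup_le fun I => ?_
    have hl : Tendsto (fun n => ∑ i ∈ I, ENNReal.ofReal
        (T.f (P i (rt k (∑ j ∈ Finset.range (n + 1), t j • y j)))).re) atTop
        (𝓝 (∑ i ∈ I, ENNReal.ofReal (T.f (P i (rt k s))).re)) := by
      refine tendsto_finsetSum _ fun i _ => ?_
      refine (ENNReal.continuous_ofReal.tendsto _).comp (((hτc i).tendsto _).comp ?_)
      exact rt_tendsto k (fun n => hpn (n + 1)) (fun n => hp1 (n + 1)) hs hs1
        (hsn.comp (tendsto_add_atTop_nat 1))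
    refine le_of_tendsto' hl fun n => ?_
    obtain ⟨m, Q, hQ0, hQ⟩ := hQ (n + 1)
    obtain ⟨M, hM, hbn⟩ := hbd n
    refine (ENNReal.sum_le_tsum I).trans ?_
    rw [← hQ, ← rt_hom (st.hm m) hQ0 k, hTS m _ (rt_nonneg k hQ0)]
    refine le_trans ?_ (hrkd n)
    apply ENNReal.ofReal_le_ofReal
    have hQ1 : ‖Q‖ ≤ 1 := by
      rw [← (iso' A S st m _ Fin.val_injective).1 Q]
      have := hp1 (n + 1)
      rw [← hQ] at this
      exact this
    refine (rt_le_rk _ hQ0 hQ1 k).trans ?_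
    apply rk_le st Q (z n) hQ0 (hz n) M hM
    rw [hQ]
    exact hbn
  -- lower bound
  have hlow : ∀ n k : ℕ, ENNReal.ofReal ((t n) ^ (1 / ((k : ℝ) + 1)) *
      ((trM T (Fin (N n))).f (rt k (z n))).re) ≤
      ∑' i, ENNReal.ofReal (T.f (P i (rt k s))).re := by
    intro n k
    have h1 : t n • y n ≤ s := by
      refine ge_of_tendsto hsn ?_
      filter_upwards [eventually_gt_atTop n] with m hm
      exact Finset.single_le_sum (f := fun k => t k • y k) (fun k _ => hterm k)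
        (Finset.mem_range.2 hm)
    have h2 : rt k (t n • y n) ≤ rt k s := rt_mono k (hterm n) h1
    have h3 : rt k (t n • y n) = st.hm (N n) (rs ((t n) ^ (1 / ((k : ℝ) + 1))) (rt k (z n))) := by
      rw [MONaux.rt_smul k (y n) (hy n) (t n) (ht n), hom_rs, rt_hom (st.hm (N n)) (hz n) k]
    have hc : 0 ≤ (t n) ^ (1 / ((k : ℝ) + 1)) := Real.rpow_nonneg (ht n).le _
    rw [← rs_re, ← hTS (N n) _ (rs_nonneg hc (rt_nonneg k (hz n))), ← h3]
    exact ENNReal.tsum_le_tsum fun i => ENNReal.ofReal_le_ofReal (hτm i _ _ h2)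
  rw [tendsto_order]
  constructor
  · intro a ha
    obtain ⟨n, hn⟩ := (hd.eventually (eventually_gt_nhds ha)).exists
    have hl : Tendsto (fun k : ℕ => ENNReal.ofReal ((t n) ^ (1 / ((k : ℝ) + 1)) *
        ((trM T (Fin (N n))).f (rt k (z n))).re)) atTop
        (𝓝 (ENNReal.ofReal (rk (trM T (Fin (N n))) (z n)))) := by
      refine (ENNReal.continuous_ofReal.tendsto _).comp ?_
      have h5 : Tendsto (fun k : ℕ => 1 / ((k : ℝ) + 1)) atTop (𝓝 0) :=
        tendsto_one_div_add_atTop_nhds_zero_nat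
      have h6 := (Real.continuous_const_rpow (ht n).ne').tendsto (0 : ℝ)
      have h7 := (h6.comp h5).mul (rk' _ (trM T (Fin (N n))) (z n) (hz n)).2.2.1
      rw [Real.rpow_zero, one_mul] at h7
      exact h7
    filter_upwards [hl.eventually (eventually_gt_nhds hn)] with k hk
    exact hk.trans_le (hlow n k)
  · intro a ha
    exact Eventually.of_forall fun k => (hup k).trans_lt ha

end Pool.Agent.H327R4.Pure
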