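import Pool.Agent.H327R4.Pure.Stubs3

/-!
# SEP: Hahn-Banach separation
-/

set_option autoImplicit false

namespace Pool.Agent.H327R4.Pure

open Filter Topology Set
open scoped ENNReal

universe u

namespace SEPaux

/-- the join of two compact sets is compact -/
theorem compact_join {X : Type u} [TopologicalSpace X] [AddCommGroup X] [Module ℝ X]
    [IsTopologicalAddGroup X] [ContinuousSMul ℝ X] {S T : Set X} (hS : IsCompact S)
    (hT : IsCompact T) : IsCompact (convexJoin ℝ S T) := by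
  have h : convexJoin ℝ S T = (fun p : ℝ × X × X => (1 - p.1) • p.2.1 + p.1 • p.2.2) ''
      (Icc (0 : ℝ) 1 ×ˢ S ×ˢ T) := by
    ext x
    rw [mem_convexJoin]
    constructor
    · rintro ⟨a, ha, b, hb, s, t, hs, ht, hst, rfl⟩
      refine ⟨(t, a, b), ⟨⟨ht, by linarith⟩, ha, hb⟩, ?_⟩
      have : 1 - t = s := by linarith
      simp only [this]
    · rintro ⟨⟨t, a, b⟩, ⟨ht, ha, hb⟩, rfl⟩
      exact ⟨a, ha, b, hb, 1 - t, t, by linarith [ht.2], ht.1, by ring, rfl⟩
  rw [h]
  exact (isCompact_Icc.prod (hS.prod hT)).image (by fun_prop)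

variable {A : Type u} [CStarAlgebra A]

/-- mixtures of tracial states -/
noncomputable def mix (T T' : TS A) (a b : ℝ) (ha : 0 ≤ a) (hb : 0 ≤ b) (hab : a + b = 1) :
    TS A :=
  ⟨{ f := (a : ℂ) • T.1.f + (b : ℂ) • T'.1.f
     pos := by
       intro x
       have h1 := T.1.pos x
       have h2 := T'.1.pos x
       constructor
       · have h3 : (((a : ℂ) • T.1.f + (b : ℂ) • T'.1.f) (star x * x)).re =
             a * (T.1.f (star x * x)).re + b * (T'.1.f (star x * x)).re := by simp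
         rw [h3]
         exact add_nonneg (mul_nonneg ha h1.1) (mul_nonneg hb h2.1)
       · have h3 : (((a : ℂ) • T.1.f + (b : ℂ) • T'.1.f) (star x * x)).im =
             a * (T.1.f (star x * x)).im + b * (T'.1.f (star x * x)).im := by simp
         rw [h3, h1.2, h2.2]
         ring
     tr := by
       intro x y
       have h3 : ∀ z, ((a : ℂ) • T.1.f + (b : ℂ) • T'.1.f) z = a * T.1.f z + b * T'.1.f z := by
         intro z; simp
       rw [h3, h3, T.1.tr x y, T'.1.tr x y] },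
   by
     have h3 : ((a : ℂ) • T.1.f + (b : ℂ) • T'.1.f) 1 = a * T.1.f 1 + b * T'.1.f 1 := by simp
     change ((a : ℂ) • T.1.f + (b : ℂ) • T'.1.f) 1 = 1
     rw [h3, T.2, T'.2, mul_one, mul_one]
     exact_mod_cast hab⟩

theorem mix_f (T T' : TS A) (a b : ℝ) (ha : 0 ≤ a) (hb : 0 ≤ b) (hab : a + b = 1) (x : A) :
    (mix T T' a b ha hb hab).1.f x = a * T.1.f x + b * T'.1.f x := by
  change ((a : ℂ) • T.1.f + (b : ℂ) • T'.1.f) x = _
  simp

theorem mix_re (T T' : TS A) (a b : ℝ) (ha : 0 ≤ a) (hb : 0 ≤ b) (hab : a + b = 1) (x : A) :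
    ((mix T T' a b ha hb hab).1.f x).re = a * (T.1.f x).re + b * (T'.1.f x).re := by
  rw [mix_f]
  simp

theorem isMix_mix (T T' : TS A) (a b : ℝ) (ha : 0 ≤ a) (hb : 0 ≤ b) (hab : a + b = 1) :
    IsMix a T T' (mix T T' a b ha hb hab) := by
  intro x
  rw [mix_f]
  have : b = 1 - a := by linarith
  rw [this]

theorem comb_pt (T T' : TS A) (a b : ℝ) (ha : 0 ≤ a) (hb : 0 ≤ b) (hab : a + b = 1) (s t : ℝ) :
    a • pt T s + b • pt T' t = pt (mix T T' a b ha hb hab) (a * s + b * t) := by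
  refine Prod.ext ?_ ?_
  · funext x
    change a * (T.1.f x).re + b * (T'.1.f x).re = ((mix T T' a b ha hb hab).1.f x).re
    rw [mix_re]
  · rfl

theorem cont_eval (x : A) : Continuous (fun T : TS A => T.1.f x) :=
  (continuous_apply x).comp (continuous_induced_dom (f := fun (T : TS A) (x : A) => T.1.f x))

theorem cont_re (x : A) : Continuous (fun T : TS A => (T.1.f x).re) :=
  Complex.continuous_re.comp (cont_eval x)

/-- the embedding of the tracial states -/
noncomputable def emb (T : TS A) : A → ℝ := fun x => (T.1.f x).re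

theorem cont_emb : Continuous (emb : TS A → A → ℝ) := continuous_pi fun x => cont_re x

theorem tr_ext {S S' : Tr A} (h : ∀ x, S.f x = S'.f x) : S = S' := by
  have h1 : S.f = S'.f := ContinuousLinearMap.ext h
  cases S
  cases S'
  simp only at h1
  subst h1
  rfl

theorem emb_inj : Function.Injective (emb : TS A → A → ℝ) := by
  intro T T' h
  apply Subtype.ext
  apply tr_ext
  intro x
  have h1 : ∀ y, (T.1.f y).re = (T'.1.f y).re := fun y => congrFun h y
  apply Complex.ext (h1 x)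
  have h2 := h1 (Complex.I • x)
  rw [map_smul, map_smul] at h2
  simp at h2
  exact h2

/-- the set above the graph of `f` -/
noncomputable def EE (f : TS A → ℝ≥0∞) : Set ((A → ℝ) × ℝ) :=
  {q | ∃ (T : TS A) (t : ℝ), q = pt T t ∧ f T ≤ ENNReal.ofReal t}

/-- the set strictly below the graph of `f` -/
noncomputable def DD (f : TS A → ℝ≥0∞) : Set ((A → ℝ) × ℝ) :=
  {q | ∃ (T : TS A) (t : ℝ), q = pt T t ∧ ENNReal.ofReal t < f T}

theorem pt_inj {T T' : TS A} {s t : ℝ} (h : pt T s = pt T' t) : T = T' ∧ s = t :=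
  ⟨emb_inj (congrArg Prod.fst h), congrArg Prod.snd h⟩

theorem disj (f : TS A → ℝ≥0∞) : Disjoint (DD f) (EE f) := by
  rw [Set.disjoint_left]
  rintro q ⟨T, t, rfl, h1⟩ ⟨T', t', h2, h3⟩
  obtain ⟨rfl, rfl⟩ := pt_inj h2
  exact absurd h1 (not_lt.2 h3)

theorem EE_closed [CompactSpace (TS A)] (f : TS A → ℝ≥0∞) (hf : LowerSemicontinuous f) :
    IsClosed (EE f) := by
  have h1 : IsClosedEmbedding (emb : TS A → A → ℝ) := cont_emb.isClosedEmbedding emb_inj
  have h2 : IsClosedEmbedding (Prod.map (emb : TS A → A → ℝ) (id : ℝ → ℝ)) :=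
    h1.prodMap IsClosedEmbedding.id
  have h3 : IsClosed {p : TS A × ℝ | f p.1 ≤ ENNReal.ofReal p.2} :=
    (hf.isClosed_epigraph).preimage
      (continuous_fst.prodMk (ENNReal.continuous_ofReal.comp continuous_snd))
  have h4 : EE f = Prod.map (emb : TS A → A → ℝ) (id : ℝ → ℝ) ''
      {p : TS A × ℝ | f p.1 ≤ ENNReal.ofReal p.2} := by
    ext q
    constructor
    · rintro ⟨T, t, rfl, h⟩
      exact ⟨(T, t), h, rfl⟩
    · rintro ⟨⟨T, t⟩, h, rfl⟩
      exact ⟨T, t, rfl, h⟩
  rw [h4]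
  exact h2.isClosedMap _ h3

theorem aff_mix {f : TS A → ℝ≥0∞} (hf : IsAffE f) (T T' : TS A) (a b : ℝ) (ha : 0 ≤ a)
    (hb : 0 ≤ b) (hab : a + b = 1) :
    f (mix T T' a b ha hb hab) = ENNReal.ofReal a * f T + ENNReal.ofReal b * f T' := by
  rw [hf a T T' _ ha (by linarith) (isMix_mix T T' a b ha hb hab)]
  have : 1 - a = b := by linarith
  rw [this]

theorem EE_convex {f : TS A → ℝ≥0∞} (hf : IsAffE f) (hpos : ∀ T, 0 < f T) :
    Convex ℝ (EE f) := by
  rintro _ ⟨T, t, rfl, h1⟩ _ ⟨T', t', rfl, h2⟩ a b ha hb hab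
  refine ⟨mix T T' a b ha hb hab, a * t + b * t', comb_pt T T' a b ha hb hab t t', ?_⟩
  have ht : 0 < t := ENNReal.ofReal_pos.1 ((hpos T).trans_le h1)
  have ht' : 0 < t' := ENNReal.ofReal_pos.1 ((hpos T').trans_le h2)
  rw [aff_mix hf, ENNReal.ofReal_add (mul_nonneg ha ht.le) (mul_nonneg hb ht'.le),
    ENNReal.ofReal_mul ha, ENNReal.ofReal_mul hb]
  gcongr

theorem DD_convex {f : TS A → ℝ≥0∞} (hf : IsAffE f) : Convex ℝ (DD f) := by
  rintro _ ⟨T, t, rfl, h1⟩ _ ⟨T', t', rfl, h2⟩ a b ha hb hab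
  refine ⟨mix T T' a b ha hb hab, a * t + b * t', comb_pt T T' a b ha hb hab t t', ?_⟩
  rw [aff_mix hf]
  have h3 : ENNReal.ofReal (a * t + b * t') ≤
      ENNReal.ofReal a * ENNReal.ofReal t + ENNReal.ofReal b * ENNReal.ofReal t' := by
    rw [← ENNReal.ofReal_mul ha, ← ENNReal.ofReal_mul hb]
    exact ENNReal.ofReal_add_le
  refine h3.trans_lt ?_
  have key : ∀ (c : ℝ) (s : ℝ) (y : ℝ≥0∞), 0 < c → ENNReal.ofReal s < y →
      ENNReal.ofReal c * ENNReal.ofReal s < ENNReal.ofReal c * y := by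
    intro c s y hc hs
    exact ENNReal.mul_lt_mul_right (ENNReal.ofReal_pos.2 hc).ne' ENNReal.ofReal_ne_top hs
  rcases ha.eq_or_lt with h0 | h0
  · subst h0
    have hb1 : 0 < b := by linarith
    simp only [ENNReal.ofReal_zero, zero_mul, zero_add]
    exact key b t' _ hb1 h2
  · refine ENNReal.add_lt_add_of_lt_of_le ?_ (key a t _ h0 h1) ?_
    · exact ENNReal.mul_ne_top ENNReal.ofReal_ne_top ENNReal.ofReal_ne_top
    · gcongr

/-- the graph of an element of `A` -/
noncomputable def PP (g : A) : Set ((A → ℝ) × ℝ) := range fun T : TS A => pt T (T.1.f g).re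

theorem PP_compact [CompactSpace (TS A)] (g : A) : IsCompact (PP g) :=
  isCompact_range (cont_emb.prodMk (cont_re g))

theorem PP_convex (g : A) : Convex ℝ (PP g) := by
  rintro _ ⟨T, rfl⟩ _ ⟨T', rfl⟩ a b ha hb hab
  refine ⟨mix T T' a b ha hb hab, ?_⟩
  change pt (mix T T' a b ha hb hab) _ = _
  rw [comb_pt T T' a b ha hb hab, mix_re]

end SEPaux

open SEPaux in
/-- Hahn-Banach separation -/
theorem sep_holds (hcpt : StCPT.{u}) (hdual : StDUAL.{u}) : StSEP.{u} := by
  intro A _ f hlsc haff g₁ g₂ T₀ r h1 h2 h0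
  have : CompactSpace (TS A) := hcpt A
  have hpos : ∀ T, 0 < f T := fun T => lt_of_le_of_lt (zero_le) (h1 T)
  -- the compact set
  set C : Set ((A → ℝ) × ℝ) := convexJoin ℝ (convexJoin ℝ (PP g₁) (PP g₂)) {pt T₀ r} with hC
  have hne1 : (PP g₁).Nonempty := ⟨_, T₀, rfl⟩
  have hne2 : (PP g₂).Nonempty := ⟨_, T₀, rfl⟩
  have hsub1 : PP g₁ ⊆ C := (subset_convexJoin_left hne2).trans
    (subset_convexJoin_left (singleton_nonempty _))
  have hsub2 : PP g₂ ⊆ C := (subset_convexJoin_right hne1).trans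
    (subset_convexJoin_left (singleton_nonempty _))
  have hsub0 : pt T₀ r ∈ C := by
    have hne : (convexJoin ℝ (PP g₁) (PP g₂)).Nonempty :=
      hne1.mono (subset_convexJoin_left hne2)
    exact subset_convexJoin_right hne (mem_singleton _)
  have hCc : IsCompact C := compact_join (compact_join (PP_compact g₁) (PP_compact g₂))
    isCompact_singleton
  have hCx : Convex ℝ C := ((PP_convex g₁).convexJoin (PP_convex g₂)).convexJoin
    (convex_singleton _)
  have hCD : C ⊆ DD f := by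
    have hD := DD_convex haff
    have hP1 : PP g₁ ⊆ DD f := by
      rintro _ ⟨T, rfl⟩
      exact ⟨T, _, rfl, h1 T⟩
    have hP2 : PP g₂ ⊆ DD f := by
      rintro _ ⟨T, rfl⟩
      exact ⟨T, _, rfl, h2 T⟩
    intro x hx
    rw [hC, mem_convexJoin] at hx
    obtain ⟨y, hy, z, hz, hx⟩ := hx
    rw [mem_convexJoin] at hy
    obtain ⟨p, hp, q, hq, hy⟩ := hy
    rw [mem_singleton_iff] at hz
    subst hz
    exact hD.segment_subset (hD.segment_subset (hP1 hp) (hP2 hq) hy) ⟨T₀, r, rfl, h0⟩ hx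
  obtain ⟨F, u, v, hF1, huv, hF2⟩ := geometric_hahn_banach_compact_closed hCx hCc
    (EE_convex haff hpos) (EE_closed f hlsc) ((disj f).mono_left hCD)
  obtain ⟨h, l, hh, hF⟩ := hdual A F
  have hu1 : ∀ T : TS A, (T.1.f h).re + l * (T.1.f g₁).re < u := fun T => by
    rw [← hF]; exact hF1 _ (hsub1 ⟨T, rfl⟩)
  have hu2 : ∀ T : TS A, (T.1.f h).re + l * (T.1.f g₂).re < u := fun T => by
    rw [← hF]; exact hF1 _ (hsub2 ⟨T, rfl⟩)
  have hu0 : (T₀.1.f h).re + l * r < u := by
    rw [← hF]; exact hF1 _ hsub0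
  have hv : ∀ T : TS A, f T ≠ ⊤ → v < (T.1.f h).re + l * (f T).toReal := fun T hT => by
    rw [← hF]; exact hF2 _ ⟨T, _, rfl, (ENNReal.ofReal_toReal hT).ge⟩
  have hone : ∀ (c : ℝ) (T : TS A), (T.1.f ((c : ℂ) • (1 : A))).re = c := by
    intro c T
    rw [map_smul, T.2]
    simp
  have hsa : ∀ c : ℝ, IsSelfAdjoint ((c : ℂ) • (1 : A)) := by
    intro c
    rw [isSelfAdjoint_iff, star_smul, star_one]
    simp
  by_cases hfin : ∃ T, f T ≠ ⊤
  · obtain ⟨T, hT⟩ := hfin
    have hl : 0 < l := by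
      have e1 := hu1 T
      have e2 := hv T hT
      have e3 : (T.1.f g₁).re < (f T).toReal := by
        by_contra hcon
        have e4 := h1 T
        rw [not_lt] at hcon
        have e5 := ENNReal.ofReal_le_ofReal hcon
        rw [ENNReal.ofReal_toReal hT] at e5
        exact absurd e4 (not_lt.2 e5)
      by_contra hcon
      rw [not_lt] at hcon
      nlinarith
    obtain ⟨w, hw1, hw2⟩ := exists_between huv
    have hval : ∀ T : TS A, (T.1.f (((1 / l : ℝ) : ℂ) • (((w : ℝ) : ℂ) • (1 : A) - h))).re =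
        (w - (T.1.f h).re) / l := by
      intro T
      rw [map_smul, map_sub, smul_eq_mul, Complex.re_ofReal_mul, Complex.sub_re, hone]
      ring
    refine ⟨((1 / l : ℝ) : ℂ) • (((w : ℝ) : ℂ) • (1 : A) - h), ?_, ?_, ?_⟩
    · rw [isSelfAdjoint_iff, star_smul, star_sub, (hsa w).star_eq, hh.star_eq]
      congr 1
      exact Complex.conj_ofReal _
    · intro T
      rw [hval T]
      refine ⟨?_, ?_, ?_⟩
      · rw [lt_div_iff₀ hl]
        have := hu1 T
        linarith [mul_comm l (T.1.f g₁).re]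
      · rw [lt_div_iff₀ hl]
        have := hu2 T
        linarith [mul_comm l (T.1.f g₂).re]
      · by_cases hT : f T = ⊤
        · rw [hT]
          exact ENNReal.ofReal_lt_top
        · have e1 := hv T hT
          have e2 : (w - (T.1.f h).re) / l < (f T).toReal := by
            rw [div_lt_iff₀ hl]
            linarith [mul_comm l (f T).toReal]
          have e3 : 0 < (f T).toReal := ENNReal.toReal_pos (hpos T).ne' hT
          calc ENNReal.ofReal ((w - (T.1.f h).re) / l) < ENNReal.ofReal (f T).toReal :=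
                (ENNReal.ofReal_lt_ofReal_iff e3).2 e2
            _ = f T := ENNReal.ofReal_toReal hT
    · rw [hval T₀, lt_div_iff₀ hl]
      linarith [mul_comm l r]
  · push Not at hfin
    obtain ⟨c1, hc1⟩ := (isCompact_range (cont_re (A := A) g₁)).bddAbove
    obtain ⟨c2, hc2⟩ := (isCompact_range (cont_re (A := A) g₂)).bddAbove
    refine ⟨(((max (max c1 c2) r + 1 : ℝ)) : ℂ) • (1 : A), hsa _, fun T => ?_, ?_⟩
    · rw [hone, hfin T]
      have e1 : (T.1.f g₁).re ≤ c1 := hc1 ⟨T, rfl⟩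
      have e2 : (T.1.f g₂).re ≤ c2 := hc2 ⟨T, rfl⟩
      have e3 := le_max_left c1 c2
      have e4 := le_max_right c1 c2
      have e5 := le_max_left (max c1 c2) r
      exact ⟨by linarith, by linarith, ENNReal.ofReal_lt_top⟩
    · rw [hone]
      have e6 := le_max_right (max c1 c2) r
      linarith

end Pool.Agent.H327R4.Pure
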