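import Pool.Agent.H327R4.Pure.Stubs3
import Pool.Agent.H327R4.Pure.All

/-! A nested sequence in the stabilisation. -/

set_option autoImplicit false

namespace Pool.Agent.H327R4.Pure

open Filter Topology

universe u v

namespace SEQ

variable {A : Type u} [CStarAlgebra A] [PartialOrder A] [StarOrderedRing A]

theorem hm_mono {S : Type v} [NonUnitalCStarAlgebra S] [PartialOrder S] [StarOrderedRing S]
    (st : Stab A S) (n : ℕ) {x y : MM n A} (h : x ≤ y) : st.hm n x ≤ st.hm n y :=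
  OrderHomClass.mono (st.hm n) h

theorem rk_mono {B : Type u} [NonUnitalCStarAlgebra B] [PartialOrder B] [StarOrderedRing B]
    (T : Tr B) (a b : B) (ha : 0 ≤ a) (hb : 0 ≤ b) (h : a ≤ b) : rk T a ≤ rk T b :=
  mon' B T a b 1 ha hb one_pos (by rwa [one_smul])

theorem smul_mono {B : Type u} [NonUnitalCStarAlgebra B] [PartialOrder B] [StarOrderedRing B]
    (M : ℝ) (hM : 0 ≤ M) (a b : B) (h : a ≤ b) : M • a ≤ M • b :=
  smul_le_smul_of_nonneg_left h hM

theorem map_rsmul {B : Type u} {C : Type v} [NonUnitalCStarAlgebra B] [NonUnitalCStarAlgebra C]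
    (φ : B →⋆ₙₐ[ℂ] C) (M : ℝ) (x : B) : φ (M • x) = M • φ x := by
  rw [← Complex.coe_smul M x, ← Complex.coe_smul M (φ x)]
  exact map_smul φ (M : ℂ) x

theorem rk_conj {B : Type u} [CStarAlgebra B] [PartialOrder B] [StarOrderedRing B] (T : Tr B)
    (W b : B) (hW : star W * W = 1) (hb : 0 ≤ b) :
    rk T (W * b * star W) = rk T b := by
  apply le_antisymm
  · exact cnj' B T W b hb
  · have h1 : 0 ≤ W * b * star W := star_right_conjugate_nonneg hb W
    have h2 := cnj' B T (star W) (W * b * star W) h1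
    have h3 : star W * (W * b * star W) * star (star W) = b := by
      rw [star_star]
      calc star W * (W * b * star W) * W = (star W * W) * b * (star W * W) := by
            simp only [mul_assoc]
        _ = b := by rw [hW, one_mul, mul_one]
    rw [h3] at h2
    exact h2

/-- the state of the recursion -/
def Good (h : ℕ → A) (K : ℕ → ℕ) (a : ∀ n, MM (K n) A) (n : ℕ)
    (s : Σ N : ℕ, MM N A × ℝ) : Prop :=
  0 ≤ s.2.1 ∧ 0 < s.2.2 ∧
    (∀ T : TS A, rk (trM T.1 (Fin s.1)) s.2.1 = rk (trM T.1 (Fin (K n))) (a n)) ∧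
    ∀ T : TS A, (T.1.f (h n)).re < rk (trM T.1 (Fin s.1)) (cut s.2.2 s.2.1)

theorem init (hdini : StDINI.{u}) (h : ℕ → A) (K : ℕ → ℕ) (a : ∀ n, MM (K n) A)
    (ha : ∀ n, 0 ≤ a n)
    (hr : ∀ n (T : TS A), (T.1.f (h n)).re < rk (trM T.1 (Fin (K n))) (a n)) :
    ∃ s : Σ N : ℕ, MM N A × ℝ, Good h K a 0 s := by
  obtain ⟨e, he, hd⟩ := hdini A (K 0) (a 0) (h 0) (ha 0) (hr 0)
  exact ⟨⟨K 0, a 0, e⟩, ha 0, he, fun _ => rfl, hd⟩

theorem step {S : Type v} [NonUnitalCStarAlgebra S] [PartialOrder S] [StarOrderedRing S]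
    (hnest : StNEST.{u}) (hdini : StDINI.{u}) (st : Stab A S) (hSC : SC A) [Nonempty (TS A)]
    (h : ℕ → A) (K : ℕ → ℕ) (a : ∀ n, MM (K n) A) (ha : ∀ n, 0 ≤ a n)
    (hr : ∀ n (T : TS A), (T.1.f (h n)).re < rk (trM T.1 (Fin (K n))) (a n) ∧
      rk (trM T.1 (Fin (K n))) (a n) < (T.1.f (h (n + 1))).re)
    (n : ℕ) (s : Σ N : ℕ, MM N A × ℝ) (hs : Good h K a n s) :
    ∃ s' : Σ N : ℕ, MM N A × ℝ, Good h K a (n + 1) s' ∧
      ∃ M : ℝ, 0 < M ∧ st.hm s.1 (cut s.2.2 s.2.1) ≤ M • st.hm s'.1 (cut s'.2.2 s'.2.1) := by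
  obtain ⟨N, c, e⟩ := s
  obtain ⟨hc, he, hrk, hcut⟩ := hs
  simp only at hc he hrk hcut
  have hiA : Function.Injective (Fin.castAdd (K (n + 1)) : Fin N → Fin (N + K (n + 1))) :=
    Fin.castAdd_injective _ _
  have hiB : Function.Injective (Fin.natAdd N : Fin (K (n + 1)) → Fin (N + K (n + 1))) :=
    Fin.natAdd_injective _ _
  set A1 : MM (N + K (n + 1)) A := emb _ hiA c with hA1
  set B1 : MM (N + K (n + 1)) A := emb _ hiB (a (n + 1)) with hB1
  have homA := hom' _ _ (emb (A := A) _ hiA) c hc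
  have homB := hom' _ _ (emb (A := A) _ hiB) (a (n + 1)) (ha (n + 1))
  have hA1p : 0 ≤ A1 := homA.1
  have hB1p : 0 ≤ B1 := homB.1
  have hAB : A1 * B1 = 0 := by
    refine emb_mul_emb _ hiA _ hiB ?_ _ _
    intro i j hij
    have := congrArg Fin.val hij
    simp only [Fin.val_castAdd, Fin.val_natAdd] at this
    omega
  have hrA : ∀ T : TS A, rk (trM T.1 (Fin (N + K (n + 1)))) A1 =
      rk (trM T.1 (Fin (K n))) (a n) := by
    intro T
    rw [← hrk T]
    exact homA.2.2.2 (trM T.1 (Fin N)) (trM T.1 (Fin (N + K (n + 1))))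
      (fun x => trM_emb T.1 _ hiA x)
  have hrB : ∀ T : TS A, rk (trM T.1 (Fin (N + K (n + 1)))) B1 =
      rk (trM T.1 (Fin (K (n + 1)))) (a (n + 1)) := by
    intro T
    exact homB.2.2.2 (trM T.1 (Fin (K (n + 1)))) (trM T.1 (Fin (N + K (n + 1))))
      (fun x => trM_emb T.1 _ hiB x)
  have hlt : ∀ T : TS A, rk (trM T.1 (Fin (N + K (n + 1)))) A1 <
      rk (trM T.1 (Fin (N + K (n + 1)))) B1 := by
    intro T
    rw [hrA, hrB]
    exact (hr n T).2.trans (hr (n + 1) T).1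
  have hB0 : B1 ≠ 0 := by
    intro h0
    obtain ⟨T⟩ := (inferInstance : Nonempty (TS A))
    have h1 := hlt T
    have h2 := (rk' _ (trM T.1 (Fin (N + K (n + 1)))) A1 hA1p).2.2.2
    have h3 : rk (trM T.1 (Fin (N + K (n + 1)))) B1 = 0 := by
      have h4 := (rk' _ (trM T.1 (Fin (N + K (n + 1)))) B1 hB1p).2.2.1
      have h5 : rk (trM T.1 (Fin (N + K (n + 1)))) B1 ≤ 0 := by
        rw [h0]
        unfold rk
        refine ciSup_le (fun k => ?_)
        unfold phi
        simp [cfcₙ_apply_zero]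
      exact le_antisymm h5 (rk' _ (trM T.1 (Fin (N + K (n + 1)))) B1 hB1p).2.2.2
    rw [h3] at h1
    exact absurd h1 (not_lt.mpr h2)
  have hCz : Cz A1 B1 := by
    refine hSC _ A1 B1 hA1p hB1p hB0 (fun T hT => ?_)
    exact ⟨_, _, (rk' _ _ A1 hA1p).2.2.1, (rk' _ _ B1 hB1p).2.2.1, hlt ⟨T, hT⟩⟩
  obtain ⟨W, d, M, hW1, hW2, hd, hM, hle⟩ := hnest _ A1 B1 e hA1p hB1p hAB hCz he
  set c' : MM (N + K (n + 1)) A := W * B1 * star W with hc'
  have hc'p : 0 ≤ c' := star_right_conjugate_nonneg hB1p W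
  have hrc' : ∀ T : TS A, rk (trM T.1 (Fin (N + K (n + 1)))) c' =
      rk (trM T.1 (Fin (K (n + 1)))) (a (n + 1)) := by
    intro T
    rw [← hrB T]
    exact rk_conj _ W B1 hW1 hB1p
  obtain ⟨e'', he'', hd''⟩ := hdini A _ c' (h (n + 1)) hc'p (fun T => by
    rw [hrc' T]
    exact (hr (n + 1) T).1)
  have hct := ct' _ c' hc'p
  have he' : 0 < min d e'' := lt_min hd he''
  refine ⟨⟨N + K (n + 1), c', min d e''⟩, ⟨hc'p, he', hrc', ?_⟩, M, hM, ?_⟩
  · intro T
    refine (hd'' T).trans_le ?_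
    refine rk_mono _ _ _ (hct.1 _) (hct.1 _) ?_
    exact hct.2.2.1 _ _ he'.le (min_le_right _ _)
  · simp only
    have h1 : st.hm N (cut e c) = st.hm (N + K (n + 1)) (cut e A1) := by
      have h2 : cut e A1 = emb _ hiA (cut e c) := ((homA.2.1 e he.le)).symm
      rw [h2]
      unfold Stab.hm
      rw [Stab.hom_emb]
      rfl
    rw [h1]
    have h2 : cut e A1 ≤ M • cut (min d e'') c' := by
      refine hle.trans ?_
      exact smul_mono M hM.le _ _ (hct.2.2.1 _ _ he'.le (min_le_left _ _))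
    refine (hm_mono st _ h2).trans (le_of_eq ?_)
    exact map_rsmul (st.hm _) M _

end SEQ

open SEQ in
/-- a nested sequence in the stabilisation -/
theorem seq_holds (hnest : StNEST.{u}) (hdini : StDINI.{u}) : StSEQ.{u, v} := by
  intro A S _ _ _ _ _ _ st hSC h K a ha hr
  by_cases hT : Nonempty (TS A)
  · have hstep := step hnest hdini st hSC h K a ha hr
    obtain ⟨s0, hs0⟩ := init hdini h K a ha (fun n T => (hr n T).1)
    choose! F hF using hstep
    let s : ℕ → Σ N : ℕ, MM N A × ℝ := fun n => Nat.rec s0 (fun n t => F n t) n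
    have hsn : ∀ n, s (n + 1) = F n (s n) := fun n => rfl
    have hg : ∀ n, Good h K a n (s n) := by
      intro n
      induction n with
      | zero => exact hs0
      | succ n ih =>
        rw [hsn]
        exact (hF n (s n) ih).1
    refine ⟨fun n => (s n).1, fun n => cut (s n).2.2 (s n).2.1, ?_, ?_, ?_⟩
    · intro n
      exact (ct' _ _ (hg n).1).1 _
    · intro n
      exact (hF n (s n) (hg n)).2
    · intro n T
      refine ⟨(hg n).2.2.2 T, ?_⟩
      have h1 : rk (trM T.1 (Fin (s n).1)) (cut (s n).2.2 (s n).2.1) ≤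
          rk (trM T.1 (Fin (s n).1)) (s n).2.1 := by
        refine rk_mono _ _ _ ((ct' _ _ (hg n).1).1 _) (hg n).1 ?_
        exact (ct' _ _ (hg n).1).2.1 _ (hg n).2.1.le
      rw [(hg n).2.2.1 T] at h1
      exact h1.trans_lt (hr n T).2
  · refine ⟨fun _ => 0, fun _ => 0, fun _ => le_refl _, fun n => ⟨1, one_pos, ?_⟩, ?_⟩
    · simp
    · intro n T
      exact absurd ⟨T⟩ hT

end Pool.Agent.H327R4.Pure
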