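import Pool.Agent.H327R4.Pure.All2
import Pool.Agent.H327R4.Pure.TALM
import Pool.Agent.H327R4.Pure.TALM2
import Pool.Agent.H327R4.Pure.TCPT
import Pool.Agent.H327R4.Pure.TDDA
import Pool.Agent.H327R4.Pure.TDINI
import Pool.Agent.H327R4.Pure.TDUAL
import Pool.Agent.H327R4.Pure.TENT
import Pool.Agent.H327R4.Pure.TEX
import Pool.Agent.H327R4.Pure.TEXA
import Pool.Agent.H327R4.Pure.THB1
import Pool.Agent.H327R4.Pure.THB2
import Pool.Agent.H327R4.Pure.TLSQ
import Pool.Agent.H327R4.Pure.TNEST
import Pool.Agent.H327R4.Pure.TOCC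
import Pool.Agent.H327R4.Pure.TRKS
import Pool.Agent.H327R4.Pure.TROW
import Pool.Agent.H327R4.Pure.TSEP
import Pool.Agent.H327R4.Pure.TSEQ

/-!
# The statements of `Stubs3`, with their hypotheses discharged

(by helpers 419 847 594 556 978 298 153 562 503 617 959 862 827 189 676 128 255 662)
-/

set_option autoImplicit false

namespace Pool.Agent.H327R4.Pure

universe u v

theorem cpt' : StCPT.{u} := cpt_holds
theorem dual' : StDUAL.{u} := dual_holds
theorem sep' : StSEP.{u} := sep_holds cpt' dual'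
theorem hb1' : StHB1.{u} := hb1_holds sep' cpt'
theorem hb2' : StHB2.{u} := hb2_holds
theorem alm' : StALM.{u} := alm_holds hb1' hb2' cpt'
theorem alm2' : StALM2.{u} := alm2_holds cpt'
theorem lsq' : StLSQ.{u} := lsq_holds sep' hb2' cpt'
theorem dini' : StDINI.{u} := dini_holds cpt'
theorem exa' : StEXA.{u} := exa_holds
theorem nest' : StNEST.{u} := nest_holds exa'
theorem seq' : StSEQ.{u, v} := seq_holds nest' dini'
theorem ent' : StENT.{u, v} := ent_holds
theorem rks' : StRKS.{u, v} := rks_holds ent'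
theorem occ' : StOCC.{u, v} := occ_holds lsq' alm2' seq' rks'
theorem ex' : StEX.{u} := ex_holds
theorem row' : StROW.{u} := row_holds exa'
theorem dda' : StDDA.{u} := dda_holds ex'

end Pool.Agent.H327R4.Pure
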