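import Mathlib

/-!
# Cuntz comparison, traces, ranks, stabilisation: definitions

`Cz a b` is Cuntz subequivalence, `Tr B` are the bounded positive traces on a C*-algebra `B`,
`cut ε a = (a-ε)_+`, `phi δ a = min(1, a/δ)`, `rt k a = a^(1/(k+1))`, `rk T a` is the rank
`d_T(a) = lim_k T(a^(1/k))`, `Stab A S` says that `S` is the stabilisation `A ⊗ K`.
-/

set_option autoImplicit false

namespace Pool.Agent.H327R4.Pure

open Filter Topology

universe u v w

/-- Cuntz subequivalence `a ≾ b`: there are `x_n` with `x_n b x_n^* → a`. -/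
def Cz {B : Type u} [NonUnitalCStarAlgebra B] (a b : B) : Prop :=
  ∃ x : ℕ → B, Tendsto (fun n => x n * b * star (x n)) atTop (𝓝 a)

/-- bounded positive traces on a C*-algebra. -/
structure Tr (B : Type u) [NonUnitalCStarAlgebra B] where
  /-- the functional -/
  f : B →L[ℂ] ℂ
  /-- positivity -/
  pos : ∀ x, 0 ≤ (f (star x * x)).re ∧ (f (star x * x)).im = 0
  /-- the trace property -/
  tr : ∀ x y, f (x * y) = f (y * x)

section cuts

variable {B : Type u} [NonUnitalCStarAlgebra B]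

/-- `(a - ε)_+` -/
noncomputable def cut (ε : ℝ) (a : B) : B := cfcₙ (fun x : ℝ => max (x - ε) 0) a

/-- `min (1, a / δ)` -/
noncomputable def phi (δ : ℝ) (a : B) : B := cfcₙ (fun x : ℝ => min 1 (x / δ)) a

/-- `a ^ (1 / (k+1))` -/
noncomputable def rt (k : ℕ) (a : B) : B := cfcₙ (fun x : ℝ => x ^ (1 / ((k : ℝ) + 1))) a

/-- `d` is the rank of `a` with respect to the trace `T`: `d = lim_k T (a ^ (1/k))`. -/
def IsRank (T : Tr B) (a : B) (d : ℝ) : Prop :=
  Tendsto (fun k : ℕ => (T.f (rt k a)).re) atTop (𝓝 d)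

/-- the rank, as a supremum (see `StRK` : it is the limit `lim_k T (a ^ (1/k))`). -/
noncomputable def rk (T : Tr B) (a : B) : ℝ := ⨆ k : ℕ, (T.f (phi (1 / ((k : ℝ) + 1)) a)).re

end cuts

/-- simple C*-algebra: the only closed two-sided ideals are `0` and `A`. -/
def SimpleC (A : Type u) [CStarAlgebra A] : Prop :=
  Nontrivial A ∧ ∀ I : TwoSidedIdeal A, IsClosed (I : Set A) → I = ⊥ ∨ I = ⊤

section matrices

variable {A : Type u} [CStarAlgebra A] [PartialOrder A] [StarOrderedRing A]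

/-- `n × n` matrices over `A` -/
abbrev MM (n : ℕ) (A : Type u) : Type u := CStarMatrix (Fin n) (Fin n) A

/-- the functional `M ↦ ∑ τ(M i i)` on matrices, as a linear map -/
noncomputable def trl (T : Tr A) (ι : Type v) [Fintype ι] : CStarMatrix ι ι A →ₗ[ℂ] ℂ where
  toFun M := ∑ i, T.f (M i i)
  map_add' M N := by simp [Finset.sum_add_distrib]
  map_smul' c M := by simp [Finset.mul_sum]

/-- the map `M_ι(A) → M_κ(A)` given by an injection `e : ι → κ` -/
def embf {ι : Type v} {κ : Type w} [Fintype ι] [DecidableEq κ] (e : ι → κ)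
    (M : CStarMatrix ι ι A) : CStarMatrix κ κ A :=
  CStarMatrix.ofMatrix (fun p q => ∑ i, ∑ j, if e i = p ∧ e j = q then M i j else 0)

end matrices

/-- `S` is the stabilisation `A ⊗ K` of `A`: a C*-algebra with elements `E i j a = a ⊗ e_ij`
(`i, j` in `ℕ`) which multiply like matrices and span a dense subspace. -/
structure Stab (A : Type u) (S : Type v) [CStarAlgebra A] [NonUnitalCStarAlgebra S] where
  /-- `E i j a = a ⊗ e_ij` -/
  E : ℕ → ℕ → A →ₗ[ℂ] S
  mul : ∀ i j k l a b, E i j a * E k l b = if j = k then E i l (a * b) else 0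
  str : ∀ i j a, star (E i j a) = E j i (star a)
  inj : Function.Injective (E 0 0)
  dense : closure (Submodule.span ℂ (⋃ i, ⋃ j, Set.range (E i j)) : Set S) = Set.univ

/-- the element `∑ E (e i) (e j) (M i j)` of the stabilisation -/
noncomputable def Stab.phi {A : Type u} {S : Type v} [CStarAlgebra A] [NonUnitalCStarAlgebra S]
    (st : Stab A S) {ι : Type w} [Fintype ι] (e : ι → ℕ) (M : CStarMatrix ι ι A) : S :=
  ∑ i, ∑ j, st.E (e i) (e j) (M i j)

section cuntz

variable {S : Type v} [NonUnitalCStarAlgebra S] [PartialOrder S] [StarOrderedRing S]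

/-- `x' ≪ x` in the Cuntz semigroup: whenever `z_0 ≾ z_1 ≾ ...` has a supremum `≥ x`
(i.e. `x ≾ w` for every upper bound `w`) then `x' ≾ z_n` for some `n`. -/
def WB (x' x : S) : Prop :=
  ∀ z : ℕ → S, (∀ n, 0 ≤ z n) → (∀ n, Cz (z n) (z (n + 1))) →
    (∀ w, 0 ≤ w → (∀ n, Cz (z n) w) → Cz x w) → ∃ n, Cz x' (z n)

/-- `z` is a sum of `k` pairwise orthogonal positive elements Cuntz equivalent to `y`,
so `[z] = k [y]` in the Cuntz semigroup. -/
def IsMul (k : ℕ) (y z : S) : Prop :=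
  ∃ Y : Fin k → S, (∀ i, 0 ≤ Y i ∧ Cz (Y i) y ∧ Cz y (Y i)) ∧ (∀ i j, i ≠ j → Y i * Y j = 0) ∧
    z = ∑ i, Y i

/-- the Cuntz semigroup is almost unperforated: `(k+1)[x] ≤ k[y]` implies `[x] ≤ [y]`. -/
def AlmostUnperforated (S : Type v) [NonUnitalCStarAlgebra S] [PartialOrder S]
    [StarOrderedRing S] : Prop :=
  ∀ (k : ℕ) (x y z z' : S), 0 ≤ x → 0 ≤ y → IsMul (k + 1) x z → IsMul k y z' → Cz z z' → Cz x y

/-- the Cuntz semigroup is almost divisible: for `x' ≪ x` and `k ≥ 1` there is `y` with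
`k[y] ≤ [x]` and `[x'] ≤ (k+1)[y]`. -/
def AlmostDivisible (S : Type v) [NonUnitalCStarAlgebra S] [PartialOrder S]
    [StarOrderedRing S] : Prop :=
  ∀ (k : ℕ) (x x' : S), 1 ≤ k → 0 ≤ x → 0 ≤ x' → WB x' x →
    ∃ y z z' : S, 0 ≤ y ∧ IsMul k y z ∧ Cz z x ∧ IsMul (k + 1) y z' ∧ Cz x' z'

end cuntz

end Pool.Agent.H327R4.Pure
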