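import Pool.Agent.H327R4.Pure.Homs
import Pool.Agent.H579R2.Kad5.GNS
import Pool.Agent.H278R2.Kad7.DSum
import Pool.Agent.H51R2.Spec.Rep

/-! Existence of the stabilisation. -/

set_option autoImplicit false

open scoped ComplexOrder InnerProductSpace
open Filter Topology

namespace Pool.Agent.H327R4.Pure

universe u v

/-- every C*-algebra has a faithful representation -/
def StREP : Prop := ∀ (B : Type u) [CStarAlgebra B],
    ∃ (H : Type u) (_ : NormedAddCommGroup H) (_ : InnerProductSpace ℂ H) (_ : CompleteSpace H)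
      (π : B →⋆ₐ[ℂ] (H →L[ℂ] H)), ∀ b, ‖π b‖ = ‖b‖

/-- existence of the stabilisation -/
def StEXS : Prop := ∀ (A : Type u) [CStarAlgebra A],
  ∃ (S : Type u) (_ : NonUnitalCStarAlgebra S), Nonempty (Stab A S)

end Pool.Agent.H327R4.Pure
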