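import Pool.Agent.H327R4.Pure.Stubs1
import Pool.Agent.H327R4.Pure.Stubs2

/-!
# Second wave: all ranks (almost) occur, dimension drop algebras
-/

set_option autoImplicit false

namespace Pool.Agent.H327R4.Pure

open Filter Topology
open scoped ENNReal

universe u v

/-- the tracial states -/
def TS (A : Type u) [CStarAlgebra A] : Type u := {T : Tr A // T.f 1 = 1}

/-- the weak* topology on the tracial states (pointwise convergence) -/
noncomputable instance instTopTS (A : Type u) [CStarAlgebra A] : TopologicalSpace (TS A) :=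
  TopologicalSpace.induced (fun (T : TS A) (x : A) => T.1.f x) inferInstance

section aff

variable {A : Type u} [CStarAlgebra A]

/-- `T'' = t T + (1-t) T'` -/
def IsMix (t : ℝ) (T T' T'' : TS A) : Prop :=
  ∀ x : A, T''.1.f x = (t : ℂ) * T.1.f x + ((1 - t : ℝ) : ℂ) * T'.1.f x

/-- affine real functions on the tracial states -/
def IsAff (f : TS A → ℝ) : Prop :=
  ∀ (t : ℝ) (T T' T'' : TS A), 0 ≤ t → t ≤ 1 → IsMix t T T' T'' → f T'' = t * f T + (1 - t) * f T'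

/-- affine functions on the tracial states with values in `[0,∞]` -/
def IsAffE (f : TS A → ℝ≥0∞) : Prop :=
  ∀ (t : ℝ) (T T' T'' : TS A), 0 ≤ t → t ≤ 1 → IsMix t T T' T'' →
    f T'' = ENNReal.ofReal t * f T + ENNReal.ofReal (1 - t) * f T'

/-- the point of `(A → ℝ) × ℝ` given by a tracial state and a number -/
noncomputable def pt (T : TS A) (r : ℝ) : (A → ℝ) × ℝ := (fun x => (T.1.f x).re, r)

end aff

/-- the tracial state space is compact -/
def StCPT : Prop := ∀ (A : Type u) [CStarAlgebra A], CompactSpace (TS A)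

/-- continuous linear functionals on `(A → ℝ) × ℝ` -/
def StDUAL : Prop := ∀ (A : Type u) [CStarAlgebra A] (F : ((A → ℝ) × ℝ) →L[ℝ] ℝ),
  ∃ (h : A) (l : ℝ), IsSelfAdjoint h ∧ ∀ (T : TS A) (r : ℝ), F (pt T r) = (T.1.f h).re + l * r

/-- Hahn-Banach: a lower semicontinuous affine function dominates enough elements of `A` -/
def StSEP : Prop := ∀ (A : Type u) [CStarAlgebra A] (f : TS A → ℝ≥0∞),
  LowerSemicontinuous f → IsAffE f → ∀ (g₁ g₂ : A) (T₀ : TS A) (r : ℝ),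
    (∀ T : TS A, ENNReal.ofReal (T.1.f g₁).re < f T) →
    (∀ T : TS A, ENNReal.ofReal (T.1.f g₂).re < f T) → ENNReal.ofReal r < f T₀ →
    ∃ h : A, IsSelfAdjoint h ∧ (∀ T : TS A, (T.1.f g₁).re < (T.1.f h).re ∧
      (T.1.f g₂).re < (T.1.f h).re ∧ ENNReal.ofReal (T.1.f h).re < f T) ∧ r < (T₀.1.f h).re

/-- a positive continuous affine function is approximated from below by an element of `A` -/
def StHB1 : Prop := ∀ (A : Type u) [CStarAlgebra A] (f : TS A → ℝ) (η : ℝ),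
  Continuous f → IsAff f → (∀ T, 0 < f T) → 0 < η →
    ∃ h : A, IsSelfAdjoint h ∧ ∀ T : TS A, f T - η < (T.1.f h).re ∧ (T.1.f h).re < f T

/-- an element which is positive on the traces has, up to `ε`, the same traces as a positive
element -/
def StHB2 : Prop := ∀ (A : Type u) [CStarAlgebra A] [PartialOrder A] [StarOrderedRing A] (h : A)
  (ε : ℝ), IsSelfAdjoint h → (∀ T : TS A, 0 < (T.1.f h).re) → 0 < ε →
    ∃ h' : A, 0 ≤ h' ∧ ∀ T : TS A, |(T.1.f h').re - (T.1.f h).re| ≤ ε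

/-- between two traces there is a rank -/
def StALM2 : Prop := ∀ (A : Type u) [CStarAlgebra A] [PartialOrder A] [StarOrderedRing A],
  SimpleC A → ¬ FiniteDimensional ℂ A → ∀ h h' : A, 0 ≤ h → 0 ≤ h' →
    (∀ T : TS A, (T.1.f h).re < (T.1.f h').re) →
    ∃ (K : ℕ) (a : MM K A), 0 ≤ a ∧ ∀ T : TS A,
      (T.1.f h).re < rk (trM T.1 (Fin K)) a ∧ rk (trM T.1 (Fin K)) a < (T.1.f h').re

/-- ALL RANKS ALMOST OCCUR: every strictly positive continuous affine function on the tracial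
state space is up to `ε` a rank function -/
def StALM : Prop := ∀ (A : Type u) [CStarAlgebra A] [PartialOrder A] [StarOrderedRing A],
  SimpleC A → ¬ FiniteDimensional ℂ A → ∀ (f : TS A → ℝ) (ε : ℝ), Continuous f → IsAff f →
    (∀ T, 0 < f T) → 0 < ε → ∃ (K : ℕ) (a : MM K A), 0 ≤ a ∧ ∀ T : TS A,
      ∃ d : ℝ, IsRank (trM T.1 (Fin K)) a d ∧ f T - ε < d ∧ d < f T

/-- a lower semicontinuous affine function is the limit of an increasing sequence of positive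
elements of `A` -/
def StLSQ : Prop := ∀ (A : Type u) [CStarAlgebra A] [PartialOrder A] [StarOrderedRing A]
  [TopologicalSpace.SeparableSpace A] (f : TS A → ℝ≥0∞), LowerSemicontinuous f → IsAffE f →
    (∀ T, f T ≠ 0) → ∃ h : ℕ → A, (∀ n, 0 ≤ h n) ∧
      (∀ n (T : TS A), (T.1.f (h n)).re < (T.1.f (h (n + 1))).re) ∧
      ∀ T : TS A, Tendsto (fun n => ENNReal.ofReal (T.1.f (h n)).re) atTop (𝓝 (f T))

/-- Dini for ranks -/
def StDINI : Prop := ∀ (A : Type u) [CStarAlgebra A] [PartialOrder A] [StarOrderedRing A]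
  (K : ℕ) (a : MM K A) (h : A), 0 ≤ a →
    (∀ T : TS A, (T.1.f h).re < rk (trM T.1 (Fin K)) a) →
    ∃ ε : ℝ, 0 < ε ∧ ∀ T : TS A, (T.1.f h).re < rk (trM T.1 (Fin K)) (cut ε a)

/-- exact form of Cuntz comparison (Rørdam) -/
def StEXA : Prop := ∀ (B : Type u) [NonUnitalCStarAlgebra B] [PartialOrder B] [StarOrderedRing B]
  (a b : B) (ε : ℝ), 0 ≤ a → 0 ≤ b → Cz a b → 0 < ε →
    ∃ (δ : ℝ) (x : B), 0 < δ ∧ cut ε a = x * cut δ b * star x

/-- nesting: an orthogonal larger element can be rotated to contain `(a - ε)_+` -/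
def StNEST : Prop := ∀ (B : Type u) [CStarAlgebra B] [PartialOrder B] [StarOrderedRing B]
  (a b : B) (ε : ℝ), 0 ≤ a → 0 ≤ b → a * b = 0 → Cz a b → 0 < ε →
    ∃ (W : B) (δ M : ℝ), star W * W = 1 ∧ W * star W = 1 ∧ 0 < δ ∧ 0 < M ∧
      cut ε a ≤ M • cut δ (W * b * star W)

/-- a nested sequence in the stabilisation -/
def StSEQ : Prop := ∀ (A : Type u) (S : Type v) [CStarAlgebra A] [PartialOrder A]
  [StarOrderedRing A] [NonUnitalCStarAlgebra S] [PartialOrder S] [StarOrderedRing S]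
  (st : Stab A S), SC A → ∀ (h : ℕ → A) (K : ℕ → ℕ) (a : ∀ n, MM (K n) A), (∀ n, 0 ≤ a n) →
    (∀ n (T : TS A), (T.1.f (h n)).re < rk (trM T.1 (Fin (K n))) (a n) ∧
      rk (trM T.1 (Fin (K n))) (a n) < (T.1.f (h (n + 1))).re) →
    ∃ (N : ℕ → ℕ) (z : ∀ n, MM (N n) A), (∀ n, 0 ≤ z n) ∧
      (∀ n, ∃ M : ℝ, 0 < M ∧ st.hm (N n) (z n) ≤ M • st.hm (N (n + 1)) (z (n + 1))) ∧
      ∀ n (T : TS A), (T.1.f (h n)).re < rk (trM T.1 (Fin (N n))) (z n) ∧
        rk (trM T.1 (Fin (N n))) (z n) < (T.1.f (h (n + 1))).re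

section stabtrace

variable {A : Type u} {S : Type v} [CStarAlgebra A] [NonUnitalCStarAlgebra S]

/-- `t = (τ ⊗ Tr)(s) = ∑ τ(s_ii)`, where `e_ii s e_ii = s_ii ⊗ e_ii` -/
def IsTrS (st : Stab A S) (T : Tr A) (s : S) (t : ℝ≥0∞) : Prop :=
  ∃ x : ℕ → A, (∀ i, st.E i i 1 * s * st.E i i 1 = st.E i i (x i)) ∧
    t = ∑' i, ENNReal.ofReal (T.f (x i)).re

/-- `d = d_τ(s) = lim_k (τ ⊗ Tr)(s ^ (1/k))`, the rank of the positive element `s` of the
stabilisation -/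
def IsRankS (st : Stab A S) (T : Tr A) (s : S) (d : ℝ≥0∞) : Prop :=
  ∃ t : ℕ → ℝ≥0∞, (∀ k, IsTrS st T (rt k s) (t k)) ∧ Tendsto t atTop (𝓝 d)

end stabtrace

/-- the diagonal entries of an element of the stabilisation -/
def StENT : Prop := ∀ (A : Type u) (S : Type v) [CStarAlgebra A] [PartialOrder A]
  [StarOrderedRing A] [NonUnitalCStarAlgebra S] [PartialOrder S] [StarOrderedRing S]
  (st : Stab A S), ∃ P : ℕ → S →ₗ[ℂ] A,
    (∀ i s, st.E i i 1 * s * st.E i i 1 = st.E i i (P i s)) ∧ (∀ i s, ‖P i s‖ ≤ ‖s‖) ∧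
    (∀ i s, 0 ≤ s → 0 ≤ P i s) ∧
    (∀ (n : ℕ) (M : MM n A) (i : Fin n), P (i : ℕ) (st.hm n M) = M i i) ∧
    (∀ (n : ℕ) (M : MM n A) (i : ℕ), n ≤ i → P i (st.hm n M) = 0)

/-- the rank of the limit of a nested sequence -/
def StRKS : Prop := ∀ (A : Type u) (S : Type v) [CStarAlgebra A] [PartialOrder A]
  [StarOrderedRing A] [NonUnitalCStarAlgebra S] [PartialOrder S] [StarOrderedRing S]
  (st : Stab A S) (N : ℕ → ℕ) (z : ∀ n, MM (N n) A), (∀ n, 0 ≤ z n) →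
    (∀ n, ∃ M : ℝ, 0 < M ∧ st.hm (N n) (z n) ≤ M • st.hm (N (n + 1)) (z (n + 1))) →
    ∃ s : S, 0 ≤ s ∧ ∀ (T : TS A) (d : ℝ≥0∞),
      Tendsto (fun n => ENNReal.ofReal (rk (trM T.1 (Fin (N n))) (z n))) atTop (𝓝 d) →
      IsRankS st T.1 s d

/-- ALL RANKS OCCUR in a simple separable unital C*-algebra with strict comparison -/
def StOCC : Prop := ∀ (A : Type u) (S : Type v) [CStarAlgebra A] [PartialOrder A]
  [StarOrderedRing A] [TopologicalSpace.SeparableSpace A] [NonUnitalCStarAlgebra S]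
  [PartialOrder S] [StarOrderedRing S] (st : Stab A S), SimpleC A → ¬ FiniteDimensional ℂ A →
    SC A → ∀ f : TS A → ℝ≥0∞, LowerSemicontinuous f → IsAffE f → (∀ T, f T ≠ 0) →
      ∃ s : S, 0 ≤ s ∧ ∀ T : TS A, IsRankS st T.1 s (f T)

/-! ## dimension drop algebras -/

/-- if `0 ≤ ρ ≤ C W^*W` then `ρ = s^*s` with `s` in the closure of `W B` -/
def StEX : Prop := ∀ (B : Type u) [CStarAlgebra B] [PartialOrder B] [StarOrderedRing B]
  (W ρ : B) (C : ℝ), 0 ≤ ρ → ρ ≤ C • (star W * W) →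
    ∃ (s : B) (y : ℕ → B), star s * s = ρ ∧ Tendsto (fun k => W * y k) atTop (𝓝 s)

/-- the matrix unit `e_ii` -/
noncomputable def unitAt {A : Type u} [CStarAlgebra A] {N : ℕ} (i : Fin N) : MM N A :=
  CStarMatrix.ofMatrix (Matrix.single i i 1)

/-- rows `r_i` over `A` with `r_i^* r_j = δ_ij b` -/
def StROW : Prop := ∀ (A : Type u) [CStarAlgebra A] [PartialOrder A] [StarOrderedRing A],
  SC A → Nontrivial A → ∀ (n K : ℕ) (a : MM K A) (ε : ℝ), 0 ≤ a → 0 < ε →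
    (∀ T : Tr A, T.f 1 = 1 → (n : ℝ) * rk (trM T (Fin K)) a < 1) →
    ∃ (N : ℕ) (i₀ : Fin N) (r : Fin n → MM N A) (b : MM N A), 0 ≤ b ∧
      (∀ i, unitAt i₀ * r i = r i) ∧ (∀ i j, star (r i) * r j = if i = j then b else 0) ∧
      ∀ (T : Tr A) (δ : ℝ), 0 ≤ δ →
        rk (trM T (Fin N)) (cut δ b) = rk (trM T (Fin K)) (cut (ε + δ) a)

/-- `0` on `[0,δ₀]`, `1` on `[δ₁,∞)`, linear between -/
noncomputable def ramp {B : Type u} [NonUnitalCStarAlgebra B] (δ₀ δ₁ : ℝ) (a : B) : B :=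
  cfcₙ (fun t : ℝ => min 1 (max 0 ((t - δ₀) / (δ₁ - δ₀)))) a

/-- the dimension drop relations in a corner -/
def StDDA : Prop := ∀ (B : Type u) [CStarAlgebra B] [PartialOrder B] [StarOrderedRing B]
  (p : B) (n : ℕ) (r : Fin n → B) (b : B) (i₀ : Fin n) (δ₀ δ₁ : ℝ),
    star p = p → p * p = p → 0 ≤ b → (∀ i, p * r i = r i) →
    (∀ i j, star (r i) * r j = if i = j then b else 0) → 0 < δ₀ → δ₀ < δ₁ →
    Cz (p - ramp δ₀ δ₁ (∑ i, r i * star (r i))) (cut δ₁ (r i₀ * star (r i₀))) →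
    ∃ (c : Fin n → B) (s : B), (∀ i, p * c i = c i ∧ c i * p = c i) ∧ p * s = s ∧ s * p = s ∧
      0 ≤ c i₀ ∧ (∀ i j, c i * star (c j) = if i = j then c i₀ * c i₀ else 0) ∧
      ∑ i, star (c i) * c i + star s * s = p ∧ c i₀ * s = s

/-- the ranks in `StDDA` -/
def StRKC : Prop := ∀ (B : Type u) [CStarAlgebra B] [PartialOrder B] [StarOrderedRing B]
  (T : Tr B) (p : B) (n : ℕ) (r : Fin n → B) (b : B) (i₀ : Fin n) (δ₀ δ₁ : ℝ),
    star p = p → p * p = p → 0 ≤ b → (∀ i, p * r i = r i) →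
    (∀ i j, star (r i) * r j = if i = j then b else 0) → 0 < δ₀ → δ₀ < δ₁ →
    0 ≤ p - ramp δ₀ δ₁ (∑ i, r i * star (r i)) ∧
    rk T (p - ramp δ₀ δ₁ (∑ i, r i * star (r i))) + n * rk T (cut δ₁ b) ≤ (T.f p).re ∧
    rk T (cut δ₁ (r i₀ * star (r i₀))) = rk T (cut δ₁ b)

/-- all dimension drop algebras `Z_{n,n+1}` (here `n+1` and `n+2`) map unitally into `A` -/
def StDROP : Prop := ∀ (A : Type u) [CStarAlgebra A] [PartialOrder A] [StarOrderedRing A],
  SimpleC A → ¬ FiniteDimensional ℂ A → SC A → ∀ n : ℕ, ∃ (c : Fin (n + 1) → A) (s : A),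
    0 ≤ c 0 ∧ (∀ i j, c i * star (c j) = if i = j then c 0 * c 0 else 0) ∧
    ∑ i, star (c i) * c i + star s * s = 1 ∧ c 0 * s = s

end Pool.Agent.H327R4.Pure
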