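import Pool.Agent.H327R4.Pure.Stubs1

/-! uniform lower bound for traces -/

set_option autoImplicit false

namespace Pool.Agent.H327R4.Pure

open Filter Topology

universe u

theorem low_holds (hfull : StFULL.{u}) (hmt : StMT.{u}) : StLOW.{u} := by
  intro A _ _ _ hA c hc hc0
  obtain ⟨n, y, hy⟩ := hfull A hA c hc hc0
  set s := CFC.sqrt c with hs
  have hss : s * s = c := CFC.sqrt_mul_sqrt_self c hc
  have hsa : star s = s := (CFC.sqrt_nonneg c).isSelfAdjoint.star_eq
  set M : ℝ := ∑ i, ‖y i * star (y i)‖ with hM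
  have hM0 : 0 ≤ M := Finset.sum_nonneg fun i _ => norm_nonneg _
  refine ⟨1 / (1 + M), by positivity, fun T => ?_⟩
  obtain ⟨hmono, hpos, _⟩ := hmt A T
  have hcT := (hpos c hc).1
  have key : ∀ i, (T.f (star (y i) * c * y i)).re ≤ ‖y i * star (y i)‖ * (T.f c).re := by
    intro i
    have e1 : star (y i) * c * y i = (star (y i) * s) * (s * y i) := by
      rw [← hss]; simp only [mul_assoc]
    rw [e1, T.tr]
    have e2 : s * y i * (star (y i) * s) = star s * (y i * star (y i)) * s := by
      rw [hsa]; simp only [mul_assoc]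
    rw [e2]
    have h3 : star s * (y i * star (y i)) * s ≤ ‖y i * star (y i)‖ • (star s * s) :=
      CStarAlgebra.star_left_conjugate_le_norm_smul (IsSelfAdjoint.mul_star_self (y i))
    have h4 := hmono _ _ h3
    rw [hsa, hss] at h4
    rw [hsa]
    refine h4.trans (le_of_eq ?_)
    have : (‖y i * star (y i)‖ • c : A) = ((‖y i * star (y i)‖ : ℝ) : ℂ) • c := by
      simp
    rw [this, map_smul]
    simp
  have h1 : (T.f 1).re ≤ M * (T.f c).re := by
    rw [← hy, map_sum, Complex.re_sum, hM, Finset.sum_mul]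
    exact Finset.sum_le_sum fun i _ => key i
  rw [one_div, inv_mul_le_iff₀ (by positivity)]
  nlinarith

end Pool.Agent.H327R4.Pure
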