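import Pool.Agent.H327R4.Pure.Stubs3

set_option autoImplicit false

namespace Pool.Agent.H327R4.Pure

open Filter Topology
open scoped ENNReal

universe u v

/-- OCC: all ranks occur in a simple separable unital C*-algebra with strict comparison -/
theorem occ_holds (hlsq : StLSQ.{u}) (halm2 : StALM2.{u}) (hseq : StSEQ.{u, v})
    (hrks : StRKS.{u, v}) : StOCC.{u, v} := by
  intro A S _ _ _ _ _ _ _ st hs hfd hSC f hf haff hpos
  obtain ⟨h, h0, hmon, hlim⟩ := hlsq A f hf haff hpos
  have hstep := fun n => halm2 A hs hfd (h n) (h (n + 1)) (h0 n) (h0 (n + 1)) (hmon n)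
  choose K a ha0 ha using hstep
  obtain ⟨N, z, hz0, hzM, hz⟩ := hseq A S st hSC h K a ha0 ha
  obtain ⟨s, hs0, hsr⟩ := hrks A S st N z hz0 hzM
  refine ⟨s, hs0, fun T => hsr T (f T) ?_⟩
  refine tendsto_of_tendsto_of_tendsto_of_le_of_le (hlim T)
    ((tendsto_add_atTop_iff_nat 1).2 (hlim T)) ?_ ?_
  · intro n
    exact ENNReal.ofReal_le_ofReal (hz n T).1.le
  · intro n
    exact ENNReal.ofReal_le_ofReal (hz n T).2.le

end Pool.Agent.H327R4.Pure
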