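import Pool.Agent.H327R4.Pure.Stubs1

/-!
# Transitivity of Cuntz subequivalence
-/

set_option autoImplicit false

namespace Pool.Agent.H327R4.Pure

open Filter Topology

universe u

theorem tra_holds : StTRA.{u} := by
  intro B _ a b c hab hbc
  obtain ⟨x, hx⟩ := hab
  obtain ⟨y, hy⟩ := hbc
  have hm : ∀ n : ℕ, ∃ m : ℕ, ‖y m * c * star (y m) - b‖ * (1 + ‖x n‖) ^ 2 < 1 / ((n : ℝ) + 1) := by
    intro n
    have h1 : (0 : ℝ) < (1 + ‖x n‖) ^ 2 := by positivity
    have h2 : (0 : ℝ) < 1 / ((n : ℝ) + 1) / (1 + ‖x n‖) ^ 2 := by positivity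
    obtain ⟨N, hN⟩ := (Metric.tendsto_atTop.1 hy) _ h2
    refine ⟨N, ?_⟩
    have h3 := hN N le_rfl
    rw [dist_eq_norm, lt_div_iff₀ h1] at h3
    exact h3
  choose m hm using hm
  refine ⟨fun n => x n * y (m n), ?_⟩
  have hdiff : Tendsto (fun n => x n * y (m n) * c * star (x n * y (m n)) -
      x n * b * star (x n)) atTop (𝓝 0) := by
    refine squeeze_zero_norm (a := fun n : ℕ => 1 / ((n : ℝ) + 1)) ?_
      tendsto_one_div_add_atTop_nhds_zero_nat
    intro n
    have e : x n * y (m n) * c * star (x n * y (m n)) - x n * b * star (x n) =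
        x n * (y (m n) * c * star (y (m n)) - b) * star (x n) := by
      rw [star_mul]
      simp only [mul_sub, sub_mul, mul_assoc]
    rw [e]
    calc ‖x n * (y (m n) * c * star (y (m n)) - b) * star (x n)‖
        ≤ ‖x n * (y (m n) * c * star (y (m n)) - b)‖ * ‖star (x n)‖ := norm_mul_le _ _
      _ ≤ (‖x n‖ * ‖y (m n) * c * star (y (m n)) - b‖) * ‖star (x n)‖ := by
          gcongr
          exact norm_mul_le _ _
      _ = ‖y (m n) * c * star (y (m n)) - b‖ * ‖x n‖ ^ 2 := by
          rw [norm_star]; ring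
      _ ≤ ‖y (m n) * c * star (y (m n)) - b‖ * (1 + ‖x n‖) ^ 2 := by
          have : 0 ≤ ‖x n‖ := norm_nonneg _
          gcongr
          linarith
      _ ≤ 1 / ((n : ℝ) + 1) := (hm n).le
  have := hdiff.add hx
  simpa using this

end Pool.Agent.H327R4.Pure
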